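import Pool.Agent.H128.SDim
import Pool.Agent.H128.Sep

set_option autoImplicit false
set_option linter.unusedSectionVars false

/-! Complete simplicial fans: definitions. -/

namespace Pool.Agent.H128.Fan

open Pool.Agent.Helper611 Pool.Agent.Helper611.ZBase Pool.Agent.Helper611.KRel
  Pool.Agent.Helper611.KVal Pool.Agent.Helper611.UStr
  Pool.Agent.H252R2.Lef1 Pool.Agent.H252R2.Lef7
  Pool.Agent.H252R2.CDNum Pool.Agent.H252R2.Top2 Pool.Agent.H128.SRing
open MvPolynomial Module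

variable {V : Type} [Fintype V] [LinearOrder V] {d : ℕ}

/-- `(Γ, p)` is a complete simplicial fan: every vector is in exactly one way a nonnegative
combination of the vectors `p v` whose support is a face. -/
def IsFan (Γ : Cx V) (p : V → (Fin d → ℝ)) : Prop :=
  ∀ x : Fin d → ℝ, ∃! c : V → ℝ, (∀ v, 0 ≤ c v) ∧
    (Finset.univ.filter fun v => c v ≠ 0) ∈ Γ.faces ∧ ∑ v, c v • p v = x

/-- generic vectors: not in the span of a face with less than `d` vertices -/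
def Gen (Γ : Cx V) (p : V → (Fin d → ℝ)) (ξ : Fin d → ℝ) : Prop :=
  ∀ σ ∈ Γ.faces, σ.card < d → ξ ∉ Submodule.span ℝ (p '' (σ : Set V))

/-- closed star of a face -/
def stc (Γ : Cx V) (H : Finset V) : Cx V where
  faces := Γ.faces.filter fun σ => H ∈ Γ.faces → σ ∪ H ∈ Γ.faces
  empty_mem := by
    rw [Finset.mem_filter]
    exact ⟨Γ.empty_mem, fun h => by rwa [Finset.empty_union]⟩
  down := by
    intro σ hσ τ hτ
    rw [Finset.mem_filter] at hσ ⊢
    exact ⟨Γ.down σ hσ.1 τ hτ, fun h => Γ.down _ (hσ.2 h) _ (Finset.union_subset_union_left hτ)⟩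

lemma mem_stc {Γ : Cx V} {H : Finset V} (hH : H ∈ Γ.faces) (σ : Finset V) :
    σ ∈ (stc Γ H).faces ↔ σ ∪ H ∈ Γ.faces := by
  unfold stc
  rw [Finset.mem_filter]
  exact ⟨fun h => h.2 hH, fun h => ⟨Γ.down _ h _ Finset.subset_union_left, fun _ => h⟩⟩

/-- evaluation at the coordinates of `ξ` with respect to `G` -/
noncomputable def evg (φ : Finset V → V → Module.Dual ℝ (Fin d → ℝ)) (ξ : Fin d → ℝ) (G : Finset V) :
    MvPolynomial V ℝ →+* ℝ := eval fun v => if v ∈ G then φ G v ξ else 0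

/-- the weighted functional of the star of `H` -/
noncomputable def TH (Γ : Cx V) (φ : Finset V → V → Module.Dual ℝ (Fin d → ℝ)) (ξ : Fin d → ℝ)
    (τ : Finset V → ℝ) (H : Finset V) (f : MvPolynomial V ℝ) : ℝ :=
  ∑ G ∈ Γ.faces.filter (fun G => G.card = d ∧ H ⊆ G),
    τ G / (∏ v ∈ G \ H, φ G v ξ) * evg φ ξ G f

/-- number of negative coordinates outside `H` -/
noncomputable def neg (φ : Finset V → V → Module.Dual ℝ (Fin d → ℝ)) (ξ : Fin d → ℝ)
    (H G : Finset V) : ℕ := by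
  classical exact ((G \ H).filter fun v => φ G v ξ < 0).card

/-- the linear form of a functional -/
noncomputable def th (p : V → (Fin d → ℝ)) (l : Module.Dual ℝ (Fin d → ℝ)) : MvPolynomial V ℝ :=
  ∑ v, C (l (p v)) * X v

/-- nonfaces of `S` and the first `s` linear forms -/
noncomputable def JS (S : Cx V) (p : V → (Fin d → ℝ)) (l : Fin d → Module.Dual ℝ (Fin d → ℝ))
    (s : ℕ) : Ideal (MvPolynomial V ℝ) :=
  Ideal.span ({f | ∃ N : Finset V, N ∉ S.faces ∧ f = ∏ v ∈ N, X v} ∪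
    {f | ∃ i : Fin d, (i : ℕ) < s ∧ f = th p (l i)})

lemma JS_nonface {S : Cx V} {p : V → (Fin d → ℝ)} {l : Fin d → Module.Dual ℝ (Fin d → ℝ)} {s : ℕ}
    {N : Finset V} (h : N ∉ S.faces) : (∏ v ∈ N, X v : MvPolynomial V ℝ) ∈ JS S p l s :=
  Ideal.subset_span (Or.inl ⟨N, h, rfl⟩)

lemma JS_th {S : Cx V} {p : V → (Fin d → ℝ)} {l : Fin d → Module.Dual ℝ (Fin d → ℝ)} {s : ℕ}
    {i : Fin d} (h : (i : ℕ) < s) : th p (l i) ∈ JS S p l s :=
  Ideal.subset_span (Or.inr ⟨i, h, rfl⟩)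

lemma JJ_nonface {S : Cx V} {p : V → (Fin d → ℝ)}
    {N : Finset V} (h : N ∉ S.faces) : (∏ v ∈ N, X v : MvPolynomial V ℝ) ∈ JJ S p :=
  Ideal.subset_span (Or.inl ⟨N, h, rfl⟩)

lemma X_JS {Γ : Cx V} {H : Finset V} (hH : H ∈ Γ.faces) {v : V} (hv : insert v H ∉ Γ.faces)
    (p : V → (Fin d → ℝ)) (l : Fin d → Module.Dual ℝ (Fin d → ℝ)) (s : ℕ) :
    (X v : MvPolynomial V ℝ) ∈ JS (stc Γ H) p l s := by
  have h := JS_nonface (S := stc Γ H) (p := p) (l := l) (s := s) (N := {v})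
    (fun h => hv (by rw [mem_stc hH] at h; rwa [Finset.insert_eq]))
  rwa [Finset.prod_singleton] at h

lemma X_JJ {Γ : Cx V} {H : Finset V} (hH : H ∈ Γ.faces) {v : V} (hv : insert v H ∉ Γ.faces)
    (p : V → (Fin d → ℝ)) : (X v : MvPolynomial V ℝ) ∈ JJ (stc Γ H) p := by
  have h := JJ_nonface (S := stc Γ H) (p := p) (N := {v})
    (fun h => hv (by rw [mem_stc hH] at h; rwa [Finset.insert_eq]))
  rwa [Finset.prod_singleton] at h

lemma nonface_aux {Γ : Cx V} {H : Finset V} (hH : H ∈ Γ.faces) {v : V} (hv : insert v H ∈ Γ.faces)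
    {N : Finset V} (hN : N ∉ (stc Γ (insert v H)).faces) :
    ∃ N', N' ∉ (stc Γ H).faces ∧ ((∏ w ∈ N', X w : MvPolynomial V ℝ) ∣ X v * ∏ w ∈ N, X w) := by
  refine ⟨insert v N, fun h => hN ?_, ?_⟩
  · rw [mem_stc hH] at h
    rw [mem_stc hv, Finset.union_insert]
    rwa [Finset.insert_union] at h
  · by_cases h : v ∈ N
    · rw [Finset.insert_eq_of_mem h]
      exact dvd_mul_left _ _
    · rw [Finset.prod_insert h]

lemma X_mul_JS {Γ : Cx V} {H : Finset V} (hH : H ∈ Γ.faces) {v : V} (hv : insert v H ∈ Γ.faces)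
    {p : V → (Fin d → ℝ)} {l : Fin d → Module.Dual ℝ (Fin d → ℝ)} {s : ℕ} {f : MvPolynomial V ℝ}
    (hf : f ∈ JS (stc Γ (insert v H)) p l s) : X v * f ∈ JS (stc Γ H) p l s := by
  unfold JS at hf
  induction hf using Submodule.span_induction with
  | mem f hf =>
    rcases hf with ⟨N, hN, rfl⟩ | ⟨i, hi, rfl⟩
    · obtain ⟨N', h1, h2⟩ := nonface_aux hH hv hN
      exact Ideal.mem_of_dvd _ h2 (JS_nonface h1)
    · exact Ideal.mul_mem_left _ _ (JS_th hi)
  | zero => rw [mul_zero]; exact Ideal.zero_mem _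
  | add f g _ _ hf hg => rw [mul_add]; exact Ideal.add_mem _ hf hg
  | smul a f _ hf => rw [smul_eq_mul, mul_left_comm]; exact Ideal.mul_mem_left _ _ hf

lemma X_mul_JJ {Γ : Cx V} {H : Finset V} (hH : H ∈ Γ.faces) {v : V} (hv : insert v H ∈ Γ.faces)
    {p : V → (Fin d → ℝ)} {f : MvPolynomial V ℝ}
    (hf : f ∈ JJ (stc Γ (insert v H)) p) : X v * f ∈ JJ (stc Γ H) p := by
  unfold JJ at hf
  induction hf using Submodule.span_induction with
  | mem f hf =>
    rcases hf with ⟨N, hN, rfl⟩ | ⟨i, rfl⟩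
    · obtain ⟨N', h1, h2⟩ := nonface_aux hH hv hN
      exact Ideal.mem_of_dvd _ h2 (JJ_nonface h1)
    · exact Ideal.mul_mem_left _ _ (Ideal.subset_span (Or.inr ⟨i, rfl⟩))
  | zero => rw [mul_zero]; exact Ideal.zero_mem _
  | add f g _ _ hf hg => rw [mul_add]; exact Ideal.add_mem _ hf hg
  | smul a f _ hf => rw [smul_eq_mul, mul_left_comm]; exact Ideal.mul_mem_left _ _ hf

/-- the twisted boundary -/
noncomputable def xb (H : Finset V) (a : Finset V → MvPolynomial V ℝ) (G : Finset V) :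
    MvPolynomial V ℝ := ∑ v ∈ (G ∪ H)ᶜ, sgn v G • (X v * a (insert v G))

/-- exactness of the rows -/
def Row (Γ : Cx V) (p : V → (Fin d → ℝ)) (H : Finset V) : Prop :=
  ∀ (r k : ℕ) (a : Finset V → MvPolynomial V ℝ), (∀ G, (a G).IsHomogeneous (k + 1)) →
    (∀ G, G.card + 1 = r → Disjoint G H → G ∪ H ∈ Γ.faces → xb H a G ∈ JJ (stc Γ (G ∪ H)) p) →
    ∃ b : Finset V → MvPolynomial V ℝ, (∀ G, (b G).IsHomogeneous k) ∧
      ∀ G, G.card = r → Disjoint G H → G ∪ H ∈ Γ.faces → a G - xb H b G ∈ JJ (stc Γ (G ∪ H)) p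

/-- row exactness modulo the first `s` linear forms -/
def TT (Γ : Cx V) (p : V → (Fin d → ℝ)) (l : Fin d → Module.Dual ℝ (Fin d → ℝ)) (H : Finset V)
    (s : ℕ) : Prop :=
  ∀ (r k : ℕ) (a : Finset V → MvPolynomial V ℝ), (∀ G, (a G).IsHomogeneous (k + 1)) →
    (∀ G, G.card + 1 = r → Disjoint G H → G ∪ H ∈ Γ.faces → xb H a G ∈ JS (stc Γ (G ∪ H)) p l s) →
    (r = 0 → a ∅ ∈ JS (stc Γ H) p l s ⊔ Ideal.span (X '' {v | v ∉ H})) →
    ∃ b : Finset V → MvPolynomial V ℝ, (∀ G, (b G).IsHomogeneous k) ∧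
      ∀ G, G.card = r → Disjoint G H → G ∪ H ∈ Γ.faces → a G - xb H b G ∈ JS (stc Γ (G ∪ H)) p l s

/-- the link of `H` -/
def lkf (Γ : Cx V) (H : Finset V) : Finset (Finset V) :=
  Γ.faces.filter fun σ => Disjoint σ H ∧ σ ∪ H ∈ Γ.faces

/-- there is no nonzero positive semidefinite `2`-stress -/
def NoPSD (Γ : Cx V) (p : V → (Fin d → ℝ)) : Prop :=
  ∀ S : Matrix V V ℝ, S.PosSemidef → (∀ u v, ({u, v} : Finset V) ∉ Γ.faces → S u v = 0) →
    (∀ u, ∑ v, S u v • p v = 0) → S = 0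

/-- homogeneous of degree `k - 1` -/
def HomP : ℕ → MvPolynomial V ℝ → Prop
  | 0, f => f = 0
  | k + 1, f => f.IsHomogeneous k

variable {κ : Type} [Fintype κ] [DecidableEq κ]

/-- homogeneous vectors -/
def HomV (k : ℕ) (f : κ → MvPolynomial V ℝ) : Prop := ∀ i, (f i).IsHomogeneous k

/-- the matrix `M` of linear forms squares to a scalar in the ideal, and the variables are
anticommutators with constant symmetric matrices -/
structure Cl (Γ : Cx V) (p : V → (Fin d → ℝ)) (M : Matrix κ κ (MvPolynomial V ℝ)) : Prop where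
  symm : M.transpose = M
  hom : ∀ i j, (M i j).IsHomogeneous 1
  sq : ∃ q ∈ JJ Γ p, q.IsHomogeneous 2 ∧ M * M = q • (1 : Matrix κ κ (MvPolynomial V ℝ))
  anti : ∀ v, ∃ u : Matrix κ κ ℝ, u.transpose = u ∧
    M * u.map C + u.map C * M = (2 * X v : MvPolynomial V ℝ) • (1 : Matrix κ κ (MvPolynomial V ℝ))

/-- closed vectors in the ring of the star of `H` -/
def Cyc (Γ : Cx V) (p : V → (Fin d → ℝ)) (M : Matrix κ κ (MvPolynomial V ℝ)) (H : Finset V)
    (f : κ → MvPolynomial V ℝ) : Prop := ∀ i, M.mulVec f i ∈ JJ (stc Γ H) p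

/-- exact vectors of degree `k` in the ring of the star of `H` -/
def Bdry (Γ : Cx V) (p : V → (Fin d → ℝ)) (M : Matrix κ κ (MvPolynomial V ℝ)) (H : Finset V) (k : ℕ)
    (f : κ → MvPolynomial V ℝ) : Prop :=
  ∃ g : κ → MvPolynomial V ℝ, (∀ i, HomP k (g i)) ∧ ∀ i, f i - M.mulVec g i ∈ JJ (stc Γ H) p

/-- exactness in degree `k` of the column of `H` -/
def Col (Γ : Cx V) (p : V → (Fin d → ℝ)) (M : Matrix κ κ (MvPolynomial V ℝ)) (H : Finset V)
    (k : ℕ) : Prop := ∀ f : κ → MvPolynomial V ℝ, HomV k f → Cyc Γ p M H f → Bdry Γ p M H k f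

section abstract
variable {ι : Type} [Fintype ι]

/-- a weighted quadratic form -/
noncomputable def qf (ω : ι → ℝ) (F F' : ι → κ → ℝ) : ℝ := ∑ G, ω G * ∑ i, F G i * F' G i

/-- a filtration `N 0 = 0 ≤ N 1 ≤ …` with `N a ^ ⊥ = N (e + 1 - a)` and a selfadjoint operator of degree one
whose square has degree one -/
structure FD (ω : ι → ℝ) (e : ℕ) (D : (ι → κ → ℝ) →ₗ[ℝ] (ι → κ → ℝ))
    (N : ℕ → Submodule ℝ (ι → κ → ℝ)) : Prop where
  hω : ∀ G, ω G ≠ 0
  zero : N 0 = ⊥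
  mono : ∀ k, N k ≤ N (k + 1)
  adj : ∀ F F', qf ω (D F) F' = qf ω F (D F')
  step : ∀ k, ∀ F ∈ N k, D F ∈ N (k + 1)
  sq : ∀ k, ∀ F ∈ N k, D (D F) ∈ N (k + 1)
  perp : ∀ a b, a + b = e + 1 → ∀ F, (∀ F' ∈ N a, qf ω F F' = 0) ↔ F ∈ N b

end abstract

end Pool.Agent.H128.Fan
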