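import Pool.Agent.H128.Fan.Defs

set_option autoImplicit false
set_option linter.unusedSectionVars false

/-! T01 and T02: linear independence of the faces of a fan, generic vectors. -/

namespace Pool.Agent.H700.Fan.T01

open Pool.Agent.Helper611 Pool.Agent.Helper611.ZBase Pool.Agent.Helper611.KRel
  Pool.Agent.Helper611.KVal Pool.Agent.Helper611.UStr
  Pool.Agent.H252R2.Lef1 Pool.Agent.H252R2.Lef7
  Pool.Agent.H252R2.CDNum Pool.Agent.H252R2.Top2 Pool.Agent.H128.SRing Pool.Agent.H128.Fan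
open MvPolynomial Module

variable {V : Type} [Fintype V] [LinearOrder V] {d : ℕ} {Γ : Cx V} {p : V → (Fin d → ℝ)}
  {φ : Finset V → V → Module.Dual ℝ (Fin d → ℝ)} {ξ : Fin d → ℝ}

/-- T01. -/
theorem fan_li (hf : IsFan Γ p) : ∀ σ ∈ Γ.faces, LinearIndependent ℝ (fun v : σ => p v) := by
  intro σ hσ
  rw [Fintype.linearIndependent_iff]
  intro g hg i
  obtain ⟨h, hh⟩ : ∃ h : V → ℝ, h = fun v => if hv : v ∈ σ then g ⟨v, hv⟩ else 0 := ⟨_, rfl⟩
  have hin : ∀ (v : V) (hv : v ∈ σ), h v = g ⟨v, hv⟩ := by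
    intro v hv
    rw [hh]
    exact dif_pos hv
  have hsum : ∑ v ∈ σ, h v • p v = 0 := by
    rw [← hg, ← Finset.sum_coe_sort σ]
    exact Finset.sum_congr rfl fun v _ => by rw [hin v.1 v.2]
  obtain ⟨K, hK⟩ : ∃ K : ℝ, K = 1 + ∑ v, |h v| := ⟨_, rfl⟩
  have hK0 : 0 < K := by
    have h1 : 0 ≤ ∑ v, |h v| := Finset.sum_nonneg fun v _ => abs_nonneg _
    rw [hK]
    linarith
  have hK1 : ∀ v, 0 < K + h v := by
    intro v
    have h1 : |h v| ≤ ∑ v, |h v| :=
      Finset.single_le_sum (f := fun v => |h v|) (fun v _ => abs_nonneg _) (Finset.mem_univ v)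
    have h2 := neg_abs_le (h v)
    rw [hK]
    linarith
  obtain ⟨c, _, hu⟩ := hf (∑ v ∈ σ, K • p v)
  have hs : ∀ a : V → ℝ, ∑ v, (if v ∈ σ then a v else 0) • p v = ∑ v ∈ σ, a v • p v := by
    intro a
    rw [← Finset.sum_subset (Finset.subset_univ σ) (fun v _ hv => by rw [if_neg hv, zero_smul])]
    exact Finset.sum_congr rfl fun v hv => by rw [if_pos hv]
  have hfil : ∀ a : V → ℝ, (∀ v, 0 < a v) →
      (Finset.univ.filter fun v => (if v ∈ σ then a v else 0) ≠ 0) = σ := by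
    intro a ha
    ext v
    rw [Finset.mem_filter]
    constructor
    · rintro ⟨_, h1⟩
      by_contra h2
      exact h1 (if_neg h2)
    · intro h1
      refine ⟨Finset.mem_univ v, ?_⟩
      rw [if_pos h1]
      exact (ha v).ne'
  have hnn : ∀ a : V → ℝ, (∀ v, 0 < a v) → ∀ v, 0 ≤ (if v ∈ σ then a v else 0) := by
    intro a ha v
    split_ifs with h1
    · exact (ha v).le
    · exact le_rfl
  have e1 := hu (fun v => if v ∈ σ then K else 0)
    ⟨hnn (fun _ => K) fun _ => hK0, by rw [hfil (fun _ => K) fun _ => hK0]; exact hσ,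
      hs fun _ => K⟩
  have e2 := hu (fun v => if v ∈ σ then K + h v else 0)
    ⟨hnn (fun v => K + h v) hK1, by rw [hfil (fun v => K + h v) hK1]; exact hσ, by
      rw [hs fun v => K + h v]
      have h3 : ∑ v ∈ σ, (K + h v) • p v = ∑ v ∈ σ, K • p v + ∑ v ∈ σ, h v • p v := by
        rw [← Finset.sum_add_distrib]
        exact Finset.sum_congr rfl fun v _ => add_smul _ _ _
      rw [h3, hsum, add_zero]⟩
  have e3 := congrFun (e1.trans e2.symm) i.1
  simp only [i.2, if_true] at e3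
  have e4 : h i.1 = 0 := by linarith
  rw [← e4, hin i.1 i.2]

/-- T02a. -/
theorem exists_gen (Γ : Cx V) (p : V → (Fin d → ℝ)) : ∃ ξ, Gen Γ p ξ := by
  classical
  have h1 : ∀ σ : Finset V, σ.card < d →
      Submodule.span ℝ (p '' (σ : Set V)) ≠ (⊤ : Submodule ℝ (Fin d → ℝ)) := by
    intro σ hσ h
    have h2 := finrank_span_finset_le_card (R := ℝ) (σ.image p)
    rw [Finset.coe_image, Set.finrank, h, finrank_top, Module.finrank_fin_fun] at h2
    have h3 := Finset.card_image_le (s := σ) (f := p)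
    omega
  have h2 : (⊤ : Submodule ℝ (Fin d → ℝ)) ∉
      (Γ.faces.filter fun σ => σ.card < d).image
        fun σ : Finset V => Submodule.span ℝ (p '' (σ : Set V)) := by
    intro h
    obtain ⟨σ, hσ, hσ'⟩ := Finset.mem_image.1 h
    exact h1 σ (Finset.mem_filter.1 hσ).2 hσ'
  have h3 := Subspace.biUnion_ne_univ_of_top_notMem h2
  obtain ⟨ξ, hξ⟩ := (Set.ne_univ_iff_exists_notMem _).1 h3
  refine ⟨ξ, fun σ hσ hc hm => hξ ?_⟩
  refine Set.mem_iUnion₂.2 ⟨Submodule.span ℝ (p '' (σ : Set V)), ?_, hm⟩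
  exact Finset.mem_image.2 ⟨σ, Finset.mem_filter.2 ⟨hσ, hc⟩, rfl⟩

/-- T02b. -/
theorem gen_neg (h : Gen Γ p ξ) : Gen Γ p (-ξ) := by
  intro σ hσ hc hm
  exact h σ hσ hc ((Submodule.neg_mem_iff _).1 hm)

/-- T02c. -/
theorem gen_nz (hφ : Coord Γ p φ) (h : Gen Γ p ξ) : Nz Γ φ ξ := by
  intro G hG hc v hv h0
  have h1 := expand hφ G hG ξ (by rw [span_top hφ G hG hc]; trivial)
  have h2 : ξ ∈ Submodule.span ℝ (p '' ((G.erase v : Finset V) : Set V)) := by
    rw [← h1, ← Finset.add_sum_erase G _ hv, h0, zero_smul, zero_add]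
    exact Submodule.sum_mem _ fun w hw =>
      Submodule.smul_mem _ _ (Submodule.subset_span ⟨w, Finset.mem_coe.2 hw, rfl⟩)
  refine h (G.erase v) (Γ.down G hG _ (Finset.erase_subset _ _)) ?_ h2
  rw [Finset.card_erase_of_mem hv, hc]
  have : 0 < G.card := Finset.card_pos.2 ⟨v, hv⟩
  omega

end Pool.Agent.H700.Fan.T01
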