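import Pool.Agent.H128.Fan.Defs

set_option autoImplicit false
set_option linter.unusedSectionVars false

/-! Project helper128 (MP_19e880_co), task T03: the facet above a face in a generic direction. -/

namespace Pool.Agent.H355.Fan.T03

open Pool.Agent.Helper611 Pool.Agent.Helper611.ZBase Pool.Agent.Helper611.KRel
  Pool.Agent.Helper611.KVal Pool.Agent.Helper611.UStr
  Pool.Agent.H252R2.Lef1 Pool.Agent.H252R2.Lef7
  Pool.Agent.H252R2.CDNum Pool.Agent.H252R2.Top2 Pool.Agent.H128.SRing Pool.Agent.H128.Fan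
open MvPolynomial Module

variable {V : Type} [Fintype V] [LinearOrder V] {d : ℕ} {Γ : Cx V} {p : V → (Fin d → ℝ)}
  {φ : Finset V → V → Module.Dual ℝ (Fin d → ℝ)} {ξ : Fin d → ℝ}

/-- faces are linearly independent -/
lemma li_of_coord (hφ : Coord Γ p φ) (F : Finset V) (hF : F ∈ Γ.faces) :
    LinearIndependent ℝ (fun v : F => p v.1) := by
  rw [Fintype.linearIndependent_iff]
  intro g hg i
  have h1 := uniq hφ F hF (fun v => if h : v ∈ F then g ⟨v, h⟩ else 0) (by
    rw [← hg, ← Finset.sum_coe_sort F]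
    refine Finset.sum_congr rfl fun v _ => ?_
    rw [dif_pos v.2]) i.1 i.2
  simpa using h1

lemma card_le (hφ : Coord Γ p φ) (F : Finset V) (hF : F ∈ Γ.faces) : F.card ≤ d := by
  have h := (li_of_coord hφ F hF).fintype_card_le_finrank
  rwa [Fintype.card_coe, Module.finrank_fin_fun] at h

/-- coordinates of a combination supported on a face -/
lemma coord_sum (hφ : Coord Γ p φ) (F : Finset V) (hF : F ∈ Γ.faces) (a : V → ℝ) (v : V)
    (hv : v ∈ F) : φ F v (∑ x ∈ F, a x • p x) = a v := by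
  rw [map_sum, Finset.sum_eq_single_of_mem v hv, map_smul, hφ.one F hF v hv, smul_eq_mul, mul_one]
  intro y hy hyx
  rw [map_smul, hφ.zero F hF v hv y hy hyx, smul_zero]

/-- sums over the support -/
lemma sum_supp (c : V → ℝ) (s : Finset V) (hs : (Finset.univ.filter fun v => c v ≠ 0) = s) :
    ∑ v, c v • p v = ∑ v ∈ s, c v • p v := by
  rw [← hs, Finset.sum_filter]
  refine Finset.sum_congr rfl fun v _ => ?_
  by_cases h : c v = 0
  · rw [h, zero_smul, ite_self]
  · rw [if_pos h]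

theorem exist (hf : IsFan Γ p) (hφ : Coord Γ p φ) (hg : Gen Γ p ξ) (H : Finset V)
    (hH : H ∈ Γ.faces) :
    ∃ G : Finset V, G ∈ Γ.faces ∧ G.card = d ∧ H ⊆ G ∧ ∀ v ∈ G \ H, 0 < φ G v ξ := by
  classical
  choose c hc hcu using fun n : ℕ => hf ((n : ℝ) • ∑ u ∈ H, p u + ξ)
  obtain ⟨s, hs⟩ := Finite.exists_infinite_fiber
    (fun n : ℕ => (Finset.univ.filter fun v => c n v ≠ 0))
  have hinf : Set.Infinite {n : ℕ | (Finset.univ.filter fun v => c n v ≠ 0) = s} :=
    Set.infinite_coe_iff.1 hs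
  have hgt : ∀ N : ℕ, ∃ n, N < n ∧ (Finset.univ.filter fun v => c n v ≠ 0) = s := by
    intro N
    obtain ⟨n, hn, hn2⟩ := hinf.exists_gt N
    exact ⟨n, hn2, hn⟩
  obtain ⟨n0, -, hn0⟩ := hgt 0
  have hsF : s ∈ Γ.faces := hn0 ▸ (hc n0).2.1
  -- coordinates
  have hco : ∀ n, (Finset.univ.filter fun v => c n v ≠ 0) = s → ∀ v ∈ s,
      c n v = n * φ s v (∑ u ∈ H, p u) + φ s v ξ := by
    intro n hn v hv
    have h1 := (hc n).2.2
    rw [sum_supp (c n) s hn] at h1
    have h2 := coord_sum hφ s hsF (c n) v hv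
    rw [h1, map_add, map_smul, smul_eq_mul] at h2
    exact h2.symm
  have hpos : ∀ n, (Finset.univ.filter fun v => c n v ≠ 0) = s → ∀ v ∈ s, 0 < c n v := by
    intro n hn v hv
    rw [← hn, Finset.mem_filter] at hv
    exact lt_of_le_of_ne ((hc n).1 v) (Ne.symm hv.2)
  obtain ⟨n1, hn1lt, hn1⟩ := hgt n0
  -- two expansions
  have hA : ∑ u ∈ H, p u = ∑ v ∈ s, φ s v (∑ u ∈ H, p u) • p v := by
    have h0 := (hc n0).2.2
    have h1 := (hc n1).2.2
    rw [sum_supp (c n0) s hn0] at h0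
    rw [sum_supp (c n1) s hn1] at h1
    have hne : ((n1 : ℝ) - n0) ≠ 0 := by
      have : (n0 : ℝ) < n1 := by exact_mod_cast hn1lt
      linarith
    have h2 : ((n1 : ℝ) - n0) • ∑ u ∈ H, p u =
        ((n1 : ℝ) - n0) • ∑ v ∈ s, φ s v (∑ u ∈ H, p u) • p v := by
      have h3 : ((n1 : ℝ) - n0) • ∑ u ∈ H, p u =
          ((n1 : ℝ) • ∑ u ∈ H, p u + ξ) - ((n0 : ℝ) • ∑ u ∈ H, p u + ξ) := by
        rw [sub_smul]; abel
      rw [h3, ← h0, ← h1, ← Finset.sum_sub_distrib, Finset.smul_sum]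
      refine Finset.sum_congr rfl fun v hv => ?_
      rw [← sub_smul, smul_smul, hco n0 hn0 v hv, hco n1 hn1 v hv]
      congr 1
      ring
    exact smul_right_injective _ hne h2
  have hB : ξ = ∑ v ∈ s, φ s v ξ • p v := by
    have h0 := (hc n0).2.2
    rw [sum_supp (c n0) s hn0] at h0
    have h3 : ξ = ((n0 : ℝ) • ∑ u ∈ H, p u + ξ) - (n0 : ℝ) • ∑ u ∈ H, p u := by abel
    rw [← h0] at h3
    rw [hA] at h3
    rw [Finset.smul_sum, ← Finset.sum_sub_distrib] at h3
    nth_rewrite 1 [h3]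
    refine Finset.sum_congr rfl fun v hv => ?_
    rw [smul_smul, ← sub_smul, hco n0 hn0 v hv]
    congr 1
    ring
  have hcard : s.card = d := by
    refine le_antisymm (card_le hφ s hsF) ?_
    by_contra hlt
    push Not at hlt
    apply hg s hsF hlt
    rw [hB]
    exact Submodule.sum_mem _ fun v hv => Submodule.smul_mem _ _ (Submodule.subset_span ⟨v, hv, rfl⟩)
  have hnn : ∀ v ∈ s, 0 ≤ φ s v (∑ u ∈ H, p u) := by
    intro v hv
    by_contra hneg
    push Not at hneg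
    obtain ⟨N, hN⟩ := exists_nat_gt (φ s v ξ / -φ s v (∑ u ∈ H, p u))
    obtain ⟨n, hn, hn'⟩ := hgt N
    have h1 := hpos n hn' v hv
    rw [hco n hn' v hv] at h1
    rw [div_lt_iff₀ (by linarith)] at hN
    have h2 : (N : ℝ) ≤ n := by exact_mod_cast hn.le
    nlinarith
  -- uniqueness for the sum of the vertices of `H`
  obtain ⟨e, -, heu⟩ := hf (∑ u ∈ H, p u)
  have e1 := heu (fun v => if v ∈ s then φ s v (∑ u ∈ H, p u) else 0) ⟨fun v => by
      dsimp only
      split_ifs with h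
      · exact hnn v h
      · exact le_rfl, Γ.down s hsF _ fun v hv => by
      rw [Finset.mem_filter] at hv
      by_contra h
      exact hv.2 (if_neg h), by
      rw [hA]
      simp only [ite_smul, zero_smul, Finset.sum_ite_mem, Finset.univ_inter]
      refine Finset.sum_congr rfl fun v _ => ?_
      rw [← hA]⟩
  have e2 := heu (fun v => if v ∈ H then 1 else 0) ⟨fun v => by
      dsimp only
      split_ifs <;> norm_num, by
      have : (Finset.univ.filter fun v => (if v ∈ H then (1 : ℝ) else 0) ≠ 0) = H := by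
        ext v
        simp
      rw [this]; exact hH, by
      simp only [ite_smul, zero_smul, one_smul, Finset.sum_ite_mem, Finset.univ_inter]⟩
  have e3 := e1.trans e2.symm
  have hHs : H ⊆ s := by
    intro u hu
    have h1 := congrFun e3 u
    rw [if_pos hu] at h1
    by_contra h
    rw [if_neg h] at h1
    exact zero_ne_one h1
  refine ⟨s, hsF, hcard, hHs, fun v hv => ?_⟩
  rw [Finset.mem_sdiff] at hv
  have h1 := congrFun e3 v
  rw [if_neg hv.2, if_pos hv.1] at h1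
  have h2 := hpos n0 hn0 v hv.1
  rw [hco n0 hn0 v hv.1, h1, mul_zero, zero_add] at h2
  exact h2

/-- the combination with support `G` -/
lemma rep (hφ : Coord Γ p φ) (H G : Finset V) (hG : G ∈ Γ.faces) (hGc : G.card = d)
    (hHG : H ⊆ G) (hpos : ∀ v ∈ G \ H, 0 < φ G v ξ) (n : ℝ) (hn : ∀ v, - n < φ G v ξ) :
    (∀ v, 0 ≤ (if v ∈ G then (if v ∈ H then n else 0) + φ G v ξ else 0)) ∧
    (Finset.univ.filter fun v => (if v ∈ G then (if v ∈ H then n else 0) + φ G v ξ else 0) ≠ 0) = G ∧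
    ∑ v, (if v ∈ G then (if v ∈ H then n else 0) + φ G v ξ else 0) • p v =
      n • ∑ u ∈ H, p u + ξ := by
  have hp : ∀ v ∈ G, 0 < (if v ∈ H then n else 0) + φ G v ξ := by
    intro v hv
    by_cases h : v ∈ H
    · rw [if_pos h]
      linarith [hn v]
    · rw [if_neg h, zero_add]
      exact hpos v (Finset.mem_sdiff.2 ⟨hv, h⟩)
  refine ⟨fun v => ?_, ?_, ?_⟩
  · by_cases h : v ∈ G
    · rw [if_pos h]
      exact (hp v h).le
    · rw [if_neg h]
  · ext v
    rw [Finset.mem_filter]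
    constructor
    · rintro ⟨-, h⟩
      by_contra h2
      exact h (if_neg h2)
    · intro h
      refine ⟨Finset.mem_univ _, ?_⟩
      rw [if_pos h]
      exact (hp v h).ne'
  · simp only [ite_smul, zero_smul, Finset.sum_ite_mem, Finset.univ_inter, add_smul,
      Finset.sum_add_distrib]
    rw [Finset.inter_eq_right.2 hHG, ← Finset.smul_sum,
      expand hφ G hG ξ (by rw [span_top hφ G hG hGc]; trivial)]

/-- T03. -/
theorem fan_C (hf : IsFan Γ p) (hφ : Coord Γ p φ) (hg : Gen Γ p ξ) (H : Finset V) (hH : H ∈ Γ.faces) :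
    ∃! G : Finset V, G ∈ Γ.faces ∧ G.card = d ∧ H ⊆ G ∧ ∀ v ∈ G \ H, 0 < φ G v ξ := by
  classical
  obtain ⟨G, hG, hGc, hHG, hGp⟩ := exist hf hφ hg H hH
  refine ⟨G, ⟨hG, hGc, hHG, hGp⟩, ?_⟩
  rintro G' ⟨hG', hGc', hHG', hGp'⟩
  obtain ⟨n, hn⟩ : ∃ n : ℝ, (∀ v, -n < φ G v ξ) ∧ ∀ v, -n < φ G' v ξ := by
    refine ⟨∑ v, |φ G v ξ| + ∑ v, |φ G' v ξ| + 1, fun v => ?_, fun v => ?_⟩
    · have h1 := Finset.single_le_sum (f := fun v => |φ G v ξ|) (fun v _ => abs_nonneg _)
        (Finset.mem_univ v)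
      have h2 : 0 ≤ ∑ v, |φ G' v ξ| := Finset.sum_nonneg fun v _ => abs_nonneg _
      have h3 := neg_abs_le (φ G v ξ)
      linarith
    · have h1 := Finset.single_le_sum (f := fun v => |φ G' v ξ|) (fun v _ => abs_nonneg _)
        (Finset.mem_univ v)
      have h2 : 0 ≤ ∑ v, |φ G v ξ| := Finset.sum_nonneg fun v _ => abs_nonneg _
      have h3 := neg_abs_le (φ G' v ξ)
      linarith
  obtain ⟨a1, a2, a3⟩ := rep hφ H G hG hGc hHG hGp n hn.1
  obtain ⟨b1, b2, b3⟩ := rep hφ H G' hG' hGc' hHG' hGp' n hn.2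
  obtain ⟨e, -, heu⟩ := hf (n • ∑ u ∈ H, p u + ξ)
  have e1 := heu _ ⟨a1, by rw [a2]; exact hG, a3⟩
  have e2 := heu _ ⟨b1, by rw [b2]; exact hG', b3⟩
  rw [← b2, ← a2]
  have e3 := e2.trans e1.symm
  ext v
  have := congrFun e3 v
  rw [Finset.mem_filter, Finset.mem_filter, this]

end Pool.Agent.H355.Fan.T03
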