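import Pool.Agent.H128.Fan.Defs

set_option autoImplicit false
set_option linter.unusedSectionVars false

/-! T04: the realization of a complete fan is a sphere. -/

namespace Pool.Agent.H758.Fan

open Pool.Agent.Helper611 Pool.Agent.Helper611.ZBase Pool.Agent.Helper611.KRel
  Pool.Agent.Helper611.KVal Pool.Agent.Helper611.UStr
  Pool.Agent.H252R2.Lef1 Pool.Agent.H252R2.Lef7
  Pool.Agent.H252R2.CDNum Pool.Agent.H252R2.Top2 Pool.Agent.H128.SRing Pool.Agent.H128.Fan
open MvPolynomial Module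

variable {V : Type} [Fintype V] [LinearOrder V] {d : ℕ} {Γ : Cx V} {p : V → (Fin d → ℝ)}
  {φ : Finset V → V → Module.Dual ℝ (Fin d → ℝ)} {ξ : Fin d → ℝ}

/-- the sum of the vectors -/
noncomputable def Lm (p : V → (Fin d → ℝ)) (y : V → ℝ) : Fin d → ℝ := ∑ v, y v • p v

theorem Lm_smul (p : V → (Fin d → ℝ)) (a : ℝ) (y : V → ℝ) : Lm p (a • y) = a • Lm p y := by
  unfold Lm
  rw [Finset.smul_sum]
  refine Finset.sum_congr rfl fun v _ => ?_
  rw [Pi.smul_apply, smul_eq_mul, mul_smul]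

theorem Lm_cont (p : V → (Fin d → ℝ)) : Continuous (Lm p) := by
  unfold Lm
  fun_prop

/-- the conditions on the coefficients -/
def Adm (Γ : Cx V) (c : V → ℝ) : Prop :=
  (∀ v, 0 ≤ c v) ∧ (Finset.univ.filter fun v => c v ≠ 0) ∈ Γ.faces

theorem Adm.smul {c : V → ℝ} (h : Adm Γ c) {a : ℝ} (ha : 0 ≤ a) : Adm Γ (a • c) := by
  refine ⟨fun v => mul_nonneg ha (h.1 v), Γ.down _ h.2 _ ?_⟩
  intro v hv
  rw [Finset.mem_filter] at hv ⊢
  refine ⟨hv.1, fun h0 => hv.2 ?_⟩
  rw [Pi.smul_apply, h0, smul_zero]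

theorem fan_unique (hf : IsFan Γ p) {c c' : V → ℝ} (hc : Adm Γ c) (hc' : Adm Γ c')
    (h : Lm p c = Lm p c') : c = c' :=
  (hf (Lm p c')).unique ⟨hc.1, hc.2, h⟩ ⟨hc'.1, hc'.2, rfl⟩

theorem adm_of_real {y : V → ℝ} (hy : y ∈ realization Γ) : Adm Γ y := by
  obtain ⟨h1, h2, σ, h3, h4⟩ := hy
  refine ⟨h1, Γ.down σ h3 _ ?_⟩
  intro v hv
  rw [Finset.mem_filter] at hv
  by_contra h
  exact hv.2 (h4 v h)

theorem adm_zero : Adm Γ (0 : V → ℝ) := by
  refine ⟨fun v => le_refl _, ?_⟩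
  have : (Finset.univ.filter fun v : V => (0 : V → ℝ) v ≠ 0) = ∅ := by
    rw [Finset.filter_eq_empty_iff]
    intro v _ h
    exact h rfl
  rw [this]
  exact Γ.empty_mem

theorem Lm_ne (hf : IsFan Γ p) {y : V → ℝ} (hy : y ∈ realization Γ) : Lm p y ≠ 0 := by
  intro h
  have h0 : Lm p (0 : V → ℝ) = 0 := by
    unfold Lm
    refine Finset.sum_eq_zero fun v _ => ?_
    rw [Pi.zero_apply, zero_smul]
  have h1 := fan_unique hf (adm_of_real hy) adm_zero (h.trans h0.symm)
  have h2 := hy.2.1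
  rw [h1] at h2
  simp at h2

theorem isCompact_realization (Γ : Cx V) : IsCompact (realization Γ) := by
  have h1 : realization Γ = stdSimplex ℝ V ∩ ⋃ σ ∈ Γ.faces, {x : V → ℝ | ∀ v, v ∉ σ → x v = 0} := by
    ext x
    simp only [realization, stdSimplex, Set.mem_setOf_eq, Set.mem_inter_iff, Set.mem_iUnion,
      exists_prop]
    tauto
  rw [h1]
  refine (isCompact_stdSimplex ℝ V).inter_right ?_
  refine Γ.faces.finite_toSet.isClosed_biUnion fun σ _ => ?_
  have h2 : {x : V → ℝ | ∀ v, v ∉ σ → x v = 0} = ⋂ v, ⋂ _ : v ∉ σ, {x : V → ℝ | x v = 0} := by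
    ext x
    simp
  rw [h2]
  exact isClosed_iInter fun v => isClosed_iInter fun _ =>
    isClosed_eq (continuous_apply v) continuous_const

/-- the normalized vector -/
noncomputable def nv (p : V → (Fin d → ℝ)) (y : V → ℝ) : EuclideanSpace ℝ (Fin d) :=
  ‖(WithLp.toLp 2 (Lm p y) : EuclideanSpace ℝ (Fin d))‖⁻¹ • WithLp.toLp 2 (Lm p y)

theorem toLp_ne {x : Fin d → ℝ} (hx : x ≠ 0) :
    (WithLp.toLp 2 x : EuclideanSpace ℝ (Fin d)) ≠ 0 := by
  intro h
  apply hx
  have := congrArg WithLp.ofLp h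
  simpa using this

theorem norm_pos' (hf : IsFan Γ p) {y : V → ℝ} (hy : y ∈ realization Γ) :
    0 < ‖(WithLp.toLp 2 (Lm p y) : EuclideanSpace ℝ (Fin d))‖ :=
  norm_pos_iff.2 (toLp_ne (Lm_ne hf hy))

/-- T04. -/
theorem fan_homeo (hf : IsFan Γ p) (hd : 1 ≤ d) :
    Nonempty (realization Γ ≃ₜ Metric.sphere (0 : EuclideanSpace ℝ (Fin d)) 1) := by
  haveI : CompactSpace (realization Γ) := isCompact_iff_compactSpace.1 (isCompact_realization Γ)
  have hmem : ∀ y : realization Γ, nv p (y : V → ℝ) ∈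
      Metric.sphere (0 : EuclideanSpace ℝ (Fin d)) 1 := by
    intro y
    rw [mem_sphere_zero_iff_norm, nv, norm_smul, norm_inv, norm_norm]
    exact inv_mul_cancel₀ (norm_pos' hf y.2).ne'
  let F : realization Γ → Metric.sphere (0 : EuclideanSpace ℝ (Fin d)) 1 :=
    fun y => ⟨nv p (y : V → ℝ), hmem y⟩
  have hc1 : Continuous fun y : realization Γ =>
      (WithLp.toLp 2 (Lm p (y : V → ℝ)) : EuclideanSpace ℝ (Fin d)) :=
    (PiLp.continuous_toLp 2 _).comp ((Lm_cont p).comp continuous_subtype_val)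
  have hcont : Continuous F := by
    refine Continuous.subtype_mk ?_ _
    exact (hc1.norm.inv₀ fun y => (norm_pos' hf y.2).ne').smul hc1
  have hinj : Function.Injective F := by
    intro y y' h
    have h1 : nv p (y : V → ℝ) = nv p (y' : V → ℝ) := congrArg Subtype.val h
    unfold nv at h1
    set a := ‖(WithLp.toLp 2 (Lm p (y : V → ℝ)) : EuclideanSpace ℝ (Fin d))‖⁻¹ with ha
    set b := ‖(WithLp.toLp 2 (Lm p (y' : V → ℝ)) : EuclideanSpace ℝ (Fin d))‖⁻¹ with hb
    have hap : 0 < a := inv_pos.2 (norm_pos' hf y.2)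
    have hbp : 0 < b := inv_pos.2 (norm_pos' hf y'.2)
    have h2 : a • Lm p (y : V → ℝ) = b • Lm p (y' : V → ℝ) := by
      have := congrArg WithLp.ofLp h1
      simpa using this
    rw [← Lm_smul, ← Lm_smul] at h2
    have h3 := fan_unique hf ((adm_of_real y.2).smul hap.le) ((adm_of_real y'.2).smul hbp.le) h2
    have h4 : a = b := by
      have h5 : ∑ v, (a • (y : V → ℝ)) v = ∑ v, (b • (y' : V → ℝ)) v := by rw [h3]
      simp only [Pi.smul_apply, smul_eq_mul] at h5
      rw [← Finset.mul_sum, ← Finset.mul_sum, y.2.2.1, y'.2.2.1, mul_one, mul_one] at h5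
      exact h5
    apply Subtype.ext
    rw [← h4] at h3
    exact smul_right_injective _ hap.ne' h3
  have hsurj : Function.Surjective F := by
    intro z
    have hz : ‖(z : EuclideanSpace ℝ (Fin d))‖ = 1 := mem_sphere_zero_iff_norm.1 z.2
    obtain ⟨c, ⟨hc1, hc2, hc3⟩, -⟩ := hf (WithLp.ofLp (z : EuclideanSpace ℝ (Fin d)))
    have hc0 : c ≠ 0 := by
      rintro rfl
      have h0 : WithLp.ofLp (z : EuclideanSpace ℝ (Fin d)) = 0 := by
        rw [← hc3]
        exact Finset.sum_eq_zero fun v _ => by rw [Pi.zero_apply, zero_smul]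
      have h1 : (z : EuclideanSpace ℝ (Fin d)) = 0 := by
        have := congrArg (WithLp.toLp 2) h0
        simpa using this
      rw [h1, norm_zero] at hz
      exact zero_ne_one hz
    have hS : 0 < ∑ v, c v := by
      obtain ⟨v, hv⟩ := Function.ne_iff.1 hc0
      exact Finset.sum_pos' (fun v _ => hc1 v) ⟨v, Finset.mem_univ _, lt_of_le_of_ne (hc1 v) (Ne.symm hv)⟩
    set S := ∑ v, c v with hSd
    have hLc : Lm p c = WithLp.ofLp (z : EuclideanSpace ℝ (Fin d)) := hc3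
    have hy : S⁻¹ • c ∈ realization Γ := by
      refine ⟨fun v => mul_nonneg (inv_nonneg.2 hS.le) (hc1 v), ?_, _, hc2, ?_⟩
      · simp only [Pi.smul_apply, smul_eq_mul]
        rw [← Finset.mul_sum, ← hSd]
        exact inv_mul_cancel₀ hS.ne'
      · intro v hv
        rw [Finset.mem_filter, not_and] at hv
        have := hv (Finset.mem_univ _)
        rw [not_not] at this
        rw [Pi.smul_apply, this, smul_zero]
    refine ⟨⟨S⁻¹ • c, hy⟩, Subtype.ext ?_⟩
    show nv p (S⁻¹ • c) = z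
    unfold nv
    rw [Lm_smul, hLc]
    have h6 : (WithLp.toLp 2 (S⁻¹ • WithLp.ofLp (z : EuclideanSpace ℝ (Fin d))) :
        EuclideanSpace ℝ (Fin d)) = S⁻¹ • (z : EuclideanSpace ℝ (Fin d)) := by
      ext i
      simp
    rw [h6, norm_smul, hz, mul_one, Real.norm_of_nonneg (inv_nonneg.2 hS.le), inv_inv, smul_smul,
      mul_inv_cancel₀ hS.ne', one_smul]
  exact ⟨Continuous.homeoOfEquivCompactToT2 (f := Equiv.ofBijective F ⟨hinj, hsurj⟩) hcont⟩

end Pool.Agent.H758.Fan
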