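import Pool.Agent.H128.Fan.Defs

set_option autoImplicit false
set_option linter.unusedSectionVars false

/-! Project helper128 (MP_19e880_co), task T05: the positive stress of a complete fan. -/

namespace Pool.Agent.H355.Fan.T05

open Pool.Agent.Helper611 Pool.Agent.Helper611.ZBase Pool.Agent.Helper611.KRel
  Pool.Agent.Helper611.KVal Pool.Agent.Helper611.UStr
  Pool.Agent.H252R2.Lef1 Pool.Agent.H252R2.Lef7
  Pool.Agent.H252R2.CDNum Pool.Agent.H252R2.Top2 Pool.Agent.H128.SRing Pool.Agent.H128.Fan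
open MvPolynomial Module

variable {V : Type} [Fintype V] [LinearOrder V] {d : ℕ} {Γ : Cx V} {p : V → (Fin d → ℝ)}
  {φ : Finset V → V → Module.Dual ℝ (Fin d → ℝ)} {ξ : Fin d → ℝ}

/-- the volume spanned by the vectors of a set with `d` elements -/
noncomputable def vol (p : V → (Fin d → ℝ)) (G : Finset V) : ℝ :=
  if h : G.card = d then |(Matrix.of fun j k => p (G.orderEmbOfFin h j) k).det| else 1

lemma vol_eq (p : V → (Fin d → ℝ)) (G : Finset V) (hc : G.card = d) (I : Fin d → V)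
    (hI : Function.Injective I) (hm : ∀ k, I k ∈ G) :
    |(Matrix.of fun j k => p (I j) k).det| = vol p G := by
  unfold vol
  rw [dif_pos hc]
  let π0 : Fin d → Fin d := fun k => (G.orderIsoOfFin hc).symm ⟨I k, hm k⟩
  have hinj : Function.Injective π0 := by
    intro a b hab
    have h1 := (G.orderIsoOfFin hc).symm.injective hab
    exact hI (congrArg Subtype.val h1)
  let π : Equiv.Perm (Fin d) := Equiv.ofBijective π0 (Finite.injective_iff_bijective.1 hinj)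
  have hπ : ∀ k, G.orderEmbOfFin hc (π k) = I k := by
    intro k
    rw [← Finset.coe_orderIsoOfFin_apply]
    show ((G.orderIsoOfFin hc (π0 k) : G) : V) = I k
    rw [OrderIso.apply_symm_apply]
  have h1 : (Matrix.of fun j k => p (I j) k) =
      (Matrix.of fun j k => p (G.orderEmbOfFin hc j) k).submatrix π id := by
    ext j k
    rw [Matrix.submatrix_apply, Matrix.of_apply, Matrix.of_apply, hπ]
    rfl
  rw [h1, Matrix.det_permute, abs_mul]
  rcases Int.units_eq_one_or (Equiv.Perm.sign π) with h2 | h2 <;> rw [h2] <;> simp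

lemma vol_pos (hp : ∀ σ ∈ Γ.faces, LinearIndependent ℝ (fun v : σ => p v)) (G : Finset V)
    (hG : G ∈ Γ.faces) : 0 < vol p G := by
  unfold vol
  by_cases hc : G.card = d
  · rw [dif_pos hc, abs_pos]
    have h1 : LinearIndependent ℝ (fun j : Fin d => p (G.orderEmbOfFin hc j)) := by
      have h2 := (hp G hG).comp (G.orderIsoOfFin hc) (G.orderIsoOfFin hc).injective
      have h3 : ((fun v : G => p v) ∘ (G.orderIsoOfFin hc)) =
          fun j : Fin d => p (G.orderEmbOfFin hc j) := by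
        funext j
        rw [Function.comp_apply, Finset.coe_orderIsoOfFin_apply]
      rwa [h3] at h2
    have h2 : IsUnit (Matrix.of fun j k => p (G.orderEmbOfFin hc j) k) := by
      rw [← Matrix.linearIndependent_rows_iff_isUnit]
      exact h1
    rw [Matrix.isUnit_iff_isUnit_det] at h2
    exact h2.ne_zero
  · rw [dif_neg hc]
    exact one_pos

lemma gen_neg (h : Gen Γ p ξ) : Gen Γ p (-ξ) := by
  intro σ hσ hc hm
  exact h σ hσ hc (by rwa [Submodule.neg_mem_iff] at hm)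

/-- the vertex opposite to a ridge in a generic direction -/
lemma ridge_vertex {n : ℕ}
    {φ : Finset V → V → Module.Dual ℝ (Fin (n + 1) → ℝ)} {ξ : Fin (n + 1) → ℝ}
    (ρ : Finset V) (hρc : ρ.card = n)
    (hC : ∃! G : Finset V, G ∈ Γ.faces ∧ G.card = n + 1 ∧ ρ ⊆ G ∧ ∀ v ∈ G \ ρ, 0 < φ G v ξ) :
    ∃ v, v ∉ ρ ∧ insert v ρ ∈ Γ.faces ∧ 0 < φ (insert v ρ) v ξ ∧
      ∀ w, w ∉ ρ → insert w ρ ∈ Γ.faces → 0 < φ (insert w ρ) w ξ → w = v := by
  classical
  obtain ⟨G, ⟨hG, hGc, hρG, hpos⟩, huni⟩ := hC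
  obtain ⟨v, hv, rfl⟩ := Finset.exists_eq_insert_iff.2 ⟨hρG, by rw [hρc, hGc]⟩
  refine ⟨v, hv, hG, hpos v (by simp [hv]), fun w hw hwf hwp => ?_⟩
  have h1 := huni (insert w ρ) ⟨hwf, by rw [Finset.card_insert_of_notMem hw, hρc],
    Finset.subset_insert _ _, fun u hu => by
      rw [Finset.mem_sdiff, Finset.mem_insert] at hu
      rcases hu with ⟨rfl | hu, hu2⟩
      · exact hwp
      · exact absurd hu hu2⟩
  have h2 : w ∈ insert v ρ := h1 ▸ Finset.mem_insert_self w ρ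
  exact (Finset.mem_insert.1 h2).resolve_right hw

theorem main {n : ℕ} {p : V → (Fin (n + 1) → ℝ)}
    {φ : Finset V → V → Module.Dual ℝ (Fin (n + 1) → ℝ)}
    (hp : ∀ σ ∈ Γ.faces, LinearIndependent ℝ (fun v : σ => p v)) (hφ : Coord Γ p φ)
    (hex : ∃ ξ, Gen Γ p ξ)
    (hC : ∀ ξ, Gen Γ p ξ → ∀ H ∈ Γ.faces,
      ∃! G : Finset V, G ∈ Γ.faces ∧ G.card = n + 1 ∧ H ⊆ G ∧ ∀ v ∈ G \ H, 0 < φ G v ξ)
    (ρ : Finset V) (hρ : ρ ∈ Γ.faces) (hρc : ρ.card = n)
    (l : Module.Dual ℝ (Fin (n + 1) → ℝ)) (hl : ∀ v ∈ ρ, l (p v) = 0) :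
    ∑ v ∈ ρᶜ, (if insert v ρ ∈ Γ.faces then (vol p (insert v ρ))⁻¹ * l (p v) else 0) = 0 := by
  classical
  obtain ⟨ξ, hξ⟩ := hex
  obtain ⟨v1, hv1, hf1, hp1, hu1⟩ := ridge_vertex (φ := φ) (ξ := ξ) ρ hρc (hC ξ hξ ρ hρ)
  obtain ⟨v2, hv2, hf2, hp2, hu2⟩ := ridge_vertex (φ := φ) (ξ := -ξ) ρ hρc
    (hC (-ξ) (gen_neg hξ) ρ hρ)
  -- the functional
  let J : Fin n → V := fun j => ((Finset.equivFinOfCardEq hρc).symm j : V)
  have hJinj : Function.Injective J :=
    Subtype.val_injective.comp (Finset.equivFinOfCardEq hρc).symm.injective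
  have hJmem : ∀ j, J j ∈ ρ := fun j => ((Finset.equivFinOfCardEq hρc).symm j).2
  have hJsurj : ∀ y ∈ ρ, ∃ j, J j = y := by
    intro y hy
    refine ⟨Finset.equivFinOfCardEq hρc ⟨y, hy⟩, ?_⟩
    show (((Finset.equivFinOfCardEq hρc).symm (Finset.equivFinOfCardEq hρc ⟨y, hy⟩) : ρ) : V) = y
    rw [Equiv.symm_apply_apply]
  let ψ : (Fin (n + 1) → ℝ) →ₗ[ℝ] ℝ :=
    { toFun := fun u => Matrix.detRowAlternating.curryLeft u (fun j => p (J j))
      map_add' := fun a b => by rw [map_add]; rfl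
      map_smul' := fun r a => by rw [map_smul]; rfl }
  have hψ1 : ∀ x, x ∉ ρ → |ψ (p x)| = vol p (insert x ρ) := by
    intro x hx
    rw [← vol_eq p (insert x ρ) (by rw [Finset.card_insert_of_notMem hx, hρc])
      (Fin.cons x J : Fin (n + 1) → V)]
    · show |Matrix.det (Matrix.vecCons (p x) fun j => p (J j))| = _
      congr 2
      ext j k
      rw [Matrix.of_apply]
      refine Fin.cases ?_ (fun i => ?_) j
      · rfl
      · rfl
    · rw [Fin.cons_injective_iff]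
      refine ⟨?_, hJinj⟩
      rintro ⟨j, hj⟩
      exact hx (hj ▸ hJmem j)
    · intro k
      refine Fin.cases ?_ (fun i => ?_) k
      · rw [Fin.cons_zero]; exact Finset.mem_insert_self _ _
      · rw [Fin.cons_succ]; exact Finset.mem_insert_of_mem (hJmem i)
  have hψ2 : ∀ y, y ∈ ρ → ψ (p y) = 0 := by
    intro y hy
    obtain ⟨j, hj⟩ := hJsurj y hy
    show Matrix.det (Matrix.vecCons (p y) fun j => p (J j)) = 0
    refine Matrix.det_zero_of_row_eq (i := 0) (j := j.succ) (Fin.succ_ne_zero j).symm ?_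
    show p y = p (J j)
    rw [hj]
  have hψ3 : ∀ x, x ∉ ρ → insert x ρ ∈ Γ.faces → ψ (p x) ≠ 0 := by
    intro x hx hf h
    have h1 := hψ1 x hx
    rw [h, abs_zero] at h1
    exact (vol_pos hp _ hf).ne h1
  -- values of a functional vanishing on the ridge
  have hval : ∀ (η : Module.Dual ℝ (Fin (n + 1) → ℝ)), (∀ v ∈ ρ, η (p v) = 0) →
      ∀ x, x ∉ ρ → insert x ρ ∈ Γ.faces → ∀ w, η w = φ (insert x ρ) x w * η (p x) := by
    intro η hη x hx hf w
    have h1 := expand hφ (insert x ρ) hf w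
      (by rw [span_top hφ _ hf (by rw [Finset.card_insert_of_notMem hx, hρc])]; trivial)
    have h2 := congrArg η h1
    rw [Finset.sum_insert hx, map_add, map_sum, Finset.sum_eq_zero, add_zero, map_smul,
      smul_eq_mul] at h2
    · exact h2.symm
    · intro y hy
      rw [map_smul, hη y hy, smul_zero]
  obtain ⟨c, hc⟩ : ∃ c : ℝ, ∀ w, l w = c * ψ w := by
    refine ⟨l (p v1) / ψ (p v1), fun w => ?_⟩
    rw [hval l hl v1 hv1 hf1 w, hval ψ hψ2 v1 hv1 hf1 w]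
    have := hψ3 v1 hv1 hf1
    field_simp
  -- signs
  have hs1 := hval ψ hψ2 v1 hv1 hf1 ξ
  have hs2 := hval ψ hψ2 v2 hv2 hf2 (-ξ)
  rw [map_neg] at hs2
  have hn1 := hψ3 v1 hv1 hf1
  have hn2 := hψ3 v2 hv2 hf2
  have hξ0 : ψ ξ ≠ 0 := by
    rw [hs1]
    exact mul_ne_zero hp1.ne' hn1
  have hne : v1 ≠ v2 := by
    intro h
    subst h
    rw [map_neg] at hp2
    linarith
  have hall : ∀ x, x ∉ ρ → insert x ρ ∈ Γ.faces → x = v1 ∨ x = v2 := by
    intro x hx hf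
    have h1 := hval ψ hψ2 x hx hf ξ
    have h2 : φ (insert x ρ) x ξ ≠ 0 := by
      intro h
      rw [h, zero_mul] at h1
      exact hξ0 h1
    rcases lt_or_gt_of_ne h2 with h3 | h3
    · right
      exact hu2 x hx hf (by rw [map_neg]; linarith)
    · left
      exact hu1 x hx hf h3
  have hopp : ψ (p v1) / |ψ (p v1)| + ψ (p v2) / |ψ (p v2)| = 0 := by
    rcases lt_or_gt_of_ne hn1 with h3 | h3 <;> rcases lt_or_gt_of_ne hn2 with h4 | h4
    · nlinarith [mul_pos hp1 (neg_pos.2 h3), mul_pos hp2 (neg_pos.2 h4)]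
    · rw [abs_of_neg h3, abs_of_pos h4, div_neg, div_self hn1, div_self hn2]; norm_num
    · rw [abs_of_pos h3, abs_of_neg h4, div_neg, div_self hn1, div_self hn2]; norm_num
    · nlinarith [mul_pos hp1 h3, mul_pos hp2 h4]
  rw [← Finset.sum_filter]
  have hF : ρᶜ.filter (fun v => insert v ρ ∈ Γ.faces) = {v1, v2} := by
    ext x
    rw [Finset.mem_filter, Finset.mem_compl, Finset.mem_insert, Finset.mem_singleton]
    constructor
    · rintro ⟨h1, h2⟩
      exact hall x h1 h2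
    · rintro (rfl | rfl)
      · exact ⟨hv1, hf1⟩
      · exact ⟨hv2, hf2⟩
  rw [hF, Finset.sum_pair hne, ← hψ1 v1 hv1, ← hψ1 v2 hv2, hc, hc]
  linear_combination c * hopp

/-- T05. -/
theorem fan_ridge (hp : ∀ σ ∈ Γ.faces, LinearIndependent ℝ (fun v : σ => p v)) (hφ : Coord Γ p φ)
    (hex : ∃ ξ, Gen Γ p ξ)
    (hC : ∀ ξ, Gen Γ p ξ → ∀ H ∈ Γ.faces,
      ∃! G : Finset V, G ∈ Γ.faces ∧ G.card = d ∧ H ⊆ G ∧ ∀ v ∈ G \ H, 0 < φ G v ξ) :
    ∃ τ : Finset V → ℝ, (∀ G ∈ Γ.faces, G.card = d → 0 < τ G) ∧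
      ∀ ρ ∈ Γ.faces, ρ.card + 1 = d → ∀ l : Module.Dual ℝ (Fin d → ℝ), (∀ v ∈ ρ, l (p v) = 0) →
        ∑ v ∈ ρᶜ, (if insert v ρ ∈ Γ.faces then τ (insert v ρ) * l (p v) else 0) = 0 := by
  refine ⟨fun G => (vol p G)⁻¹, fun G hG _ => inv_pos.2 (vol_pos hp G hG), ?_⟩
  intro ρ hρ hρc l hl
  obtain ⟨n, rfl⟩ : ∃ n, d = n + 1 := ⟨ρ.card, hρc.symm⟩
  exact main hp hφ hex hC ρ hρ (by omega) l hl

end Pool.Agent.H355.Fan.T05
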