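import Pool.Agent.H128.Fan.Defs

set_option autoImplicit false
set_option linter.unusedSectionVars false

/-! Weighted sums over the facets vanish in low degree. -/

namespace Pool.Agent.H48.Fan

open Pool.Agent.Helper611 Pool.Agent.Helper611.ZBase Pool.Agent.Helper611.KRel
  Pool.Agent.Helper611.KVal Pool.Agent.Helper611.UStr
  Pool.Agent.H252R2.Lef1 Pool.Agent.H252R2.Lef7
  Pool.Agent.H252R2.CDNum Pool.Agent.H252R2.Top2 Pool.Agent.H128.SRing Pool.Agent.H128.Fan
open MvPolynomial Module

variable {V : Type} [Fintype V] [LinearOrder V] {d : ℕ} {Γ : Cx V} {p : V → (Fin d → ℝ)}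
  {φ : Finset V → V → Module.Dual ℝ (Fin d → ℝ)} {ξ : Fin d → ℝ}

lemma TH_add (τ : Finset V → ℝ) (f g : MvPolynomial V ℝ) :
    TH Γ φ ξ τ ∅ (f + g) = TH Γ φ ξ τ ∅ f + TH Γ φ ξ τ ∅ g := by
  unfold TH
  rw [← Finset.sum_add_distrib]
  exact Finset.sum_congr rfl fun G _ => by rw [map_add, mul_add]

lemma TH_zero (τ : Finset V → ℝ) : TH Γ φ ξ τ ∅ (0 : MvPolynomial V ℝ) = 0 := by
  unfold TH
  exact Finset.sum_eq_zero fun G _ => by rw [map_zero, mul_zero]

lemma TH_C (τ : Finset V → ℝ) (r : ℝ) (f : MvPolynomial V ℝ) :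
    TH Γ φ ξ τ ∅ (C r * f) = r * TH Γ φ ξ τ ∅ f := by
  unfold TH
  rw [Finset.mul_sum]
  refine Finset.sum_congr rfl fun G _ => ?_
  rw [map_mul]
  have : evg φ ξ G (C r : MvPolynomial V ℝ) = r := by
    unfold evg
    rw [eval_C]
  rw [this]
  ring

lemma TH_sum (τ : Finset V → ℝ) {ι : Type} (s : Finset ι) (f : ι → MvPolynomial V ℝ) :
    TH Γ φ ξ τ ∅ (∑ i ∈ s, f i) = ∑ i ∈ s, TH Γ φ ξ τ ∅ (f i) := by
  classical
  induction s using Finset.induction_on with
  | empty => rw [Finset.sum_empty, Finset.sum_empty, TH_zero]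
  | insert a s ha ih => rw [Finset.sum_insert ha, Finset.sum_insert ha, TH_add, ih]

/-- expansion of the generic vector in a facet -/
lemma exp_facet (hφ : Coord Γ p φ) (G : Finset V) (hG : G ∈ Γ.faces) (hc : G.card = d)
    (l : Module.Dual ℝ (Fin d → ℝ)) :
    ∑ v, l (p v) * (if v ∈ G then φ G v ξ else 0) = l ξ := by
  have h1 : ∀ v, l (p v) * (if v ∈ G then φ G v ξ else 0) =
      if v ∈ G then l (φ G v ξ • p v) else 0 := by
    intro v
    by_cases h : v ∈ G
    · rw [if_pos h, if_pos h, map_smul, smul_eq_mul, mul_comm]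
    · rw [if_neg h, if_neg h, mul_zero]
  rw [Finset.sum_congr rfl fun v _ => h1 v, Finset.sum_ite_mem, Finset.univ_inter, ← map_sum,
    expand hφ G hG ξ (by rw [span_top hφ G hG hc]; trivial)]

/-- the coordinates of a generic vector are nonzero -/
lemma nz (hφ : Coord Γ p φ) (hg : Gen Γ p ξ) (G : Finset V) (hG : G ∈ Γ.faces)
    (hc : G.card = d) (v : V) (hv : v ∈ G) : φ G v ξ ≠ 0 := by
  intro h0
  have h1 := expand hφ G hG ξ (by rw [span_top hφ G hG hc]; trivial)
  have h2 : (G.erase v).card < d := by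
    rw [← hc]
    exact Finset.card_erase_lt_of_mem hv
  refine hg (G.erase v) (Γ.down G hG _ (Finset.erase_subset _ _)) h2 ?_
  rw [← h1, ← Finset.add_sum_erase G _ hv, h0, zero_smul, zero_add]
  refine Submodule.sum_mem _ fun x hx => Submodule.smul_mem _ _ (Submodule.subset_span ?_)
  exact ⟨x, hx, rfl⟩

/-- the linear relation -/
lemma rel_T (hφ : Coord Γ p φ) (τ : Finset V → ℝ) (l : Module.Dual ℝ (Fin d → ℝ))
    (m : V →₀ ℕ) :
    ∑ v, l (p v) * TH Γ φ ξ τ ∅ (monomial (m + Finsupp.single v 1) 1) =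
      l ξ * TH Γ φ ξ τ ∅ (monomial m 1) := by
  unfold TH
  simp only [Finset.mul_sum]
  rw [Finset.sum_comm]
  refine Finset.sum_congr rfl fun G hG => ?_
  obtain ⟨hG1, hG2, _⟩ := Finset.mem_filter.1 hG
  have h1 : ∀ v, evg φ ξ G (monomial (m + Finsupp.single v 1) (1 : ℝ)) =
      evg φ ξ G (monomial m 1) * (if v ∈ G then φ G v ξ else 0) := by
    intro v
    have : (monomial (m + Finsupp.single v 1) (1 : ℝ)) = monomial m 1 * X v := by
      rw [X, monomial_mul, one_mul]
    rw [this, map_mul]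
    congr 1
    unfold evg
    rw [eval_X]
  have h2 : ∀ v ∈ (Finset.univ : Finset V), l (p v) * (τ G / (∏ v ∈ G \ ∅, φ G v ξ) *
      evg φ ξ G (monomial (m + Finsupp.single v 1) (1 : ℝ))) =
      (τ G / (∏ v ∈ G \ ∅, φ G v ξ) * evg φ ξ G (monomial m 1)) *
        (l (p v) * (if v ∈ G then φ G v ξ else 0)) := by
    intro v _
    rw [h1 v]
    ring
  rw [Finset.sum_congr rfl h2, ← Finset.mul_sum, exp_facet hφ G hG1 hG2 l]
  ring

/-- monomials not supported in `G` vanish -/
lemma evg_out (G : Finset V) (m : V →₀ ℕ) (h : ¬ m.support ⊆ G) :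
    evg φ ξ G (monomial m (1 : ℝ)) = 0 := by
  obtain ⟨v, h1, h2⟩ := Finset.not_subset.1 h
  unfold evg
  rw [eval_monomial, one_mul, Finsupp.prod]
  refine Finset.prod_eq_zero h1 ?_
  rw [if_neg h2, zero_pow (Finsupp.mem_support_iff.1 h1)]

lemma T_out (τ : Finset V → ℝ) (m : V →₀ ℕ) (h : m.support ∉ Γ.faces) :
    TH Γ φ ξ τ ∅ (monomial m 1) = 0 := by
  unfold TH
  refine Finset.sum_eq_zero fun G hG => ?_
  obtain ⟨hG1, _⟩ := Finset.mem_filter.1 hG
  rw [evg_out G m (fun h2 => h (Γ.down G hG1 _ h2)), mul_zero]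

/-- squarefree monomials of top degree -/
lemma T_top (hφ : Coord Γ p φ) (hg : Gen Γ p ξ) (τ : Finset V → ℝ) (m : V →₀ ℕ)
    (hc : m.support.card = d) (hm : ∀ v, m v ≤ 1) :
    TH Γ φ ξ τ ∅ (monomial m 1) = if m.support ∈ Γ.faces then τ m.support else 0 := by
  split_ifs with h
  · unfold TH
    rw [Finset.sum_eq_single_of_mem m.support
      (Finset.mem_filter.2 ⟨h, hc, Finset.empty_subset _⟩)]
    · have h1 : evg φ ξ m.support (monomial m (1 : ℝ)) =
          ∏ v ∈ m.support \ ∅, φ m.support v ξ := by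
        unfold evg
        rw [eval_monomial, one_mul, Finsupp.prod, Finset.sdiff_empty]
        refine Finset.prod_congr rfl fun v hv => ?_
        have h3 : m v = 1 := by
          have := hm v
          have := Finsupp.mem_support_iff.1 hv
          omega
        rw [if_pos hv, h3, pow_one]
      rw [h1, div_mul_cancel₀]
      rw [Finset.sdiff_empty]
      exact Finset.prod_ne_zero_iff.2 fun v hv => nz hφ hg _ h hc v hv
    · intro G hG hne
      obtain ⟨hG1, hG2, _⟩ := Finset.mem_filter.1 hG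
      rw [evg_out G m, mul_zero]
      intro h2
      exact hne (Finset.eq_of_subset_of_card_le h2 (by rw [hG2, hc])).symm
  · exact T_out τ m h

/-- a functional separating the generic vector from a small face -/
lemma sepf (hφ : Coord Γ p φ) (hg : Gen Γ p ξ) (σ : Finset V) (hσ : σ ∈ Γ.faces)
    (hc : σ.card < d) : ∃ l : Module.Dual ℝ (Fin d → ℝ), (∀ x ∈ σ, l (p x) = 0) ∧ l ξ = 1 := by
  by_contra hcon
  push Not at hcon
  refine hg σ hσ hc (mem_span_of hφ σ hσ ξ fun ψ hψ => ?_)
  by_contra h0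
  refine hcon ((ψ ξ)⁻¹ • ψ) (fun x hx => ?_) ?_
  · rw [LinearMap.smul_apply, hψ x hx, smul_zero]
  · rw [LinearMap.smul_apply, smul_eq_mul, inv_mul_cancel₀ h0]

lemma supp_add (m : V →₀ ℕ) (v : V) :
    (m + Finsupp.single v 1).support = insert v m.support := by
  ext w
  rw [Finsupp.mem_support_iff, Finset.mem_insert, Finsupp.add_apply, Finsupp.mem_support_iff]
  by_cases hw : w = v
  · subst hw
    rw [Finsupp.single_eq_same]
    constructor
    · intro _; exact Or.inl rfl
    · intro _; omega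
  · rw [Finsupp.single_eq_of_ne hw, add_zero]
    constructor
    · intro h; exact Or.inr h
    · rintro (h | h)
      · exact absurd h hw
      · exact h

/-- degree `d - 1` -/
lemma T_ridge (hφ : Coord Γ p φ) (hg : Gen Γ p ξ) (τ : Finset V → ℝ)
    (hτ : ∀ ρ ∈ Γ.faces, ρ.card + 1 = d → ∀ l : Module.Dual ℝ (Fin d → ℝ), (∀ v ∈ ρ, l (p v) = 0) →
        ∑ v ∈ ρᶜ, (if insert v ρ ∈ Γ.faces then τ (insert v ρ) * l (p v) else 0) = 0)
    (n : ℕ) : ∀ m : V →₀ ℕ, m.degree + 1 = d → d ≤ m.support.card + 1 + n →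
      TH Γ φ ξ τ ∅ (monomial m 1) = 0 := by
  induction n with
  | zero =>
    intro m hm hn
    by_cases hs : m.support ∈ Γ.faces
    swap
    · exact T_out τ m hs
    have hdeg : m.degree = ∑ v ∈ m.support, m v := rfl
    have hle : m.support.card ≤ m.degree := by
      rw [hdeg, Finset.card_eq_sum_ones]
      exact Finset.sum_le_sum fun v hv => Nat.one_le_iff_ne_zero.2 (Finsupp.mem_support_iff.1 hv)
    have hc : m.support.card + 1 = d := by omega
    have h1 : ∀ v, m v ≤ 1 := by
      intro v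
      by_contra hv
      have hv' : v ∈ m.support := Finsupp.mem_support_iff.2 (by omega)
      have : m.support.card < m.degree := by
        rw [hdeg, Finset.card_eq_sum_ones]
        exact Finset.sum_lt_sum (fun v hv => Nat.one_le_iff_ne_zero.2
          (Finsupp.mem_support_iff.1 hv)) ⟨v, hv', by omega⟩
      omega
    obtain ⟨l, hl1, hl2⟩ := sepf hφ hg m.support hs (by omega)
    have h2 := rel_T (ξ := ξ) hφ τ l m
    rw [hl2, one_mul] at h2
    rw [← h2, ← hτ m.support hs hc l hl1, ← Finset.sum_add_sum_compl m.support,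
      Finset.sum_eq_zero (fun v hv => by rw [hl1 v hv, zero_mul]), zero_add]
    refine Finset.sum_congr rfl fun v hv => ?_
    have hv' := Finset.mem_compl.1 hv
    have h3 := supp_add m v
    rw [T_top hφ hg τ (m + Finsupp.single v 1) (by
        rw [h3, Finset.card_insert_of_notMem hv', hc])
      (by
        intro w
        rw [Finsupp.add_apply]
        by_cases hw : w = v
        · subst hw
          rw [Finsupp.single_eq_same, Finsupp.notMem_support_iff.1 hv']
        · rw [Finsupp.single_eq_of_ne hw, add_zero]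
          exact h1 w), h3]
    split_ifs
    · rw [mul_comm]
    · rw [mul_zero]
  | succ n ih =>
    intro m hm hn
    by_cases hs : m.support ∈ Γ.faces
    swap
    · exact T_out τ m hs
    by_cases hcc : d ≤ m.support.card + 1 + n
    · exact ih m hm hcc
    have hdeg : m.degree = ∑ v ∈ m.support, m v := rfl
    obtain ⟨u, hu⟩ : ∃ u, 2 ≤ m u := by
      by_contra hcon
      push Not at hcon
      have : m.degree ≤ m.support.card := by
        rw [hdeg, Finset.card_eq_sum_ones]
        exact Finset.sum_le_sum fun v _ => by have := hcon v; omega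
      omega
    have hus : u ∈ m.support := Finsupp.mem_support_iff.2 (by omega)
    obtain ⟨l1, hl1, hl2⟩ := sepf hφ hg m.support hs (by omega)
    obtain ⟨m', hm'⟩ : ∃ m' : V →₀ ℕ, m = m' + Finsupp.single u 1 := by
      refine ⟨m - Finsupp.single u 1, ?_⟩
      rw [tsub_add_cancel_of_le]
      rw [Finsupp.single_le_iff]
      omega
    have hm'u : m' u ≠ 0 := by
      intro h0
      rw [hm', Finsupp.add_apply, h0, Finsupp.single_eq_same] at hu
      omega
    have hsup : m'.support = m.support := by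
      rw [hm', supp_add, Finset.insert_eq_of_mem (Finsupp.mem_support_iff.2 hm'u)]
    have hd : m'.degree + 1 = m.degree := by
      rw [hm', map_add, Finsupp.degree_single]
    have h1 := rel_T (ξ := ξ) hφ τ (φ m.support u - φ m.support u ξ • l1) m'
    have h2 : (φ m.support u - φ m.support u ξ • l1) ξ = 0 := by
      rw [LinearMap.sub_apply, LinearMap.smul_apply, hl2, smul_eq_mul, mul_one, sub_self]
    rw [h2, zero_mul, Finset.sum_eq_single_of_mem u (Finset.mem_univ _)] at h1
    · rw [LinearMap.sub_apply, LinearMap.smul_apply, hl1 u hus, smul_zero, sub_zero,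
        hφ.one _ hs u hus, one_mul, ← hm'] at h1
      exact h1
    · intro x _ hx
      by_cases hxs : x ∈ m.support
      · rw [LinearMap.sub_apply, LinearMap.smul_apply, hl1 x hxs, smul_zero, sub_zero,
          hφ.zero _ hs u hus x hxs hx, zero_mul]
      · have h6 := supp_add m' x
        rw [hsup] at h6
        rw [ih (m' + Finsupp.single x 1) (by
          rw [map_add, Finsupp.degree_single, hd, hm]) (by
          rw [h6, Finset.card_insert_of_notMem hxs]
          omega), mul_zero]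

/-- all degrees below `d` -/
lemma T_low (hφ : Coord Γ p φ) (hg : Gen Γ p ξ) (τ : Finset V → ℝ)
    (hτ : ∀ ρ ∈ Γ.faces, ρ.card + 1 = d → ∀ l : Module.Dual ℝ (Fin d → ℝ), (∀ v ∈ ρ, l (p v) = 0) →
        ∑ v ∈ ρᶜ, (if insert v ρ ∈ Γ.faces then τ (insert v ρ) * l (p v) else 0) = 0)
    (n : ℕ) : ∀ m : V →₀ ℕ, m.degree + 1 + n = d → TH Γ φ ξ τ ∅ (monomial m 1) = 0 := by
  induction n with
  | zero =>
    intro m hm
    exact T_ridge hφ hg τ hτ d m (by omega) (by omega)
  | succ n ih =>
    intro m hm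
    by_cases hs : m.support ∈ Γ.faces
    swap
    · exact T_out τ m hs
    have hdeg : m.degree = ∑ v ∈ m.support, m v := rfl
    have hle : m.support.card ≤ m.degree := by
      rw [hdeg, Finset.card_eq_sum_ones]
      exact Finset.sum_le_sum fun v hv => Nat.one_le_iff_ne_zero.2 (Finsupp.mem_support_iff.1 hv)
    obtain ⟨l, hl1, hl2⟩ := sepf hφ hg m.support hs (by omega)
    have h2 := rel_T (ξ := ξ) hφ τ l m
    rw [hl2, one_mul] at h2
    rw [← h2]
    refine Finset.sum_eq_zero fun v _ => ?_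
    rw [ih (m + Finsupp.single v 1) (by
      rw [map_add, Finsupp.degree_single]
      omega), mul_zero]

/-- T06. -/
theorem stress_van (hφ : Coord Γ p φ) (hg : Gen Γ p ξ) (hs : ∀ σ ∈ Γ.faces, σ.card ≤ d)
    (τ : Finset V → ℝ)
    (hτ : ∀ ρ ∈ Γ.faces, ρ.card + 1 = d → ∀ l : Module.Dual ℝ (Fin d → ℝ), (∀ v ∈ ρ, l (p v) = 0) →
        ∑ v ∈ ρᶜ, (if insert v ρ ∈ Γ.faces then τ (insert v ρ) * l (p v) else 0) = 0)
    (k : ℕ) (hk : k < d) (f : MvPolynomial V ℝ) (hf : f.IsHomogeneous k) : TH Γ φ ξ τ ∅ f = 0 := by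
  rw [f.as_sum, TH_sum]
  refine Finset.sum_eq_zero fun m hm => ?_
  have h1 : m.degree = k := by
    have h2 := hf (mem_support_iff.1 hm)
    rw [Finsupp.degree_eq_weight_one (R := ℕ)]
    exact h2
  have h3 : monomial m (coeff m f) = C (coeff m f) * monomial m 1 := by
    rw [C_mul_monomial, mul_one]
  rw [h3, TH_C, T_low hφ hg τ hτ (d - 1 - k) m (by omega), mul_zero]

end Pool.Agent.H48.Fan
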