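import Pool.Agent.H128.Fan.Defs

set_option autoImplicit false
set_option linter.unusedSectionVars false

/-! Complete simplicial fans: stars are acyclic, and the twisted boundary squares to zero. -/

namespace Pool.Agent.H152.FanT07

open Pool.Agent.Helper611 Pool.Agent.Helper611.ZBase Pool.Agent.Helper611.KRel
  Pool.Agent.Helper611.KVal Pool.Agent.Helper611.UStr
  Pool.Agent.H252R2.Lef1 Pool.Agent.H252R2.Lef7
  Pool.Agent.H252R2.CDNum Pool.Agent.H252R2.Top2 Pool.Agent.H128.SRing Pool.Agent.H128.Fan
open MvPolynomial Module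

variable {V : Type} [Fintype V] [LinearOrder V] {d : ℕ} {Γ : Cx V} {p : V → (Fin d → ℝ)}
  {φ : Finset V → V → Module.Dual ℝ (Fin d → ℝ)} {ξ : Fin d → ℝ}

/-- the cone over a chain -/
theorem bd_cone {M : Type*} [AddCommGroup M] (u : V) (c : Finset V → M) (ρ : Finset V)
    (h : u ∈ ρ → bd c (ρ.erase u) = 0) :
    bd (fun s => if u ∈ s then sgn u (s.erase u) • c (s.erase u) else 0) ρ = c ρ := by
  by_cases hu : u ∈ ρ
  · have h0 := h hu
    obtain ⟨ρ', hρ'⟩ : ∃ ρ', ρ' = ρ.erase u := ⟨_, rfl⟩
    rw [← hρ'] at h0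
    have hins : insert u ρ' = ρ := by rw [hρ', Finset.insert_erase hu]
    have hu' : u ∉ ρ' := by rw [hρ']; exact Finset.notMem_erase _ _
    have hcompl : ρ'ᶜ = insert u ρᶜ := by
      rw [← hins]
      ext x
      simp only [Finset.mem_compl, Finset.mem_insert, not_or]
      constructor
      · intro hx
        by_cases hxu : x = u
        · exact Or.inl hxu
        · exact Or.inr ⟨hxu, hx⟩
      · rintro (hx | hx)
        · rw [hx]
          exact hu'
        · exact hx.2
    have huc : u ∉ ρᶜ := by
      rw [Finset.mem_compl, not_not]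
      exact hu
    unfold bd at h0
    rw [hcompl, Finset.sum_insert huc, hins] at h0
    unfold bd
    have h1 : ∀ x ∈ ρᶜ, sgn x ρ • (if u ∈ insert x ρ then
        sgn u ((insert x ρ).erase u) • c ((insert x ρ).erase u) else 0) =
        (-sgn u ρ') • (sgn x ρ' • c (insert x ρ')) := by
      intro x hx
      rw [Finset.mem_compl] at hx
      have hxu : x ≠ u := fun h => hx (h ▸ hu)
      have hx' : x ∉ ρ' := by
        rw [hρ']
        exact fun h => hx (Finset.mem_of_mem_erase h)
      have e1 : (insert x ρ).erase u = insert x ρ' := by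
        rw [hρ', Finset.erase_insert_of_ne hxu]
      rw [if_pos (Finset.mem_insert_of_mem hu), e1, smul_smul, smul_smul]
      congr 1
      have e2 := sgn_swap' x u ρ' hxu hx' hu'
      rw [hins] at e2
      have e3 := sgn_mul_self u ρ'
      have e4 := sgn_mul_self u (insert x ρ')
      calc sgn x ρ * sgn u (insert x ρ')
          = (sgn x ρ * sgn u ρ') * (sgn u ρ' * sgn u (insert x ρ')) := by
            have e5 : (sgn x ρ * sgn u ρ') * (sgn u ρ' * sgn u (insert x ρ')) =
                sgn x ρ * sgn u (insert x ρ') * (sgn u ρ' * sgn u ρ') := by ring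
            rw [e5, e3, mul_one]
        _ = -(sgn u (insert x ρ') * sgn x ρ') * (sgn u ρ' * sgn u (insert x ρ')) := by rw [e2]
        _ = -sgn u ρ' * sgn x ρ' * (sgn u (insert x ρ') * sgn u (insert x ρ')) := by ring
        _ = -sgn u ρ' * sgn x ρ' := by rw [e4, mul_one]
    rw [Finset.sum_congr rfl h1, ← Finset.smul_sum]
    have h2 : ∑ x ∈ ρᶜ, sgn x ρ' • c (insert x ρ') = -(sgn u ρ' • c ρ) :=
      eq_neg_of_add_eq_zero_right h0
    rw [h2, smul_neg, neg_smul, neg_neg, smul_smul, sgn_mul_self, one_smul]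
  · unfold bd
    rw [Finset.sum_eq_single u]
    · beta_reduce
      rw [if_pos (Finset.mem_insert_self _ _), Finset.erase_insert hu, smul_smul, sgn_mul_self,
        one_smul]
    · intro x _ hxu
      have : u ∉ insert x ρ := by
        rw [Finset.mem_insert, not_or]
        exact ⟨fun h => hxu h.symm, hu⟩
      beta_reduce
      rw [if_neg this, smul_zero]
    · intro h
      exact absurd (Finset.mem_compl.2 hu) h

/-- T07. -/
theorem star_acy {M : Type*} [AddCommGroup M] (H : Finset V) (hH : H ∈ Γ.faces)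
    (h : ∀ (τ : Finset V) (k : ℕ), k < d → Acy Γ M τ k) :
    ∀ (τ : Finset V) (k : ℕ), k < d → Acy (stc Γ H) M τ k := by
  intro τ k hk c hc hcyc
  by_cases hτ : τ ∪ H ∈ Γ.faces
  · by_cases hHτ : H ⊆ τ
    · -- the same faces
      have key : ∀ σ : Finset V, τ ⊆ σ → (σ ∈ (stc Γ H).faces ↔ σ ∈ Γ.faces) := by
        intro σ hσ
        rw [mem_stc hH, Finset.union_eq_left.2 (hHτ.trans hσ)]
      obtain ⟨b, hb1, hb2⟩ := h τ k hk c
        (fun σ hσ => ⟨(key σ (hc σ hσ).2.1).1 (hc σ hσ).1, (hc σ hσ).2⟩) hcyc
      exact ⟨b, fun σ hσ => ⟨(key σ (hb1 σ hσ).2.1).2 (hb1 σ hσ).1, (hb1 σ hσ).2⟩, hb2⟩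
    · obtain ⟨u, huH, huτ⟩ := Finset.not_subset.1 hHτ
      refine ⟨fun s => if u ∈ s then sgn u (s.erase u) • c (s.erase u) else 0, ?_, ?_⟩
      · intro σ hσ
        simp only [ne_eq, ite_eq_right_iff, Classical.not_imp] at hσ
        obtain ⟨hu, hne⟩ := hσ
        have hc' : c (σ.erase u) ≠ 0 := by
          intro h0
          rw [h0, smul_zero] at hne
          exact hne rfl
        obtain ⟨h1, h2, h3⟩ := hc _ hc'
        refine ⟨?_, h2.trans (Finset.erase_subset _ _), ?_⟩
        · rw [mem_stc hH] at h1 ⊢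
          have e : σ ∪ H = σ.erase u ∪ H := by
            ext x
            simp only [Finset.mem_union, Finset.mem_erase]
            constructor
            · rintro (hx | hx)
              · by_cases hxu : x = u
                · right
                  rw [hxu]
                  exact huH
                · exact Or.inl ⟨hxu, hx⟩
              · exact Or.inr hx
            · rintro (hx | hx)
              · exact Or.inl hx.2
              · exact Or.inr hx
          rw [e]
          exact h1
        · rw [← h3, Finset.card_erase_add_one hu]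
      · intro ρ hρ
        refine bd_cone u c ρ fun hu => hcyc _ ?_
        intro x hx
        refine Finset.mem_erase.2 ⟨?_, hρ hx⟩
        intro hxu
        rw [hxu] at hx
        exact huτ hx
  · -- no faces
    have hc0 : ∀ σ, c σ = 0 := by
      intro σ
      by_contra hne
      obtain ⟨h1, h2, _⟩ := hc σ hne
      rw [mem_stc hH] at h1
      exact hτ (Γ.down _ h1 _ (Finset.union_subset_union_left h2))
    refine ⟨0, fun σ hσ => absurd rfl hσ, fun ρ _ => ?_⟩
    rw [bd_zero, hc0]

/-- T22. -/
theorem xb_xb (H : Finset V) (a : Finset V → MvPolynomial V ℝ) (G : Finset V) :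
    xb H (xb H a) G = 0 := by
  unfold xb
  have h1 : ∀ v ∈ (G ∪ H)ᶜ, sgn v G • (X v * ∑ w ∈ (insert v G ∪ H)ᶜ,
      sgn w (insert v G) • (X w * a (insert w (insert v G)))) =
      ∑ w ∈ ((G ∪ H)ᶜ).erase v, (sgn v G * sgn w (insert v G)) •
        ((X v * X w : MvPolynomial V ℝ) * a (insert w (insert v G))) := by
    intro v _
    rw [Finset.insert_union, Finset.compl_insert, Finset.mul_sum, Finset.smul_sum]
    refine Finset.sum_congr rfl fun w _ => ?_
    rw [mul_smul_comm, smul_smul, mul_assoc]
  rw [Finset.sum_congr rfl h1]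
  apply sum_anti
  intro v hv w hw hvw
  have hv' : v ∉ G := fun h => Finset.mem_compl.1 hv (Finset.mem_union_left _ h)
  have hw' : w ∉ G := fun h => Finset.mem_compl.1 hw (Finset.mem_union_left _ h)
  rw [sgn_swap v w G hvw hv' hw', Finset.insert_comm, neg_smul, mul_comm (X v) (X w)]

end Pool.Agent.H152.FanT07
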