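import Pool.Agent.H128.Fan.Defs

set_option autoImplicit false
set_option linter.unusedSectionVars false

/-! Dimensions of the Artinian reduction of a Cohen-Macaulay complex (task T08 of helper128). -/

namespace Pool.Agent.H672.Fan

open Pool.Agent.Helper611 Pool.Agent.Helper611.ZBase Pool.Agent.Helper611.KRel
  Pool.Agent.Helper611.KVal Pool.Agent.Helper611.UStr
  Pool.Agent.H252R2.Lef1 Pool.Agent.H252R2.Lef2 Pool.Agent.H252R2.Lef7
  Pool.Agent.H252R2.CDNum Pool.Agent.H252R2.Top2 Pool.Agent.H128.SRing Pool.Agent.H128.Fan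
  Pool.Agent.H128.SDim
open MvPolynomial Module

variable {V : Type} [Fintype V] [LinearOrder V] {d : ℕ} {Γ : Cx V} {p : V → (Fin d → ℝ)}
  {φ : Finset V → V → Module.Dual ℝ (Fin d → ℝ)} {ξ : Fin d → ℝ}

lemma card_le (S : Cx V) (hp : ∀ σ ∈ S.faces, LinearIndependent ℝ (fun v : σ => p v))
    (σ : Finset V) (hσ : σ ∈ S.faces) : σ.card ≤ d := by
  have h1 := (hp σ hσ).fintype_card_le_finrank
  rwa [Fintype.card_coe, Module.finrank_fin_fun] at h1

lemma St_top (S : Cx V) (hp : ∀ σ ∈ S.faces, LinearIndependent ℝ (fun v : σ => p v)) (k : ℕ)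
    (hk : d < k) : St S p k = ⊥ := by
  rw [eq_bot_iff]
  intro l hl
  rw [Submodule.mem_bot]
  funext σ
  by_contra h6
  obtain ⟨h7, h8⟩ := hl.1 σ h6
  have := card_le S hp σ h7
  omega

/-- a vector in the kernel of the map to the graded piece -/
lemma ker_eq (S : Cx V) (hφ : Coord S p φ) (k : ℕ)
    (hdim : finrank ℝ (MM S φ ξ (k + 1)) = finrank ℝ (MM S φ ξ k) + finrank ℝ (AA S p k))
    (f : MvPolynomial V ℝ) (hf : f.IsHomogeneous k) (hev : ev S φ ξ f ∈ MM S φ ξ k) :
    f ∈ JJ S p := by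
  have hfin : FiniteDimensional ℝ (homogeneousSubmodule V ℝ k) :=
    Module.Finite.iff_fg.2 (homogeneousSubmodule_fg V ℝ k)
  let q : (homogeneousSubmodule V ℝ k) →ₗ[ℝ] (Rg S d ℝ ⧸ MM S φ ξ k) :=
    (Submodule.mkQ (MM S φ ξ k)).comp ((ev S φ ξ).toLinearMap.comp
      (homogeneousSubmodule V ℝ k).subtype)
  let a : (homogeneousSubmodule V ℝ k) →ₗ[ℝ] QQ S p :=
    (Ideal.Quotient.mkₐ ℝ (JJ S p)).toLinearMap.comp (homogeneousSubmodule V ℝ k).subtype
  have hra : LinearMap.range a = AA S p k := by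
    show LinearMap.range ((Ideal.Quotient.mkₐ ℝ (JJ S p)).toLinearMap.comp
      (homogeneousSubmodule V ℝ k).subtype) = _
    rw [LinearMap.range_comp, Submodule.range_subtype]
    rfl
  have hker : LinearMap.ker a ≤ LinearMap.ker q := by
    intro f hf
    have h1 : (f : MvPolynomial V ℝ) ∈ JJ S p := Ideal.Quotient.eq_zero_iff_mem.1 hf
    have h2 := ev_J (e := ξ) hφ _ h1 k
    rw [homogeneousComponent_eq_self f.2] at h2
    show Submodule.Quotient.mk (ev S φ ξ f) = (0 : Rg S d ℝ ⧸ MM S φ ξ k)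
    exact (Submodule.Quotient.mk_eq_zero _).2 h2
  have h1 := LinearMap.finrank_range_add_finrank_ker a
  have h2 := LinearMap.finrank_range_add_finrank_ker q
  have h3 := Submodule.finrank_mono hker
  rw [hra] at h1
  have h4 : (NN S φ ξ k).map (Submodule.mkQ (MM S φ ξ k)) ≤ LinearMap.range q := by
    rintro _ ⟨x, hx, rfl⟩
    unfold NN at hx
    induction hx using Submodule.span_induction with
    | mem x hx =>
      obtain ⟨m, hm, rfl⟩ := hx
      refine ⟨⟨monomial m 1, isHomogeneous_monomial _ hm⟩, ?_⟩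
      show Submodule.mkQ (MM S φ ξ k) (ev S φ ξ (monomial m 1)) = _
      rw [ev_monomial, one_smul]
    | zero => rw [map_zero]; exact Submodule.zero_mem _
    | add a b _ _ ha hb => rw [map_add]; exact Submodule.add_mem _ ha hb
    | smul r a _ ha => rw [map_smul]; exact Submodule.smul_mem _ _ ha
  have h5 := Submodule.finrank_mono h4
  have h6 := KDim.fr_map ℝ (Submodule.mkQ (MM S φ ξ k)) (NN S φ ξ k)
  have h7 : (NN S φ ξ k ⊓ LinearMap.ker (Submodule.mkQ (MM S φ ξ k)) : Submodule ℝ _) ≤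
      MM S φ ξ k := by
    rw [Submodule.ker_mkQ]
    exact inf_le_right
  have h8 := Submodule.finrank_mono h7
  rw [MM_succ] at hdim
  have h9 : LinearMap.ker a = LinearMap.ker q :=
    Submodule.eq_of_le_of_finrank_le hker (by omega)
  have h10 : (⟨f, hf⟩ : homogeneousSubmodule V ℝ k) ∈ LinearMap.ker q := by
    show Submodule.Quotient.mk (ev S φ ξ f) = (0 : Rg S d ℝ ⧸ MM S φ ξ k)
    exact (Submodule.Quotient.mk_eq_zero _).2 hev
  rw [← h9] at h10
  exact Ideal.Quotient.eq_zero_iff_mem.1 h10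

/-- T08. -/
theorem ring_dim (S : Cx V) (hp : ∀ σ ∈ S.faces, LinearIndependent ℝ (fun v : σ => p v))
    (hφ : Coord S p φ) (hz : Nz S φ ξ)
    (hacy : ∀ (τ : Finset V) (k s : ℕ), k < d →
      AcyP (fun σ => σ ∈ S.faces) (⋀[ℝ]^s (Fin d → ℝ)) τ k) :
    (∀ k, k ≤ d → (finrank ℝ (AA S p k) : ℤ) = hn d (fnum S) k) ∧
    (∀ k, d < k → ∀ f : MvPolynomial V ℝ, f.IsHomogeneous k → f ∈ JJ S p) ∧
    (∀ k, k ≤ d + 1 → (finrank ℝ (MM S φ ξ k) : ℤ) = ∑ j ∈ Finset.range k, hn d (fnum S) j) ∧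
    (∑ k ∈ Finset.range (d + 1), finrank ℝ (AA S p k) = Fintype.card (Fc S d)) ∧
    ∀ k (f : MvPolynomial V ℝ), f.IsHomogeneous k → ev S φ ξ f ∈ MM S φ ξ k → f ∈ JJ S p := by
  classical
  have hdual := dual_of_li hp
  have hh := St_hn S p φ hφ hdual hacy
  have hcardF : (Fintype.card (Fc S d) : ℤ) = fnum S d := by
    unfold fnum Fc
    rw [Fintype.card_subtype]
    congr 2
    ext σ
    simp
  have hsum : ∑ t ∈ Finset.range (d + 1), finrank ℝ (St S p t) = Fintype.card (Fc S d) := by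
    have h1 := sum_hn d (fnum S)
    rw [← hcardF] at h1
    have h2 : ∑ t ∈ Finset.range (d + 1), hn d (fnum S) t =
        ∑ t ∈ Finset.range (d + 1), (finrank ℝ (St S p t) : ℤ) :=
      Finset.sum_congr rfl fun t ht => (hh t (by have := Finset.mem_range.1 ht; omega)).symm
    rw [h2] at h1
    exact_mod_cast h1
  have hMM := MM_dim hφ hz (fun t => finrank ℝ (St S p t)) (fun t _ => le_rfl) hsum
  have hAS : ∀ k, k ≤ d → finrank ℝ (AA S p k) = finrank ℝ (St S p k) := by
    intro k hk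
    have h1 := hMM k (by omega)
    have h2 := hMM (k + 1) (by omega)
    rw [Finset.sum_range_succ] at h2
    have h3 := AA_ge (e := ξ) hφ k
    have h4 := AA_le hφ k
    omega
  have htop : ∀ k, d < k → ∀ f : MvPolynomial V ℝ, f.IsHomogeneous k → f ∈ JJ S p := by
    intro k hk f hf
    have h4 := AA_le hφ k
    rw [St_top S hp k hk, finrank_bot] at h4
    have h5 : AA S p k = ⊥ := Submodule.finrank_eq_zero.1 (by omega)
    have h6 := mem_AA (Γ := S) (p := p) k f hf
    rw [h5, Submodule.mem_bot] at h6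
    exact Ideal.Quotient.eq_zero_iff_mem.1 h6
  refine ⟨fun k hk => ?_, htop, fun k hk => ?_, ?_, fun k f hf hev => ?_⟩
  · rw [hAS k hk, hh k hk]
  · rw [hMM k hk, Nat.cast_sum]
    exact Finset.sum_congr rfl fun t ht => hh t (by have := Finset.mem_range.1 ht; omega)
  · rw [← hsum]
    exact Finset.sum_congr rfl fun t ht => hAS t (by have := Finset.mem_range.1 ht; omega)
  · by_cases hk : k ≤ d
    · refine ker_eq S hφ k ?_ f hf hev
      rw [hMM k (by omega), hMM (k + 1) (by omega), Finset.sum_range_succ, hAS k hk]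
    · exact htop k (by omega) f hf

end Pool.Agent.H672.Fan
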