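import Pool.Agent.H128.Fan.Defs

set_option autoImplicit false
set_option linter.unusedSectionVars false

/-! T09 of the fan project: facets by number of negative coordinates are counted by the
h-numbers. -/

namespace Pool.Agent.H93.FanT09

open Pool.Agent.Helper611 Pool.Agent.Helper611.ZBase Pool.Agent.Helper611.KRel
  Pool.Agent.Helper611.KVal Pool.Agent.Helper611.UStr
  Pool.Agent.H252R2.Lef1 Pool.Agent.H252R2.Lef7
  Pool.Agent.H252R2.CDNum Pool.Agent.H252R2.Top2 Pool.Agent.H128.SRing Pool.Agent.H128.Fan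
open MvPolynomial Module

section arith

lemma alt0 (m r : ℕ) (hr : r ≤ m) :
    ∑ i ∈ Finset.range (r + 1), (-1 : ℤ) ^ (r - i) * (((m - i).choose (r - i) : ℕ) : ℤ) *
      ((m.choose i : ℕ) : ℤ) = if r = 0 then 1 else 0 := by
  have h1 : ∀ i ∈ Finset.range (r + 1),
      (-1 : ℤ) ^ (r - i) * (((m - i).choose (r - i) : ℕ) : ℤ) * ((m.choose i : ℕ) : ℤ) =
        ((-1 : ℤ) ^ r * ((m.choose r : ℕ) : ℤ)) * ((-1 : ℤ) ^ i * ((r.choose i : ℕ) : ℤ)) := by
    intro i hi
    have hi' : i ≤ r := Nat.lt_succ_iff.1 (Finset.mem_range.1 hi)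
    have h2 : m.choose r * r.choose i = m.choose i * (m - i).choose (r - i) :=
      Nat.choose_mul hi'
    have h3 : ((m.choose r : ℕ) : ℤ) * ((r.choose i : ℕ) : ℤ) =
        ((m.choose i : ℕ) : ℤ) * (((m - i).choose (r - i) : ℕ) : ℤ) := by exact_mod_cast h2
    have h4 : (-1 : ℤ) ^ (r - i) = (-1) ^ r * (-1) ^ i := by
      have h5 : (-1 : ℤ) ^ r = (-1) ^ (r - i) * (-1) ^ i := by
        rw [← pow_add, Nat.sub_add_cancel hi']
      rw [h5, mul_assoc, ← mul_pow]
      simp
    rw [h4]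
    linear_combination (-(-1 : ℤ) ^ r * (-1) ^ i) * h3
  rw [Finset.sum_congr rfl h1, ← Finset.mul_sum, Int.alternating_sum_range_choose]
  by_cases h : r = 0
  · subst h
    simp
  · simp [h]

lemma altn (d n k : ℕ) (hk : k ≤ d) :
    ∑ j ∈ Finset.range (k + 1), (-1 : ℤ) ^ (k - j) * (((d - j).choose (k - j) : ℕ) : ℤ) *
      (if n ≤ j then (((d - n).choose (j - n) : ℕ) : ℤ) else 0) = if n = k then 1 else 0 := by
  by_cases hnk : n ≤ k
  · have h1 : ∑ j ∈ Finset.range (k + 1), (-1 : ℤ) ^ (k - j) *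
        (((d - j).choose (k - j) : ℕ) : ℤ) *
        (if n ≤ j then (((d - n).choose (j - n) : ℕ) : ℤ) else 0) =
        ∑ j ∈ Finset.Ico n (k + 1), (-1 : ℤ) ^ (k - j) *
        (((d - j).choose (k - j) : ℕ) : ℤ) * (((d - n).choose (j - n) : ℕ) : ℤ) := by
      symm
      refine Finset.sum_subset_zero_on_sdiff (fun j hj => ?_) (fun j hj => ?_) (fun j hj => ?_)
      · rw [Finset.mem_Ico] at hj
        exact Finset.mem_range.2 hj.2
      · rw [Finset.mem_sdiff, Finset.mem_range, Finset.mem_Ico] at hj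
        rw [if_neg (by omega), mul_zero]
      · rw [Finset.mem_Ico] at hj
        rw [if_pos hj.1]
    rw [h1, Finset.sum_Ico_eq_sum_range]
    have h2 := alt0 (d - n) (k - n) (by omega)
    have h3 : k + 1 - n = k - n + 1 := by omega
    rw [h3]
    have h4 : (if n = k then (1 : ℤ) else 0) = if k - n = 0 then 1 else 0 := by
      by_cases h : n = k
      · rw [if_pos h, if_pos (by omega)]
      · rw [if_neg h, if_neg (by omega)]
    rw [h4, ← h2]
    refine Finset.sum_congr rfl fun i hi => ?_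
    have hi' := Finset.mem_range.1 hi
    have e1 : k - (n + i) = k - n - i := by omega
    have e2 : d - (n + i) = d - n - i := by omega
    have e3 : n + i - n = i := by omega
    rw [e1, e2, e3]
  · rw [if_neg (by omega)]
    refine Finset.sum_eq_zero fun j hj => ?_
    have hj' := Finset.mem_range.1 hj
    rw [if_neg (by omega), mul_zero]

end arith

variable {V : Type} [Fintype V] [LinearOrder V] {d : ℕ} {Γ : Cx V} {p : V → (Fin d → ℝ)}
  {φ : Finset V → V → Module.Dual ℝ (Fin d → ℝ)} {ξ : Fin d → ℝ}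

/-- negative vertices of `G` outside `H` -/
noncomputable def NegS (φ : Finset V → V → Module.Dual ℝ (Fin d → ℝ)) (ξ : Fin d → ℝ)
    (H G : Finset V) : Finset V := by
  classical exact (G \ H).filter fun v => φ G v ξ < 0

lemma neg_eq (H G : Finset V) : neg φ ξ H G = (NegS φ ξ H G).card := rfl

lemma mem_NegS {H G : Finset V} {v : V} :
    v ∈ NegS φ ξ H G ↔ v ∈ G ∧ v ∉ H ∧ φ G v ξ < 0 := by
  classical
  unfold NegS
  rw [Finset.mem_filter, Finset.mem_sdiff]
  tauto

lemma NegS_sub (H G : Finset V) : NegS φ ξ H G ⊆ G := fun _ hv => (mem_NegS.1 hv).1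

lemma card_between {V : Type} [DecidableEq V] (N G : Finset V) (hNG : N ⊆ G) (j : ℕ) :
    ((G.powerset.filter fun s => N ⊆ s ∧ s.card = j).card : ℤ) =
      if N.card ≤ j then (((G.card - N.card).choose (j - N.card) : ℕ) : ℤ) else 0 := by
  by_cases h : N.card ≤ j
  · rw [if_pos h]
    have h1 : (G.powerset.filter fun s => N ⊆ s ∧ s.card = j) =
        ((G \ N).powersetCard (j - N.card)).image (fun t => N ∪ t) := by
      ext s
      rw [Finset.mem_filter, Finset.mem_powerset, Finset.mem_image]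
      constructor
      · rintro ⟨h1, h2, h3⟩
        refine ⟨s \ N, ?_, Finset.union_sdiff_of_subset h2⟩
        rw [Finset.mem_powersetCard]
        refine ⟨Finset.sdiff_subset_sdiff h1 (Finset.Subset.refl _), ?_⟩
        rw [Finset.card_sdiff_of_subset h2, h3]
      · rintro ⟨t, ht, rfl⟩
        rw [Finset.mem_powersetCard] at ht
        have hd : Disjoint N t := by
          rw [Finset.disjoint_left]
          intro a ha hat
          exact (Finset.mem_sdiff.1 (ht.1 hat)).2 ha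
        refine ⟨Finset.union_subset hNG (ht.1.trans Finset.sdiff_subset),
          Finset.subset_union_left, ?_⟩
        rw [Finset.card_union_of_disjoint hd, ht.2]
        omega
    rw [h1, Finset.card_image_of_injOn, Finset.card_powersetCard, Finset.card_sdiff_of_subset hNG]
    intro s hs t ht hst
    have hs' := (Finset.mem_powersetCard.1 (Finset.mem_coe.1 hs)).1
    have ht' := (Finset.mem_powersetCard.1 (Finset.mem_coe.1 ht)).1
    have key : ∀ u : Finset V, u ⊆ G \ N → (N ∪ u) \ N = u := by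
      intro u hu
      ext a
      rw [Finset.mem_sdiff, Finset.mem_union]
      constructor
      · rintro ⟨h1 | h1, h2⟩
        · exact absurd h1 h2
        · exact h1
      · intro ha
        exact ⟨Or.inr ha, (Finset.mem_sdiff.1 (hu ha)).2⟩
    rw [← key s hs', ← key t ht']
    exact congrArg (fun u => u \ N) hst
  · rw [if_neg h, Nat.cast_eq_zero, Finset.card_eq_zero, Finset.filter_eq_empty_iff]
    rintro s _ ⟨h1, h2⟩
    exact h (h2 ▸ Finset.card_le_card h1)

lemma fnum_eq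
    (hC : ∀ H ∈ Γ.faces,
      ∃! G : Finset V, G ∈ Γ.faces ∧ G.card = d ∧ H ⊆ G ∧ ∀ v ∈ G \ H, 0 < φ G v ξ)
    (hz : Nz Γ φ ξ) (H : Finset V) (hH : H ∈ Γ.faces) (j : ℕ) :
    fnum (stc Γ H) j = ∑ G ∈ Γ.faces.filter (fun G => G.card = d ∧ H ⊆ G),
      (if neg φ ξ H G ≤ j then (((d - neg φ ξ H G).choose (j - neg φ ξ H G) : ℕ) : ℤ) else 0) := by
  classical
  set S := (stc Γ H).faces.filter fun F => F.card = j with hS
  set 𝒢 := Γ.faces.filter (fun G => G.card = d ∧ H ⊆ G) with h𝒢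
  have h1 : ∀ s ∈ S, (Finset.bipartiteAbove
      (fun (s G : Finset V) => NegS φ ξ H G ⊆ s ∧ s ⊆ G) 𝒢 s).card = 1 := by
    intro s hs
    rw [hS, Finset.mem_filter, mem_stc hH] at hs
    obtain ⟨G, ⟨hG1, hG2, hG3, hG4⟩, huniq⟩ := hC (s ∪ H) hs.1
    rw [Finset.card_eq_one]
    refine ⟨G, ?_⟩
    ext G'
    rw [Finset.mem_bipartiteAbove, Finset.mem_singleton, h𝒢, Finset.mem_filter]
    constructor
    · rintro ⟨⟨g1, g2, g3⟩, g4, g5⟩
      refine huniq G' ⟨g1, g2, Finset.union_subset g5 g3, ?_⟩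
      intro v hv
      rw [Finset.mem_sdiff, Finset.mem_union] at hv
      rcases lt_trichotomy (φ G' v ξ) 0 with h | h | h
      · exact absurd (Or.inl (g4 (mem_NegS.2 ⟨hv.1, fun h' => hv.2 (Or.inr h'), h⟩))) hv.2
      · exact absurd h (hz G' g1 g2 v hv.1)
      · exact h
    · rintro rfl
      refine ⟨⟨hG1, hG2, Finset.subset_union_right.trans hG3⟩, ?_,
        Finset.subset_union_left.trans hG3⟩
      intro v hv
      obtain ⟨v1, v2, v3⟩ := mem_NegS.1 hv
      by_contra hvs
      have := hG4 v (Finset.mem_sdiff.2 ⟨v1, fun h => by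
        rcases Finset.mem_union.1 h with h | h
        · exact hvs h
        · exact v2 h⟩)
      exact absurd this (not_lt.2 v3.le)
  have h2 : fnum (stc Γ H) j = ∑ s ∈ S, ((Finset.bipartiteAbove
      (fun (s G : Finset V) => NegS φ ξ H G ⊆ s ∧ s ⊆ G) 𝒢 s).card : ℤ) := by
    rw [Finset.sum_congr rfl (fun s hs => by rw [h1 s hs])]
    unfold fnum
    rw [Finset.sum_const]
    simp [hS]
  rw [h2, ← Nat.cast_sum,
    Finset.sum_card_bipartiteAbove_eq_sum_card_bipartiteBelow, Nat.cast_sum]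
  refine Finset.sum_congr rfl fun G hG => ?_
  rw [h𝒢, Finset.mem_filter] at hG
  have h3 : Finset.bipartiteBelow (fun (s G : Finset V) => NegS φ ξ H G ⊆ s ∧ s ⊆ G) S G =
      G.powerset.filter fun s => NegS φ ξ H G ⊆ s ∧ s.card = j := by
    ext s
    rw [Finset.mem_bipartiteBelow, hS, Finset.mem_filter, Finset.mem_filter, Finset.mem_powerset,
      mem_stc hH]
    constructor
    · rintro ⟨⟨_, a2⟩, a3, a4⟩
      exact ⟨a4, a3, a2⟩
    · rintro ⟨a1, a2, a3⟩
      exact ⟨⟨Γ.down G hG.1 _ (Finset.union_subset a1 hG.2.2), a3⟩, a2, a1⟩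
  rw [h3, card_between _ _ (NegS_sub H G), hG.2.1]
  rfl

set_option linter.unusedVariables false in
/-- T09. -/
theorem count (hs : ∀ σ ∈ Γ.faces, σ.card ≤ d)
    (hC : ∀ H ∈ Γ.faces,
      ∃! G : Finset V, G ∈ Γ.faces ∧ G.card = d ∧ H ⊆ G ∧ ∀ v ∈ G \ H, 0 < φ G v ξ)
    (hz : Nz Γ φ ξ) (H : Finset V) (hH : H ∈ Γ.faces) (k : ℕ) (hk : k ≤ d) :
    (((Γ.faces.filter (fun G => G.card = d ∧ H ⊆ G)).filter fun G => neg φ ξ H G = k).card : ℤ) =
      hn d (fnum (stc Γ H)) k := by
  unfold hn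
  rw [Finset.sum_congr rfl (fun j _ => by rw [fnum_eq hC hz H hH j, Finset.mul_sum]),
    Finset.sum_comm]
  rw [Finset.sum_congr rfl (fun G _ => altn d (neg φ ξ H G) k hk)]
  rw [Finset.sum_boole]

end Pool.Agent.H93.FanT09
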