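import Pool.Agent.H128.Fan.Defs

set_option autoImplicit false
set_option linter.unusedSectionVars false

/-! T10 (helper641 for helper128): the Charney-Davis number of a link as a signed facet count. -/

namespace Pool.Agent.H641.Fan

open Pool.Agent.Helper611 Pool.Agent.Helper611.ZBase Pool.Agent.Helper611.KRel
  Pool.Agent.Helper611.KVal Pool.Agent.Helper611.UStr
  Pool.Agent.H252R2.Lef1 Pool.Agent.H252R2.Lef7
  Pool.Agent.H252R2.CDNum Pool.Agent.H252R2.Top2 Pool.Agent.H128.SRing Pool.Agent.H128.Fan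
open MvPolynomial Module

variable {V : Type} [Fintype V] [LinearOrder V] {d : ℕ} {Γ : Cx V} {p : V → (Fin d → ℝ)}
  {φ : Finset V → V → Module.Dual ℝ (Fin d → ℝ)} {ξ : Fin d → ℝ}

/-- sum over an interval of finite sets -/
lemma sum_between (N A : Finset V) (h : N ⊆ A) :
    ∑ σ ∈ A.powerset.filter (fun σ => N ⊆ σ), (-1 / 2 : ℚ) ^ σ.card =
      (1 / 2) ^ A.card * (-1) ^ N.card := by
  have h1 : ∑ σ ∈ A.powerset.filter (fun σ => N ⊆ σ), (-1 / 2 : ℚ) ^ σ.card =
      ∑ ρ ∈ (A \ N).powerset, (-1 / 2 : ℚ) ^ (ρ.card + N.card) := by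
    symm
    refine Finset.sum_bij' (fun ρ _ => ρ ∪ N) (fun σ _ => σ \ N) ?_ ?_ ?_ ?_ ?_
    · intro ρ hρ
      rw [Finset.mem_powerset] at hρ
      rw [Finset.mem_filter, Finset.mem_powerset]
      exact ⟨Finset.union_subset (hρ.trans Finset.sdiff_subset) h, Finset.subset_union_right⟩
    · intro σ hσ
      rw [Finset.mem_filter, Finset.mem_powerset] at hσ
      rw [Finset.mem_powerset]
      exact Finset.sdiff_subset_sdiff hσ.1 le_rfl
    · intro ρ hρ
      rw [Finset.mem_powerset] at hρ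
      have hd : Disjoint ρ N := Finset.disjoint_of_subset_left hρ Finset.sdiff_disjoint
      rw [Finset.union_sdiff_cancel_right hd]
    · intro σ hσ
      rw [Finset.mem_filter, Finset.mem_powerset] at hσ
      exact Finset.sdiff_union_of_subset hσ.2
    · intro ρ hρ
      rw [Finset.mem_powerset] at hρ
      have hd : Disjoint ρ N := Finset.disjoint_of_subset_left hρ Finset.sdiff_disjoint
      rw [Finset.card_union_of_disjoint hd]
  rw [h1]
  have h2 := Finset.sum_pow_mul_eq_add_pow (-1 / 2 : ℚ) 1 (A \ N)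
  simp only [one_pow, mul_one] at h2
  simp_rw [pow_add]
  rw [← Finset.sum_mul, h2]
  have h3 : A.card = (A \ N).card + N.card := by
    rw [Finset.card_sdiff_add_card_eq_card h]
  rw [h3, pow_add, mul_assoc]
  congr 1
  · norm_num
  · rw [← mul_pow]; norm_num

/-- the negative vertices -/
noncomputable def ng (φ : Finset V → V → Module.Dual ℝ (Fin d → ℝ)) (ξ : Fin d → ℝ)
    (H G : Finset V) : Finset V := by
  classical exact (G \ H).filter fun v => φ G v ξ < 0

lemma mem_ng {H G : Finset V} {v : V} : v ∈ ng φ ξ H G ↔ v ∈ G \ H ∧ φ G v ξ < 0 := by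
  classical
  unfold ng
  rw [Finset.mem_filter]

theorem link_cd
    (hC : ∀ H ∈ Γ.faces,
      ∃! G : Finset V, G ∈ Γ.faces ∧ G.card = d ∧ H ⊆ G ∧ ∀ v ∈ G \ H, 0 < φ G v ξ)
    (hz : Nz Γ φ ξ) (H : Finset V) (hH : H ∈ Γ.faces) :
    ∑ σ ∈ Γ.faces.filter (fun σ => Disjoint σ H ∧ σ ∪ H ∈ Γ.faces), (-1 / 2 : ℚ) ^ σ.card =
      (1 / 2) ^ (d - H.card) *
        ∑ G ∈ Γ.faces.filter (fun G => G.card = d ∧ H ⊆ G), (-1) ^ neg φ ξ H G := by
  classical
  have hex : ∀ σ : Finset V, ∃ G : Finset V, σ ∪ H ∈ Γ.faces →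
      (G ∈ Γ.faces ∧ G.card = d ∧ σ ∪ H ⊆ G ∧ ∀ v ∈ G \ (σ ∪ H), 0 < φ G v ξ) := by
    intro σ
    by_cases h : σ ∪ H ∈ Γ.faces
    · obtain ⟨G, hG, -⟩ := hC _ h
      exact ⟨G, fun _ => hG⟩
    · exact ⟨∅, fun h' => absurd h' h⟩
  choose g hg using hex
  have hmap : ∀ σ ∈ Γ.faces.filter (fun σ => Disjoint σ H ∧ σ ∪ H ∈ Γ.faces),
      g σ ∈ Γ.faces.filter (fun G => G.card = d ∧ H ⊆ G) := by
    intro σ hσ
    rw [Finset.mem_filter] at hσ
    obtain ⟨h1, h2, h3, -⟩ := hg σ hσ.2.2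
    rw [Finset.mem_filter]
    exact ⟨h1, h2, Finset.subset_union_right.trans h3⟩
  rw [← Finset.sum_fiberwise_of_maps_to hmap, Finset.mul_sum]
  refine Finset.sum_congr rfl fun G hG => ?_
  rw [Finset.mem_filter] at hG
  have hfib : (Γ.faces.filter (fun σ => Disjoint σ H ∧ σ ∪ H ∈ Γ.faces)).filter (fun σ => g σ = G) =
      (G \ H).powerset.filter (fun σ => ng φ ξ H G ⊆ σ) := by
    ext σ
    simp only [Finset.mem_filter, Finset.mem_powerset]
    constructor
    · rintro ⟨⟨h1, h2, h3⟩, h4⟩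
      obtain ⟨h5, h6, h7, h8⟩ := hg σ h3
      rw [h4] at h5 h6 h7 h8
      constructor
      · intro v hv
        rw [Finset.mem_sdiff]
        exact ⟨h7 (Finset.mem_union_left _ hv), Finset.disjoint_left.1 h2 hv⟩
      · intro v hv
        rw [mem_ng, Finset.mem_sdiff] at hv
        by_contra hvσ
        have := h8 v (by
          rw [Finset.mem_sdiff, Finset.mem_union]
          exact ⟨hv.1.1, fun h => h.elim hvσ hv.1.2⟩)
        linarith [hv.2]
    · rintro ⟨h1, h2⟩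
      have h3 : σ ∪ H ⊆ G := Finset.union_subset (h1.trans Finset.sdiff_subset) hG.2.2
      have h4 : σ ∪ H ∈ Γ.faces := Γ.down G hG.1 _ h3
      have h5 : Disjoint σ H := Finset.disjoint_of_subset_left h1 Finset.sdiff_disjoint
      refine ⟨⟨Γ.down _ h4 _ Finset.subset_union_left, h5, h4⟩, ?_⟩
      obtain ⟨G', -, hG'⟩ := hC _ h4
      have h6 := hG' _ (hg σ h4)
      have h7 := hG' G ⟨hG.1, hG.2.1, h3, by
        intro v hv
        rw [Finset.mem_sdiff, Finset.mem_union, not_or] at hv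
        by_contra hneg
        have h8 : φ G v ξ ≠ 0 := hz G hG.1 hG.2.1 v hv.1
        have h9 : φ G v ξ < 0 := lt_of_le_of_ne (not_lt.1 hneg) h8
        exact hv.2.1 (h2 (mem_ng.2 ⟨Finset.mem_sdiff.2 ⟨hv.1, hv.2.2⟩, h9⟩))⟩
      rw [h6, h7]
  rw [hfib, sum_between _ _ (fun v hv => (mem_ng.1 hv).1), Finset.card_sdiff_of_subset hG.2.2, hG.2.1]
  rfl

end Pool.Agent.H641.Fan
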