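import Pool.Agent.H128.Fan.Defs

set_option autoImplicit false

/-! Complete simplicial fans: the orthogonal complement of a space of functions for a weighted
scalar product (T11), and an alternating sum of partial sums of a symmetric sequence (T26). -/

namespace Pool.Agent.H795.FanT11

open Module

/-- T11. -/
theorem perp_of_dim {ι : Type} [Fintype ι] (ω : ι → ℝ) (hω : ∀ G, ω G ≠ 0)
    (U W : Submodule ℝ (ι → ℝ)) (h1 : ∀ u ∈ U, ∀ w ∈ W, ∑ G, ω G * (u G * w G) = 0)
    (h2 : finrank ℝ U + finrank ℝ W = Fintype.card ι) (F : ι → ℝ)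
    (hF : ∀ w ∈ W, ∑ G, ω G * (F G * w G) = 0) : F ∈ U := by
  classical
  let B : LinearMap.BilinForm ℝ (ι → ℝ) :=
    LinearMap.mk₂ ℝ (fun F w : ι → ℝ => ∑ G, ω G * (F G * w G))
      (fun a b w => by
        rw [← Finset.sum_add_distrib]
        exact Finset.sum_congr rfl fun G _ => by rw [Pi.add_apply]; ring)
      (fun r a w => by
        rw [smul_eq_mul, Finset.mul_sum]
        exact Finset.sum_congr rfl fun G _ => by rw [Pi.smul_apply, smul_eq_mul]; ring)
      (fun a w z => by
        rw [← Finset.sum_add_distrib]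
        exact Finset.sum_congr rfl fun G _ => by rw [Pi.add_apply]; ring)
      (fun r a w => by
        rw [smul_eq_mul, Finset.mul_sum]
        exact Finset.sum_congr rfl fun G _ => by rw [Pi.smul_apply, smul_eq_mul]; ring)
  have hB : ∀ a w : ι → ℝ, B a w = ∑ G, ω G * (a G * w G) := fun a w => rfl
  have hsymm : ∀ a w : ι → ℝ, B a w = B w a := fun a w => by
    rw [hB, hB]
    exact Finset.sum_congr rfl fun G _ => by ring
  have hsep : ∀ a : ι → ℝ, (∀ w, B a w = 0) → a = 0 := by
    intro a ha
    funext G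
    have h := ha (Pi.single G 1)
    rw [hB, Finset.sum_eq_single G (fun G' _ hne => by
      rw [Pi.single_eq_of_ne hne]; ring) (fun h => absurd (Finset.mem_univ G) h),
      Pi.single_eq_same, mul_one] at h
    exact (mul_eq_zero.mp h).resolve_left (hω G)
  have hnd : B.Nondegenerate := by
    refine ⟨hsep, fun w hw => hsep w fun a => ?_⟩
    rw [hsymm]
    exact hw a
  have hle : U ≤ B.orthogonal W := by
    intro u hu
    rw [LinearMap.BilinForm.mem_orthogonal_iff]
    intro w hw
    change B w u = 0
    rw [hsymm]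
    exact h1 u hu w hw
  have hfr : finrank ℝ U = finrank ℝ (B.orthogonal W) := by
    rw [LinearMap.BilinForm.finrank_orthogonal hnd, finrank_fintype_fun_eq_card]
    omega
  rw [Submodule.eq_of_le_of_finrank_eq hle hfr, LinearMap.BilinForm.mem_orthogonal_iff]
  intro w hw
  change B w F = 0
  rw [hsymm]
  exact hF w hw

theorem alt_half (c : ℕ → ℤ) (m : ℕ) :
    ∑ j ∈ Finset.range m, (-1 : ℤ) ^ (m - 1 - j) * ∑ i ∈ Finset.range (j + 1), c i =
      ∑ i ∈ Finset.range m, if Odd (m + i) then c i else 0 := by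
  induction m with
  | zero => simp
  | succ m ih =>
    rw [Finset.sum_range_succ]
    have e1 : ∑ j ∈ Finset.range m,
        (-1 : ℤ) ^ (m + 1 - 1 - j) * ∑ i ∈ Finset.range (j + 1), c i =
        -∑ j ∈ Finset.range m, (-1 : ℤ) ^ (m - 1 - j) * ∑ i ∈ Finset.range (j + 1), c i := by
      rw [← Finset.sum_neg_distrib]
      refine Finset.sum_congr rfl fun j hj => ?_
      have hj' := Finset.mem_range.mp hj
      have e : m + 1 - 1 - j = (m - 1 - j) + 1 := by omega
      rw [e, pow_succ]
      ring
    rw [e1, ih]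
    have e2 : m + 1 - 1 - m = 0 := by omega
    rw [e2, pow_zero, one_mul, Finset.sum_range_succ (f := fun i => c i),
      Finset.sum_range_succ (f := fun i => if Odd (m + 1 + i) then c i else 0)]
    have e3 : Odd (m + 1 + m) := ⟨m, by ring⟩
    rw [if_pos e3, ← add_assoc, ← Finset.sum_neg_distrib, ← Finset.sum_add_distrib]
    refine congrArg (· + c m) ?_
    refine Finset.sum_congr rfl fun i _ => ?_
    by_cases h : Odd (m + i)
    · have h' : ¬ Odd (m + 1 + i) := by
        rw [Nat.not_odd_iff_even]
        rw [Nat.odd_iff] at h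
        rw [Nat.even_iff]
        omega
      rw [if_pos h, if_neg h']
      ring
    · have h' : Odd (m + 1 + i) := by
        rw [Nat.not_odd_iff_even, Nat.even_iff] at h
        rw [Nat.odd_iff]
        omega
      rw [if_neg h, if_pos h']
      ring

/-- T26. -/
theorem alt_count (m : ℕ) (c : ℕ → ℤ) (hc : ∀ i, i ≤ 2 * m → c i = c (2 * m - i)) :
    2 * ∑ j ∈ Finset.range m, (-1 : ℤ) ^ (m - 1 - j) * ∑ i ∈ Finset.range (j + 1), c i =
      ∑ i ∈ (Finset.range (2 * m + 1)).filter (fun i => Odd (m + i)), c i := by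
  rw [alt_half, Finset.sum_filter]
  have e0 : 2 * m + 1 = (m + 1) + m := by omega
  rw [e0, Finset.sum_range_add, Finset.sum_range_succ]
  have e1 : ¬ Odd (m + m) := by
    rw [Nat.not_odd_iff_even]
    exact ⟨m, rfl⟩
  rw [if_neg e1, add_zero]
  have e2 : ∑ x ∈ Finset.range m, (if Odd (m + (m + 1 + x)) then c (m + 1 + x) else 0) =
      ∑ i ∈ Finset.range m, if Odd (m + i) then c i else 0 := by
    rw [← Finset.sum_range_reflect]
    refine Finset.sum_congr rfl fun i hi => ?_
    have hi' := Finset.mem_range.mp hi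
    have e3 : m + 1 + (m - 1 - i) = 2 * m - i := by omega
    rw [e3, ← hc i (by omega)]
    have e4 : Odd (m + (2 * m - i)) ↔ Odd (m + i) := by
      rw [Nat.odd_iff, Nat.odd_iff]
      omega
    simp only [e4]
  rw [e2]
  ring

end Pool.Agent.H795.FanT11
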