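import Pool.Agent.H128.Fan.Defs

/-!
# Generators of the face ring over the ring of the linear forms
-/

set_option autoImplicit false
set_option linter.unusedSectionVars false

namespace Pool.Agent.H297.FN

open Pool.Agent.Helper611 Pool.Agent.Helper611.ZBase Pool.Agent.Helper611.KRel
  Pool.Agent.Helper611.KVal Pool.Agent.Helper611.UStr
  Pool.Agent.H252R2.Lef1 Pool.Agent.H252R2.Lef7
  Pool.Agent.H252R2.CDNum Pool.Agent.H252R2.Top2 Pool.Agent.H128.SRing Pool.Agent.H128.Fan
open MvPolynomial Module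

variable {V : Type} [Fintype V] [LinearOrder V] {d : ℕ} {Γ : Cx V} {p : V → (Fin d → ℝ)}
  {φ : Finset V → V → Module.Dual ℝ (Fin d → ℝ)} {ξ : Fin d → ℝ}

/-- the component of degree `k - 1` -/
noncomputable def hcp : ℕ → MvPolynomial V ℝ → MvPolynomial V ℝ
  | 0, _ => 0
  | k + 1, f => homogeneousComponent k f

lemma hc_th (η : Module.Dual ℝ (Fin d → ℝ)) (a : MvPolynomial V ℝ) (k : ℕ) :
    homogeneousComponent k (th p η * a) = th p η * hcp k a := by
  unfold th
  rw [Finset.sum_mul, map_sum, Finset.sum_mul]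
  refine Finset.sum_congr rfl fun v _ => ?_
  have h1 : (C (η (p v)) * X v : MvPolynomial V ℝ) = monomial (Finsupp.single v 1) (η (p v)) := by
    rw [C_mul_X_eq_monomial]
  rw [h1, hc_mul, Finsupp.degree_single]
  cases k with
  | zero =>
    rw [if_neg (by omega)]
    unfold hcp
    rw [mul_zero]
  | succ k =>
    rw [if_pos (by omega), Nat.add_sub_cancel]
    rfl

lemma hc_JS0 (S : Cx V) (l : Fin d → Module.Dual ℝ (Fin d → ℝ)) {f : MvPolynomial V ℝ}
    (hf : f ∈ JS S p l 0) (k : ℕ) : homogeneousComponent k f ∈ JS S p l 0 := by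
  let _ : GradedAlgebra (homogeneousSubmodule V ℝ) := MvPolynomial.gradedAlgebra
  refine homogeneousComponent_mem_of_mem ?_ hf k
  unfold JS
  refine Ideal.homogeneous_span _ _ ?_
  rintro f (⟨N, hN, rfl⟩ | ⟨i, hi, rfl⟩)
  · refine ⟨N.card, ?_⟩
    rw [← monomial_ind]
    exact isHomogeneous_monomial _ (ind_degree N)
  · exact absurd hi (Nat.not_lt_zero _)

lemma JS_dec (S : Cx V) (l : Fin d → Module.Dual ℝ (Fin d → ℝ)) {f : MvPolynomial V ℝ}
    (hf : f ∈ JS S p l d) :
    ∃ a : Fin d → MvPolynomial V ℝ, f - ∑ s, th p (l s) * a s ∈ JS S p l 0 := by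
  unfold JS at hf
  rw [Ideal.span_union] at hf
  obtain ⟨x, hx, y, hy, rfl⟩ := Submodule.mem_sup.1 hf
  have hy' : y ∈ Ideal.span (Set.range fun s => th p (l s)) := by
    refine Ideal.span_mono ?_ hy
    rintro _ ⟨i, hi, rfl⟩
    exact ⟨i, rfl⟩
  obtain ⟨a, rfl⟩ := Ideal.mem_span_range_iff_exists_fun.1 hy'
  refine ⟨a, ?_⟩
  have h1 : x + ∑ i, a i * th p (l i) - ∑ s, th p (l s) * a s = x := by
    rw [Finset.sum_congr rfl fun s _ => mul_comm (th p (l s)) (a s)]
    ring
  rw [h1]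
  exact Ideal.span_mono (fun _ h => Or.inl h) hx

lemma claim (S : Cx V) (l : Fin d → Module.Dual ℝ (Fin d → ℝ)) {I : Type} [Fintype I]
    (dg : I → ℕ) (b : I → MvPolynomial V ℝ) (hbh : ∀ x, (b x).IsHomogeneous (dg x))
    (hb : ∀ k, ∀ f : MvPolynomial V ℝ, f.IsHomogeneous k →
      ∃ c : I → ℝ, f - ∑ x, C (c x) * b x ∈ JS S p l d) :
    ∀ k, ∀ f : MvPolynomial V ℝ, f.IsHomogeneous k →
      ∃ g : I → MvPolynomial (Fin d) ℝ,
        f - ∑ x, b x * aeval (fun j => th p (l j)) (g x) ∈ JS S p l 0 := by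
  intro k
  induction k using Nat.strong_induction_on with
  | _ k ih =>
  intro f hf
  obtain ⟨c', hc⟩ := hb k f hf
  obtain ⟨a, ha⟩ := JS_dec S l hc
  have ha' := hc_JS0 S l ha k
  obtain ⟨c, hcd⟩ : ∃ c : I → ℝ, c = fun x => if k = dg x then c' x else 0 := ⟨_, rfl⟩
  have hcc : ∀ x, homogeneousComponent k (C (c' x) * b x) = C (c x) * b x := by
    intro x
    rw [homogeneousComponent_C_mul, homogeneousComponent_of_mem (hbh x), hcd]
    by_cases h : k = dg x
    · simp only [if_pos h]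
    · simp only [if_neg h, mul_zero, C_0, zero_mul]
  rw [map_sub, map_sub, map_sum, map_sum, homogeneousComponent_eq_self hf] at ha'
  simp only [hc_th, hcc] at ha'
  have h1 : ∀ s, ∃ G : I → MvPolynomial (Fin d) ℝ,
      hcp k (a s) - ∑ x, b x * aeval (fun j => th p (l j)) (G x) ∈ JS S p l 0 := by
    intro s
    cases k with
    | zero =>
      refine ⟨fun _ => 0, ?_⟩
      have h2 : hcp 0 (a s) - ∑ x, b x * aeval (fun j => th p (l j)) (0 : MvPolynomial (Fin d) ℝ) =
          0 := by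
        unfold hcp
        simp
      rw [h2]
      exact Ideal.zero_mem _
    | succ k => exact ih k (Nat.lt_succ_self k) _ (homogeneousComponent_isHomogeneous k (a s))
  choose G hG using h1
  refine ⟨fun x => C (c x) + ∑ s, X s * G s x, ?_⟩
  have h2 : f - ∑ x, b x * aeval (fun j => th p (l j)) (C (c x) + ∑ s, X s * G s x) =
      (f - ∑ x, C (c x) * b x - ∑ s, th p (l s) * hcp k (a s)) +
        ∑ s, th p (l s) * (hcp k (a s) - ∑ x, b x * aeval (fun j => th p (l j)) (G s x)) := by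
    have h3 : ∀ x, b x * aeval (fun j => th p (l j)) (C (c x) + ∑ s, X s * G s x) =
        C (c x) * b x + ∑ s, th p (l s) * (b x * aeval (fun j => th p (l j)) (G s x)) := by
      intro x
      have h4 : aeval (fun j => th p (l j)) (C (c x) : MvPolynomial (Fin d) ℝ) = C (c x) :=
        aeval_C _ _
      rw [map_add, map_sum, h4, mul_add, Finset.mul_sum, mul_comm (b x) (C (c x))]
      refine congrArg₂ (· + ·) rfl (Finset.sum_congr rfl fun s _ => ?_)
      rw [map_mul, aeval_X]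
      ring
    rw [Finset.sum_congr rfl fun x _ => h3 x, Finset.sum_add_distrib, Finset.sum_comm]
    simp only [mul_sub, Finset.sum_sub_distrib, Finset.mul_sum]
    ring
  rw [h2]
  exact Ideal.add_mem _ ha' (Submodule.sum_mem _ fun s _ => Ideal.mul_mem_left _ _ (hG s))

/-- T12. -/
theorem span_free (S : Cx V) (p : V → (Fin d → ℝ)) (l : Basis (Fin d) ℝ (Module.Dual ℝ (Fin d → ℝ)))
    (hdim : ∑ k ∈ Finset.range (d + 1), finrank ℝ (AA S p k) = Fintype.card (Fc S d))
    (htop : ∀ k, d < k → ∀ f : MvPolynomial V ℝ, f.IsHomogeneous k → f ∈ JJ S p)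
    (hJ : JS S p l d = JJ S p) :
    ∃ β : Fc S d → MvPolynomial V ℝ, ∀ f : MvPolynomial V ℝ, ∃ g : Fc S d → MvPolynomial (Fin d) ℝ,
      f - ∑ i, β i * aeval (fun j => th p (l j)) (g i) ∈ JS S p l 0 := by
  have hbex : ∀ x : (Σ k : Fin (d + 1), Fin (finrank ℝ (AA S p (k : ℕ)))),
      ∃ f : MvPolynomial V ℝ, f.IsHomogeneous (x.1 : ℕ) ∧
        Ideal.Quotient.mk (JJ S p) f = ((finBasis ℝ (AA S p (x.1 : ℕ)) x.2 : AA S p (x.1 : ℕ)) :
          QQ S p) := by
    intro x
    obtain ⟨f, hf, hf'⟩ := (finBasis ℝ (AA S p (x.1 : ℕ)) x.2).2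
    exact ⟨f, hf, hf'⟩
  choose b hb1 hb2 using hbex
  have hb : ∀ k, ∀ f : MvPolynomial V ℝ, f.IsHomogeneous k →
      ∃ c : (Σ k : Fin (d + 1), Fin (finrank ℝ (AA S p (k : ℕ)))) → ℝ,
        f - ∑ x, C (c x) * b x ∈ JS S p l d := by
    intro k f hf
    rw [hJ]
    by_cases hk : d < k
    · refine ⟨fun _ => 0, ?_⟩
      simp only [C_0, zero_mul, Finset.sum_const_zero, sub_zero]
      exact htop k hk f hf
    · have h1 : Ideal.Quotient.mk (JJ S p) f ∈ Submodule.span ℝ (Set.range fun x :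
          (Σ k : Fin (d + 1), Fin (finrank ℝ (AA S p (k : ℕ)))) =>
            Ideal.Quotient.mk (JJ S p) (b x)) := by
        have h2 := (finBasis ℝ (AA S p k)).sum_repr ⟨_, mem_AA k f hf⟩
        have h3 := congrArg (fun y : AA S p k => (y : QQ S p)) h2
        simp only [Submodule.coe_sum, Submodule.coe_smul] at h3
        rw [← h3]
        refine Submodule.sum_mem _ fun i _ => Submodule.smul_mem _ _ ?_
        have h4 := hb2 ⟨⟨k, by omega⟩, i⟩
        rw [← h4]
        exact Submodule.subset_span ⟨⟨⟨k, by omega⟩, i⟩, rfl⟩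
      obtain ⟨c, hc⟩ := (Submodule.mem_span_range_iff_exists_fun ℝ).1 h1
      refine ⟨c, ?_⟩
      rw [← Ideal.Quotient.eq_zero_iff_mem, map_sub, map_sum, sub_eq_zero, ← hc]
      refine Finset.sum_congr rfl fun x _ => ?_
      rw [← smul_eq_C_mul]
      rfl
  have hmain := claim S l (fun x => (x.1 : ℕ)) b hb1 hb
  have hcard : Fintype.card (Fc S d) =
      Fintype.card (Σ k : Fin (d + 1), Fin (finrank ℝ (AA S p (k : ℕ)))) := by
    rw [Fintype.card_sigma, ← hdim, Finset.sum_range]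
    exact Finset.sum_congr rfl fun k _ => (Fintype.card_fin _).symm
  let E := Fintype.equivOfCardEq hcard
  refine ⟨fun i => b (E i), fun f => ?_⟩
  have h1 : ∀ k, ∃ g : (Σ k : Fin (d + 1), Fin (finrank ℝ (AA S p (k : ℕ)))) →
      MvPolynomial (Fin d) ℝ, homogeneousComponent k f -
        ∑ x, b x * aeval (fun j => th p (l j)) (g x) ∈ JS S p l 0 :=
    fun k => hmain k _ (homogeneousComponent_isHomogeneous k f)
  choose g hg using h1
  refine ⟨fun i => ∑ k ∈ Finset.range (f.totalDegree + 1), g k (E i), ?_⟩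
  have h2 : ∑ i, b (E i) * aeval (fun j => th p (l j))
      (∑ k ∈ Finset.range (f.totalDegree + 1), g k (E i)) =
      ∑ x, b x * aeval (fun j => th p (l j)) (∑ k ∈ Finset.range (f.totalDegree + 1), g k x) :=
    Equiv.sum_comp E fun x => b x * aeval (fun j => th p (l j))
      (∑ k ∈ Finset.range (f.totalDegree + 1), g k x)
  rw [h2]
  have h3 : f - ∑ x, b x * aeval (fun j => th p (l j))
      (∑ k ∈ Finset.range (f.totalDegree + 1), g k x) =
      ∑ k ∈ Finset.range (f.totalDegree + 1), (homogeneousComponent k f -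
        ∑ x, b x * aeval (fun j => th p (l j)) (g k x)) := by
    rw [Finset.sum_sub_distrib, sum_homogeneousComponent, Finset.sum_comm]
    refine congrArg (f - ·) (Finset.sum_congr rfl fun x _ => ?_)
    rw [map_sum, Finset.mul_sum]
  rw [h3]
  exact Submodule.sum_mem _ fun k _ => hg k

end Pool.Agent.H297.FN
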