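import Pool.Agent.H128.Fan.Defs

set_option autoImplicit false
set_option linter.unusedSectionVars false

/-! Complete simplicial fans (project of helper128), task T13: independence by evaluation. -/

namespace Pool.Agent.H962.Fan

open Pool.Agent.Helper611 Pool.Agent.Helper611.ZBase Pool.Agent.Helper611.KRel
  Pool.Agent.Helper611.KVal Pool.Agent.Helper611.UStr
  Pool.Agent.H252R2.Lef1 Pool.Agent.H252R2.Lef7
  Pool.Agent.H252R2.CDNum Pool.Agent.H252R2.Top2 Pool.Agent.H128.SRing Pool.Agent.H128.Fan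
open MvPolynomial Module

variable {V : Type} [Fintype V] [LinearOrder V] {d : ℕ} {Γ : Cx V} {p : V → (Fin d → ℝ)}
  {φ : Finset V → V → Module.Dual ℝ (Fin d → ℝ)} {ξ : Fin d → ℝ}

lemma evg_X (y : Fin d → ℝ) (G : Finset V) (v : V) :
    evg φ y G (X v) = if v ∈ G then φ G v y else 0 := by
  unfold evg
  rw [eval_X]

lemma evg_C (y : Fin d → ℝ) (G : Finset V) (c : ℝ) : evg φ y G (C c) = c := by
  unfold evg
  rw [eval_C]

/-- the evaluation at a facet kills the nonfaces -/
lemma evg_JS (S : Cx V) (l : Fin d → Module.Dual ℝ (Fin d → ℝ)) (y : Fin d → ℝ) (G : Finset V)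
    (hG : G ∈ S.faces) (f : MvPolynomial V ℝ) (hf : f ∈ JS S p l 0) : evg φ y G f = 0 := by
  unfold JS at hf
  induction hf using Submodule.span_induction with
  | mem f hf =>
    rcases hf with ⟨N, hN, rfl⟩ | ⟨i, hi, rfl⟩
    · have h1 : ¬ N ⊆ G := fun h => hN (S.down _ hG _ h)
      obtain ⟨v, hv, hvG⟩ := Finset.not_subset.1 h1
      rw [map_prod]
      refine Finset.prod_eq_zero hv ?_
      rw [evg_X, if_neg hvG]
    · exact absurd hi (Nat.not_lt_zero _)
  | zero => exact map_zero _
  | add f g _ _ hf hg => rw [map_add, hf, hg, add_zero]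
  | smul a f _ hf => rw [smul_eq_mul, map_mul, hf, mul_zero]

/-- the evaluation of a linear form of a functional -/
lemma evg_th (S : Cx V) (hφ : Coord S p φ) (y : Fin d → ℝ) (G : Finset V)
    (hG : G ∈ S.faces) (hc : G.card = d) (η : Module.Dual ℝ (Fin d → ℝ)) :
    evg φ y G (th p η) = η y := by
  unfold th
  rw [map_sum]
  have h1 : ∀ v, evg φ y G (C (η (p v)) * X v) = if v ∈ G then η (φ G v y • p v) else 0 := by
    intro v
    rw [map_mul, evg_C, evg_X]
    by_cases h : v ∈ G
    · rw [if_pos h, if_pos h, map_smul, smul_eq_mul, mul_comm]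
    · rw [if_neg h, if_neg h, mul_zero]
  rw [Finset.sum_congr rfl fun v _ => h1 v, Finset.sum_ite_mem, Finset.univ_inter, ← map_sum,
    expand hφ G hG y (by rw [span_top hφ G hG hc]; trivial)]

lemma evg_aeval (S : Cx V) (hφ : Coord S p φ) (y : Fin d → ℝ) (G : Finset V)
    (hG : G ∈ S.faces) (hc : G.card = d) (l : Fin d → Module.Dual ℝ (Fin d → ℝ))
    (g : MvPolynomial (Fin d) ℝ) :
    evg φ y G (aeval (fun j => th p (l j)) g) = eval (fun j => l j y) g := by
  induction g using MvPolynomial.induction_on with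
  | C a => rw [algHom_C, eval_C, MvPolynomial.algebraMap_eq, evg_C]
  | add f g hf hg => rw [map_add, map_add, map_add, hf, hg]
  | mul_X f n hf => rw [map_mul, map_mul, map_mul, hf, aeval_X, eval_X, evg_th S hφ y G hG hc]

/-- the polynomial of a functional in the coordinates given by a basis -/
noncomputable def lf (l : Basis (Fin d) ℝ (Module.Dual ℝ (Fin d → ℝ)))
    (η : Module.Dual ℝ (Fin d → ℝ)) : MvPolynomial (Fin d) ℝ := ∑ j, C (l.repr η j) * X j

lemma eval_lf (l : Basis (Fin d) ℝ (Module.Dual ℝ (Fin d → ℝ)))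
    (η : Module.Dual ℝ (Fin d → ℝ)) (y : Fin d → ℝ) : eval (fun j => l j y) (lf l η) = η y := by
  unfold lf
  rw [map_sum]
  conv_rhs => rw [← l.sum_repr η]
  rw [LinearMap.sum_apply]
  refine Finset.sum_congr rfl fun j _ => ?_
  rw [map_mul, eval_C, eval_X, LinearMap.smul_apply, smul_eq_mul]

/-- a basis of the dual gives a bijection -/
lemma basis_surj (l : Basis (Fin d) ℝ (Module.Dual ℝ (Fin d → ℝ))) (z : Fin d → ℝ) :
    ∃ y : Fin d → ℝ, (fun j => l j y) = z := by
  have h1 : Function.Injective (LinearMap.pi (fun j => l j) : (Fin d → ℝ) →ₗ[ℝ] (Fin d → ℝ)) := by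
    rw [← LinearMap.ker_eq_bot, LinearMap.ker_eq_bot']
    intro y hy
    have h2 : ∀ j, l j y = 0 := fun j => congrFun hy j
    funext i
    have h3 : (LinearMap.proj i : (Fin d → ℝ) →ₗ[ℝ] ℝ) y = 0 := by
      have h4 := l.sum_repr (LinearMap.proj i : (Fin d → ℝ) →ₗ[ℝ] ℝ)
      rw [← h4, LinearMap.sum_apply]
      refine Finset.sum_eq_zero fun j _ => ?_
      rw [LinearMap.smul_apply, h2 j, smul_zero]
    exact h3
  obtain ⟨y, hy⟩ := (LinearMap.injective_iff_surjective.1 h1) z
  exact ⟨y, hy⟩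

/-- **T13.** -/
theorem ind_free (S : Cx V) (l : Basis (Fin d) ℝ (Module.Dual ℝ (Fin d → ℝ))) (hφ : Coord S p φ)
    (hz : Nz S φ ξ) (β : Fc S d → MvPolynomial V ℝ)
    (hβ : ∀ f : MvPolynomial V ℝ, ∃ g : Fc S d → MvPolynomial (Fin d) ℝ,
      f - ∑ i, β i * aeval (fun j => th p (l j)) (g i) ∈ JS S p l 0)
    (g : Fc S d → MvPolynomial (Fin d) ℝ)
    (hg : ∑ i, β i * aeval (fun j => th p (l j)) (g i) ∈ JS S p l 0) : ∀ i, g i = 0 := by
  -- evaluation of combinations
  have hev : ∀ (y : Fin d → ℝ) (G : Fc S d) (h : Fc S d → MvPolynomial (Fin d) ℝ),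
      evg φ y G.1 (∑ i, β i * aeval (fun j => th p (l j)) (h i)) =
        ∑ i, evg φ y G.1 (β i) * eval (fun j => l j y) (h i) := by
    intro y G h
    rw [map_sum]
    refine Finset.sum_congr rfl fun i _ => ?_
    rw [map_mul, evg_aeval S hφ y G.1 G.2.1 G.2.2]
  -- the values of the coefficients at the good points
  have hgood : ∀ y : Fin d → ℝ, Nz S φ y → ∀ i, eval (fun j => l j y) (g i) = 0 := by
    intro y hy
    obtain ⟨A, hA⟩ : ∃ A : Matrix (Fc S d) (Fc S d) ℝ, A = Matrix.of fun G i => evg φ y G.1 (β i) :=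
      ⟨_, rfl⟩
    have hAv : ∀ (c : Fc S d → ℝ) (G : Fc S d), A.mulVecLin c G = ∑ i, evg φ y G.1 (β i) * c i := by
      intro c G
      rw [hA]
      rfl
    have hsurj : Function.Surjective A.mulVecLin := by
      rw [← LinearMap.range_eq_top, eq_top_iff]
      intro f _
      have h1 : f = ∑ F, f F • (Pi.single F (1 : ℝ) : Fc S d → ℝ) := by
        funext G
        rw [Finset.sum_apply, Finset.sum_eq_single_of_mem G (Finset.mem_univ _)]
        · rw [Pi.smul_apply, Pi.single_eq_same, smul_eq_mul, mul_one]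
        · intro F _ hF
          rw [Pi.smul_apply, Pi.single_eq_of_ne (Ne.symm hF), smul_zero]
      rw [h1]
      refine Submodule.sum_mem _ fun F _ => Submodule.smul_mem _ _ ?_
      obtain ⟨g', hg'⟩ := hβ (∏ v ∈ F.1, X v)
      have h2 : ∀ G : Fc S d, evg φ y G.1 (∏ v ∈ F.1, X v) =
          ∑ i, evg φ y G.1 (β i) * eval (fun j => l j y) (g' i) := by
        intro G
        have h3 := evg_JS (φ := φ) S l y G.1 G.2.1 _ hg'
        rw [map_sub, hev y G g', sub_eq_zero] at h3
        exact h3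
      have h3 : (∏ v ∈ F.1, φ F.1 v y) ≠ 0 :=
        Finset.prod_ne_zero_iff.2 fun v hv => hy F.1 F.2.1 F.2.2 v hv
      have h4 : (Pi.single F (1 : ℝ) : Fc S d → ℝ) =
          A.mulVecLin ((∏ v ∈ F.1, φ F.1 v y)⁻¹ • fun i => eval (fun j => l j y) (g' i)) := by
        rw [map_smul]
        funext G
        rw [Pi.smul_apply, hAv, ← h2 G, map_prod]
        by_cases h : G = F
        · subst h
          rw [Pi.single_eq_same]
          have h5 : ∏ v ∈ G.1, evg φ y G.1 (X v) = ∏ v ∈ G.1, φ G.1 v y :=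
            Finset.prod_congr rfl fun v hv => by rw [evg_X, if_pos hv]
          rw [h5, smul_eq_mul, inv_mul_cancel₀ h3]
        · rw [Pi.single_eq_of_ne h]
          have h5 : ¬ F.1 ⊆ G.1 := by
            intro h2
            apply h
            apply Subtype.ext
            exact (Finset.eq_of_subset_of_card_le h2 (by rw [F.2.2, G.2.2])).symm
          obtain ⟨v, hv, hvG⟩ := Finset.not_subset.1 h5
          have h6 : ∏ x ∈ F.1, evg φ y G.1 (X x) = 0 :=
            Finset.prod_eq_zero hv (by rw [evg_X, if_neg hvG])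
          rw [h6, smul_zero]
      rw [h4]
      exact LinearMap.mem_range_self _ _
    have hinj : Function.Injective A.mulVecLin := LinearMap.injective_iff_surjective.2 hsurj
    have h0 : A.mulVecLin (fun i => eval (fun j => l j y) (g i)) = A.mulVecLin 0 := by
      rw [map_zero]
      funext G
      rw [hAv, ← hev y G g, evg_JS (φ := φ) S l y G.1 G.2.1 _ hg]
      rfl
    intro i
    exact congrFun (hinj h0) i
  -- the product of the linear forms
  obtain ⟨P, hP⟩ : ∃ P : MvPolynomial (Fin d) ℝ, P = ∏ F : Fc S d, ∏ v ∈ F.1, lf l (φ F.1 v) :=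
    ⟨_, rfl⟩
  have hPe : ∀ y : Fin d → ℝ, eval (fun j => l j y) P = ∏ F : Fc S d, ∏ v ∈ F.1, φ F.1 v y := by
    intro y
    rw [hP, map_prod]
    refine Finset.prod_congr rfl fun F _ => ?_
    rw [map_prod]
    exact Finset.prod_congr rfl fun v _ => eval_lf l _ y
  have hP0 : P ≠ 0 := by
    intro h
    have h1 := hPe ξ
    rw [h, map_zero] at h1
    exact (Finset.prod_ne_zero_iff.2 fun F _ =>
      Finset.prod_ne_zero_iff.2 fun v hv => hz F.1 F.2.1 F.2.2 v hv) h1.symm
  intro i
  have hgP : g i * P = 0 := by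
    apply MvPolynomial.funext
    intro z
    obtain ⟨y, rfl⟩ := basis_surj l z
    rw [map_mul, map_zero]
    by_cases hy : Nz S φ y
    · rw [hgood y hy i, zero_mul]
    · unfold Nz at hy
      push Not at hy
      obtain ⟨F, hF, hFd, v, hv, h0⟩ := hy
      rw [hPe y, Finset.prod_eq_zero (Finset.mem_univ (⟨F, hF, hFd⟩ : Fc S d))
        (Finset.prod_eq_zero hv h0), mul_zero]
  exact (mul_eq_zero.1 hgP).resolve_right hP0

end Pool.Agent.H962.Fan
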