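import Pool.Agent.H128.Fan.Defs

set_option autoImplicit false
set_option linter.unusedSectionVars false

/-! Complete simplicial fans: adapted basis, `K_reg`, `K_top`, `JS_top` (T15, T16). -/

namespace Pool.Agent.H997.Fan

open Pool.Agent.Helper611 Pool.Agent.Helper611.ZBase Pool.Agent.Helper611.KRel
  Pool.Agent.Helper611.KVal Pool.Agent.Helper611.UStr
  Pool.Agent.H252R2.Lef1 Pool.Agent.H252R2.Lef7
  Pool.Agent.H252R2.CDNum Pool.Agent.H252R2.Top2 Pool.Agent.H128.SRing Pool.Agent.H128.Fan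
open MvPolynomial Module

variable {V : Type} [Fintype V] [LinearOrder V] {d : ℕ} {Γ : Cx V} {p : V → (Fin d → ℝ)}
  {φ : Finset V → V → Module.Dual ℝ (Fin d → ℝ)} {ξ : Fin d → ℝ}

/-- `th p` as a linear map -/
noncomputable def thL (p : V → (Fin d → ℝ)) :
    Module.Dual ℝ (Fin d → ℝ) →ₗ[ℝ] MvPolynomial V ℝ where
  toFun l := th p l
  map_add' a b := by
    unfold th
    rw [← Finset.sum_add_distrib]
    exact Finset.sum_congr rfl fun v _ => by rw [LinearMap.add_apply, C_add, add_mul]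
  map_smul' a b := by
    unfold th
    rw [RingHom.id_apply, Finset.smul_sum]
    exact Finset.sum_congr rfl fun v _ => by
      rw [LinearMap.smul_apply, smul_eq_mul, C_mul, mul_assoc, smul_eq_C_mul]

lemma th_mem_of_basis {I : Ideal (MvPolynomial V ℝ)} {ι : Type} [Fintype ι]
    (b : Basis ι ℝ (Module.Dual ℝ (Fin d → ℝ))) (h : ∀ i, th p (b i) ∈ I)
    (l : Module.Dual ℝ (Fin d → ℝ)) : th p l ∈ I := by
  have h1 : th p l = thL p l := rfl
  rw [h1, ← b.sum_repr l, map_sum]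
  refine Ideal.sum_mem _ fun i _ => ?_
  rw [map_smul, smul_eq_C_mul]
  exact Ideal.mul_mem_left _ _ (h i)

/-- T16c. -/
theorem JS_top (S : Cx V) (p : V → (Fin d → ℝ)) (l : Basis (Fin d) ℝ (Module.Dual ℝ (Fin d → ℝ))) :
    JS S p l d = JJ S p := by
  have hx : ∀ i : Fin d, (∑ v, C (p v i) * X v : MvPolynomial V ℝ) =
      th p ((Pi.basisFun ℝ (Fin d)).dualBasis i) := by
    intro i
    unfold th
    refine Finset.sum_congr rfl fun v _ => ?_
    rw [Basis.dualBasis_apply, Pi.basisFun_repr]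
  apply le_antisymm
  · unfold JS
    rw [Ideal.span_le]
    rintro f (⟨N, hN, rfl⟩ | ⟨i, _, rfl⟩)
    · exact JJ_nonface hN
    · refine th_mem_of_basis (Pi.basisFun ℝ (Fin d)).dualBasis (fun i => ?_) _
      rw [← hx]
      exact Ideal.subset_span (Or.inr ⟨i, rfl⟩)
  · unfold JJ
    rw [Ideal.span_le]
    rintro f (⟨N, hN, rfl⟩ | ⟨i, rfl⟩)
    · exact JS_nonface hN
    · rw [SetLike.mem_coe, hx]
      exact th_mem_of_basis l (fun i => JS_th i.2) _

/-- T15. -/
theorem adapted (p : V → (Fin d → ℝ)) (H : Finset V)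
    (hp : LinearIndependent ℝ (fun v : H => p v)) :
    ∃ (l : Basis (Fin d) ℝ (Module.Dual ℝ (Fin d → ℝ))) (g : V → ℕ), (∀ u ∈ H, g u < H.card) ∧
      Set.InjOn g H ∧ ∀ u ∈ H, ∀ i : Fin d, l i (p u) = if (i : ℕ) = g u then 1 else 0 := by
  classical
  obtain ⟨e⟩ : Nonempty (H ≃ Fin H.card) := ⟨H.equivFin⟩
  have hb : LinearIndependent ℝ (fun j : Fin H.card => p (e.symm j)) :=
    hp.comp _ e.symm.injective
  obtain ⟨W', hW'⟩ :=
    Submodule.exists_isCompl (Submodule.span ℝ (Set.range fun j : Fin H.card => p (e.symm j)))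
  obtain ⟨B, hB⟩ : ∃ B : Basis (Fin H.card ⊕ Fin (finrank ℝ W')) ℝ (Fin d → ℝ),
      ∀ j, B (Sum.inl j) = p (e.symm j) := by
    refine ⟨((Basis.span hb).prod (Module.finBasis ℝ W')).map
      (Submodule.prodEquivOfIsCompl _ _ hW'), fun j => ?_⟩
    rw [Basis.map_apply, Submodule.coe_prodEquivOfIsCompl', Basis.prod_apply_inl_fst,
      Basis.prod_apply_inl_snd, Submodule.coe_zero, add_zero, Basis.span_apply]
  have hcard : H.card + finrank ℝ W' = d := by
    have h1 := Module.finrank_eq_card_basis B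
    rw [Module.finrank_fin_fun, Fintype.card_sum, Fintype.card_fin, Fintype.card_fin] at h1
    exact h1.symm
  obtain ⟨E, hE⟩ : ∃ E : Fin H.card ⊕ Fin (finrank ℝ W') ≃ Fin d,
      ∀ j : Fin H.card, ((E (Sum.inl j) : Fin d) : ℕ) = j :=
    ⟨finSumFinEquiv.trans (finCongr hcard), fun j => rfl⟩
  obtain ⟨g, hg⟩ : ∃ g : V → ℕ, ∀ (u : V) (h : u ∈ H), g u = e ⟨u, h⟩ :=
    ⟨fun u => if h : u ∈ H then (e ⟨u, h⟩ : ℕ) else 0, fun u h => dif_pos h⟩
  refine ⟨(B.reindex E).dualBasis, g, ?_, ?_, ?_⟩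
  · intro u hu
    rw [hg u hu]
    exact (e ⟨u, hu⟩).2
  · intro u hu w hw h
    rw [hg u hu, hg w hw] at h
    exact congrArg Subtype.val (e.injective (Fin.ext h))
  · intro u hu i
    rw [hg u hu]
    have h1 : p u = B.reindex E (E (Sum.inl (e ⟨u, hu⟩))) := by
      rw [Basis.reindex_apply, Equiv.symm_apply_apply, hB, Equiv.symm_apply_apply]
    rw [h1, Basis.dualBasis_apply_self]
    refine if_congr ?_ rfl rfl
    rw [Fin.ext_iff, hE]
    exact eq_comm

/-- variables which are in the ideal -/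
lemma K_eq (p : V → (Fin d → ℝ)) (H : Finset V) (hH : H ∈ Γ.faces)
    (l : Fin d → Module.Dual ℝ (Fin d → ℝ)) (g : V → ℕ)
    (hgi : Set.InjOn g H) (hl : ∀ u ∈ H, ∀ i : Fin d, l i (p u) = if (i : ℕ) = g u then 1 else 0)
    (s : ℕ) (hs : s ≤ d) :
    JS (stc Γ H) p l s ⊔ Ideal.span (X '' {v | v ∉ H}) =
      Ideal.span ((X : V → MvPolynomial V ℝ) '' {v | v ∈ H → g v < s}) := by
  have hX : ∀ v ∈ {v | v ∈ H → g v < s},
      (X v : MvPolynomial V ℝ) ∈ Ideal.span ((X : V → MvPolynomial V ℝ) '' {v | v ∈ H → g v < s}) :=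
    fun v hv => Ideal.subset_span ⟨v, hv, rfl⟩
  apply le_antisymm
  · refine sup_le ?_ (Ideal.span_mono (Set.image_mono fun v hv h => absurd h hv))
    unfold JS
    rw [Ideal.span_le]
    rintro f (⟨N, hN, rfl⟩ | ⟨i, hi, rfl⟩)
    · rw [mem_stc hH] at hN
      obtain ⟨v, hv, hvH⟩ : ∃ v ∈ N, v ∉ H := by
        by_contra hc
        push Not at hc
        exact hN (by rwa [Finset.union_eq_right.2 hc])
      exact Ideal.mem_of_dvd _ (Finset.dvd_prod_of_mem _ hv) (hX v fun h => absurd h hvH)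
    · unfold th
      refine Ideal.sum_mem _ fun v _ => ?_
      by_cases hv : v ∈ H
      · rw [hl v hv i]
        split_ifs with h
        · exact Ideal.mul_mem_left _ _ (hX v fun _ => h ▸ hi)
        · rw [C_0, zero_mul]
          exact Ideal.zero_mem _
      · exact Ideal.mul_mem_left _ _ (hX v fun h => absurd h hv)
  · rw [Ideal.span_le]
    rintro f ⟨v, hv, rfl⟩
    by_cases hvH : v ∈ H
    · have h1 := hv hvH
      have h2 : th p (l ⟨g v, h1.trans_le hs⟩) ∈
          JS (stc Γ H) p l s ⊔ Ideal.span (X '' {v | v ∉ H}) :=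
        Ideal.mem_sup_left (JS_th (by exact h1))
      have h3 : th p (l ⟨g v, h1.trans_le hs⟩) - X v ∈
          JS (stc Γ H) p l s ⊔ Ideal.span (X '' {v | v ∉ H}) := by
        unfold th
        rw [← Finset.add_sum_erase _ _ (Finset.mem_univ v), hl v hvH, if_pos rfl, C_1, one_mul,
          add_sub_cancel_left]
        refine Ideal.sum_mem _ fun w hw => ?_
        by_cases hwH : w ∈ H
        · rw [hl w hwH, if_neg, C_0, zero_mul]
          · exact Ideal.zero_mem _
          · intro h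
            exact (Finset.mem_erase.1 hw).1 (hgi hwH hvH h.symm)
        · exact Ideal.mul_mem_left _ _ (Ideal.mem_sup_right (Ideal.subset_span ⟨w, hwH, rfl⟩))
      have h4 := Ideal.sub_mem _ h2 h3
      rwa [sub_sub_cancel] at h4
    · exact Ideal.mem_sup_right (Ideal.subset_span ⟨v, hvH, rfl⟩)

lemma all_mem {T : Set V} (hT : ∀ v, v ∈ T) {k : ℕ} {c : MvPolynomial V ℝ}
    (hc : c.IsHomogeneous (k + 1)) : c ∈ Ideal.span ((X : V → MvPolynomial V ℝ) '' T) := by
  rw [mem_ideal_span_X_image]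
  intro m hm
  have h1 := hc (MvPolynomial.mem_support_iff.1 hm)
  by_contra h
  push Not at h
  have h2 : m = 0 := by
    ext i
    exact h i (hT i)
  rw [h2, map_zero] at h1
  omega

/-- T16a. -/
theorem K_reg (p : V → (Fin d → ℝ)) (H : Finset V) (hH : H ∈ Γ.faces)
    (l : Fin d → Module.Dual ℝ (Fin d → ℝ)) (g : V → ℕ) (hg : ∀ u ∈ H, g u < H.card)
    (hgi : Set.InjOn g H) (hl : ∀ u ∈ H, ∀ i : Fin d, l i (p u) = if (i : ℕ) = g u then 1 else 0)
    (s : Fin d) (k : ℕ) (c : MvPolynomial V ℝ) (hc : c.IsHomogeneous (k + 1))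
    (h : th p (l s) * c ∈ JS (stc Γ H) p l s ⊔ Ideal.span (X '' {v | v ∉ H})) :
    c ∈ JS (stc Γ H) p l s ⊔ Ideal.span (X '' {v | v ∉ H}) := by
  by_cases hu : ∃ u ∈ H, g u = s
  · obtain ⟨u, huH, hus⟩ := hu
    have h1 : th p (l s) - X u ∈ JS (stc Γ H) p l s ⊔ Ideal.span (X '' {v | v ∉ H}) := by
      unfold th
      rw [← Finset.add_sum_erase _ _ (Finset.mem_univ u), hl u huH, if_pos hus.symm, C_1, one_mul,
        add_sub_cancel_left]
      refine Ideal.sum_mem _ fun w hw => ?_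
      by_cases hwH : w ∈ H
      · rw [hl w hwH, if_neg, C_0, zero_mul]
        · exact Ideal.zero_mem _
        · intro h
          exact (Finset.mem_erase.1 hw).1 (hgi hwH huH (h.symm.trans hus.symm))
      · exact Ideal.mul_mem_left _ _ (Ideal.mem_sup_right (Ideal.subset_span ⟨w, hwH, rfl⟩))
    have h2 := Ideal.sub_mem _ h (Ideal.mul_mem_right c _ h1)
    rw [← sub_mul, sub_sub_cancel] at h2
    rw [K_eq p H hH l g hgi hl s s.2.le, mem_ideal_span_X_image] at h2 ⊢
    intro m hm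
    obtain ⟨i, hi, him⟩ := h2 (m + Finsupp.single u 1) (by
      rw [MvPolynomial.mem_support_iff, mul_comm, coeff_mul_X]
      exact MvPolynomial.mem_support_iff.1 hm)
    refine ⟨i, hi, ?_⟩
    have hiu : i ≠ u := by
      rintro rfl
      exact absurd (hi huH) (by rw [hus]; exact lt_irrefl _)
    rwa [Finsupp.add_apply, Finsupp.single_eq_of_ne hiu, add_zero] at him
  · rw [K_eq p H hH l g hgi hl s s.2.le]
    refine all_mem (fun v hv => ?_) hc
    refine (hg v hv).trans_le ?_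
    by_contra hlt
    push Not at hlt
    apply hu
    have h1 : (H.image g) = Finset.range H.card :=
      Finset.eq_of_subset_of_card_le (by
        intro x hx
        obtain ⟨u, hu, rfl⟩ := Finset.mem_image.1 hx
        exact Finset.mem_range.2 (hg u hu)) (by
        rw [Finset.card_range, Finset.card_image_of_injOn hgi])
    have h2 : (s : ℕ) ∈ H.image g := by
      rw [h1]
      exact Finset.mem_range.2 hlt
    exact Finset.mem_image.1 h2

/-- T16b. -/
theorem K_top (p : V → (Fin d → ℝ)) (H : Finset V) (hH : H ∈ Γ.faces)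
    (l : Fin d → Module.Dual ℝ (Fin d → ℝ)) (g : V → ℕ) (hg : ∀ u ∈ H, g u < H.card)
    (hgi : Set.InjOn g H) (hHd : H.card ≤ d)
    (hl : ∀ u ∈ H, ∀ i : Fin d, l i (p u) = if (i : ℕ) = g u then 1 else 0)
    (k : ℕ) (c : MvPolynomial V ℝ) (hc : c.IsHomogeneous (k + 1)) :
    c ∈ JS (stc Γ H) p l d ⊔ Ideal.span (X '' {v | v ∉ H}) := by
  rw [K_eq p H hH l g hgi hl d le_rfl]
  exact all_mem (fun v hv => (hg v hv).trans_le hHd) hc

end Pool.Agent.H997.Fan
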