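import Pool.Agent.H128.Fan.Defs

set_option autoImplicit false
set_option linter.unusedSectionVars false

/-! Complete simplicial fans: T17, exactness of the rows modulo the nonfaces. -/

namespace Pool.Agent.H762.Fan

open Pool.Agent.Helper611 Pool.Agent.Helper611.ZBase Pool.Agent.Helper611.KRel
  Pool.Agent.Helper611.KVal Pool.Agent.Helper611.UStr
  Pool.Agent.H252R2.Lef1 Pool.Agent.H252R2.Lef7
  Pool.Agent.H252R2.CDNum Pool.Agent.H252R2.Top2 Pool.Agent.H128.SRing Pool.Agent.H128.Fan
open MvPolynomial Module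

variable {V : Type} [Fintype V] [LinearOrder V] {d : ℕ} {Γ : Cx V} {p : V → (Fin d → ℝ)}
  {φ : Finset V → V → Module.Dual ℝ (Fin d → ℝ)} {ξ : Fin d → ℝ}

/-- exponent of a squarefree monomial -/
noncomputable def ind (N : Finset V) : V →₀ ℕ := ∑ v ∈ N, Finsupp.single v 1

lemma ind_apply (N : Finset V) (w : V) : ind N w = if w ∈ N then 1 else 0 := by
  unfold ind
  rw [Finsupp.finsetSum_apply]
  simp only [Finsupp.single_apply]
  rw [Finset.sum_ite_eq' N w (fun _ => 1)]

lemma prod_X_ind (N : Finset V) : (∏ v ∈ N, X v : MvPolynomial V ℝ) = monomial (ind N) 1 := by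
  unfold ind
  rw [MvPolynomial.monomial_sum_one]
  rfl

lemma ind_le (N : Finset V) (m : V →₀ ℕ) : ind N ≤ m ↔ N ⊆ m.support := by
  constructor
  · intro h v hv
    have h1 := h v
    rw [ind_apply, if_pos hv] at h1
    rw [Finsupp.mem_support_iff]
    omega
  · intro h v
    rw [ind_apply]
    split_ifs with hv
    · have := Finsupp.mem_support_iff.1 (h hv)
      omega
    · exact Nat.zero_le _

lemma JS0_eq (S : Cx V) (p : V → (Fin d → ℝ)) (l : Fin d → Module.Dual ℝ (Fin d → ℝ)) :
    JS S p l 0 = Ideal.span ((fun s => monomial s (1 : ℝ)) '' {s | ∃ N : Finset V, N ∉ S.faces ∧ s = ind N}) := by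
  unfold JS
  congr 1
  ext f
  constructor
  · rintro (⟨N, hN, rfl⟩ | ⟨i, hi, rfl⟩)
    · exact ⟨ind N, ⟨N, hN, rfl⟩, (prod_X_ind N).symm⟩
    · exact absurd hi (Nat.not_lt_zero _)
  · rintro ⟨s, ⟨N, hN, rfl⟩, rfl⟩
    exact Or.inl ⟨N, hN, (prod_X_ind N).symm⟩

lemma mem_JS0 (S : Cx V) (p : V → (Fin d → ℝ)) (l : Fin d → Module.Dual ℝ (Fin d → ℝ))
    (f : MvPolynomial V ℝ) :
    f ∈ JS S p l 0 ↔ ∀ m : V →₀ ℕ, m.support ∈ S.faces → coeff m f = 0 := by
  rw [JS0_eq, MvPolynomial.mem_ideal_span_monomial_image]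
  constructor
  · intro h m hm
    by_contra hc
    obtain ⟨s, ⟨N, hN, rfl⟩, hle⟩ := h m (by rwa [MvPolynomial.mem_support_iff])
    exact hN (S.down _ hm _ ((ind_le N m).1 hle))
  · intro h m hm
    refine ⟨ind m.support, ⟨m.support, fun hf => ?_, rfl⟩, (ind_le _ _).2 subset_rfl⟩
    rw [MvPolynomial.mem_support_iff] at hm
    exact hm (h m hf)

/-- the part of `f` with exponents in `Q` divided by `X u` -/
noncomputable def dv (u : V) (Q : (V →₀ ℕ) → Prop) [DecidablePred Q] (f : MvPolynomial V ℝ) :
    MvPolynomial V ℝ :=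
  ∑ m ∈ f.support.filter (fun m => m u ≠ 0 ∧ Q m), monomial (m - Finsupp.single u 1) (coeff m f)

lemma coeff_dv (u : V) (Q : (V →₀ ℕ) → Prop) [DecidablePred Q] (f : MvPolynomial V ℝ)
    (q : V →₀ ℕ) :
    coeff q (dv u Q f) = if Q (q + Finsupp.single u 1) then coeff (q + Finsupp.single u 1) f else 0 := by
  unfold dv
  rw [MvPolynomial.coeff_sum]
  simp only [MvPolynomial.coeff_monomial]
  have key : ∀ m : V →₀ ℕ, m u ≠ 0 → (m - Finsupp.single u 1 = q ↔ m = q + Finsupp.single u 1) := by
    intro m hm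
    have hle : Finsupp.single u 1 ≤ m := by
      rw [Finsupp.single_le_iff]
      omega
    constructor
    · rintro rfl
      exact (tsub_add_cancel_of_le hle).symm
    · rintro rfl
      exact add_tsub_cancel_right _ _
  have h1 : ∀ m ∈ f.support.filter (fun m => m u ≠ 0 ∧ Q m),
      (if m - Finsupp.single u 1 = q then coeff m f else 0) =
      if m = q + Finsupp.single u 1 then coeff m f else 0 := by
    intro m hm
    rw [Finset.mem_filter] at hm
    simp only [key m hm.2.1]
  rw [Finset.sum_congr rfl h1, Finset.sum_ite_eq' _ (q + Finsupp.single u 1) (fun m => coeff m f)]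
  by_cases hQ : Q (q + Finsupp.single u 1)
  · rw [if_pos hQ]
    split_ifs with h
    · rfl
    · by_contra hc
      refine h (Finset.mem_filter.2 ⟨?_, ?_, hQ⟩)
      · rw [MvPolynomial.mem_support_iff]
        exact fun h0 => hc h0.symm
      · rw [Finsupp.add_apply, Finsupp.single_eq_same]
        omega
  · rw [if_neg hQ, if_neg]
    intro h
    exact hQ (Finset.mem_filter.1 h).2.2

lemma dv_hom (u : V) (Q : (V →₀ ℕ) → Prop) [DecidablePred Q] (f : MvPolynomial V ℝ) (k : ℕ)
    (hf : f.IsHomogeneous (k + 1)) : (dv u Q f).IsHomogeneous k := by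
  intro q hq
  rw [coeff_dv] at hq
  split_ifs at hq with h
  · have h1 := hf hq
    rw [map_add] at h1
    have h2 : (Finsupp.weight (1 : V → ℕ)) (Finsupp.single u 1) = 1 := by
      rw [Finsupp.weight_single]
      simp
    omega
  · exact absurd rfl hq

lemma coeff_xb (H G : Finset V) (a : Finset V → MvPolynomial V ℝ) (m : V →₀ ℕ) :
    coeff m (xb H a G) = ∑ v ∈ m.support \ (G ∪ H), (sgn v G : ℝ) *
      coeff (m - Finsupp.single v 1) (a (insert v G)) := by
  unfold xb
  rw [MvPolynomial.coeff_sum]
  have h1 : ∀ v ∈ (G ∪ H)ᶜ, coeff m (sgn v G • (X v * a (insert v G))) =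
      if v ∈ m.support then (sgn v G : ℝ) * coeff (m - Finsupp.single v 1) (a (insert v G)) else 0 := by
    intro v _
    rw [MvPolynomial.coeff_smul, MvPolynomial.coeff_X_mul']
    split_ifs with h
    · rw [zsmul_eq_mul]
    · rw [smul_zero]
  rw [Finset.sum_congr rfl h1, ← Finset.sum_filter]
  refine Finset.sum_congr ?_ fun _ _ => rfl
  ext v
  simp only [Finset.mem_filter, Finset.mem_compl, Finset.mem_sdiff]
  tauto

/-- the homotopy -/
noncomputable def bb (H : Finset V) (a : Finset V → MvPolynomial V ℝ) (K : Finset V) :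
    MvPolynomial V ℝ :=
  ∑ u ∈ K, sgn u (K.erase u) • dv u (fun m => ∀ w ∈ (m.support ∪ K) \ H, u ≤ w) (a (K.erase u))

lemma bb_hom (H : Finset V) (a : Finset V → MvPolynomial V ℝ) (k : ℕ)
    (ha : ∀ G, (a G).IsHomogeneous (k + 1)) (K : Finset V) : (bb H a K).IsHomogeneous k := by
  unfold bb
  refine MvPolynomial.IsHomogeneous.sum _ _ _ fun u _ => ?_
  have h := dv_hom u (fun m => ∀ w ∈ (m.support ∪ K) \ H, u ≤ w) (a (K.erase u)) k (ha _)
  rw [← MvPolynomial.mem_homogeneousSubmodule] at h ⊢
  exact zsmul_mem h _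

lemma coeff_bb (H : Finset V) (a : Finset V → MvPolynomial V ℝ) (K : Finset V) (q : V →₀ ℕ) :
    coeff q (bb H a K) = ∑ u ∈ K, (sgn u (K.erase u) : ℝ) *
      (if ∀ w ∈ ((q + Finsupp.single u 1).support ∪ K) \ H, u ≤ w then
        coeff (q + Finsupp.single u 1) (a (K.erase u)) else 0) := by
  unfold bb
  rw [MvPolynomial.coeff_sum]
  refine Finset.sum_congr rfl fun u _ => ?_
  rw [MvPolynomial.coeff_smul, coeff_dv, zsmul_eq_mul]

lemma supp_aux (m : V →₀ ℕ) (G : Finset V) (v u : V) (hv : v ∈ m.support) (hu : u ∈ insert v G) :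
    (m - Finsupp.single v 1 + Finsupp.single u 1).support ∪ insert v G = m.support ∪ G := by
  ext w
  rw [Finset.mem_union, Finset.mem_union, Finsupp.mem_support_iff, Finsupp.mem_support_iff,
    Finset.mem_insert, Finsupp.add_apply, Finsupp.tsub_apply, Finsupp.single_apply,
    Finsupp.single_apply]
  rw [Finsupp.mem_support_iff] at hv
  rw [Finset.mem_insert] at hu
  by_cases hwv : w = v
  · subst hwv
    exact ⟨fun _ => Or.inl hv, fun _ => Or.inr (Or.inl rfl)⟩
  · rw [if_neg (fun h => hwv h.symm)]
    by_cases hwu : u = w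
    · subst hwu
      rcases hu with hu | hu
      · exact absurd hu hwv
      · exact ⟨fun _ => Or.inr hu, fun _ => Or.inr (Or.inr hu)⟩
    · rw [if_neg hwu]
      constructor
      · rintro (h | h | h)
        · exact Or.inl (by simpa using h)
        · exact absurd h hwv
        · exact Or.inr h
      · rintro (h | h)
        · exact Or.inl (by simpa using h)
        · exact Or.inr (Or.inr h)

lemma single_sub_add (m : V →₀ ℕ) (v : V) (hv : v ∈ m.support) :
    m - Finsupp.single v 1 + Finsupp.single v 1 = m := by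
  refine tsub_add_cancel_of_le ?_
  rw [Finsupp.single_le_iff]
  rw [Finsupp.mem_support_iff] at hv
  omega

lemma sgn_id (x y : V) (ρ : Finset V) (hxy : x ≠ y) (hx : x ∉ ρ) (hy : y ∉ ρ) :
    sgn y (insert x ρ) * sgn x (insert y ρ) = -(sgn x ρ * sgn y ρ) := by
  have h := sgn_swap' x y ρ hxy hx hy
  have h1 := sgn_mul_self y ρ
  have h2 := sgn_mul_self y (insert x ρ)
  have h3 : sgn x (insert y ρ) * sgn y ρ * (sgn y ρ * sgn y (insert x ρ)) =
      -(sgn y (insert x ρ) * sgn x ρ) * (sgn y ρ * sgn y (insert x ρ)) := by rw [h]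
  calc sgn y (insert x ρ) * sgn x (insert y ρ)
      = sgn x (insert y ρ) * sgn y (insert x ρ) * (sgn y ρ * sgn y ρ) := by rw [h1]; ring
    _ = sgn x (insert y ρ) * sgn y ρ * (sgn y ρ * sgn y (insert x ρ)) := by ring
    _ = -(sgn y (insert x ρ) * sgn x ρ) * (sgn y ρ * sgn y (insert x ρ)) := h3
    _ = -(sgn x ρ * sgn y ρ) * (sgn y (insert x ρ) * sgn y (insert x ρ)) := by ring
    _ = _ := by rw [h2, mul_one]

/-- T17. -/
theorem TT_zero (p : V → (Fin d → ℝ)) (l : Fin d → Module.Dual ℝ (Fin d → ℝ)) (H : Finset V)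
    (hH : H ∈ Γ.faces) : TT Γ p l H 0 := by
  intro r k a ha hc h0
  refine ⟨bb H a, bb_hom H a k ha, ?_⟩
  intro G hr hGH hGf
  rw [mem_JS0]
  intro m hm
  rw [mem_stc hGf] at hm
  rw [MvPolynomial.coeff_sub, sub_eq_zero]
  symm
  rw [coeff_xb]
  have hin : ∀ v ∈ m.support \ (G ∪ H),
      coeff (m - Finsupp.single v 1) (bb H a (insert v G)) =
      ∑ u ∈ insert v G, (sgn u ((insert v G).erase u) : ℝ) *
        (if ∀ w ∈ (m.support ∪ G) \ H, u ≤ w then
          coeff (m - Finsupp.single v 1 + Finsupp.single u 1) (a ((insert v G).erase u)) else 0) := by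
    intro v hv
    rw [coeff_bb]
    refine Finset.sum_congr rfl fun u hu => ?_
    rw [supp_aux m G v u (Finset.mem_sdiff.1 hv).1 hu]
  rcases Finset.eq_empty_or_nonempty ((m.support ∪ G) \ H) with ht | ht
  · have hG : G = ∅ := by
      rw [Finset.eq_empty_iff_forall_notMem]
      intro x hx
      have : x ∈ (m.support ∪ G) \ H := Finset.mem_sdiff.2
        ⟨Finset.mem_union_right _ hx, Finset.disjoint_left.1 hGH hx⟩
      rw [ht] at this
      exact Finset.notMem_empty _ this
    subst hG
    have hmH : m.support ⊆ H := by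
      intro x hx
      by_contra hxH
      have : x ∈ (m.support ∪ ∅) \ H := Finset.mem_sdiff.2 ⟨Finset.mem_union_left _ hx, hxH⟩
      rw [ht] at this
      exact Finset.notMem_empty _ this
    have h1 : m.support \ (∅ ∪ H) = ∅ := by
      rw [Finset.empty_union, Finset.sdiff_eq_empty_iff_subset]
      exact hmH
    rw [h1, Finset.sum_empty]
    have h2 := h0 (by rw [← hr, Finset.card_empty])
    obtain ⟨f, hf, g, hg, hfg⟩ := Submodule.mem_sup.1 h2
    rw [← hfg, MvPolynomial.coeff_add]
    have h3 : coeff m f = 0 := by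
      refine (mem_JS0 _ p l f).1 hf m ?_
      rw [mem_stc hH, Finset.union_eq_right.2 hmH]
      exact hH
    have h4 : coeff m g = 0 := by
      by_contra hc4
      obtain ⟨i, hi, hmi⟩ := MvPolynomial.mem_ideal_span_X_image.1 hg m
        (by rwa [MvPolynomial.mem_support_iff])
      exact hi (hmH (Finsupp.mem_support_iff.2 hmi))
    rw [h3, h4, add_zero]
  · obtain ⟨u0, hu0, hmin⟩ : ∃ u0 ∈ (m.support ∪ G) \ H, ∀ w ∈ (m.support ∪ G) \ H, u0 ≤ w :=
      ⟨_, Finset.min'_mem _ ht, fun w hw => Finset.min'_le _ w hw⟩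
    have hPu : ∀ u ∈ (m.support ∪ G) \ H, ((∀ w ∈ (m.support ∪ G) \ H, u ≤ w) ↔ u = u0) := by
      intro u hu
      constructor
      · intro h
        exact le_antisymm (h u0 hu0) (hmin u hu)
      · rintro rfl
        exact hmin
    have hin2 : ∀ v ∈ m.support \ (G ∪ H),
        coeff (m - Finsupp.single v 1) (bb H a (insert v G)) =
        if u0 ∈ insert v G then (sgn u0 ((insert v G).erase u0) : ℝ) *
          coeff (m - Finsupp.single v 1 + Finsupp.single u0 1) (a ((insert v G).erase u0)) else 0 := by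
      intro v hv
      rw [hin v hv]
      have hv' := Finset.mem_sdiff.1 hv
      have hsub : ∀ u ∈ insert v G, u ∈ (m.support ∪ G) \ H := by
        intro u hu
        rcases Finset.mem_insert.1 hu with rfl | hu
        · exact Finset.mem_sdiff.2 ⟨Finset.mem_union_left _ hv'.1,
            fun h => hv'.2 (Finset.mem_union_right _ h)⟩
        · exact Finset.mem_sdiff.2 ⟨Finset.mem_union_right _ hu, Finset.disjoint_left.1 hGH hu⟩
      have h1 : ∀ u ∈ insert v G, (sgn u ((insert v G).erase u) : ℝ) *
          (if ∀ w ∈ (m.support ∪ G) \ H, u ≤ w then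
            coeff (m - Finsupp.single v 1 + Finsupp.single u 1) (a ((insert v G).erase u)) else 0) =
          if u = u0 then (sgn u ((insert v G).erase u) : ℝ) *
            coeff (m - Finsupp.single v 1 + Finsupp.single u 1) (a ((insert v G).erase u)) else 0 := by
        intro u hu
        by_cases h : u = u0
        · rw [if_pos h, if_pos ((hPu u (hsub u hu)).2 h)]
        · rw [if_neg h, if_neg (fun h' => h ((hPu u (hsub u hu)).1 h')), mul_zero]
      rw [Finset.sum_congr rfl h1, Finset.sum_ite_eq']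
    rw [Finset.sum_congr rfl fun v hv => by rw [hin2 v hv]]
    by_cases hu0G : u0 ∈ G
    · -- `u0` in `G`
      set ρ := G.erase u0 with hρ
      have hGρ : insert u0 ρ = G := Finset.insert_erase hu0G
      have hu0ρ : u0 ∉ ρ := Finset.notMem_erase _ _
      have hu0H : u0 ∉ H := Finset.disjoint_left.1 hGH hu0G
      have hρG : ρ ⊆ G := Finset.erase_subset _ _
      have hcond := hc ρ (by rw [hρ, Finset.card_erase_add_one hu0G, hr])
        (Finset.disjoint_of_subset_left hρG hGH)
        (Γ.down _ hGf _ (Finset.union_subset_union_left hρG))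
      have hρf : ρ ∪ H ∈ Γ.faces := Γ.down _ hGf _ (Finset.union_subset_union_left hρG)
      have hcond2 := (mem_JS0 _ p l _).1 hcond (m + Finsupp.single u0 1) (by
        rw [mem_stc hρf]
        refine Γ.down _ hm _ ?_
        intro x hx
        rcases Finset.mem_union.1 hx with hx | hx
        · rw [Finsupp.mem_support_iff, Finsupp.add_apply, Finsupp.single_apply] at hx
          by_cases hxu : u0 = x
          · subst hxu
            exact Finset.mem_union_right _ (Finset.mem_union_left _ hu0G)
          · rw [if_neg hxu, add_zero] at hx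
            exact Finset.mem_union_left _ (Finsupp.mem_support_iff.2 hx)
        · rcases Finset.mem_union.1 hx with hx | hx
          · exact Finset.mem_union_right _ (Finset.mem_union_left _ (hρG hx))
          · exact Finset.mem_union_right _ (Finset.mem_union_right _ hx))
      rw [coeff_xb] at hcond2
      have hset : (m + Finsupp.single u0 1).support \ (ρ ∪ H) = insert u0 (m.support \ (G ∪ H)) := by
        ext x
        rw [Finset.mem_sdiff, Finset.mem_insert, Finset.mem_sdiff, Finsupp.mem_support_iff,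
          Finsupp.add_apply, Finsupp.single_apply, Finset.mem_union, Finset.mem_union,
          Finsupp.mem_support_iff]
        by_cases hxu : x = u0
        · subst hxu
          simp [hu0ρ, hu0H]
        · rw [if_neg (fun h => hxu h.symm), add_zero]
          rw [hρ, Finset.mem_erase]
          tauto
      rw [hset, Finset.sum_insert (by
        intro h
        exact (Finset.mem_sdiff.1 h).2 (Finset.mem_union_left _ hu0G)), hGρ,
        add_tsub_cancel_right] at hcond2
      have hterm : ∀ v ∈ m.support \ (G ∪ H), (sgn v G : ℝ) *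
          (if u0 ∈ insert v G then (sgn u0 ((insert v G).erase u0) : ℝ) *
            coeff (m - Finsupp.single v 1 + Finsupp.single u0 1) (a ((insert v G).erase u0)) else 0) =
          -(sgn u0 ρ : ℝ) * ((sgn v ρ : ℝ) *
            coeff (m + Finsupp.single u0 1 - Finsupp.single v 1) (a (insert v ρ))) := by
        intro v hv
        have hv' := Finset.mem_sdiff.1 hv
        have hvG : v ∉ G := fun h => hv'.2 (Finset.mem_union_left _ h)
        have hvu : u0 ≠ v := fun h => hvG (h ▸ hu0G)
        rw [if_pos (Finset.mem_insert_of_mem hu0G), Finset.erase_insert_of_ne hvu.symm, ← hρ]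
        have he : m - Finsupp.single v 1 + Finsupp.single u0 1 =
            m + Finsupp.single u0 1 - Finsupp.single v 1 := by
          refine tsub_add_eq_add_tsub ?_
          rw [Finsupp.single_le_iff]
          have := Finsupp.mem_support_iff.1 hv'.1
          omega
        rw [he]
        have hs := sgn_id u0 v ρ hvu hu0ρ (fun h => hvG (hρG h))
        rw [hGρ] at hs
        have hs' : (sgn v G : ℝ) * (sgn u0 (insert v ρ) : ℝ) = -((sgn u0 ρ : ℝ) * (sgn v ρ : ℝ)) := by
          exact_mod_cast hs
        rw [← mul_assoc, hs']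
        ring
      rw [Finset.sum_congr rfl hterm, ← Finset.mul_sum]
      have hself : (sgn u0 ρ : ℝ) * (sgn u0 ρ : ℝ) = 1 := by exact_mod_cast sgn_mul_self u0 ρ
      have : ∑ v ∈ m.support \ (G ∪ H), (sgn v ρ : ℝ) *
            coeff (m + Finsupp.single u0 1 - Finsupp.single v 1) (a (insert v ρ)) =
          -((sgn u0 ρ : ℝ) * coeff m (a G)) := by linarith
      rw [this]
      calc -(sgn u0 ρ : ℝ) * -((sgn u0 ρ : ℝ) * coeff m (a G))
          = (sgn u0 ρ : ℝ) * (sgn u0 ρ : ℝ) * coeff m (a G) := by ring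
        _ = coeff m (a G) := by rw [hself, one_mul]
    · -- `u0` not in `G`
      have hu0' := Finset.mem_sdiff.1 hu0
      have hu0m : u0 ∈ m.support := (Finset.mem_union.1 hu0'.1).resolve_right hu0G
      have hu0s : u0 ∈ m.support \ (G ∪ H) := Finset.mem_sdiff.2 ⟨hu0m, fun h =>
        (Finset.mem_union.1 h).elim hu0G hu0'.2⟩
      rw [Finset.sum_eq_single u0]
      · rw [if_pos (Finset.mem_insert_self _ _), Finset.erase_insert hu0G,
          single_sub_add m u0 hu0m, ← mul_assoc]
        have hself : (sgn u0 G : ℝ) * (sgn u0 G : ℝ) = 1 := by exact_mod_cast sgn_mul_self u0 G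
        rw [hself, one_mul]
      · intro v _ hvu
        rw [if_neg, mul_zero]
        intro h
        rcases Finset.mem_insert.1 h with h | h
        · exact hvu h.symm
        · exact hu0G h
      · intro h
        exact absurd hu0s h

end Pool.Agent.H762.Fan
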