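import Pool.Agent.H128.Fan.Defs

set_option autoImplicit false
set_option linter.unusedSectionVars false

/-! T18 and T22 (helper539): one more linear form. -/

namespace Pool.Agent.H539.Fan.T18

open Pool.Agent.Helper611 Pool.Agent.Helper611.ZBase Pool.Agent.Helper611.KRel
  Pool.Agent.Helper611.KVal Pool.Agent.Helper611.UStr
  Pool.Agent.H252R2.Lef1 Pool.Agent.H252R2.Lef7
  Pool.Agent.H252R2.CDNum Pool.Agent.H252R2.Top2 Pool.Agent.H128.SRing Pool.Agent.H128.Fan
open MvPolynomial Module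

variable {V : Type} [Fintype V] [LinearOrder V] {d : ℕ} {Γ : Cx V}

/-- T22. -/
theorem xb_xb (H : Finset V) (a : Finset V → MvPolynomial V ℝ) (G : Finset V) :
    xb H (xb H a) G = 0 := by
  unfold xb
  have h1 : ∀ v ∈ (G ∪ H)ᶜ, sgn v G • (X v * ∑ w ∈ (insert v G ∪ H)ᶜ,
      sgn w (insert v G) • (X w * a (insert w (insert v G)))) =
      ∑ w ∈ ((G ∪ H)ᶜ).erase v, (sgn v G * sgn w (insert v G)) •
        (X v * X w * a (insert w (insert v G))) := by
    intro v _
    rw [Finset.mul_sum, Finset.smul_sum, Finset.insert_union, Finset.compl_insert]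
    refine Finset.sum_congr rfl fun w _ => ?_
    rw [mul_smul_comm, smul_smul, mul_assoc]
  rw [Finset.sum_congr rfl h1]
  apply sum_anti
  intro v hv w hw hvw
  have hv' : v ∉ G := fun h => Finset.mem_compl.1 hv (Finset.mem_union_left _ h)
  have hw' : w ∉ G := fun h => Finset.mem_compl.1 hw (Finset.mem_union_left _ h)
  rw [sgn_swap v w G hvw hv' hw', Finset.insert_comm, neg_smul, mul_comm (X v) (X w)]

lemma xb_sub (H : Finset V) (x y : Finset V → MvPolynomial V ℝ) (t : MvPolynomial V ℝ)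
    (G : Finset V) : xb H (fun G => x G - t * y G) G = xb H x G - t * xb H y G := by
  unfold xb
  rw [Finset.mul_sum, ← Finset.sum_sub_distrib]
  refine Finset.sum_congr rfl fun v _ => ?_
  rw [mul_smul_comm, ← smul_sub]
  congr 1
  ring

/-- ideals spanned by homogeneous elements -/
lemma hc_span {S : Set (MvPolynomial V ℝ)} (hS : ∀ g ∈ S, ∃ n : ℕ, g.IsHomogeneous n)
    {x : MvPolynomial V ℝ} (hx : x ∈ Ideal.span S) (t : ℕ) :
    homogeneousComponent t x ∈ Ideal.span S := by
  let _ : GradedAlgebra (homogeneousSubmodule V ℝ) := MvPolynomial.gradedAlgebra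
  have h1 : (Ideal.span S).IsHomogeneous (homogeneousSubmodule V ℝ) :=
    Ideal.homogeneous_span _ _ fun g hg => by
      obtain ⟨n, hn⟩ := hS g hg
      exact ⟨n, hn⟩
  have h2 := h1 t hx
  rw [← decomposition.decompose'_apply]
  exact h2

lemma hc_mon (a : ℝ) (v : V) (c : MvPolynomial V ℝ) (t : ℕ) :
    homogeneousComponent (t + 1) (C a * X v * c) = C a * X v * homogeneousComponent t c := by
  have h1 : (C a * X v : MvPolynomial V ℝ) = monomial (Finsupp.single v 1) a := C_mul_X_eq_monomial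
  rw [h1, hc_mul, Finsupp.degree_single, if_pos (by omega), Nat.add_sub_cancel]

lemma hc_X (v : V) (c : MvPolynomial V ℝ) (t : ℕ) :
    homogeneousComponent (t + 1) (X v * c) = X v * homogeneousComponent t c := by
  have h1 := hc_mon 1 v c t
  rw [C_1, one_mul] at h1
  exact h1

lemma hc_th (p : V → (Fin d → ℝ)) (l : Module.Dual ℝ (Fin d → ℝ)) (c : MvPolynomial V ℝ) (t : ℕ) :
    homogeneousComponent (t + 1) (th p l * c) = th p l * homogeneousComponent t c := by
  unfold th
  rw [Finset.sum_mul, Finset.sum_mul, map_sum]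
  exact Finset.sum_congr rfl fun v _ => hc_mon _ _ _ _

lemma th_hom (p : V → (Fin d → ℝ)) (l : Module.Dual ℝ (Fin d → ℝ)) : (th p l).IsHomogeneous 1 := by
  unfold th
  exact IsHomogeneous.sum _ _ _ fun v _ => isHomogeneous_C_mul_X _ _

lemma prod_hom (N : Finset V) : (∏ v ∈ N, X v : MvPolynomial V ℝ).IsHomogeneous N.card := by
  have h1 := IsHomogeneous.prod N (fun v => (X v : MvPolynomial V ℝ)) (fun _ => 1)
    (fun v _ => isHomogeneous_X ℝ v)
  rwa [Finset.sum_const, smul_eq_mul, mul_one] at h1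

lemma JS_hc (S : Cx V) (p : V → (Fin d → ℝ)) (l : Fin d → Module.Dual ℝ (Fin d → ℝ)) (s : ℕ)
    {x : MvPolynomial V ℝ} (hx : x ∈ JS S p l s) (t : ℕ) :
    homogeneousComponent t x ∈ JS S p l s := by
  unfold JS at hx ⊢
  refine hc_span ?_ hx t
  rintro g (⟨N, -, rfl⟩ | ⟨i, -, rfl⟩)
  · exact ⟨N.card, prod_hom N⟩
  · exact ⟨1, th_hom _ _⟩

lemma JS_le (S : Cx V) (p : V → (Fin d → ℝ)) (l : Fin d → Module.Dual ℝ (Fin d → ℝ)) (s : ℕ) :
    JS S p l s ≤ JS S p l (s + 1) := by
  unfold JS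
  apply Ideal.span_mono
  rintro f (hf | ⟨i, hi, hf⟩)
  · exact Or.inl hf
  · exact Or.inr ⟨i, by omega, hf⟩

/-- splitting off the last linear form -/
lemma JS_split (S : Cx V) (p : V → (Fin d → ℝ)) (l : Fin d → Module.Dual ℝ (Fin d → ℝ)) (s : Fin d)
    {x : MvPolynomial V ℝ} (hx : x ∈ JS S p l ((s : ℕ) + 1)) :
    ∃ c : MvPolynomial V ℝ, x - th p (l s) * c ∈ JS S p l s := by
  unfold JS at hx
  induction hx using Submodule.span_induction with
  | mem x hx =>
    rcases hx with ⟨N, hN, rfl⟩ | ⟨i, hi, rfl⟩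
    · refine ⟨0, ?_⟩
      rw [mul_zero, sub_zero]
      exact JS_nonface hN
    · by_cases his : (i : ℕ) < s
      · refine ⟨0, ?_⟩
        rw [mul_zero, sub_zero]
        exact JS_th his
      · have h1 : i = s := Fin.ext (by omega)
        subst h1
        refine ⟨1, ?_⟩
        rw [mul_one, sub_self]
        exact Ideal.zero_mem _
  | zero =>
    refine ⟨0, ?_⟩
    rw [mul_zero, sub_zero]
    exact Ideal.zero_mem _
  | add x y _ _ hx hy =>
    obtain ⟨c, hc⟩ := hx
    obtain ⟨c', hc'⟩ := hy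
    refine ⟨c + c', ?_⟩
    have h1 : x + y - th p (l s) * (c + c') = (x - th p (l s) * c) + (y - th p (l s) * c') := by
      ring
    rw [h1]
    exact Ideal.add_mem _ hc hc'
  | smul r x _ hx =>
    obtain ⟨c, hc⟩ := hx
    refine ⟨r * c, ?_⟩
    have h1 : r • x - th p (l s) * (r * c) = r * (x - th p (l s) * c) := by
      rw [smul_eq_mul]
      ring
    rw [h1]
    exact Ideal.mul_mem_left _ _ hc

lemma JS_splith (S : Cx V) (p : V → (Fin d → ℝ)) (l : Fin d → Module.Dual ℝ (Fin d → ℝ))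
    (s : Fin d) {x : MvPolynomial V ℝ} (hx : x ∈ JS S p l ((s : ℕ) + 1)) (n : ℕ)
    (hn : x.IsHomogeneous (n + 1)) :
    ∃ c : MvPolynomial V ℝ, c.IsHomogeneous n ∧ x - th p (l s) * c ∈ JS S p l s := by
  obtain ⟨c, hc⟩ := JS_split S p l s hx
  refine ⟨homogeneousComponent n c, homogeneousComponent_isHomogeneous n c, ?_⟩
  have h1 := JS_hc S p l s hc (n + 1)
  rw [map_sub, hc_th, homogeneousComponent_eq_self hn] at h1
  exact h1

/-- elements of the ideal of the variables outside of `H` -/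
lemma span_dec (H : Finset V) {y : MvPolynomial V ℝ}
    (hy : y ∈ Ideal.span ((X : V → MvPolynomial V ℝ) '' {v | v ∉ H})) :
    ∃ c : V → MvPolynomial V ℝ, y = ∑ v ∈ Hᶜ, X v * c v := by
  induction hy using Submodule.span_induction with
  | mem y hy =>
    obtain ⟨w, hw, rfl⟩ := hy
    refine ⟨fun v => if v = w then 1 else 0, ?_⟩
    rw [Finset.sum_eq_single w]
    · beta_reduce
      rw [if_pos rfl, mul_one]
    · intro v _ hv
      beta_reduce
      rw [if_neg hv, mul_zero]
    · intro h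
      exact absurd (Finset.mem_compl.2 hw) h
  | zero =>
    refine ⟨fun _ => 0, ?_⟩
    symm
    exact Finset.sum_eq_zero fun v _ => mul_zero _
  | add x y _ _ hx hy =>
    obtain ⟨c, hc⟩ := hx
    obtain ⟨c', hc'⟩ := hy
    refine ⟨fun v => c v + c' v, ?_⟩
    rw [hc, hc', ← Finset.sum_add_distrib]
    exact Finset.sum_congr rfl fun v _ => (mul_add _ _ _).symm
  | smul r x _ hx =>
    obtain ⟨c, hc⟩ := hx
    refine ⟨fun v => r * c v, ?_⟩
    rw [smul_eq_mul, hc, Finset.mul_sum]
    exact Finset.sum_congr rfl fun v _ => by ring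

lemma xb_hom (H : Finset V) (a : Finset V → MvPolynomial V ℝ) (k : ℕ)
    (ha : ∀ G, (a G).IsHomogeneous k) (G : Finset V) : (xb H a G).IsHomogeneous (k + 1) := by
  unfold xb
  refine IsHomogeneous.sum _ _ _ fun v _ => ?_
  have h1 : (X v * a (insert v G)).IsHomogeneous (1 + k) := (isHomogeneous_X ℝ v).mul (ha _)
  rw [add_comm] at h1
  have h2 : sgn v G • (X v * a (insert v G)) ∈ homogeneousSubmodule V ℝ (k + 1) :=
    zsmul_mem (show X v * a (insert v G) ∈ homogeneousSubmodule V ℝ (k + 1) from h1) _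
  exact h2

/-- the twisted boundary of a chain in the ideals -/
lemma xb_mem (p : V → (Fin d → ℝ)) (l : Fin d → Module.Dual ℝ (Fin d → ℝ)) (s : ℕ) (H G : Finset V)
    (hG : G ∪ H ∈ Γ.faces) (hGH : Disjoint G H) (x : Finset V → MvPolynomial V ℝ)
    (hx : ∀ v, v ∉ G ∪ H → insert v G ∪ H ∈ Γ.faces → Disjoint (insert v G) H →
      x (insert v G) ∈ JS (stc Γ (insert v G ∪ H)) p l s) :
    xb H x G ∈ JS (stc Γ (G ∪ H)) p l s := by
  unfold xb
  refine Ideal.sum_mem _ fun v hv => ?_
  rw [Finset.mem_compl] at hv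
  refine zsmul_mem ?_ _
  by_cases hf : insert v (G ∪ H) ∈ Γ.faces
  · have h1 := hx v hv (by rwa [Finset.insert_union]) (by
      rw [Finset.disjoint_insert_left]
      exact ⟨fun h => hv (Finset.mem_union_right _ h), hGH⟩)
    rw [Finset.insert_union] at h1
    exact X_mul_JS hG hf h1
  · exact Ideal.mul_mem_right _ _ (X_JS hG hf p l s)

/-- T18. -/
theorem TT_step (p : V → (Fin d → ℝ)) (l : Fin d → Module.Dual ℝ (Fin d → ℝ)) (H : Finset V)
    (hH : H ∈ Γ.faces) (s : Fin d)
    (hreg : ∀ G, Disjoint G H → G ∪ H ∈ Γ.faces → ∀ f : MvPolynomial V ℝ,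
      th p (l s) * f ∈ JS (stc Γ (G ∪ H)) p l s → f ∈ JS (stc Γ (G ∪ H)) p l s)
    (hK : ∀ k (c : MvPolynomial V ℝ), c.IsHomogeneous (k + 1) →
      th p (l s) * c ∈ JS (stc Γ H) p l s ⊔ Ideal.span (X '' {v | v ∉ H}) →
      c ∈ JS (stc Γ H) p l s ⊔ Ideal.span (X '' {v | v ∉ H}))
    (h : TT Γ p l H s) : TT Γ p l H (s + 1) := by
  intro r k a ha h1 h2
  rcases r with _ | r
  · obtain ⟨j, hj, y, hy, hjy⟩ := Submodule.mem_sup.1 (h2 rfl)
    obtain ⟨c, rfl⟩ := span_dec H hy
    refine ⟨fun G => ∑ v ∈ G, homogeneousComponent k (c v), fun G =>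
      IsHomogeneous.sum _ _ _ fun v _ => homogeneousComponent_isHomogeneous k (c v), ?_⟩
    intro G hG _ _
    rw [Finset.card_eq_zero] at hG
    subst hG
    have h3 := congrArg (homogeneousComponent (k + 1)) hjy
    rw [map_add, map_sum, homogeneousComponent_eq_self (ha ∅)] at h3
    have h4 : xb H (fun G => ∑ v ∈ G, homogeneousComponent k (c v)) ∅ =
        ∑ v ∈ Hᶜ, homogeneousComponent (k + 1) (X v * c v) := by
      unfold xb
      rw [Finset.empty_union]
      refine Finset.sum_congr rfl fun v _ => ?_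
      have h5 : sgn v (∅ : Finset V) = 1 := by
        unfold sgn
        rw [Finset.filter_empty, Finset.card_empty, pow_zero]
      rw [h5, one_smul, hc_X]
      change X v * ∑ w ∈ insert v ∅, homogeneousComponent k (c w) = _
      rw [Finset.sum_insert (Finset.notMem_empty v), Finset.sum_empty, add_zero]
    rw [h4, ← h3, add_sub_cancel_right, Finset.empty_union]
    exact JS_hc _ p l _ hj _
  · have hex : ∀ G : Finset V, ∃ c : MvPolynomial V ℝ, c.IsHomogeneous (k + 1) ∧
        (G.card = r → Disjoint G H → G ∪ H ∈ Γ.faces →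
          xb H a G - th p (l s) * c ∈ JS (stc Γ (G ∪ H)) p l s) := by
      intro G
      by_cases hG : G.card = r ∧ Disjoint G H ∧ G ∪ H ∈ Γ.faces
      · obtain ⟨c, hc1, hc2⟩ := JS_splith (stc Γ (G ∪ H)) p l s
          (h1 G (by rw [hG.1]) hG.2.1 hG.2.2) (k + 1) (xb_hom H a (k + 1) ha G)
        exact ⟨c, hc1, fun _ _ _ => hc2⟩
      · refine ⟨0, isHomogeneous_zero _ _ _, fun g1 g2 g3 => absurd ⟨g1, g2, g3⟩ hG⟩
    choose c hc1 hc2 using hex
    have hstep1 : ∀ G : Finset V, G.card + 1 = r → Disjoint G H → G ∪ H ∈ Γ.faces →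
        xb H c G ∈ JS (stc Γ (G ∪ H)) p l s := by
      intro G hG1 hG2 hG3
      apply hreg G hG2 hG3
      have h3 := xb_mem p l s H G hG3 hG2 (fun G => xb H a G - th p (l s) * c G)
        (fun v hv hf hd => hc2 _ (by
          rw [Finset.card_insert_of_notMem fun h => hv (Finset.mem_union_left _ h), hG1]) hd hf)
      rw [xb_sub, xb_xb, zero_sub] at h3
      have h4 := neg_mem h3
      rwa [neg_neg] at h4
    have hstep2 : r = 0 → c ∅ ∈ JS (stc Γ H) p l s ⊔ Ideal.span (X '' {v | v ∉ H}) := by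
      intro hr
      apply hK k (c ∅) (hc1 ∅)
      have h3 := hc2 ∅ (by rw [Finset.card_empty, hr]) (Finset.disjoint_empty_left H)
        (by rwa [Finset.empty_union])
      rw [Finset.empty_union] at h3
      have h4 : xb H a ∅ ∈ Ideal.span ((X : V → MvPolynomial V ℝ) '' {v | v ∉ H}) := by
        unfold xb
        refine Ideal.sum_mem _ fun v hv => zsmul_mem (Ideal.mul_mem_right _ _ ?_) _
        refine Ideal.subset_span ⟨v, ?_, rfl⟩
        rw [Finset.mem_compl, Finset.empty_union] at hv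
        exact hv
      have h5 : th p (l s) * c ∅ = -(xb H a ∅ - th p (l s) * c ∅) + xb H a ∅ := by ring
      rw [h5]
      exact add_mem (neg_mem (Ideal.mem_sup_left h3)) (Ideal.mem_sup_right h4)
    obtain ⟨c', hc'1, hc'2⟩ := h r k c hc1 hstep1 hstep2
    obtain ⟨b, hb1, hb2⟩ := h (r + 1) k (fun G => a G - th p (l s) * c' G) (by
      intro G
      have h3 : (th p (l s) * c' G).IsHomogeneous (1 + k) := (th_hom p (l s)).mul (hc'1 G)
      rw [add_comm] at h3
      exact (ha G).sub h3) (by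
      intro G hG1 hG2 hG3
      have hG1' : G.card = r := by omega
      rw [xb_sub]
      have h3 : xb H a G - th p (l s) * xb H c' G = (xb H a G - th p (l s) * c G) +
          th p (l s) * (c G - xb H c' G) := by ring
      rw [h3]
      exact Ideal.add_mem _ (hc2 G hG1' hG2 hG3)
        (Ideal.mul_mem_left _ _ (hc'2 G hG1' hG2 hG3))) (fun hr => absurd hr (Nat.succ_ne_zero r))
    refine ⟨b, hb1, fun G hG1 hG2 hG3 => ?_⟩
    have h3 := hb2 G hG1 hG2 hG3
    have h4 : a G - xb H b G = (a G - th p (l s) * c' G - xb H b G) + th p (l s) * c' G := by ring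
    rw [h4]
    refine Ideal.add_mem _ (JS_le _ p l s h3) (Ideal.mul_mem_right _ _ ?_)
    exact JS_th (Nat.lt_succ_self _)

end Pool.Agent.H539.Fan.T18
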