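import Pool.Agent.H128.Fan.Defs

set_option autoImplicit false
set_option linter.unusedSectionVars false

/-! T19, T20: abstract linear algebra. -/

namespace Pool.Agent.H758.Fan

open Pool.Agent.H128.Fan
open Module

variable {κ : Type} [Fintype κ] [DecidableEq κ]

section
variable {ι : Type} [Fintype ι]

theorem qf_comm (ω : ι → ℝ) (F F' : ι → κ → ℝ) : qf ω F F' = qf ω F' F := by
  unfold qf
  refine Finset.sum_congr rfl fun G _ => ?_
  congr 1
  exact Finset.sum_congr rfl fun i _ => mul_comm _ _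

theorem qf_add_left (ω : ι → ℝ) (F F' H : ι → κ → ℝ) : qf ω (F + F') H = qf ω F H + qf ω F' H := by
  unfold qf
  rw [← Finset.sum_add_distrib]
  refine Finset.sum_congr rfl fun G _ => ?_
  rw [← mul_add, ← Finset.sum_add_distrib]
  congr 1
  exact Finset.sum_congr rfl fun i _ => by rw [Pi.add_apply, Pi.add_apply, add_mul]

theorem qf_smul_left (ω : ι → ℝ) (a : ℝ) (F H : ι → κ → ℝ) : qf ω (a • F) H = a * qf ω F H := by
  unfold qf
  rw [Finset.mul_sum]
  refine Finset.sum_congr rfl fun G _ => ?_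
  rw [mul_left_comm, Finset.mul_sum, Finset.mul_sum, Finset.mul_sum]
  exact Finset.sum_congr rfl fun i _ => by rw [Pi.smul_apply, Pi.smul_apply, smul_eq_mul]; ring

/-- the bilinear form -/
noncomputable def bq (ω : ι → ℝ) : LinearMap.BilinForm ℝ (ι → κ → ℝ) :=
  LinearMap.mk₂ ℝ (qf ω) (qf_add_left ω) (qf_smul_left ω)
    (fun F G H => by rw [qf_comm, qf_add_left, qf_comm ω G, qf_comm ω H])
    (fun a F G => by rw [qf_comm, qf_smul_left, qf_comm, smul_eq_mul])

theorem bq_apply (ω : ι → ℝ) (F F' : ι → κ → ℝ) : bq ω F F' = qf ω F F' := rfl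

theorem bq_refl (ω : ι → ℝ) : (bq ω : LinearMap.BilinForm ℝ (ι → κ → ℝ)).IsRefl := by
  intro F F' h
  rw [bq_apply] at h ⊢
  rw [qf_comm]
  exact h

theorem bq_nondeg [DecidableEq ι] {ω : ι → ℝ} (hω : ∀ G, ω G ≠ 0) :
    (bq ω : LinearMap.BilinForm ℝ (ι → κ → ℝ)).Nondegenerate := by
  refine (LinearMap.IsRefl.nondegenerate_iff_separatingLeft (bq_refl ω)).2 ?_
  intro F hF
  funext G i
  have h := hF (Pi.single G (Pi.single i 1))
  rw [bq_apply] at h
  unfold qf at h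
  rw [Finset.sum_eq_single G, Finset.sum_eq_single i] at h
  · simpa [hω G] using h
  · intro j _ hj
    simp [hj]
  · simp
  · intro G' _ hG'
    simp [hG']
  · simp


theorem bq_oo {ω : ι → ℝ} (hω : ∀ G, ω G ≠ 0) (W : Submodule ℝ (ι → κ → ℝ)) :
    (bq ω).orthogonal ((bq ω).orthogonal W) = W := by
  classical
  exact LinearMap.BilinForm.orthogonal_orthogonal (bq_nondeg hω) (bq_refl ω) W

theorem mem_orth (ω : ι → ℝ) (W : Submodule ℝ (ι → κ → ℝ)) (F : ι → κ → ℝ) :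
    F ∈ (bq ω).orthogonal W ↔ ∀ F' ∈ W, qf ω F F' = 0 := by
  rw [LinearMap.BilinForm.mem_orthogonal_iff]
  constructor
  · intro h F' hF'
    have := h F' hF'
    rw [qf_comm]
    exact this
  · intro h F' hF'
    show qf ω F' F = 0
    rw [qf_comm]
    exact h F' hF'

theorem finrank_map_ker (D : (ι → κ → ℝ) →ₗ[ℝ] (ι → κ → ℝ)) (A : Submodule ℝ (ι → κ → ℝ)) :
    finrank ℝ (A.map D) + finrank ℝ (A ⊓ LinearMap.ker D : Submodule ℝ (ι → κ → ℝ)) =
      finrank ℝ A := by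
  have h1 := LinearMap.finrank_range_add_finrank_ker (D.domRestrict A)
  rw [LinearMap.range_domRestrict, LinearMap.ker_domRestrict] at h1
  rw [← h1, ← Submodule.map_comap_subtype, Submodule.finrank_map_subtype_eq]

/-- boundaries -/
def BB (D : (ι → κ → ℝ) →ₗ[ℝ] (ι → κ → ℝ)) (N : ℕ → Submodule ℝ (ι → κ → ℝ)) (k : ℕ) :
    Submodule ℝ (ι → κ → ℝ) := N k ⊔ (N k).map D

/-- cycles -/
def ZZ (D : (ι → κ → ℝ) →ₗ[ℝ] (ι → κ → ℝ)) (N : ℕ → Submodule ℝ (ι → κ → ℝ)) (k : ℕ) :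
    Submodule ℝ (ι → κ → ℝ) := N (k + 1) ⊓ (N (k + 1)).comap D

variable {ω : ι → ℝ} {e : ℕ} {D : (ι → κ → ℝ) →ₗ[ℝ] (ι → κ → ℝ)}
    {N : ℕ → Submodule ℝ (ι → κ → ℝ)}

theorem BB_le_ZZ (h : FD ω e D N) (k : ℕ) : BB D N k ≤ ZZ D N k := by
  refine sup_le ?_ ?_
  · intro F hF
    exact ⟨h.mono k hF, h.step k F hF⟩
  · rintro _ ⟨F, hF, rfl⟩
    exact ⟨h.step k F hF, h.sq k F hF⟩

theorem orth_BB (h : FD ω e D N) (j k : ℕ) (hjk : j + k = e) :
    (bq ω).orthogonal (BB D N k) = ZZ D N j := by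
  ext F
  rw [mem_orth]
  constructor
  · intro hF
    constructor
    · refine (h.perp k (j + 1) (by omega) F).1 fun F' hF' => hF F' ?_
      exact Submodule.mem_sup_left hF'
    · show D F ∈ N (j + 1)
      refine (h.perp k (j + 1) (by omega) (D F)).1 fun F' hF' => ?_
      rw [h.adj]
      exact hF _ (Submodule.mem_sup_right ⟨F', hF', rfl⟩)
  · rintro ⟨h1, h2⟩ F' hF'
    obtain ⟨a, ha, b, hb, rfl⟩ := Submodule.mem_sup.1 hF'
    obtain ⟨c, hc, rfl⟩ := hb
    rw [qf_comm, qf_add_left, qf_comm, (h.perp k (j + 1) (by omega) F).2 h1 a ha, zero_add, h.adj,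
      qf_comm]
    exact (h.perp k (j + 1) (by omega) (D F)).2 h2 c hc

/-- T20. -/
theorem perp_bdry (h : FD ω e D N) (j k : ℕ) (hjk : j + k = e)
    (F : ι → κ → ℝ) (hF : ∀ F' ∈ N (j + 1), D F' ∈ N (j + 1) → qf ω F F' = 0) :
    F ∈ N k ⊔ (N k).map D := by
  show F ∈ BB D N k
  rw [← bq_oo h.hω (BB D N k), mem_orth]
  intro F' hF'
  rw [orth_BB h j k hjk] at hF'
  exact hF F' hF'.1 hF'.2

theorem ZZ_eq_BB (h : FD ω e D N) (m : ℕ) (he : e = 2 * m)
    (hex : ∀ k, m < k → ∀ F ∈ N (k + 1), D F ∈ N (k + 1) → F ∈ N k ⊔ (N k).map D) (j : ℕ)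
    (hj : j < m) : ZZ D N j = BB D N j := by
  have h1 : ZZ D N (e - j) = BB D N (e - j) :=
    le_antisymm (fun F hF => hex (e - j) (by omega) F hF.1 hF.2) (BB_le_ZZ h _)
  have h2 := orth_BB h j (e - j) (by omega)
  have h3 := orth_BB h (e - j) j (by omega)
  rw [← h2, ← h1, ← h3, bq_oo h.hω]

theorem finrank_BB (h : FD ω e D N) (j : ℕ) :
    finrank ℝ (BB D N (j + 1)) + finrank ℝ (ZZ D N j) = 2 * finrank ℝ (N (j + 1)) := by
  have h1 := Submodule.finrank_sup_add_finrank_inf_eq (N (j + 1)) ((N (j + 1)).map D)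
  have h2 := finrank_map_ker D (N (j + 1))
  have h3 := finrank_map_ker D (ZZ D N j)
  have h4 : ZZ D N j ⊓ LinearMap.ker D = N (j + 1) ⊓ LinearMap.ker D := by
    ext F
    constructor
    · rintro ⟨⟨a, b⟩, c⟩
      exact ⟨a, c⟩
    · rintro ⟨a, c⟩
      refine ⟨⟨a, ?_⟩, c⟩
      show D F ∈ N (j + 1)
      rw [LinearMap.mem_ker.1 c]
      exact Submodule.zero_mem _
  have h5 : (ZZ D N j).map D = N (j + 1) ⊓ (N (j + 1)).map D := by
    ext F
    constructor
    · rintro ⟨a, ⟨b, c⟩, rfl⟩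
      exact ⟨c, ⟨a, b, rfl⟩⟩
    · rintro ⟨a, ⟨b, c, rfl⟩⟩
      exact ⟨b, ⟨c, a⟩, rfl⟩
  rw [h4] at h3
  rw [h5] at h3
  unfold BB
  omega

theorem finrank_BB_sum (h : FD ω e D N) (m : ℕ) (he : e = 2 * m)
    (hex : ∀ k, m < k → ∀ F ∈ N (k + 1), D F ∈ N (k + 1) → F ∈ N k ⊔ (N k).map D) :
    ∀ t, t ≤ m → (finrank ℝ (BB D N t) : ℤ) =
      2 * ∑ j ∈ Finset.range t, (-1 : ℤ) ^ (t - 1 - j) * (finrank ℝ (N (j + 1)) : ℤ) := by
  intro t
  induction t with
  | zero =>
    intro _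
    have : BB D N 0 = ⊥ := by
      unfold BB
      rw [h.zero, Submodule.map_bot, sup_bot_eq]
    rw [this, finrank_bot]
    simp
  | succ t ih =>
    intro ht
    have h1 := finrank_BB h t
    rw [ZZ_eq_BB h m he hex t (by omega)] at h1
    have h2 := ih (by omega)
    have h3 : ∑ j ∈ Finset.range t, (-1 : ℤ) ^ (t + 1 - 1 - j) * (finrank ℝ (N (j + 1)) : ℤ) =
        - ∑ j ∈ Finset.range t, (-1 : ℤ) ^ (t - 1 - j) * (finrank ℝ (N (j + 1)) : ℤ) := by
      rw [← Finset.sum_neg_distrib]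
      refine Finset.sum_congr rfl fun j hj => ?_
      rw [Finset.mem_range] at hj
      have h4 : t + 1 - 1 - j = (t - 1 - j) + 1 := by omega
      rw [h4, pow_succ]
      ring
    rw [Finset.sum_range_succ, h3]
    have h5 : t + 1 - 1 - t = 0 := by omega
    rw [h5, pow_zero, one_mul]
    have h6 : (finrank ℝ (BB D N (t + 1)) : ℤ) + finrank ℝ (BB D N t) =
        2 * finrank ℝ (N (t + 1)) := by exact_mod_cast h1
    linarith

theorem iso_def (ω : ι → ℝ) (P : ι → Prop) (η : ℝ) (hη : ∀ G, ¬ P G → 0 < η * ω G)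
    (F : ι → κ → ℝ) (hF : ∀ G, P G → F G = 0) :
    0 ≤ η * qf ω F F ∧ (qf ω F F = 0 → F = 0) := by
  have h1 : η * qf ω F F = ∑ G, (η * ω G) * ∑ i, F G i * F G i := by
    unfold qf
    rw [Finset.mul_sum]
    exact Finset.sum_congr rfl fun G _ => by rw [mul_assoc]
  have h2 : ∀ G ∈ Finset.univ, 0 ≤ (η * ω G) * ∑ i, F G i * F G i := by
    intro G _
    by_cases hG : P G
    · rw [hF G hG]
      simp
    · exact mul_nonneg (hη G hG).le (Finset.sum_nonneg fun i _ => mul_self_nonneg _)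
  refine ⟨?_, fun h0 => ?_⟩
  · rw [h1]
    exact Finset.sum_nonneg h2
  · rw [h0, mul_zero] at h1
    have h3 := (Finset.sum_eq_zero_iff_of_nonneg h2).1 h1.symm
    funext G
    by_cases hG : P G
    · exact hF G hG
    · have h4 := h3 G (Finset.mem_univ _)
      rcases mul_eq_zero.1 h4 with h5 | h5
      · exact absurd h5 (hη G hG).ne'
      · funext i
        have h6 := (Finset.sum_eq_zero_iff_of_nonneg fun i _ => mul_self_nonneg (F G i)).1 h5 i
          (Finset.mem_univ _)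
        exact mul_self_eq_zero.1 h6

/-- restriction to a set of indices -/
noncomputable def res (P : ι → Prop) : (ι → κ → ℝ) →ₗ[ℝ] ({G // P G} → κ → ℝ) :=
  LinearMap.funLeft ℝ (κ → ℝ) Subtype.val

theorem finrank_res (P : ι → Prop) [DecidablePred P] : finrank ℝ ({G // P G} → κ → ℝ) =
    Fintype.card κ * (Finset.univ.filter fun G => P G).card := by
  rw [Module.finrank_pi_fintype]
  simp only [Module.finrank_pi, Finset.sum_const, Finset.card_univ, smul_eq_mul]
  rw [Fintype.card_subtype, mul_comm]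

/-- T19. -/
theorem def_abs (h : FD ω e D N) (m : ℕ) (he : e = 2 * m) (ε : ℝ)
    (hε : ε = 1 ∨ ε = -1)
    (hex : ∀ k, m < k → ∀ F ∈ N (k + 1), D F ∈ N (k + 1) → F ∈ N k ⊔ (N k).map D)
    (hdim : 2 * ∑ j ∈ Finset.range m, (-1 : ℤ) ^ (m - 1 - j) * (finrank ℝ (N (j + 1)) : ℤ) =
      (Fintype.card κ : ℤ) * ((Finset.univ.filter fun G => ε * ω G < 0).card : ℤ)) :
    (∀ F ∈ N (m + 1), D F ∈ N (m + 1) → 0 ≤ ε * qf ω F F ∧
      (qf ω F F = 0 → F ∈ N m ⊔ (N m).map D)) ∧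
    Fintype.card κ * (Finset.univ.filter fun G => ε * ω G < 0).card ≤
      Fintype.card κ * (Finset.univ.filter fun G => 0 < ε * ω G).card := by
  have hε0 : ε ≠ 0 := by
    rcases hε with h0 | h0 <;> rw [h0] <;> norm_num
  have hb : finrank ℝ (BB D N m) =
      Fintype.card κ * (Finset.univ.filter fun G => ε * ω G < 0).card := by
    have := finrank_BB_sum h m he hex m le_rfl
    rw [hdim] at this
    exact_mod_cast this
  have horth := orth_BB h m m (by omega)
  have hiso : ∀ F ∈ BB D N m, ∀ F' ∈ ZZ D N m, qf ω F' F = 0 := by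
    intro F hF F' hF'
    rw [← horth, mem_orth] at hF'
    exact hF' F hF
  have hisoB : ∀ F ∈ BB D N m, qf ω F F = 0 := fun F hF => hiso F hF F (BB_le_ZZ h m hF)
  have hneg : ∀ G, ¬ ε * ω G < 0 → 0 < ε * ω G := by
    intro G hG
    exact lt_of_le_of_ne (not_lt.1 hG) (mul_ne_zero hε0 (h.hω G)).symm
  have hpos : ∀ G, ¬ 0 < ε * ω G → 0 < (-ε) * ω G := by
    intro G hG
    have h1 : ε * ω G < 0 := lt_of_le_of_ne (not_lt.1 hG) (mul_ne_zero hε0 (h.hω G))
    linarith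
  -- restriction to the negative coordinates
  let R1 := (res (κ := κ) fun G => ε * ω G < 0).domRestrict (BB D N m)
  let R2 := (res (κ := κ) fun G => 0 < ε * ω G).domRestrict (BB D N m)
  have hR1 : Function.Injective R1 := by
    rw [injective_iff_map_eq_zero]
    rintro ⟨F, hF⟩ h0
    have h1 := (iso_def ω (fun G => ε * ω G < 0) ε hneg F (fun G hG => congrFun h0 ⟨G, hG⟩)).2
      (hisoB F hF)
    exact Subtype.ext h1
  have hR2 : Function.Injective R2 := by
    rw [injective_iff_map_eq_zero]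
    rintro ⟨F, hF⟩ h0
    have h1 := (iso_def ω (fun G => 0 < ε * ω G) (-ε) hpos F (fun G hG => congrFun h0 ⟨G, hG⟩)).2
      (hisoB F hF)
    exact Subtype.ext h1
  have hR1s : Function.Surjective R1 := by
    refine (LinearMap.injective_iff_surjective_of_finrank_eq_finrank ?_).1 hR1
    rw [hb, finrank_res]
  refine ⟨fun F hF1 hF2 => ?_, ?_⟩
  · have hFZ : F ∈ ZZ D N m := ⟨hF1, hF2⟩
    obtain ⟨⟨b, hbB⟩, hbR⟩ := hR1s (res (fun G => ε * ω G < 0) F)
    have hsub : ∀ G, ε * ω G < 0 → (F - b) G = 0 := by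
      intro G hG
      have h1 := congrFun hbR ⟨G, hG⟩
      have h2 : b G = F G := h1
      rw [Pi.sub_apply, h2, sub_self]
    have h3 := iso_def ω (fun G => ε * ω G < 0) ε hneg (F - b) hsub
    have h4 : qf ω (F - b) (F - b) = qf ω F F := by
      have e1 : F - b = F + (-1 : ℝ) • b := by rw [neg_one_smul, sub_eq_add_neg]
      have e2 : qf ω F b = 0 := hiso b hbB F hFZ
      have e3 : qf ω b F = 0 := by rw [qf_comm, e2]
      have e4 : ∀ H, qf ω H (F + (-1 : ℝ) • b) = qf ω H F - qf ω H b := by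
        intro H
        rw [qf_comm, qf_add_left, qf_smul_left, qf_comm ω F, qf_comm ω b]
        ring
      rw [e1, qf_add_left, qf_smul_left, e4, e4, hisoB b hbB, e2, e3]
      ring
    rw [h4] at h3
    refine ⟨h3.1, fun h0 => ?_⟩
    have h5 := h3.2 h0
    have h6 : F = b := sub_eq_zero.1 h5
    show F ∈ BB D N m
    rw [h6]
    exact hbB
  · rw [← hb]
    have h7 := LinearMap.finrank_le_finrank_of_injective hR2
    rw [finrank_res] at h7
    exact h7

end

end Pool.Agent.H758.Fan
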