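import Pool.Agent.H128.Fan.Defs

set_option autoImplicit false
set_option linter.unusedSectionVars false

/-! T21 and T22 of the project Fan (helper972, for helper128). -/

namespace Pool.Agent.H972.FanZig

open Pool.Agent.Helper611 Pool.Agent.Helper611.ZBase Pool.Agent.Helper611.KRel
  Pool.Agent.Helper611.KVal Pool.Agent.Helper611.UStr
  Pool.Agent.H252R2.Lef1 Pool.Agent.H252R2.Lef7
  Pool.Agent.H252R2.CDNum Pool.Agent.H252R2.Top2 Pool.Agent.H128.SRing Pool.Agent.H128.Fan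
open MvPolynomial Module

variable {V : Type} [Fintype V] [LinearOrder V] {d : ℕ} {Γ : Cx V} {p : V → (Fin d → ℝ)}
  {φ : Finset V → V → Module.Dual ℝ (Fin d → ℝ)} {ξ : Fin d → ℝ}

/-- T22. -/
theorem xb_xb (H : Finset V) (a : Finset V → MvPolynomial V ℝ) (G : Finset V) :
    xb H (xb H a) G = 0 := by
  have h1 : xb H (xb H a) G = ∑ v ∈ (G ∪ H)ᶜ, ∑ w ∈ ((G ∪ H)ᶜ).erase v,
      (sgn v G * sgn w (insert v G)) • (X v * X w * a (insert w (insert v G))) := by
    unfold xb
    refine Finset.sum_congr rfl fun v hv => ?_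
    have h2 : (insert v G ∪ H)ᶜ = ((G ∪ H)ᶜ).erase v := by
      rw [Finset.insert_union, Finset.compl_insert]
    rw [h2, Finset.mul_sum, Finset.smul_sum]
    refine Finset.sum_congr rfl fun w _ => ?_
    rw [mul_smul_comm, smul_smul, mul_assoc]
  rw [h1]
  apply sum_anti
  intro v hv w hw hvw
  have hvG : v ∉ G := fun h => (Finset.mem_compl.1 hv) (Finset.mem_union_left _ h)
  have hwG : w ∉ G := fun h => (Finset.mem_compl.1 hw) (Finset.mem_union_left _ h)
  rw [sgn_swap v w G hvw hvG hwG, Finset.insert_comm w v G, mul_comm (X v) (X w), neg_smul]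

theorem xb_sub (H : Finset V) (a b : Finset V → MvPolynomial V ℝ) (G : Finset V) :
    xb H (fun G => a G - b G) G = xb H a G - xb H b G := by
  unfold xb
  rw [← Finset.sum_sub_distrib]
  refine Finset.sum_congr rfl fun v _ => ?_
  rw [mul_sub, smul_sub]

variable {κ : Type} [Fintype κ] [DecidableEq κ]

theorem xb_mulVec (M : Matrix κ κ (MvPolynomial V ℝ)) (H : Finset V)
    (F : Finset V → κ → MvPolynomial V ℝ) (G : Finset V) (i : κ) :
    xb H (fun G => M.mulVec (F G) i) G = M.mulVec (fun j => xb H (fun G => F G j) G) i := by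
  unfold xb Matrix.mulVec dotProduct
  simp only [Finset.mul_sum, Finset.smul_sum]
  rw [Finset.sum_comm]
  refine Finset.sum_congr rfl fun j _ => Finset.sum_congr rfl fun v _ => ?_
  rw [mul_smul_comm, mul_left_comm]

theorem xb_hom (H : Finset V) (a : Finset V → MvPolynomial V ℝ) (k : ℕ)
    (ha : ∀ G, HomP k (a G)) (G : Finset V) : (xb H a G).IsHomogeneous k := by
  unfold xb
  refine IsHomogeneous.sum _ _ _ fun v _ => ?_
  have h1 : (X v * a (insert v G) : MvPolynomial V ℝ).IsHomogeneous k := by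
    cases k with
    | zero =>
      have : a (insert v G) = 0 := ha _
      rw [this, mul_zero]
      exact isHomogeneous_zero _ _ _
    | succ k =>
      have h2 : (a (insert v G)).IsHomogeneous k := ha _
      have h3 := (isHomogeneous_X ℝ v).mul h2
      rwa [add_comm] at h3
  have h2 : sgn v G • (X v * a (insert v G) : MvPolynomial V ℝ) =
      C ((sgn v G : ℤ) : ℝ) * (X v * a (insert v G)) := by
    rw [zsmul_eq_mul, map_intCast]
  rw [h2]
  have h3 := (isHomogeneous_C V ((sgn v G : ℤ) : ℝ)).mul h1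
  rwa [zero_add] at h3

theorem JJ_mono {H : Finset V} : JJ Γ p ≤ JJ (stc Γ H) p := by
  unfold JJ
  apply Ideal.span_mono
  rintro f (⟨N, hN, rfl⟩ | ⟨i, rfl⟩)
  · left
    refine ⟨N, fun h => hN ?_, rfl⟩
    have h2 : N ∈ Γ.faces.filter fun σ => H ∈ Γ.faces → σ ∪ H ∈ Γ.faces := h
    exact (Finset.mem_filter.1 h2).1
  · right
    exact ⟨i, rfl⟩

theorem mulVec_sub' (M : Matrix κ κ (MvPolynomial V ℝ)) (f g : κ → MvPolynomial V ℝ) (i : κ) :
    M.mulVec f i - M.mulVec g i = M.mulVec (fun j => f j - g j) i := by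
  unfold Matrix.mulVec dotProduct
  rw [← Finset.sum_sub_distrib]
  refine Finset.sum_congr rfl fun j _ => ?_
  rw [mul_sub]

theorem mulVec_mem (M : Matrix κ κ (MvPolynomial V ℝ)) (I : Ideal (MvPolynomial V ℝ))
    (f : κ → MvPolynomial V ℝ) (hf : ∀ j, f j ∈ I) (i : κ) : M.mulVec f i ∈ I := by
  unfold Matrix.mulVec dotProduct
  exact Ideal.sum_mem _ fun j _ => Ideal.mul_mem_left _ _ (hf j)

theorem mulVec_hom {M : Matrix κ κ (MvPolynomial V ℝ)} (hM : Cl Γ p M) {k : ℕ}
    {f : κ → MvPolynomial V ℝ} (hf : HomV k f) (i : κ) : (M.mulVec f i).IsHomogeneous (k + 1) := by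
  unfold Matrix.mulVec dotProduct
  refine IsHomogeneous.sum _ _ _ fun j _ => ?_
  have h := (hM.hom i j).mul (hf j)
  rwa [add_comm] at h

/-- `M (M f) = q f` is in the ideal -/
theorem mulVec_mulVec_mem {M : Matrix κ κ (MvPolynomial V ℝ)} (hM : Cl Γ p M) (H : Finset V)
    (f : κ → MvPolynomial V ℝ) (i : κ) : M.mulVec (fun j => M.mulVec f j) i ∈ JJ (stc Γ H) p := by
  obtain ⟨q, hq, -, hMM⟩ := hM.sq
  have h1 : M.mulVec (fun j => M.mulVec f j) i = q * f i := by
    show M.mulVec (M.mulVec f) i = _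
    rw [Matrix.mulVec_mulVec, hMM, Matrix.smul_mulVec, Matrix.one_mulVec]
    rfl
  rw [h1]
  exact Ideal.mul_mem_right _ _ (JJ_mono hq)

/-- the terms of `xb` are in the ideal if the values are -/
theorem xb_mem {H : Finset V} (G : Finset V) (hG : G ∪ H ∈ Γ.faces)
    (a : Finset V → MvPolynomial V ℝ)
    (ha : ∀ v, v ∉ G ∪ H → insert v (G ∪ H) ∈ Γ.faces → a (insert v G) ∈
      JJ (stc Γ (insert v (G ∪ H))) p) : xb H a G ∈ JJ (stc Γ (G ∪ H)) p := by
  unfold xb
  refine Ideal.sum_mem _ fun v hv => ?_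
  have hv' := Finset.mem_compl.1 hv
  apply zsmul_mem
  by_cases h : insert v (G ∪ H) ∈ Γ.faces
  · exact X_mul_JJ hG h (ha v hv' h)
  · exact Ideal.mul_mem_right _ _ (X_JJ hG h p)

/-- the claim of the downward induction -/
def Claim (Γ : Cx V) (p : V → (Fin d → ℝ)) (M : Matrix κ κ (MvPolynomial V ℝ)) (H : Finset V)
    (k r : ℕ) : Prop :=
  ∀ F : Finset V → κ → MvPolynomial V ℝ, (∀ G, HomV k (F G)) →
    (∀ G, G.card + 1 = r → Disjoint G H → G ∪ H ∈ Γ.faces → ∀ i,
      xb H (fun G => M.mulVec (F G) i) G ∈ JJ (stc Γ (G ∪ H)) p) →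
    ∃ F' : Finset V → κ → MvPolynomial V ℝ, (∀ G, HomV k (F' G)) ∧
      (∀ G, G.card + 1 = r → Disjoint G H → G ∪ H ∈ Γ.faces → ∀ i,
        xb H (fun G => F' G i) G - xb H (fun G => F G i) G ∈ JJ (stc Γ (G ∪ H)) p) ∧
      ∀ G, G.card = r → Disjoint G H → G ∪ H ∈ Γ.faces → ∀ i,
        M.mulVec (F' G) i ∈ JJ (stc Γ (G ∪ H)) p

/-- solving one row -/
theorem solve {H : Finset V} (hrow : Row Γ p H) (r k : ℕ) (a : Finset V → κ → MvPolynomial V ℝ)
    (ha : ∀ G i, (a G i).IsHomogeneous (k + 1))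
    (hcl : ∀ G, G.card + 1 = r → Disjoint G H → G ∪ H ∈ Γ.faces → ∀ i,
      xb H (fun G => a G i) G ∈ JJ (stc Γ (G ∪ H)) p) :
    ∃ b : Finset V → κ → MvPolynomial V ℝ, (∀ G, HomV k (b G)) ∧
      ∀ G, G.card = r → Disjoint G H → G ∪ H ∈ Γ.faces → ∀ i,
        a G i - xb H (fun G => b G i) G ∈ JJ (stc Γ (G ∪ H)) p := by
  have h := fun i : κ => hrow r k (fun G => a G i) (fun G => ha G i)
    (fun G h1 h2 h3 => hcl G h1 h2 h3 i)
  choose b hb1 hb2 using h
  exact ⟨fun G i => b i G, fun G i => hb1 i G, fun G h1 h2 h3 i => hb2 i G h1 h2 h3⟩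

theorem claim_step {M : Matrix κ κ (MvPolynomial V ℝ)} (hM : Cl Γ p M) (H : Finset V)
    (hrow : Row Γ p H) (k : ℕ)
    (hcol : ∀ G : Finset V, 2 ≤ G.card → Disjoint G H → G ∪ H ∈ Γ.faces → Col Γ p M (G ∪ H) k)
    (r : ℕ) (hr : 1 ≤ r) (ih : Claim Γ p M H k (r + 1)) : Claim Γ p M H k r := by
  classical
  intro F hF hcl
  -- the second family
  obtain ⟨F2, hF2, hF2'⟩ := solve hrow r k (fun G i => M.mulVec (F G) i)
    (fun G i => mulVec_hom hM (hF G) i) hcl
  have hcl2 : ∀ G, G.card + 1 = r + 1 → Disjoint G H → G ∪ H ∈ Γ.faces → ∀ i,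
      xb H (fun G => M.mulVec (F2 G) i) G ∈ JJ (stc Γ (G ∪ H)) p := by
    intro G h1 h2 h3 i
    rw [xb_mulVec]
    have h4 : M.mulVec (fun j => M.mulVec (F G) j) i -
        M.mulVec (fun j => M.mulVec (F G) j - xb H (fun G => F2 G j) G) i =
        M.mulVec (fun j => xb H (fun G => F2 G j) G) i := by
      rw [mulVec_sub']
      simp only [sub_sub_cancel]
    rw [← h4]
    refine Ideal.sub_mem _ (mulVec_mulVec_mem hM (G ∪ H) (F G) i) ?_
    exact mulVec_mem M _ _ (fun j => hF2' G (by omega) h2 h3 j) i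
  obtain ⟨F3, hF3, hF3a, hF3b⟩ := ih F2 hF2 hcl2
  -- the columns
  have hg : ∀ G : Finset V, ∃ g : κ → MvPolynomial V ℝ, (∀ i, HomP k (g i)) ∧
      (G.card = r + 1 → Disjoint G H → G ∪ H ∈ Γ.faces →
        ∀ i, F3 G i - M.mulVec g i ∈ JJ (stc Γ (G ∪ H)) p) := by
    intro G
    by_cases h : G.card = r + 1 ∧ Disjoint G H ∧ G ∪ H ∈ Γ.faces
    · obtain ⟨h1, h2, h3⟩ := h
      obtain ⟨g, hg1, hg2⟩ := hcol G (by omega) h2 h3 (F3 G) (hF3 G) (hF3b G h1 h2 h3)
      exact ⟨g, hg1, fun _ _ _ => hg2⟩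
    · refine ⟨fun _ => 0, fun _ => ?_, fun h1 h2 h3 => absurd ⟨h1, h2, h3⟩ h⟩
      cases k with
      | zero => exact rfl
      | succ k => exact isHomogeneous_zero _ _ _
  choose g hg1 hg2 using hg
  refine ⟨fun G i => F G i - xb H (fun G => g G i) G, ?_, ?_, ?_⟩
  · intro G i
    exact (hF G i).sub (xb_hom H _ k (fun G => hg1 G i) G)
  · intro G _ _ _ i
    have h1 : xb H (fun G => F G i - xb H (fun G => g G i) G) G - xb H (fun G => F G i) G = 0 := by
      rw [xb_sub H (fun G => F G i) (fun G => xb H (fun G => g G i) G) G]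
      have h2 : xb H (fun G => xb H (fun G => g G i) G) G = 0 := xb_xb H (fun G => g G i) G
      rw [h2]
      ring
    rw [h1]
    exact Ideal.zero_mem _
  · intro G h1 h2 h3 i
    have e1 : M.mulVec (fun i => F G i - xb H (fun G => g G i) G) i =
        (M.mulVec (F G) i - xb H (fun G => F2 G i) G) -
        (xb H (fun G => F3 G i) G - xb H (fun G => F2 G i) G) +
        xb H (fun G => F3 G i - M.mulVec (g G) i) G := by
      rw [xb_sub H (fun G => F3 G i) (fun G => M.mulVec (g G) i) G, ← mulVec_sub', xb_mulVec]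
      ring
    rw [e1]
    refine Ideal.add_mem _ (Ideal.sub_mem _ (hF2' G h1 h2 h3 i)
      (hF3a G (by omega) h2 h3 i)) ?_
    refine xb_mem G h3 _ fun v hv hvf => ?_
    have hvG : v ∉ G := fun h => hv (Finset.mem_union_left _ h)
    have hvH : v ∉ H := fun h => hv (Finset.mem_union_right _ h)
    have h4 := hg2 (insert v G) (by rw [Finset.card_insert_of_notMem hvG, h1])
      (by rw [Finset.disjoint_insert_left]; exact ⟨hvH, h2⟩)
      (by rw [Finset.insert_union]; exact hvf) i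
    rwa [Finset.insert_union] at h4

theorem claim_all {M : Matrix κ κ (MvPolynomial V ℝ)} (hM : Cl Γ p M) (H : Finset V)
    (hs : ∀ σ ∈ Γ.faces, σ.card ≤ d) (hrow : Row Γ p H) (k : ℕ)
    (hcol : ∀ G : Finset V, 2 ≤ G.card → Disjoint G H → G ∪ H ∈ Γ.faces → Col Γ p M (G ∪ H) k) :
    Claim Γ p M H k 1 := by
  have key : ∀ n r : ℕ, 1 ≤ r → d < r + n → Claim Γ p M H k r := by
    intro n
    induction n with
    | zero =>
      intro r hr hd F hF _
      refine ⟨F, hF, fun G _ _ _ i => ?_, fun G h1 _ h3 => ?_⟩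
      · rw [sub_self]
        exact Ideal.zero_mem _
      · have h4 := hs _ h3
        have h5 := Finset.card_le_card (Finset.subset_union_left (s₁ := G) (s₂ := H))
        omega
    | succ n ih =>
      intro r hr hd
      exact claim_step hM H hrow k hcol r hr (ih (r + 1) (by omega) (by omega))
  exact key (d + 1) 1 le_rfl (by omega)

/-- T21. -/
theorem zig {M : Matrix κ κ (MvPolynomial V ℝ)} (hM : Cl Γ p M) (H : Finset V) (hH : H ∈ Γ.faces)
    (hs : ∀ σ ∈ Γ.faces, σ.card ≤ d)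
    (hrow : Row Γ p H) (k : ℕ)
    (hcol : ∀ G : Finset V, 2 ≤ G.card → Disjoint G H → G ∪ H ∈ Γ.faces → Col Γ p M (G ∪ H) k)
    (f : κ → MvPolynomial V ℝ) (hf : HomV (k + 1) f) (hc : Cyc Γ p M H f) :
    ∃ F : V → κ → MvPolynomial V ℝ, (∀ v, HomV k (F v)) ∧
      (∀ v, v ∉ H → insert v H ∈ Γ.faces → Cyc Γ p M (insert v H) (F v)) ∧
      ∀ i, f i - ∑ v ∈ Hᶜ, X v * F v i ∈ JJ (stc Γ H) p := by
  classical
  have hE : (∅ : Finset V) ∪ H = H := Finset.empty_union H
  obtain ⟨F0, hF0, hF0'⟩ := solve hrow 0 k (fun _ i => f i) (fun _ i => hf i)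
    (fun G h => absurd h (by omega))
  have h0 : ∀ i, f i - xb H (fun G => F0 G i) ∅ ∈ JJ (stc Γ H) p := by
    intro i
    have h := hF0' ∅ Finset.card_empty (Finset.disjoint_empty_left H) (by rw [hE]; exact hH) i
    rwa [hE] at h
  obtain ⟨F', hF'1, hF'2, hF'3⟩ := claim_all hM H hs hrow k hcol F0 hF0 (by
    intro G h1 h2 h3 i
    have hG : G = ∅ := Finset.card_eq_zero.1 (by omega)
    subst hG
    rw [hE, xb_mulVec]
    have h4 : M.mulVec f i - M.mulVec (fun j => f j - xb H (fun G => F0 G j) ∅) i =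
        M.mulVec (fun j => xb H (fun G => F0 G j) ∅) i := by
      rw [mulVec_sub']
      simp only [sub_sub_cancel]
    rw [← h4]
    exact Ideal.sub_mem _ (hc i) (mulVec_mem M _ _ h0 i))
  refine ⟨fun v => F' {v}, fun v => hF'1 {v}, ?_, ?_⟩
  · intro v hv hvf i
    have hd : Disjoint ({v} : Finset V) H := Finset.disjoint_singleton_left.2 hv
    have hu : ({v} : Finset V) ∪ H = insert v H := by rw [Finset.insert_eq]
    have h := hF'3 {v} (Finset.card_singleton v) hd (by rw [hu]; exact hvf) i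
    rwa [hu] at h
  · intro i
    have h1 := hF'2 ∅ (by rw [Finset.card_empty]) (Finset.disjoint_empty_left H)
      (by rw [hE]; exact hH) i
    rw [hE] at h1
    have h2 : xb H (fun G => F' G i) ∅ = ∑ v ∈ Hᶜ, X v * F' {v} i := by
      unfold xb
      rw [hE]
      refine Finset.sum_congr rfl fun v _ => ?_
      rw [sgn_empty, one_smul, LawfulSingleton.insert_empty_eq]
    have h3 : f i - ∑ v ∈ Hᶜ, X v * F' {v} i = (f i - xb H (fun G => F0 G i) ∅) -
        (xb H (fun G => F' G i) ∅ - xb H (fun G => F0 G i) ∅) := by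
      rw [h2]
      ring
    rw [h3]
    exact Ideal.sub_mem _ (h0 i) h1

end Pool.Agent.H972.FanZig
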