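import Pool.Agent.H128.Fan.Defs

set_option autoImplicit false
set_option linter.unusedSectionVars false

/-! T23: the top gamma number from the Charney-Davis numbers of links. -/

namespace Pool.Agent.H981.FanT23

open Pool.Agent.Helper611 Pool.Agent.Helper611.ZBase Pool.Agent.Helper611.KRel
  Pool.Agent.Helper611.KVal Pool.Agent.Helper611.UStr
  Pool.Agent.H252R2.Lef1 Pool.Agent.H252R2.Lef7
  Pool.Agent.H252R2.CDNum Pool.Agent.H252R2.Top2 Pool.Agent.H128.SRing Pool.Agent.H128.Fan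
open MvPolynomial Module

variable {V : Type} [Fintype V] [LinearOrder V] {d : ℕ} {Γ : Cx V} {p : V → (Fin d → ℝ)}
  {φ : Finset V → V → Module.Dual ℝ (Fin d → ℝ)} {ξ : Fin d → ℝ}

/-- the face sum as an evaluation -/
lemma face_sum (Γ : Cx V) (hs : ∀ σ ∈ Γ.faces, σ.card ≤ d) (g : ℕ → ℚ) :
    ∑ σ ∈ Γ.faces, g σ.card = ∑ j ∈ Finset.range (d + 1), ((fnum Γ j : ℤ) : ℚ) * g j := by
  classical
  have h3 : ∀ σ ∈ Γ.faces, σ.card ∈ Finset.range (d + 1) := fun σ hσ =>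
    Finset.mem_range.2 (Nat.lt_succ_of_le (hs σ hσ))
  rw [← Finset.sum_fiberwise_of_maps_to h3]
  refine Finset.sum_congr rfl fun j _ => ?_
  have h4 : ∀ σ ∈ Γ.faces.filter (fun σ => σ.card = j), g σ.card = g j :=
    fun σ hσ => by rw [(Finset.mem_filter.1 hσ).2]
  rw [Finset.sum_congr rfl h4, Finset.sum_const, nsmul_eq_mul]
  unfold fnum
  push_cast
  rfl

/-- evaluation of the f-polynomial -/
lemma ev_F (Γ : Cx V) (hs : ∀ σ ∈ Γ.faces, σ.card ≤ d) :
    ∑ σ ∈ Γ.faces, (-1 / 2 : ℚ) ^ σ.card =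
      (1 / 2) ^ d * ∑ i ∈ Finset.range (d + 1), ((hn d (fnum Γ) i : ℤ) : ℚ) * (-1) ^ i := by
  have h1 := congrArg (Polynomial.aeval (-1 / 2 : ℚ)) (fp_eq d (fnum Γ))
  unfold fp at h1
  rw [map_sum, map_sum] at h1
  rw [face_sum Γ hs (fun j => (-1 / 2 : ℚ) ^ j)]
  have h2 : ∑ j ∈ Finset.range (d + 1), ((fnum Γ j : ℤ) : ℚ) * (-1 / 2 : ℚ) ^ j =
      ∑ j ∈ Finset.range (d + 1), (Polynomial.aeval (-1 / 2 : ℚ)) (fnum Γ j • (Polynomial.X : Polynomial ℤ) ^ j) := by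
    refine Finset.sum_congr rfl fun j _ => ?_
    rw [map_zsmul, map_pow, Polynomial.aeval_X, zsmul_eq_mul]
  rw [h2, h1, Finset.mul_sum]
  refine Finset.sum_congr rfl fun i hi => ?_
  have hi' := Finset.mem_range.1 hi
  rw [map_zsmul, map_mul, map_pow, map_pow, map_add, map_one, Polynomial.aeval_X, zsmul_eq_mul]
  have e1 : d = i + (d - i) := by omega
  have e2 : (1 / 2 : ℚ) ^ d = (1 / 2) ^ i * (1 / 2) ^ (d - i) := by rw [← pow_add, ← e1]
  have e3 : (-1 / 2 : ℚ) ^ i = (-1) ^ i * (1 / 2) ^ i := by rw [← mul_pow]; norm_num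
  have e4 : (1 + -1 / 2 : ℚ) = 1 / 2 := by norm_num
  rw [e2, e3, e4]
  ring

/-- evaluation of the derivative of the f-polynomial -/
lemma ev_F' (Γ : Cx V) (hs : ∀ σ ∈ Γ.faces, σ.card ≤ d) (hd : 1 ≤ d) :
    ∑ σ ∈ Γ.faces, (σ.card : ℚ) * (-1 / 2 : ℚ) ^ (σ.card - 1) =
      (1 / 2) ^ (d - 1) * ∑ i ∈ Finset.range (d + 1), ((hn d (fnum Γ) i : ℤ) : ℚ) * ((-1) ^ i * ((d : ℚ) - 2 * i)) := by
  have h1 := congrArg (fun f => Polynomial.aeval (-1 / 2 : ℚ) (Polynomial.derivative f)) (fp_eq d (fnum Γ))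
  unfold fp at h1
  rw [map_sum, map_sum, map_sum, map_sum] at h1
  rw [face_sum Γ hs (fun j => (j : ℚ) * (-1 / 2 : ℚ) ^ (j - 1))]
  have h2 : ∑ j ∈ Finset.range (d + 1), ((fnum Γ j : ℤ) : ℚ) * ((j : ℚ) * (-1 / 2 : ℚ) ^ (j - 1)) =
      ∑ j ∈ Finset.range (d + 1), (Polynomial.aeval (-1 / 2 : ℚ))
        (Polynomial.derivative (fnum Γ j • (Polynomial.X : Polynomial ℤ) ^ j)) := by
    refine Finset.sum_congr rfl fun j _ => ?_
    rw [map_zsmul, map_zsmul, Polynomial.derivative_X_pow, map_mul, map_pow, Polynomial.aeval_X,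
      Polynomial.aeval_C, zsmul_eq_mul]
    simp
  rw [h2, h1, Finset.mul_sum]
  refine Finset.sum_congr rfl fun i hi => ?_
  have hi' := Finset.mem_range.1 hi
  rw [map_zsmul, map_zsmul, zsmul_eq_mul, Polynomial.derivative_mul, Polynomial.derivative_X_pow,
    Polynomial.derivative_pow, map_add, map_mul, map_mul, map_mul, map_mul, map_mul]
  simp only [map_pow, map_add, map_one, map_natCast, Polynomial.aeval_X,
    Polynomial.derivative_one, Polynomial.derivative_X, zero_add]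
  have e4 : (1 + -1 / 2 : ℚ) = 1 / 2 := by norm_num
  rw [e4]
  have e0 : (-1 / 2 : ℚ) = (-1) * (1 / 2) := by norm_num
  rw [e0]
  have key : ((i : ℚ) * ((-1) * (1 / 2)) ^ (i - 1) * (1 / 2) ^ (d - i)
      + ((-1) * (1 / 2)) ^ i * (((d - i : ℕ) : ℚ) * (1 / 2) ^ (d - i - 1) * 1))
      = (1 / 2) ^ (d - 1) * ((-1) ^ i * ((d : ℚ) - 2 * i)) := by
    have p1 : (i : ℚ) * ((-1) * (1 / 2)) ^ (i - 1) * (1 / 2) ^ (d - i)
        = - ((1 / 2) ^ (d - 1) * ((-1) ^ i * (i : ℚ))) := by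
      rcases Nat.eq_zero_or_pos i with h | h
      · subst h; simp
      · have a1 : d - 1 = (i - 1) + (d - i) := by omega
        have a2 : (-1 : ℚ) ^ i = (-1) ^ (i - 1) * (-1) := by
          rw [← pow_succ]; congr 1; omega
        rw [a1, a2, mul_pow, pow_add]
        ring
    have p2 : ((-1) * (1 / 2) : ℚ) ^ i * (((d - i : ℕ) : ℚ) * (1 / 2) ^ (d - i - 1) * 1)
        = (1 / 2) ^ (d - 1) * ((-1) ^ i * ((d : ℚ) - i)) := by
      rcases Nat.lt_or_ge i d with h | h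
      · have a1 : d - 1 = i + (d - i - 1) := by omega
        rw [a1, mul_pow, pow_add, Nat.cast_sub h.le]
        ring
      · have : i = d := by omega
        subst this
        simp
    rw [p1, p2]
    ring
  rw [key]
  ring

/-- the h-polynomial at `-1` -/
lemma h_eval (c γ : ℕ → ℤ)
    (hγ : ∑ i ∈ Finset.range (d + 1), c i • (Polynomial.X : Polynomial ℤ) ^ i =
      ∑ i ∈ Finset.range (d / 2 + 1), γ i • (Polynomial.X ^ i * (1 + Polynomial.X) ^ (d - 2 * i))) :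
    ∑ i ∈ Finset.range (d + 1), ((c i : ℤ) : ℚ) * (-1) ^ i =
      ∑ i ∈ Finset.range (d / 2 + 1), ((γ i : ℤ) : ℚ) * ((-1) ^ i * 0 ^ (d - 2 * i)) := by
  have h1 := congrArg (Polynomial.aeval (-1 : ℚ)) hγ
  rw [map_sum, map_sum] at h1
  refine Eq.trans (Finset.sum_congr rfl fun i _ => ?_) (h1.trans (Finset.sum_congr rfl fun i _ => ?_))
  · rw [map_zsmul, map_pow, Polynomial.aeval_X, zsmul_eq_mul]
  · rw [map_zsmul, map_mul, map_pow, map_pow, map_add, map_one, Polynomial.aeval_X, zsmul_eq_mul]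
    norm_num

/-- the derivative of the h-polynomial at `-1` -/
lemma h_eval' (c γ : ℕ → ℤ)
    (hγ : ∑ i ∈ Finset.range (d + 1), c i • (Polynomial.X : Polynomial ℤ) ^ i =
      ∑ i ∈ Finset.range (d / 2 + 1), γ i • (Polynomial.X ^ i * (1 + Polynomial.X) ^ (d - 2 * i))) :
    ∑ i ∈ Finset.range (d + 1), ((c i : ℤ) : ℚ) * ((i : ℚ) * (-1) ^ (i - 1)) =
      ∑ i ∈ Finset.range (d / 2 + 1), ((γ i : ℤ) : ℚ) * ((i : ℚ) * (-1) ^ (i - 1) * 0 ^ (d - 2 * i)
        + (-1) ^ i * (((d - 2 * i : ℕ) : ℚ) * 0 ^ (d - 2 * i - 1))) := by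
  have h1 := congrArg (fun f => Polynomial.aeval (-1 : ℚ) (Polynomial.derivative f)) hγ
  rw [map_sum, map_sum, map_sum, map_sum] at h1
  refine Eq.trans (Finset.sum_congr rfl fun i _ => ?_) (h1.trans (Finset.sum_congr rfl fun i _ => ?_))
  · rw [map_zsmul, map_zsmul, Polynomial.derivative_X_pow, map_mul, map_pow, Polynomial.aeval_X,
      Polynomial.aeval_C, zsmul_eq_mul]
    simp
  · rw [map_zsmul, map_zsmul, zsmul_eq_mul, Polynomial.derivative_mul, Polynomial.derivative_X_pow,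
      Polynomial.derivative_pow, map_add, map_mul, map_mul, map_mul, map_mul, map_mul]
    simp only [map_pow, map_add, map_one, map_natCast, Polynomial.aeval_X,
      Polynomial.derivative_one, Polynomial.derivative_X, zero_add]
    have e4 : (1 + -1 : ℚ) = 0 := by norm_num
    rw [e4, mul_one]

/-- double counting of flags vertex in face -/
lemma double (Γ : Cx V) (g : ℕ → ℚ) :
    ∑ v : V, ∑ σ ∈ lkf Γ {v}, g σ.card = ∑ τ ∈ Γ.faces, (τ.card : ℚ) * g (τ.card - 1) := by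
  classical
  have h1 : ∀ v : V, ∑ σ ∈ lkf Γ {v}, g σ.card
      = ∑ τ ∈ Γ.faces.filter (fun τ => v ∈ τ), g (τ.card - 1) := by
    intro v
    refine Finset.sum_bij' (fun σ _ => insert v σ) (fun τ _ => τ.erase v) ?_ ?_ ?_ ?_ ?_
    · intro σ hσ
      unfold lkf at hσ
      rw [Finset.mem_filter] at hσ ⊢
      refine ⟨?_, Finset.mem_insert_self _ _⟩
      have := hσ.2.2
      rwa [Finset.union_comm, ← Finset.insert_eq] at this
    · intro τ hτ
      rw [Finset.mem_filter] at hτ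
      unfold lkf
      rw [Finset.mem_filter]
      refine ⟨Γ.down _ hτ.1 _ (Finset.erase_subset _ _), ?_, ?_⟩
      · rw [Finset.disjoint_singleton_right]
        exact Finset.notMem_erase _ _
      · rw [Finset.union_comm, ← Finset.insert_eq, Finset.insert_erase hτ.2]
        exact hτ.1
    · intro σ hσ
      unfold lkf at hσ
      rw [Finset.mem_filter, Finset.disjoint_singleton_right] at hσ
      exact Finset.erase_insert hσ.2.1
    · intro τ hτ
      rw [Finset.mem_filter] at hτ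
      exact Finset.insert_erase hτ.2
    · intro σ hσ
      unfold lkf at hσ
      rw [Finset.mem_filter, Finset.disjoint_singleton_right] at hσ
      rw [Finset.card_insert_of_notMem hσ.2.1, Nat.add_sub_cancel]
  rw [Finset.sum_congr rfl fun v _ => h1 v]
  have h2 : ∀ v : V, ∑ τ ∈ Γ.faces.filter (fun τ => v ∈ τ), g (τ.card - 1)
      = ∑ τ ∈ Γ.faces, if v ∈ τ then g (τ.card - 1) else 0 := fun v => Finset.sum_filter _ _
  rw [Finset.sum_congr rfl fun v _ => h2 v, Finset.sum_comm]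
  refine Finset.sum_congr rfl fun τ _ => ?_
  rw [← Finset.sum_filter]
  have h3 : (Finset.univ.filter fun v => v ∈ τ) = τ := by
    ext v; simp
  rw [h3, Finset.sum_const, nsmul_eq_mul]

/-- T23. -/
theorem gamma_top (hs : ∀ σ ∈ Γ.faces, σ.card ≤ d) (hd : 1 ≤ d) (γ : ℕ → ℤ)
    (hγ : ∑ i ∈ Finset.range (d + 1), hn d (fnum Γ) i • (Polynomial.X : Polynomial ℤ) ^ i =
      ∑ i ∈ Finset.range (d / 2 + 1), γ i • (Polynomial.X ^ i * (1 + Polynomial.X) ^ (d - 2 * i)))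
    (hcd : ∀ H ∈ Γ.faces, ∀ m, d = 2 * m + H.card →
      0 ≤ (-1 : ℚ) ^ m * ∑ σ ∈ lkf Γ H, (-1 / 2 : ℚ) ^ σ.card) : 0 ≤ γ (d / 2) := by
  classical
  have hE := h_eval (hn d (fnum Γ)) γ hγ
  have hE' := h_eval' (hn d (fnum Γ)) γ hγ
  rcases Nat.even_or_odd' d with ⟨m, hm | hm⟩
  · -- even
    have hdm : d / 2 = m := by omega
    have h1 := hcd ∅ Γ.empty_mem m (by simpa using hm)
    have h2 : lkf Γ ∅ = Γ.faces := by
      unfold lkf
      rw [Finset.filter_true_of_mem]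
      intro σ hσ
      exact ⟨Finset.disjoint_empty_right _, by rwa [Finset.union_empty]⟩
    rw [h2, ev_F Γ hs, hE] at h1
    have h3 : ∑ i ∈ Finset.range (d / 2 + 1), ((γ i : ℤ) : ℚ) * ((-1) ^ i * 0 ^ (d - 2 * i))
        = (γ m : ℚ) * (-1) ^ m := by
      rw [hdm, Finset.sum_range_succ, Finset.sum_eq_zero, zero_add]
      · have : d - 2 * m = 0 := by omega
        rw [this, pow_zero, mul_one]
      · intro i hi
        have hi' := Finset.mem_range.1 hi
        have : d - 2 * i ≠ 0 := by omega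
        rw [zero_pow this, mul_zero, mul_zero]
    rw [h3] at h1
    have h4 : (-1 : ℚ) ^ m * ((1 / 2) ^ d * ((γ m : ℚ) * (-1) ^ m)) = (1 / 2) ^ d * (γ m : ℚ) := by
      have e1 : (-1 : ℚ) ^ m * (-1) ^ m = 1 := by
        rw [← pow_add, ← two_mul, pow_mul]; norm_num
      calc (-1 : ℚ) ^ m * ((1 / 2) ^ d * ((γ m : ℚ) * (-1) ^ m))
          = ((-1 : ℚ) ^ m * (-1) ^ m) * ((1 / 2) ^ d * (γ m : ℚ)) := by ring
        _ = _ := by rw [e1, one_mul]
    rw [h4] at h1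
    have h5 : 0 < (1 / 2 : ℚ) ^ d := by positivity
    have h6 : (0 : ℚ) ≤ (γ m : ℚ) := nonneg_of_mul_nonneg_right h1 h5
    rw [hdm]
    exact_mod_cast h6
  · -- odd
    have hdm : d / 2 = m := by omega
    have h1 : 0 ≤ (-1 : ℚ) ^ m * ∑ v : V, ∑ σ ∈ lkf Γ {v}, (-1 / 2 : ℚ) ^ σ.card := by
      rw [Finset.mul_sum]
      refine Finset.sum_nonneg fun v _ => ?_
      by_cases hv : ({v} : Finset V) ∈ Γ.faces
      · exact hcd {v} hv m (by rw [Finset.card_singleton]; exact hm)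
      · have : lkf Γ {v} = ∅ := by
          unfold lkf
          rw [Finset.filter_eq_empty_iff]
          intro σ _ h
          exact hv (Γ.down _ h.2 _ Finset.subset_union_right)
        rw [this, Finset.sum_empty, mul_zero]
    rw [double Γ (fun j => (-1 / 2 : ℚ) ^ j), ev_F' Γ hs hd] at h1
    have hz : ∑ i ∈ Finset.range (d / 2 + 1), ((γ i : ℤ) : ℚ) * ((-1) ^ i * 0 ^ (d - 2 * i)) = 0 := by
      refine Finset.sum_eq_zero fun i hi => ?_
      have hi' := Finset.mem_range.1 hi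
      have : d - 2 * i ≠ 0 := by omega
      rw [zero_pow this, mul_zero, mul_zero]
    rw [hz] at hE
    have h3 : ∑ i ∈ Finset.range (d / 2 + 1), ((γ i : ℤ) : ℚ) * ((i : ℚ) * (-1) ^ (i - 1) * 0 ^ (d - 2 * i)
        + (-1) ^ i * (((d - 2 * i : ℕ) : ℚ) * 0 ^ (d - 2 * i - 1))) = (γ m : ℚ) * (-1) ^ m := by
      rw [hdm, Finset.sum_range_succ, Finset.sum_eq_zero, zero_add]
      · have : d - 2 * m = 1 := by omega
        rw [this]
        simp
      · intro i hi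
        have hi' := Finset.mem_range.1 hi
        have a1 : d - 2 * i ≠ 0 := by omega
        have a2 : d - 2 * i - 1 ≠ 0 := by omega
        rw [zero_pow a1, zero_pow a2]
        ring
    rw [h3] at hE'
    have h4 : ∑ i ∈ Finset.range (d + 1), ((hn d (fnum Γ) i : ℤ) : ℚ) * ((-1) ^ i * ((d : ℚ) - 2 * i))
        = (d : ℚ) * ∑ i ∈ Finset.range (d + 1), ((hn d (fnum Γ) i : ℤ) : ℚ) * (-1) ^ i
          + 2 * ∑ i ∈ Finset.range (d + 1), ((hn d (fnum Γ) i : ℤ) : ℚ) * ((i : ℚ) * (-1) ^ (i - 1)) := by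
      rw [Finset.mul_sum, Finset.mul_sum, ← Finset.sum_add_distrib]
      refine Finset.sum_congr rfl fun i _ => ?_
      rcases Nat.eq_zero_or_pos i with h | h
      · subst h; simp; ring
      · have a2 : (-1 : ℚ) ^ i = (-1) ^ (i - 1) * (-1) := by
          rw [← pow_succ]; congr 1; omega
        rw [a2]
        ring
    rw [h4, hE, hE'] at h1
    have h5 : (-1 : ℚ) ^ m * ((1 / 2) ^ (d - 1) * ((d : ℚ) * 0 + 2 * ((γ m : ℚ) * (-1) ^ m)))
        = (2 * (1 / 2) ^ (d - 1)) * (γ m : ℚ) := by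
      have e1 : (-1 : ℚ) ^ m * (-1) ^ m = 1 := by
        rw [← pow_add, ← two_mul, pow_mul]; norm_num
      calc (-1 : ℚ) ^ m * ((1 / 2) ^ (d - 1) * ((d : ℚ) * 0 + 2 * ((γ m : ℚ) * (-1) ^ m)))
          = ((-1 : ℚ) ^ m * (-1) ^ m) * ((2 * (1 / 2) ^ (d - 1)) * (γ m : ℚ)) := by ring
        _ = _ := by rw [e1, one_mul]
    rw [h5] at h1
    have h6 : (0 : ℚ) < 2 * (1 / 2 : ℚ) ^ (d - 1) := by positivity
    have h7 : (0 : ℚ) ≤ (γ m : ℚ) := nonneg_of_mul_nonneg_right h1 h6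
    rw [hdm]
    exact_mod_cast h7

end Pool.Agent.H981.FanT23
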