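import Pool.Agent.H128.Fan.Defs
import Pool.Agent.H128.Clif

set_option autoImplicit false
set_option linter.unusedSectionVars false

/-! T25 (helper539): the Clifford matrix. -/

namespace Pool.Agent.H539.Fan.T25

open Pool.Agent.Helper611 Pool.Agent.Helper611.ZBase Pool.Agent.Helper611.KRel
  Pool.Agent.Helper611.KVal Pool.Agent.Helper611.UStr
  Pool.Agent.H252R2.Lef1 Pool.Agent.H252R2.Lef7
  Pool.Agent.H252R2.CDNum Pool.Agent.H252R2.Top2 Pool.Agent.H128.SRing Pool.Agent.H128.Fan
open MvPolynomial Module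

variable {V : Type} [Fintype V] [LinearOrder V] {d : ℕ} {Γ : Cx V} {p : V → (Fin d → ℝ)}

/-- the class of a variable -/
noncomputable def cx (Γ : Cx V) (p : V → (Fin d → ℝ)) (v : V) : QQ Γ p :=
  Ideal.Quotient.mk (JJ Γ p) (X v)

lemma cx_mem (v : V) : cx Γ p v ∈ AA Γ p 1 := mem_AA 1 _ (isHomogeneous_X ℝ v)

/-- elements of degree one -/
lemma lin {x : QQ Γ p} (hx : x ∈ AA Γ p 1) : ∃ c : V → ℝ, x = ∑ v, c v • cx Γ p v := by
  obtain ⟨f, hf, rfl⟩ := hx
  rw [SetLike.mem_coe, homogeneousSubmodule_one_eq_span_X] at hf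
  induction hf using Submodule.span_induction with
  | mem f hf =>
    obtain ⟨v, rfl⟩ := hf
    refine ⟨fun w => if w = v then 1 else 0, ?_⟩
    rw [Finset.sum_eq_single v]
    · beta_reduce
      rw [if_pos rfl, one_smul]
      rfl
    · intro w _ hw
      beta_reduce
      rw [if_neg hw, zero_smul]
    · intro h
      exact absurd (Finset.mem_univ v) h
  | zero =>
    refine ⟨fun _ => 0, ?_⟩
    rw [map_zero]
    simp
  | add f g _ _ hf hg =>
    obtain ⟨c, hc⟩ := hf
    obtain ⟨c', hc'⟩ := hg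
    refine ⟨fun v => c v + c' v, ?_⟩
    rw [map_add, hc, hc', ← Finset.sum_add_distrib]
    exact Finset.sum_congr rfl fun v _ => (add_smul _ _ _).symm
  | smul r f _ hf =>
    obtain ⟨c, hc⟩ := hf
    refine ⟨fun v => r * c v, ?_⟩
    rw [map_smul, hc, Finset.smul_sum]
    exact Finset.sum_congr rfl fun v _ => (mul_smul _ _ _).symm

lemma lin_mem (c : V → ℝ) : (∑ v, c v • cx Γ p v) ∈ AA Γ p 1 :=
  Submodule.sum_mem _ fun v _ => Submodule.smul_mem _ _ (cx_mem v)

lemma sq_eq (lam : QQ Γ p →ₗ[ℝ] ℝ) (c : V → ℝ) :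
    lam ((∑ v, c v • cx Γ p v) ^ 2) = ∑ u, ∑ v, c u * (lam (cx Γ p u * cx Γ p v) * c v) := by
  rw [pow_two, Finset.sum_mul_sum, map_sum]
  refine Finset.sum_congr rfl fun u _ => ?_
  rw [map_sum]
  refine Finset.sum_congr rfl fun v _ => ?_
  rw [smul_mul_smul_comm, map_smul, smul_eq_mul]
  ring

lemma noPSD (hno : NoPSD Γ p) (lam : QQ Γ p →ₗ[ℝ] ℝ) (hlam : ∀ x ∈ AA Γ p 1, 0 ≤ lam (x ^ 2)) :
    ∀ x ∈ AA Γ p 1, lam (x ^ 2) = 0 := by
  obtain ⟨S, hS⟩ : ∃ S : Matrix V V ℝ, ∀ u v, S u v = lam (cx Γ p u * cx Γ p v) :=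
    ⟨fun u v => lam (cx Γ p u * cx Γ p v), fun _ _ => rfl⟩
  have h1 : S = 0 := by
    apply hno
    · apply Matrix.PosSemidef.of_dotProduct_mulVec_nonneg
      · ext u v
        rw [Matrix.conjTranspose_apply, hS, hS, mul_comm]
        rfl
      · intro c
        have h2 := hlam _ (lin_mem (Γ := Γ) (p := p) c)
        rw [sq_eq] at h2
        refine le_of_le_of_eq h2 ?_
        unfold dotProduct
        refine Finset.sum_congr rfl fun u _ => ?_
        change _ = c u * ∑ v, S u v * c v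
        rw [Finset.mul_sum]
        refine Finset.sum_congr rfl fun v _ => ?_
        rw [hS]
    · intro u v huv
      rw [hS]
      have h2 : cx Γ p u * cx Γ p v = 0 := by
        unfold cx
        rw [← map_mul]
        apply Ideal.Quotient.eq_zero_iff_mem.2
        have h3 := JJ_nonface (S := Γ) (p := p) huv
        by_cases hne : u = v
        · subst hne
          rw [Finset.pair_eq_singleton, Finset.prod_singleton] at h3
          exact Ideal.mul_mem_left _ _ h3
        · rwa [Finset.prod_pair hne] at h3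
      rw [h2, map_zero]
    · intro u
      funext i
      rw [Finset.sum_apply]
      have h2 : ∑ v, p v i • cx Γ p v = 0 := by
        have h3 : (∑ v, C (p v i) * X v : MvPolynomial V ℝ) ∈ JJ Γ p :=
          Ideal.subset_span (Or.inr ⟨i, rfl⟩)
        have h4 := Ideal.Quotient.eq_zero_iff_mem.2 h3
        rw [map_sum] at h4
        rw [← h4]
        refine Finset.sum_congr rfl fun v _ => ?_
        rw [← smul_eq_C_mul]
        rfl
      have h5 : ∑ v, (S u v • p v) i = lam (cx Γ p u * ∑ v, p v i • cx Γ p v) := by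
        rw [Finset.mul_sum, map_sum]
        refine Finset.sum_congr rfl fun v _ => ?_
        rw [Pi.smul_apply, smul_eq_mul, mul_smul_comm, map_smul, smul_eq_mul, hS, mul_comm]
      rw [h5, h2, mul_zero, map_zero]
      rfl
  intro x hx
  obtain ⟨c, rfl⟩ := lin hx
  rw [sq_eq]
  refine Finset.sum_eq_zero fun u _ => Finset.sum_eq_zero fun v _ => ?_
  rw [← hS, h1, Matrix.zero_apply, zero_mul, mul_zero]

/-- T25. -/
theorem exists_cl (hno : NoPSD Γ p) :
    ∃ (n : ℕ) (M : Matrix (Fin (n + 1)) (Fin (n + 1)) (MvPolynomial V ℝ)), Cl Γ p M := by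
  obtain ⟨m, ℓ, hℓ, hsq⟩ := Pool.Agent.H128.Sep.sos_family (AA Γ p 1) (AA Γ p 2)
    (fun x hx => by
      rw [pow_two]
      exact AA_mul 1 1 x x hx hx) (noPSD hno) (cx Γ p) (fun v => cx_mem v)
  have hlift : ∀ j, ∃ L : MvPolynomial V ℝ, L.IsHomogeneous 1 ∧ Ideal.Quotient.mk (JJ Γ p) L = ℓ j := by
    intro j
    obtain ⟨f, hf, hf2⟩ := hℓ j
    exact ⟨f, hf, hf2⟩
  choose L hL hL2 using hlift
  obtain ⟨e, he⟩ : ∃ e : V ≃ Fin (Fintype.card V), e = Fintype.equivFin V := ⟨_, rfl⟩
  obtain ⟨n, M, u, hM1, hM2, hM3, hu1, hu2, hu3⟩ := Pool.Agent.H128.Clif.exists_matrix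
    (Fintype.card V + m) (Fin.append (fun i => (X (e.symm i) : MvPolynomial V ℝ)) L)
  have hhom : ∀ j, (Fin.append (fun i => (X (e.symm i) : MvPolynomial V ℝ)) L j).IsHomogeneous 1 := by
    intro j
    refine Fin.addCases (fun i => ?_) (fun i => ?_) j
    · rw [Fin.append_left]
      exact isHomogeneous_X ℝ _
    · rw [Fin.append_right]
      exact hL i
  refine ⟨n, M, hM1, ?_, ?_, ?_⟩
  · intro i a
    have h1 : Submodule.span ℝ (Set.range
        (Fin.append (fun i => (X (e.symm i) : MvPolynomial V ℝ)) L)) ≤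
        homogeneousSubmodule V ℝ 1 := by
      rw [Submodule.span_le]
      rintro _ ⟨j, rfl⟩
      exact hhom j
    exact h1 (hM3 i a)
  · refine ⟨_, ?_, ?_, hM2⟩
    · apply Ideal.Quotient.eq_zero_iff_mem.1
      rw [map_sum, Fin.sum_univ_add]
      simp only [Fin.append_left, Fin.append_right, map_pow, hL2]
      rw [← hsq]
      congr 1
      rw [← Equiv.sum_comp e.symm (fun v => cx Γ p v ^ 2)]
      rfl
    · refine IsHomogeneous.sum _ _ _ fun j _ => ?_
      have h2 := (hhom j).pow 2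
      rwa [one_mul] at h2
  · intro v
    choose c hc using hu3 (Fin.castAdd m (e v))
    refine ⟨fun i a => c i a, ?_, ?_⟩
    · ext i a
      have h2 := congrFun (congrFun (hu1 (Fin.castAdd m (e v))) i) a
      rw [Matrix.transpose_apply, hc, hc] at h2
      rw [Matrix.transpose_apply]
      exact C_injective V ℝ h2
    · have h3 : (Matrix.map (fun i a => c i a) C :
          Matrix (Fin (n + 1)) (Fin (n + 1)) (MvPolynomial V ℝ)) = u (Fin.castAdd m (e v)) := by
        ext1 i a
        rw [Matrix.map_apply, hc]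
        rfl
      have h4 := hu2 (Fin.castAdd m (e v))
      rw [Fin.append_left, Equiv.symm_apply_apply] at h4
      rw [h3]
      exact h4

end Pool.Agent.H539.Fan.T25
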