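import Pool.Agent.H128.Fan.Defs

set_option autoImplicit false
set_option linter.unusedSectionVars false

/-! T27: the binomial inequalities for the gamma vector. -/

namespace Pool.Agent.H382.FanT27

open Pool.Agent.Helper611 Pool.Agent.Helper611.ZBase Pool.Agent.Helper611.KRel
  Pool.Agent.Helper611.KVal Pool.Agent.Helper611.UStr
  Pool.Agent.H252R2.Lef1 Pool.Agent.H252R2.Lef7
  Pool.Agent.H252R2.CDNum Pool.Agent.H252R2.Top2 Pool.Agent.H128.SRing Pool.Agent.H128.Fan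
open MvPolynomial Module

section homog

variable {R : Type} [CommRing R]

/-- homogenization in degree `N`, evaluated at `(a, b)` -/
noncomputable def Phi (a b : R) (N : ℕ) (P : Polynomial ℤ) : R :=
  ∑ k ∈ Finset.range (N + 1), ((P.coeff k : ℤ) : R) * (a ^ k * b ^ (N - k))

lemma Phi_sum (a b : R) (N : ℕ) (s : Finset ℕ) (c : ℕ → ℤ) (P : ℕ → Polynomial ℤ) :
    Phi a b N (∑ i ∈ s, c i • P i) = ∑ i ∈ s, ((c i : ℤ) : R) * Phi a b N (P i) := by
  unfold Phi
  have h1 : ∀ k, (∑ i ∈ s, c i • P i).coeff k = ∑ i ∈ s, c i * (P i).coeff k := by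
    intro k
    rw [Polynomial.finsetSum_coeff]
    exact Finset.sum_congr rfl fun i _ => by rw [Polynomial.coeff_smul, smul_eq_mul]
  have h2 : ∀ i ∈ s, ((c i : ℤ) : R) * (∑ k ∈ Finset.range (N + 1),
      (((P i).coeff k : ℤ) : R) * (a ^ k * b ^ (N - k))) =
      ∑ k ∈ Finset.range (N + 1), ((c i : ℤ) : R) * ((((P i).coeff k : ℤ) : R) *
        (a ^ k * b ^ (N - k))) := fun i _ => Finset.mul_sum _ _ _
  rw [Finset.sum_congr rfl h2, Finset.sum_comm]
  refine Finset.sum_congr rfl fun k _ => ?_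
  rw [h1, Int.cast_sum, Finset.sum_mul]
  refine Finset.sum_congr rfl fun i _ => ?_
  rw [Int.cast_mul]
  ring

lemma Phi_X_mul (a b : R) (N : ℕ) (P : Polynomial ℤ) :
    Phi a b (N + 1) (Polynomial.X * P) = a * Phi a b N P := by
  unfold Phi
  rw [Finset.sum_range_succ', Polynomial.coeff_X_mul_zero, Int.cast_zero, zero_mul, add_zero,
    Finset.mul_sum]
  refine Finset.sum_congr rfl fun k _ => ?_
  rw [Polynomial.coeff_X_mul, Nat.add_sub_add_right, pow_succ]
  ring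

lemma Phi_succ (a b : R) (N : ℕ) (P : Polynomial ℤ) (h : P.coeff (N + 1) = 0) :
    Phi a b (N + 1) P = b * Phi a b N P := by
  unfold Phi
  rw [Finset.sum_range_succ, h, Int.cast_zero, zero_mul, add_zero, Finset.mul_sum]
  refine Finset.sum_congr rfl fun k hk => ?_
  have hk' := Finset.mem_range.1 hk
  have e1 : N + 1 - k = (N - k) + 1 := by omega
  rw [e1, pow_succ]
  ring

lemma Phi_add (a b : R) (N : ℕ) (P Q : Polynomial ℤ) :
    Phi a b N (P + Q) = Phi a b N P + Phi a b N Q := by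
  unfold Phi
  rw [← Finset.sum_add_distrib]
  refine Finset.sum_congr rfl fun k _ => ?_
  rw [Polynomial.coeff_add, Int.cast_add]
  ring

lemma Phi_pow (a b : R) (n : ℕ) : Phi a b n ((1 + Polynomial.X) ^ n) = (a + b) ^ n := by
  induction n with
  | zero =>
    unfold Phi
    simp
  | succ n ih =>
    have h0 : ((1 + Polynomial.X) ^ n : Polynomial ℤ).coeff (n + 1) = 0 := by
      rw [Polynomial.coeff_one_add_X_pow, Nat.choose_succ_self]
      rfl
    have e1 : ((1 + Polynomial.X) ^ (n + 1) : Polynomial ℤ) =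
        (1 + Polynomial.X) ^ n + Polynomial.X * (1 + Polynomial.X) ^ n := by ring
    rw [e1, Phi_add, Phi_succ _ _ _ _ h0, Phi_X_mul, ih]
    ring

lemma Phi_X_pow (a b : R) (i n : ℕ) :
    Phi a b (n + i) (Polynomial.X ^ i * (1 + Polynomial.X) ^ n) = a ^ i * (a + b) ^ n := by
  induction i with
  | zero => rw [pow_zero, pow_zero, one_mul, one_mul, add_zero, Phi_pow]
  | succ i ih =>
    have e1 : (Polynomial.X ^ (i + 1) * (1 + Polynomial.X) ^ n : Polynomial ℤ) =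
        Polynomial.X * (Polynomial.X ^ i * (1 + Polynomial.X) ^ n) := by ring
    rw [e1, ← add_assoc, Phi_X_mul, ih]
    ring

lemma Phi_up (a b : R) (i n j : ℕ) :
    Phi a b (n + i + j) (Polynomial.X ^ i * (1 + Polynomial.X) ^ n) =
      b ^ j * (a ^ i * (a + b) ^ n) := by
  induction j with
  | zero => rw [add_zero, Phi_X_pow, pow_zero, one_mul]
  | succ j ih =>
    have h0 : (Polynomial.X ^ i * (1 + Polynomial.X) ^ n : Polynomial ℤ).coeff (n + i + j + 1) = 0 := by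
      rw [Polynomial.coeff_X_pow_mul', if_pos (by omega), Polynomial.coeff_one_add_X_pow,
        Nat.choose_eq_zero_of_lt (by omega)]
      rfl
    rw [← add_assoc, Phi_succ _ _ _ _ h0, ih]
    ring

/-- homogenization of the gamma expansion -/
lemma homog {d : ℕ} (c γ : ℕ → ℤ)
    (hγ : ∑ i ∈ Finset.range (d + 1), c i • (Polynomial.X : Polynomial ℤ) ^ i =
      ∑ i ∈ Finset.range (d / 2 + 1), γ i • (Polynomial.X ^ i * (1 + Polynomial.X) ^ (d - 2 * i)))
    (a b : R) : ∑ i ∈ Finset.range (d + 1), ((c i : ℤ) : R) * (a ^ i * b ^ (d - i)) =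
      ∑ i ∈ Finset.range (d / 2 + 1), ((γ i : ℤ) : R) * ((a * b) ^ i * (a + b) ^ (d - 2 * i)) := by
  have h1 := congrArg (Phi a b d) hγ
  rw [Phi_sum, Phi_sum] at h1
  refine Eq.trans (Finset.sum_congr rfl fun i hi => ?_) (h1.trans (Finset.sum_congr rfl fun i hi => ?_))
  · have hi' := Finset.mem_range.1 hi
    congr 1
    unfold Phi
    rw [Finset.sum_eq_single i]
    · rw [Polynomial.coeff_X_pow_self, Int.cast_one, one_mul]
    · intro k _ hk
      rw [Polynomial.coeff_X_pow, if_neg hk, Int.cast_zero, zero_mul]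
    · intro h
      exact absurd hi h
  · have hi' := Finset.mem_range.1 hi
    have e1 : d = (d - 2 * i) + i + i := by omega
    have h2 := Phi_up a b i (d - 2 * i) i
    rw [← e1] at h2
    rw [h2, mul_pow]
    ring

end homog

variable {V : Type} [Fintype V] [LinearOrder V] {d : ℕ} {Γ : Cx V} {p : V → (Fin d → ℝ)}
  {φ : Finset V → V → Module.Dual ℝ (Fin d → ℝ)} {ξ : Fin d → ℝ}

/-- the face sum as an evaluation -/
lemma face_sum (Γ : Cx V) (hs : ∀ σ ∈ Γ.faces, σ.card ≤ d) (g : ℕ → ℚ) :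
    ∑ σ ∈ Γ.faces, g σ.card = ∑ j ∈ Finset.range (d + 1), ((fnum Γ j : ℤ) : ℚ) * g j := by
  classical
  have h3 : ∀ σ ∈ Γ.faces, σ.card ∈ Finset.range (d + 1) := fun σ hσ =>
    Finset.mem_range.2 (Nat.lt_succ_of_le (hs σ hσ))
  rw [← Finset.sum_fiberwise_of_maps_to h3]
  refine Finset.sum_congr rfl fun j _ => ?_
  have h4 : ∀ σ ∈ Γ.faces.filter (fun σ => σ.card = j), g σ.card = g j :=
    fun σ hσ => by rw [(Finset.mem_filter.1 hσ).2]
  rw [Finset.sum_congr rfl h4, Finset.sum_const, nsmul_eq_mul]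
  unfold fnum
  push_cast
  rfl

/-- double counting of flags of faces -/
lemma double (Γ : Cx V) (r : ℕ) (g : ℕ → ℚ) :
    ∑ H ∈ Γ.faces.filter (fun H => H.card = r), ∑ σ ∈ lkf Γ H, g σ.card =
      ∑ τ ∈ Γ.faces, ((τ.card.choose r : ℕ) : ℚ) * g (τ.card - r) := by
  classical
  have h1 : ∀ H ∈ Γ.faces.filter (fun H => H.card = r), ∑ σ ∈ lkf Γ H, g σ.card
      = ∑ τ ∈ Γ.faces.filter (fun τ => H ⊆ τ), g (τ.card - r) := by
    intro H hH
    obtain ⟨hH1, hH2⟩ := Finset.mem_filter.1 hH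
    refine Finset.sum_bij' (fun σ _ => σ ∪ H) (fun τ _ => τ \ H) ?_ ?_ ?_ ?_ ?_
    · intro σ hσ
      unfold lkf at hσ
      rw [Finset.mem_filter] at hσ ⊢
      exact ⟨hσ.2.2, Finset.subset_union_right⟩
    · intro τ hτ
      rw [Finset.mem_filter] at hτ
      unfold lkf
      rw [Finset.mem_filter]
      refine ⟨Γ.down _ hτ.1 _ Finset.sdiff_subset, Finset.sdiff_disjoint, ?_⟩
      rw [Finset.sdiff_union_of_subset hτ.2]
      exact hτ.1
    · intro σ hσ
      unfold lkf at hσ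
      rw [Finset.mem_filter] at hσ
      exact Finset.union_sdiff_cancel_right hσ.2.1
    · intro τ hτ
      rw [Finset.mem_filter] at hτ
      exact Finset.sdiff_union_of_subset hτ.2
    · intro σ hσ
      unfold lkf at hσ
      rw [Finset.mem_filter] at hσ
      rw [Finset.card_union_of_disjoint hσ.2.1, hH2, Nat.add_sub_cancel]
  rw [Finset.sum_congr rfl h1]
  have h2 : ∀ H ∈ Γ.faces.filter (fun H => H.card = r),
      ∑ τ ∈ Γ.faces.filter (fun τ => H ⊆ τ), g (τ.card - r)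
      = ∑ τ ∈ Γ.faces, if H ⊆ τ then g (τ.card - r) else 0 := fun H _ => Finset.sum_filter _ _
  rw [Finset.sum_congr rfl h2, Finset.sum_comm]
  refine Finset.sum_congr rfl fun τ hτ => ?_
  rw [← Finset.sum_filter]
  have h3 : ((Γ.faces.filter fun H => H.card = r).filter fun H => H ⊆ τ) = τ.powersetCard r := by
    ext H
    rw [Finset.mem_filter, Finset.mem_filter, Finset.mem_powersetCard]
    constructor
    · rintro ⟨⟨_, a⟩, b⟩
      exact ⟨b, a⟩
    · rintro ⟨a, b⟩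
      exact ⟨⟨Γ.down _ hτ _ a, b⟩, a⟩
  rw [h3, Finset.sum_const, nsmul_eq_mul, Finset.card_powersetCard]

/-- the coefficients of the right side -/
lemma rcoef {d i m : ℕ} (hi : i ≤ d / 2) (hm : m ≤ d / 2) :
    (((Polynomial.X + Polynomial.C (-1 / 2 : ℚ)) * (Polynomial.X + Polynomial.C (1 / 2 : ℚ))) ^ i *
      ((Polynomial.X + Polynomial.C (-1 / 2 : ℚ)) + (Polynomial.X + Polynomial.C (1 / 2 : ℚ))) ^
        (d - 2 * i)).coeff (d - 2 * m) = 2 ^ d * (-1 / 4) ^ m * ((i.choose m : ℚ) * (1 / 4) ^ i) := by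
  have e1 : (Polynomial.X + Polynomial.C (-1 / 2 : ℚ)) * (Polynomial.X + Polynomial.C (1 / 2 : ℚ)) =
      Polynomial.expand ℚ 2 (Polynomial.X + Polynomial.C (-1 / 4 : ℚ)) := by
    rw [map_add, Polynomial.expand_X, Polynomial.expand_C]
    have c1 : (Polynomial.C (-1 / 2 : ℚ)) = -Polynomial.C (1 / 2 : ℚ) := by
      rw [← Polynomial.C_neg]; norm_num
    have c2 : (Polynomial.C (-1 / 4 : ℚ)) = -(Polynomial.C (1 / 2 : ℚ) * Polynomial.C (1 / 2 : ℚ)) := by
      rw [← Polynomial.C_mul, ← Polynomial.C_neg]; norm_num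
    rw [c1, c2]
    ring
  have e2 : (Polynomial.X + Polynomial.C (-1 / 2 : ℚ)) + (Polynomial.X + Polynomial.C (1 / 2 : ℚ)) =
      Polynomial.C 2 * Polynomial.X := by
    have c1 : (Polynomial.C (-1 / 2 : ℚ)) = -Polynomial.C (1 / 2 : ℚ) := by
      rw [← Polynomial.C_neg]; norm_num
    have c2 : (Polynomial.C (2 : ℚ)) = 2 := rfl
    rw [c1, c2]
    ring
  rw [e1, e2, ← map_pow, mul_pow, ← Polynomial.C_pow, mul_left_comm, Polynomial.coeff_C_mul,
    Polynomial.coeff_mul_X_pow']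
  rcases lt_or_ge i m with h | h
  · rw [if_neg (by omega), Nat.choose_eq_zero_of_lt h]
    simp
  · rw [if_pos (by omega)]
    have e3 : d - 2 * m - (d - 2 * i) = 2 * (i - m) := by omega
    rw [e3, Polynomial.coeff_expand (by norm_num), if_pos (dvd_mul_right _ _),
      Nat.mul_div_cancel_left _ (by norm_num), Polynomial.coeff_X_add_C_pow]
    have e4 : i - (i - m) = m := by omega
    have e5 : (2 : ℚ) ^ (d - 2 * i) = 2 ^ d * (1 / 4) ^ i := by
      have e6 : (2 : ℚ) ^ d = 2 ^ (d - 2 * i) * 4 ^ i := by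
        have e7 : (4 : ℚ) ^ i = 2 ^ (2 * i) := by rw [pow_mul]; norm_num
        rw [e7, ← pow_add]
        congr 1
        omega
      rw [e6, mul_assoc, ← mul_pow]
      norm_num
    rw [e4, Nat.choose_symm h, e5]
    ring

/-- T27. -/
theorem gamma_all (hs : ∀ σ ∈ Γ.faces, σ.card ≤ d) (γ : ℕ → ℤ)
    (hγ : ∑ i ∈ Finset.range (d + 1), hn d (fnum Γ) i • (Polynomial.X : Polynomial ℤ) ^ i =
      ∑ i ∈ Finset.range (d / 2 + 1), γ i • (Polynomial.X ^ i * (1 + Polynomial.X) ^ (d - 2 * i)))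
    (hcd : ∀ H ∈ Γ.faces, ∀ m, d = 2 * m + H.card →
      0 ≤ (-1 : ℚ) ^ m * ∑ σ ∈ lkf Γ H, (-1 / 2 : ℚ) ^ σ.card) (m : ℕ) (hm : m ≤ d / 2) :
    0 ≤ ∑ i ∈ Finset.range (d / 2 + 1), (i.choose m : ℚ) * (1 / 4) ^ i * (γ i : ℚ) := by
  classical
  obtain ⟨a, ha⟩ : ∃ a : Polynomial ℚ, a = Polynomial.X + Polynomial.C (-1 / 2 : ℚ) := ⟨_, rfl⟩
  obtain ⟨b, hb⟩ : ∃ b : Polynomial ℚ, b = Polynomial.X + Polynomial.C (1 / 2 : ℚ) := ⟨_, rfl⟩
  have hab : 1 + a = b := by
    rw [ha, hb]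
    have c1 : (1 : Polynomial ℚ) = Polynomial.C 1 := rfl
    rw [c1, add_left_comm, ← Polynomial.C_add]
    norm_num
  -- the f-polynomial at `a`
  have h1 := congrArg (Polynomial.aeval a) (fp_eq d (fnum Γ))
  unfold fp at h1
  rw [map_sum, map_sum] at h1
  have h2 : ∑ j ∈ Finset.range (d + 1), ((fnum Γ j : ℤ) : Polynomial ℚ) * a ^ j =
      ∑ i ∈ Finset.range (d + 1), ((hn d (fnum Γ) i : ℤ) : Polynomial ℚ) * (a ^ i * b ^ (d - i)) := by
    refine Eq.trans (Finset.sum_congr rfl fun i _ => ?_) (h1.trans (Finset.sum_congr rfl fun i _ => ?_))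
    · rw [map_zsmul, map_pow, Polynomial.aeval_X, zsmul_eq_mul]
    · rw [map_zsmul, map_mul, map_pow, map_pow, map_add, map_one, Polynomial.aeval_X, zsmul_eq_mul,
        hab]
  rw [homog (hn d (fnum Γ)) γ hγ a b] at h2
  -- compare the coefficients
  have h3 := congrArg (fun P : Polynomial ℚ => P.coeff (d - 2 * m)) h2
  simp only [Polynomial.finsetSum_coeff] at h3
  have h4 : ∀ j, (((fnum Γ j : ℤ) : Polynomial ℚ) * a ^ j).coeff (d - 2 * m) =
      ((fnum Γ j : ℤ) : ℚ) * (((j.choose (d - 2 * m) : ℕ) : ℚ) * (-1 / 2) ^ (j - (d - 2 * m))) := by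
    intro j
    have e1 : ((fnum Γ j : ℤ) : Polynomial ℚ) = Polynomial.C ((fnum Γ j : ℤ) : ℚ) :=
      (map_intCast (Polynomial.C : ℚ →+* Polynomial ℚ) _).symm
    rw [e1, Polynomial.coeff_C_mul, ha, Polynomial.coeff_X_add_C_pow]
    ring
  have h5 : ∀ i ∈ Finset.range (d / 2 + 1),
      (((γ i : ℤ) : Polynomial ℚ) * ((a * b) ^ i * (a + b) ^ (d - 2 * i))).coeff (d - 2 * m) =
      2 ^ d * (-1 / 4) ^ m * ((i.choose m : ℚ) * (1 / 4) ^ i * (γ i : ℚ)) := by
    intro i hi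
    have e1 : ((γ i : ℤ) : Polynomial ℚ) = Polynomial.C ((γ i : ℤ) : ℚ) :=
      (map_intCast (Polynomial.C : ℚ →+* Polynomial ℚ) _).symm
    rw [e1, Polynomial.coeff_C_mul, ha, hb, rcoef (Nat.lt_succ_iff.1 (Finset.mem_range.1 hi)) hm]
    ring
  rw [Finset.sum_congr rfl fun j _ => h4 j, Finset.sum_congr rfl h5, ← Finset.mul_sum,
    ← face_sum Γ hs (fun j => ((j.choose (d - 2 * m) : ℕ) : ℚ) * (-1 / 2) ^ (j - (d - 2 * m))),
    ← double Γ (d - 2 * m) (fun j => (-1 / 2 : ℚ) ^ j)] at h3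
  -- signs
  have h6 : 0 ≤ (-1 : ℚ) ^ m * ∑ H ∈ Γ.faces.filter (fun H => H.card = d - 2 * m),
      ∑ σ ∈ lkf Γ H, (-1 / 2 : ℚ) ^ σ.card := by
    rw [Finset.mul_sum]
    refine Finset.sum_nonneg fun H hH => ?_
    obtain ⟨a1, a2⟩ := Finset.mem_filter.1 hH
    exact hcd H a1 m (by omega)
  rw [h3] at h6
  have h7 : ∀ x : ℚ, (-1 : ℚ) ^ m * (2 ^ d * (-1 / 4) ^ m * x) = (2 ^ d * (1 / 4) ^ m) * x := by
    intro x
    have e1 : (-1 : ℚ) ^ m * (-1 / 4) ^ m = (1 / 4) ^ m := by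
      rw [← mul_pow]; norm_num
    calc (-1 : ℚ) ^ m * (2 ^ d * (-1 / 4) ^ m * x) = 2 ^ d * ((-1) ^ m * (-1 / 4) ^ m) * x := by ring
      _ = _ := by rw [e1]
  rw [h7] at h6
  exact nonneg_of_mul_nonneg_right h6 (by positivity)

end Pool.Agent.H382.FanT27
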