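import Pool.Agent.H128.Fan.Defs
import Pool.Agent.H128.Fan.T01
import Pool.Agent.H128.Fan.T03
import Pool.Agent.H128.Fan.T04
import Pool.Agent.H128.Fan.T05
import Pool.Agent.H128.Fan.T06
import Pool.Agent.H128.Fan.T07
import Pool.Agent.H128.Fan.T08
import Pool.Agent.H128.Fan.T09
import Pool.Agent.H128.Fan.T10
import Pool.Agent.H128.Fan.T11
import Pool.Agent.H128.Fan.T12
import Pool.Agent.H128.Fan.T13
import Pool.Agent.H128.Fan.T14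
import Pool.Agent.H128.Fan.T15T16
import Pool.Agent.H128.Fan.T17
import Pool.Agent.H128.Fan.T18
import Pool.Agent.H128.Fan.T19
import Pool.Agent.H128.Fan.T21
import Pool.Agent.H128.Fan.T23
import Pool.Agent.H128.Fan.T25
import Pool.Agent.H128.Fan.T27

set_option autoImplicit false
set_option linter.unusedSectionVars false

/-! Complete simplicial fans: the lemmas proved in the modules `T01`–`T25`, collected. -/

namespace Pool.Agent.H128.Fan.Lem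

open Pool.Agent.Helper611 Pool.Agent.Helper611.ZBase Pool.Agent.Helper611.KRel
  Pool.Agent.Helper611.KVal Pool.Agent.Helper611.UStr
  Pool.Agent.H252R2.Lef1 Pool.Agent.H252R2.Lef7
  Pool.Agent.H252R2.CDNum Pool.Agent.H252R2.Top2 Pool.Agent.H128.SRing Pool.Agent.H128.Fan
open MvPolynomial Module

variable {V : Type} [Fintype V] [LinearOrder V] {d : ℕ} {Γ : Cx V} {p : V → (Fin d → ℝ)}
  {φ : Finset V → V → Module.Dual ℝ (Fin d → ℝ)} {ξ : Fin d → ℝ}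

/-- T01. -/
theorem fan_li (hf : IsFan Γ p) : ∀ σ ∈ Γ.faces, LinearIndependent ℝ (fun v : σ => p v) :=
  Pool.Agent.H700.Fan.T01.fan_li hf

/-- T02a. -/
theorem exists_gen (Γ : Cx V) (p : V → (Fin d → ℝ)) : ∃ ξ, Gen Γ p ξ :=
  Pool.Agent.H700.Fan.T01.exists_gen Γ p

/-- T02b. -/
theorem gen_neg (h : Gen Γ p ξ) : Gen Γ p (-ξ) :=
  Pool.Agent.H700.Fan.T01.gen_neg h

/-- T02c. -/
theorem gen_nz (hφ : Coord Γ p φ) (h : Gen Γ p ξ) : Nz Γ φ ξ :=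
  Pool.Agent.H700.Fan.T01.gen_nz hφ h

/-- T03. -/
theorem fan_C (hf : IsFan Γ p) (hφ : Coord Γ p φ) (hg : Gen Γ p ξ) (H : Finset V) (hH : H ∈ Γ.faces) :
    ∃! G : Finset V, G ∈ Γ.faces ∧ G.card = d ∧ H ⊆ G ∧ ∀ v ∈ G \ H, 0 < φ G v ξ :=
  Pool.Agent.H355.Fan.T03.fan_C hf hφ hg H hH

/-- T04. -/
theorem fan_homeo (hf : IsFan Γ p) (hd : 1 ≤ d) :
    Nonempty (realization Γ ≃ₜ Metric.sphere (0 : EuclideanSpace ℝ (Fin d)) 1) :=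
  Pool.Agent.H758.Fan.fan_homeo hf hd

/-- T05. -/
theorem fan_ridge (hp : ∀ σ ∈ Γ.faces, LinearIndependent ℝ (fun v : σ => p v)) (hφ : Coord Γ p φ)
    (hex : ∃ ξ, Gen Γ p ξ)
    (hC : ∀ ξ, Gen Γ p ξ → ∀ H ∈ Γ.faces,
      ∃! G : Finset V, G ∈ Γ.faces ∧ G.card = d ∧ H ⊆ G ∧ ∀ v ∈ G \ H, 0 < φ G v ξ) :
    ∃ τ : Finset V → ℝ, (∀ G ∈ Γ.faces, G.card = d → 0 < τ G) ∧
      ∀ ρ ∈ Γ.faces, ρ.card + 1 = d → ∀ l : Module.Dual ℝ (Fin d → ℝ), (∀ v ∈ ρ, l (p v) = 0) →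
        ∑ v ∈ ρᶜ, (if insert v ρ ∈ Γ.faces then τ (insert v ρ) * l (p v) else 0) = 0 :=
  Pool.Agent.H355.Fan.T05.fan_ridge hp hφ hex hC

/-- T06. -/
theorem stress_van (hφ : Coord Γ p φ) (hg : Gen Γ p ξ) (hs : ∀ σ ∈ Γ.faces, σ.card ≤ d)
    (τ : Finset V → ℝ)
    (hτ : ∀ ρ ∈ Γ.faces, ρ.card + 1 = d → ∀ l : Module.Dual ℝ (Fin d → ℝ), (∀ v ∈ ρ, l (p v) = 0) →
        ∑ v ∈ ρᶜ, (if insert v ρ ∈ Γ.faces then τ (insert v ρ) * l (p v) else 0) = 0)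
    (k : ℕ) (hk : k < d) (f : MvPolynomial V ℝ) (hf : f.IsHomogeneous k) : TH Γ φ ξ τ ∅ f = 0 :=
  Pool.Agent.H48.Fan.stress_van hφ hg hs τ hτ k hk f hf

/-- T07. -/
theorem star_acy {M : Type*} [AddCommGroup M] (H : Finset V) (hH : H ∈ Γ.faces)
    (h : ∀ (τ : Finset V) (k : ℕ), k < d → Acy Γ M τ k) :
    ∀ (τ : Finset V) (k : ℕ), k < d → Acy (stc Γ H) M τ k :=
  Pool.Agent.H152.FanT07.star_acy H hH h

/-- T08. -/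
theorem ring_dim (S : Cx V) (hp : ∀ σ ∈ S.faces, LinearIndependent ℝ (fun v : σ => p v))
    (hφ : Coord S p φ) (hz : Nz S φ ξ)
    (hacy : ∀ (τ : Finset V) (k s : ℕ), k < d →
      AcyP (fun σ => σ ∈ S.faces) (⋀[ℝ]^s (Fin d → ℝ)) τ k) :
    (∀ k, k ≤ d → (finrank ℝ (AA S p k) : ℤ) = hn d (fnum S) k) ∧
    (∀ k, d < k → ∀ f : MvPolynomial V ℝ, f.IsHomogeneous k → f ∈ JJ S p) ∧
    (∀ k, k ≤ d + 1 → (finrank ℝ (MM S φ ξ k) : ℤ) = ∑ j ∈ Finset.range k, hn d (fnum S) j) ∧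
    (∑ k ∈ Finset.range (d + 1), finrank ℝ (AA S p k) = Fintype.card (Fc S d)) ∧
    ∀ k (f : MvPolynomial V ℝ), f.IsHomogeneous k → ev S φ ξ f ∈ MM S φ ξ k → f ∈ JJ S p :=
  Pool.Agent.H672.Fan.ring_dim S hp hφ hz hacy

/-- T09. -/
theorem count (hs : ∀ σ ∈ Γ.faces, σ.card ≤ d)
    (hC : ∀ H ∈ Γ.faces,
      ∃! G : Finset V, G ∈ Γ.faces ∧ G.card = d ∧ H ⊆ G ∧ ∀ v ∈ G \ H, 0 < φ G v ξ)
    (hz : Nz Γ φ ξ) (H : Finset V) (hH : H ∈ Γ.faces) (k : ℕ) (hk : k ≤ d) :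
    (((Γ.faces.filter (fun G => G.card = d ∧ H ⊆ G)).filter fun G => neg φ ξ H G = k).card : ℤ) =
      hn d (fnum (stc Γ H)) k :=
  Pool.Agent.H93.FanT09.count hs hC hz H hH k hk

/-- T10. -/
theorem link_cd
    (hC : ∀ H ∈ Γ.faces,
      ∃! G : Finset V, G ∈ Γ.faces ∧ G.card = d ∧ H ⊆ G ∧ ∀ v ∈ G \ H, 0 < φ G v ξ)
    (hz : Nz Γ φ ξ) (H : Finset V) (hH : H ∈ Γ.faces) :
    ∑ σ ∈ Γ.faces.filter (fun σ => Disjoint σ H ∧ σ ∪ H ∈ Γ.faces), (-1 / 2 : ℚ) ^ σ.card =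
      (1 / 2) ^ (d - H.card) *
        ∑ G ∈ Γ.faces.filter (fun G => G.card = d ∧ H ⊆ G), (-1) ^ neg φ ξ H G :=
  Pool.Agent.H641.Fan.link_cd hC hz H hH

/-- T11. -/
theorem perp_of_dim {ι : Type} [Fintype ι] (ω : ι → ℝ) (hω : ∀ G, ω G ≠ 0)
    (U W : Submodule ℝ (ι → ℝ)) (h1 : ∀ u ∈ U, ∀ w ∈ W, ∑ G, ω G * (u G * w G) = 0)
    (h2 : finrank ℝ U + finrank ℝ W = Fintype.card ι) (F : ι → ℝ)
    (hF : ∀ w ∈ W, ∑ G, ω G * (F G * w G) = 0) : F ∈ U :=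
  Pool.Agent.H795.FanT11.perp_of_dim ω hω U W h1 h2 F hF

/-- T12. -/
theorem span_free (S : Cx V) (p : V → (Fin d → ℝ)) (l : Basis (Fin d) ℝ (Module.Dual ℝ (Fin d → ℝ)))
    (hdim : ∑ k ∈ Finset.range (d + 1), finrank ℝ (AA S p k) = Fintype.card (Fc S d))
    (htop : ∀ k, d < k → ∀ f : MvPolynomial V ℝ, f.IsHomogeneous k → f ∈ JJ S p)
    (hJ : JS S p l d = JJ S p) :
    ∃ β : Fc S d → MvPolynomial V ℝ, ∀ f : MvPolynomial V ℝ, ∃ g : Fc S d → MvPolynomial (Fin d) ℝ,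
      f - ∑ i, β i * aeval (fun j => th p (l j)) (g i) ∈ JS S p l 0 :=
  Pool.Agent.H297.FN.span_free S p l hdim htop hJ

/-- T13. -/
theorem ind_free (S : Cx V) (l : Basis (Fin d) ℝ (Module.Dual ℝ (Fin d → ℝ))) (hφ : Coord S p φ)
    (hz : Nz S φ ξ) (β : Fc S d → MvPolynomial V ℝ)
    (hβ : ∀ f : MvPolynomial V ℝ, ∃ g : Fc S d → MvPolynomial (Fin d) ℝ,
      f - ∑ i, β i * aeval (fun j => th p (l j)) (g i) ∈ JS S p l 0)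
    (g : Fc S d → MvPolynomial (Fin d) ℝ)
    (hg : ∑ i, β i * aeval (fun j => th p (l j)) (g i) ∈ JS S p l 0) : ∀ i, g i = 0 :=
  Pool.Agent.H962.Fan.ind_free S l hφ hz β hβ g hg

/-- T14. -/
theorem reg_free {N : Type} [Fintype N] (S : Cx V) (p : V → (Fin d → ℝ))
    (l : Fin d → Module.Dual ℝ (Fin d → ℝ)) (β : N → MvPolynomial V ℝ)
    (h1 : ∀ f : MvPolynomial V ℝ, ∃ g : N → MvPolynomial (Fin d) ℝ,
      f - ∑ i, β i * aeval (fun j => th p (l j)) (g i) ∈ JS S p l 0)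
    (h2 : ∀ g : N → MvPolynomial (Fin d) ℝ,
      ∑ i, β i * aeval (fun j => th p (l j)) (g i) ∈ JS S p l 0 → ∀ i, g i = 0)
    (s : Fin d) (f : MvPolynomial V ℝ) (hf : th p (l s) * f ∈ JS S p l s) : f ∈ JS S p l s :=
  Pool.Agent.H539.Fan.T14.reg_free S p l β h1 h2 s f hf

/-- T15. -/
theorem adapted (p : V → (Fin d → ℝ)) (H : Finset V)
    (hp : LinearIndependent ℝ (fun v : H => p v)) :
    ∃ (l : Basis (Fin d) ℝ (Module.Dual ℝ (Fin d → ℝ))) (g : V → ℕ), (∀ u ∈ H, g u < H.card) ∧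
      Set.InjOn g H ∧ ∀ u ∈ H, ∀ i : Fin d, l i (p u) = if (i : ℕ) = g u then 1 else 0 :=
  Pool.Agent.H997.Fan.adapted p H hp

/-- T16a. -/
theorem K_reg (p : V → (Fin d → ℝ)) (H : Finset V) (hH : H ∈ Γ.faces)
    (l : Fin d → Module.Dual ℝ (Fin d → ℝ)) (g : V → ℕ) (hg : ∀ u ∈ H, g u < H.card)
    (hgi : Set.InjOn g H) (hl : ∀ u ∈ H, ∀ i : Fin d, l i (p u) = if (i : ℕ) = g u then 1 else 0)
    (s : Fin d) (k : ℕ) (c : MvPolynomial V ℝ) (hc : c.IsHomogeneous (k + 1))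
    (h : th p (l s) * c ∈ JS (stc Γ H) p l s ⊔ Ideal.span (X '' {v | v ∉ H})) :
    c ∈ JS (stc Γ H) p l s ⊔ Ideal.span (X '' {v | v ∉ H}) :=
  Pool.Agent.H997.Fan.K_reg p H hH l g hg hgi hl s k c hc h

/-- T16b. -/
theorem K_top (p : V → (Fin d → ℝ)) (H : Finset V) (hH : H ∈ Γ.faces)
    (l : Fin d → Module.Dual ℝ (Fin d → ℝ)) (g : V → ℕ) (hg : ∀ u ∈ H, g u < H.card)
    (hgi : Set.InjOn g H) (hHd : H.card ≤ d)
    (hl : ∀ u ∈ H, ∀ i : Fin d, l i (p u) = if (i : ℕ) = g u then 1 else 0)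
    (k : ℕ) (c : MvPolynomial V ℝ) (hc : c.IsHomogeneous (k + 1)) :
    c ∈ JS (stc Γ H) p l d ⊔ Ideal.span (X '' {v | v ∉ H}) :=
  Pool.Agent.H997.Fan.K_top p H hH l g hg hgi hHd hl k c hc

/-- T16c. -/
theorem JS_top (S : Cx V) (p : V → (Fin d → ℝ)) (l : Basis (Fin d) ℝ (Module.Dual ℝ (Fin d → ℝ))) :
    JS S p l d = JJ S p :=
  Pool.Agent.H997.Fan.JS_top S p l

/-- T17. -/
theorem TT_zero (p : V → (Fin d → ℝ)) (l : Fin d → Module.Dual ℝ (Fin d → ℝ)) (H : Finset V)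
    (hH : H ∈ Γ.faces) : TT Γ p l H 0 :=
  Pool.Agent.H762.Fan.TT_zero p l H hH

/-- T18. -/
theorem TT_step (p : V → (Fin d → ℝ)) (l : Fin d → Module.Dual ℝ (Fin d → ℝ)) (H : Finset V)
    (hH : H ∈ Γ.faces) (s : Fin d)
    (hreg : ∀ G, Disjoint G H → G ∪ H ∈ Γ.faces → ∀ f : MvPolynomial V ℝ,
      th p (l s) * f ∈ JS (stc Γ (G ∪ H)) p l s → f ∈ JS (stc Γ (G ∪ H)) p l s)
    (hK : ∀ k (c : MvPolynomial V ℝ), c.IsHomogeneous (k + 1) →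
      th p (l s) * c ∈ JS (stc Γ H) p l s ⊔ Ideal.span (X '' {v | v ∉ H}) →
      c ∈ JS (stc Γ H) p l s ⊔ Ideal.span (X '' {v | v ∉ H}))
    (h : TT Γ p l H s) : TT Γ p l H (s + 1) :=
  Pool.Agent.H539.Fan.T18.TT_step p l H hH s hreg hK h

variable {κ : Type} [Fintype κ] [DecidableEq κ]

/-- T19. -/
theorem def_abs {ι : Type} [Fintype ι] {ω : ι → ℝ} {e : ℕ} {D : (ι → κ → ℝ) →ₗ[ℝ] (ι → κ → ℝ)}
    {N : ℕ → Submodule ℝ (ι → κ → ℝ)} (h : FD ω e D N) (m : ℕ) (he : e = 2 * m) (ε : ℝ)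
    (hε : ε = 1 ∨ ε = -1)
    (hex : ∀ k, m < k → ∀ F ∈ N (k + 1), D F ∈ N (k + 1) → F ∈ N k ⊔ (N k).map D)
    (hdim : 2 * ∑ j ∈ Finset.range m, (-1 : ℤ) ^ (m - 1 - j) * (finrank ℝ (N (j + 1)) : ℤ) =
      (Fintype.card κ : ℤ) * ((Finset.univ.filter fun G => ε * ω G < 0).card : ℤ)) :
    (∀ F ∈ N (m + 1), D F ∈ N (m + 1) → 0 ≤ ε * qf ω F F ∧
      (qf ω F F = 0 → F ∈ N m ⊔ (N m).map D)) ∧
    Fintype.card κ * (Finset.univ.filter fun G => ε * ω G < 0).card ≤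
      Fintype.card κ * (Finset.univ.filter fun G => 0 < ε * ω G).card :=
  Pool.Agent.H758.Fan.def_abs h m he ε hε hex hdim

/-- T20. -/
theorem perp_bdry {ι : Type} [Fintype ι] {ω : ι → ℝ} {e : ℕ} {D : (ι → κ → ℝ) →ₗ[ℝ] (ι → κ → ℝ)}
    {N : ℕ → Submodule ℝ (ι → κ → ℝ)} (h : FD ω e D N) (j k : ℕ) (hjk : j + k = e)
    (F : ι → κ → ℝ) (hF : ∀ F' ∈ N (j + 1), D F' ∈ N (j + 1) → qf ω F F' = 0) :
    F ∈ N k ⊔ (N k).map D :=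
  Pool.Agent.H758.Fan.perp_bdry h j k hjk F hF

/-- T21. -/
theorem zig {M : Matrix κ κ (MvPolynomial V ℝ)} (hM : Cl Γ p M) (H : Finset V) (hH : H ∈ Γ.faces)
    (hs : ∀ σ ∈ Γ.faces, σ.card ≤ d)
    (hrow : Row Γ p H) (k : ℕ)
    (hcol : ∀ G : Finset V, 2 ≤ G.card → Disjoint G H → G ∪ H ∈ Γ.faces → Col Γ p M (G ∪ H) k)
    (f : κ → MvPolynomial V ℝ) (hf : HomV (k + 1) f) (hc : Cyc Γ p M H f) :
    ∃ F : V → κ → MvPolynomial V ℝ, (∀ v, HomV k (F v)) ∧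
      (∀ v, v ∉ H → insert v H ∈ Γ.faces → Cyc Γ p M (insert v H) (F v)) ∧
      ∀ i, f i - ∑ v ∈ Hᶜ, X v * F v i ∈ JJ (stc Γ H) p :=
  Pool.Agent.H972.FanZig.zig hM H hH hs hrow k hcol f hf hc

/-- T22. -/
theorem xb_xb (H : Finset V) (a : Finset V → MvPolynomial V ℝ) (G : Finset V) :
    xb H (xb H a) G = 0 :=
  Pool.Agent.H152.FanT07.xb_xb H a G

/-- T23. -/
theorem gamma_top (hs : ∀ σ ∈ Γ.faces, σ.card ≤ d) (hd : 1 ≤ d) (γ : ℕ → ℤ)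
    (hγ : ∑ i ∈ Finset.range (d + 1), hn d (fnum Γ) i • (Polynomial.X : Polynomial ℤ) ^ i =
      ∑ i ∈ Finset.range (d / 2 + 1), γ i • (Polynomial.X ^ i * (1 + Polynomial.X) ^ (d - 2 * i)))
    (hcd : ∀ H ∈ Γ.faces, ∀ m, d = 2 * m + H.card →
      0 ≤ (-1 : ℚ) ^ m * ∑ σ ∈ lkf Γ H, (-1 / 2 : ℚ) ^ σ.card) : 0 ≤ γ (d / 2) :=
  Pool.Agent.H981.FanT23.gamma_top hs hd γ hγ hcd

/-- T25. -/
theorem exists_cl (hno : NoPSD Γ p) :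
    ∃ (n : ℕ) (M : Matrix (Fin (n + 1)) (Fin (n + 1)) (MvPolynomial V ℝ)), Cl Γ p M :=
  Pool.Agent.H539.Fan.T25.exists_cl hno

/-- T26. -/
theorem alt_count (m : ℕ) (c : ℕ → ℤ) (hc : ∀ i, i ≤ 2 * m → c i = c (2 * m - i)) :
    2 * ∑ j ∈ Finset.range m, (-1 : ℤ) ^ (m - 1 - j) * ∑ i ∈ Finset.range (j + 1), c i =
      ∑ i ∈ (Finset.range (2 * m + 1)).filter (fun i => Odd (m + i)), c i :=
  Pool.Agent.H795.FanT11.alt_count m c hc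

/-- T27. -/
theorem gamma_all (hs : ∀ σ ∈ Γ.faces, σ.card ≤ d) (γ : ℕ → ℤ)
    (hγ : ∑ i ∈ Finset.range (d + 1), hn d (fnum Γ) i • (Polynomial.X : Polynomial ℤ) ^ i =
      ∑ i ∈ Finset.range (d / 2 + 1), γ i • (Polynomial.X ^ i * (1 + Polynomial.X) ^ (d - 2 * i)))
    (hcd : ∀ H ∈ Γ.faces, ∀ m, d = 2 * m + H.card →
      0 ≤ (-1 : ℚ) ^ m * ∑ σ ∈ lkf Γ H, (-1 / 2 : ℚ) ^ σ.card) (m : ℕ) (hm : m ≤ d / 2) :
    0 ≤ ∑ i ∈ Finset.range (d / 2 + 1), (i.choose m : ℚ) * (1 / 4) ^ i * (γ i : ℚ) :=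
  Pool.Agent.H382.FanT27.gamma_all hs γ hγ hcd m hm

end Pool.Agent.H128.Fan.Lem
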