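import Pool.Agent.H128.Fan.Lem

set_option autoImplicit false
set_option linter.unusedSectionVars false

/-! Complete simplicial fans: basic data. -/

namespace Pool.Agent.H128.Fan

open Pool.Agent.Helper611 Pool.Agent.Helper611.ZBase Pool.Agent.Helper611.KRel
  Pool.Agent.Helper611.KVal Pool.Agent.Helper611.UStr
  Pool.Agent.H252R2.Lef1 Pool.Agent.H252R2.Lef7
  Pool.Agent.H252R2.CDNum Pool.Agent.H252R2.Top2 Pool.Agent.H128.SRing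
open MvPolynomial Module Lem

variable {V : Type} [Fintype V] [LinearOrder V] {d : ℕ} {Γ : Cx V} {p : V → (Fin d → ℝ)}
  {φ : Finset V → V → Module.Dual ℝ (Fin d → ℝ)} {ξ : Fin d → ℝ} {τ : Finset V → ℝ}

/-- all the data of a fan -/
structure FanData (Γ : Cx V) (p : V → (Fin d → ℝ)) (φ : Finset V → V → Module.Dual ℝ (Fin d → ℝ))
    (ξ : Fin d → ℝ) (τ : Finset V → ℝ) : Prop where
  hd : 1 ≤ d
  small : ∀ σ ∈ Γ.faces, σ.card ≤ d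
  li : ∀ σ ∈ Γ.faces, LinearIndependent ℝ (fun v : σ => p v)
  coord : Coord Γ p φ
  nz : Nz Γ φ ξ
  nzn : Nz Γ φ (-ξ)
  C : ∀ H ∈ Γ.faces, ∃! G : Finset V, G ∈ Γ.faces ∧ G.card = d ∧ H ⊆ G ∧ ∀ v ∈ G \ H, 0 < φ G v ξ
  Cn : ∀ H ∈ Γ.faces, ∃! G : Finset V, G ∈ Γ.faces ∧ G.card = d ∧ H ⊆ G ∧
    ∀ v ∈ G \ H, 0 < φ G v (-ξ)
  acy : ∀ (s : ℕ) (τ : Finset V) (k : ℕ), k < d → Acy Γ (⋀[ℝ]^s (Fin d → ℝ)) τ k
  pos : ∀ G ∈ Γ.faces, G.card = d → 0 < τ G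
  van : ∀ k, k < d → ∀ f : MvPolynomial V ℝ, f.IsHomogeneous k → TH Γ φ ξ τ ∅ f = 0

theorem exists_data (hf : IsFan Γ p) (hd : 1 ≤ d) : ∃ φ ξ τ, FanData Γ p φ ξ τ := by
  have hp := fan_li hf
  have small : ∀ σ ∈ Γ.faces, σ.card ≤ d := by
    intro σ hσ
    have h1 := (hp σ hσ).fintype_card_le_finrank
    rwa [Fintype.card_coe, frk] at h1
  obtain ⟨φ, hφ⟩ := UNum.exists_coord Γ p small (SDim.dual_of_li hp)
  obtain ⟨ξ, hξ⟩ := exists_gen Γ p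
  obtain ⟨τ, hτ1, hτ2⟩ := fan_ridge hp hφ ⟨ξ, hξ⟩ (fun ξ hξ H hH => fan_C hf hφ hξ H hH)
  have hyp : Hyp Γ d := by
    refine ⟨small, ?_, fun τ hne hτ k => Pool.Agent.H252R2.Top1.del_acyclic Γ d (fan_homeo hf hd) τ hτ hne k⟩
    obtain ⟨G, ⟨h1, h2, -⟩, -⟩ := fan_C hf hφ hξ ∅ Γ.empty_mem
    exact ⟨G, h1, h2⟩
  exact ⟨φ, ξ, τ, ⟨hd, small, hp, hφ, gen_nz hφ hξ, gen_nz hφ (gen_neg hξ),
    fun H hH => fan_C hf hφ hξ H hH, fun H hH => fan_C hf hφ (gen_neg hξ) H hH,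
    fun s τ k hk => acy_all hyp hd τ k hk, hτ1,
    fun k hk f hf => stress_van hφ hξ small τ hτ2 k hk f hf⟩⟩

lemma stc_sub (Γ : Cx V) (H : Finset V) {σ : Finset V} (h : σ ∈ (stc Γ H).faces) : σ ∈ Γ.faces :=
  (Finset.mem_filter.1 h).1

lemma stc_coord (hφ : Coord Γ p φ) (H : Finset V) : Coord (stc Γ H) p φ :=
  ⟨fun σ hσ => hφ.one σ (stc_sub Γ H hσ), fun σ hσ => hφ.zero σ (stc_sub Γ H hσ)⟩

lemma stc_nz (hz : Nz Γ φ ξ) (H : Finset V) : Nz (stc Γ H) φ ξ :=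
  fun F hF => hz F (stc_sub Γ H hF)

lemma stc_facet (hs : ∀ σ ∈ Γ.faces, σ.card ≤ d) {H : Finset V} (hH : H ∈ Γ.faces) (G : Finset V) :
    (G ∈ (stc Γ H).faces ∧ G.card = d) ↔ (G ∈ Γ.faces ∧ G.card = d ∧ H ⊆ G) := by
  rw [mem_stc hH]
  constructor
  · rintro ⟨h1, h2⟩
    have h3 := hs _ h1
    have h4 : G = G ∪ H := Finset.eq_of_subset_of_card_le Finset.subset_union_left (by omega)
    refine ⟨by rw [h4]; exact h1, h2, ?_⟩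
    rw [h4]
    exact Finset.subset_union_right
  · rintro ⟨h1, h2, h3⟩
    rw [Finset.union_eq_left.2 h3]
    exact ⟨h1, h2⟩

lemma stc_mono {H H' : Finset V} (hH' : H' ∈ Γ.faces) (h : H ⊆ H') {σ : Finset V}
    (hσ : σ ∈ (stc Γ H').faces) : σ ∈ (stc Γ H).faces := by
  have hH := Γ.down _ hH' _ h
  rw [mem_stc hH'] at hσ
  rw [mem_stc hH]
  exact Γ.down _ hσ _ (Finset.union_subset_union_right h)

lemma JJ_mono {S S' : Cx V} (h : ∀ σ ∈ S'.faces, σ ∈ S.faces) : JJ S p ≤ JJ S' p := by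
  unfold JJ
  refine Ideal.span_mono ?_
  rintro f (⟨N, hN, rfl⟩ | h2)
  · exact Or.inl ⟨N, fun h3 => hN (h N h3), rfl⟩
  · exact Or.inr h2

lemma JJ_stc (H : Finset V) : JJ Γ p ≤ JJ (stc Γ H) p := JJ_mono fun _ h => stc_sub Γ H h

lemma JJ_stc_mono {H H' : Finset V} (hH' : H' ∈ Γ.faces) (h : H ⊆ H') :
    JJ (stc Γ H) p ≤ JJ (stc Γ H') p := JJ_mono fun _ h2 => stc_mono hH' h h2

namespace FanData
variable (h : FanData Γ p φ ξ τ)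
include h

lemma star {H : Finset V} (hH : H ∈ Γ.faces) :
    (∀ k, k ≤ d → (finrank ℝ (AA (stc Γ H) p k) : ℤ) = hn d (fnum (stc Γ H)) k) ∧
    (∀ k, d < k → ∀ f : MvPolynomial V ℝ, f.IsHomogeneous k → f ∈ JJ (stc Γ H) p) ∧
    (∀ k, k ≤ d + 1 → (finrank ℝ (MM (stc Γ H) φ ξ k) : ℤ) =
      ∑ j ∈ Finset.range k, hn d (fnum (stc Γ H)) j) ∧
    (∑ k ∈ Finset.range (d + 1), finrank ℝ (AA (stc Γ H) p k) = Fintype.card (Fc (stc Γ H) d)) ∧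
    ∀ k (f : MvPolynomial V ℝ), f.IsHomogeneous k → ev (stc Γ H) φ ξ f ∈ MM (stc Γ H) φ ξ k →
      f ∈ JJ (stc Γ H) p :=
  ring_dim (stc Γ H) (fun σ hσ => h.li σ (stc_sub Γ H hσ)) (stc_coord h.coord H) (stc_nz h.nz H)
    (fun τ k s hk => acyP_of_acy _ τ k (star_acy H hH (fun τ k hk => h.acy s τ k hk) τ k hk))

lemma row {H : Finset V} (hH : H ∈ Γ.faces) : Row Γ p H := by
  obtain ⟨l, g, hg1, hg2, hg3⟩ := adapted p H (h.li H hH)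
  have hreg : ∀ s : Fin d, ∀ G, Disjoint G H → G ∪ H ∈ Γ.faces → ∀ f : MvPolynomial V ℝ,
      th p (l s) * f ∈ JS (stc Γ (G ∪ H)) p l s → f ∈ JS (stc Γ (G ∪ H)) p l s := by
    intro s G _ hG f hf
    obtain ⟨h1, h2, h3, h4, h5⟩ := h.star hG
    obtain ⟨β, hβ⟩ := span_free (stc Γ (G ∪ H)) p l h4 h2 (JS_top _ p l)
    exact reg_free (stc Γ (G ∪ H)) p l β hβ
      (ind_free (stc Γ (G ∪ H)) l (stc_coord h.coord _) (stc_nz h.nz _) β hβ) s f hf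
  have hTT : ∀ s : ℕ, s ≤ d → TT Γ p l H s := by
    intro s
    induction s with
    | zero => exact fun _ => TT_zero p l H hH
    | succ s ih =>
      intro hs
      exact TT_step p l H hH ⟨s, hs⟩ (hreg ⟨s, hs⟩)
        (fun k c hc h2 => K_reg p H hH l g hg1 hg2 hg3 ⟨s, hs⟩ k c hc h2) (ih (by omega))
  intro r k a ha1 ha2
  obtain ⟨b, hb1, hb2⟩ := hTT d le_rfl r k a ha1
    (fun G h1 h2 h3 => by rw [JS_top]; exact ha2 G h1 h2 h3)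
    (fun _ => K_top p H hH l g hg1 hg2 (h.small H hH) hg3 k (a ∅) (ha1 ∅))
  refine ⟨b, hb1, fun G h1 h2 h3 => ?_⟩
  have := hb2 G h1 h2 h3
  rwa [JS_top] at this

end FanData

end Pool.Agent.H128.Fan
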