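import Pool.Agent.H128.Fan.Asm1

set_option autoImplicit false
set_option linter.unusedSectionVars false

/-! Complete simplicial fans: the filtration of the functions on the facets of a star. -/

namespace Pool.Agent.H128.Fan

open Pool.Agent.Helper611 Pool.Agent.Helper611.ZBase Pool.Agent.Helper611.KRel
  Pool.Agent.Helper611.KVal Pool.Agent.Helper611.UStr
  Pool.Agent.H252R2.Lef1 Pool.Agent.H252R2.Lef7
  Pool.Agent.H252R2.CDNum Pool.Agent.H252R2.Top2 Pool.Agent.H128.SRing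
open MvPolynomial Module Lem

variable {V : Type} [Fintype V] [LinearOrder V] {d : ℕ} {Γ : Cx V} {p : V → (Fin d → ℝ)}
  {φ : Finset V → V → Module.Dual ℝ (Fin d → ℝ)} {ξ : Fin d → ℝ} {τ : Finset V → ℝ}

lemma ev_apply (S : Cx V) (f : MvPolynomial V ℝ) (G : Fc S d) :
    ev S φ ξ f G = evg φ ξ G.1 f := by
  have h1 : ((Pi.evalAlgHom ℝ (fun _ : Fc S d => ℝ) G).comp (ev S φ ξ)) =
      aeval (fun v => if v ∈ G.1 then φ G.1 v ξ else 0) := by
    refine MvPolynomial.algHom_ext fun v => ?_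
    rw [AlgHom.comp_apply, aeval_X]
    unfold ev
    rw [aeval_X]
    rfl
  have h2 := AlgHom.congr_fun h1 f
  rw [AlgHom.comp_apply] at h2
  refine h2.trans ?_
  unfold evg
  rw [MvPolynomial.aeval_eq_eval]

lemma NN_lift {S : Cx V} {k : ℕ} {x : Rg S d ℝ} (hx : x ∈ NN S φ ξ k) :
    ∃ f : MvPolynomial V ℝ, f.IsHomogeneous k ∧ ev S φ ξ f = x := by
  unfold NN at hx
  induction hx using Submodule.span_induction with
  | mem x hx =>
    obtain ⟨m, hm, rfl⟩ := hx
    exact ⟨monomial m 1, isHomogeneous_monomial _ hm, by rw [ev_monomial, one_smul]⟩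
  | zero => exact ⟨0, isHomogeneous_zero _ _ _, map_zero _⟩
  | add a b _ _ ha hb =>
    obtain ⟨f, hf, rfl⟩ := ha
    obtain ⟨g, hg, rfl⟩ := hb
    exact ⟨f + g, hf.add hg, map_add _ _ _⟩
  | smul r a _ ha =>
    obtain ⟨f, hf, rfl⟩ := ha
    exact ⟨C r * f, by simpa using (isHomogeneous_C V r).mul hf, by
      rw [map_mul, Algebra.smul_def]
      congr 1
      unfold ev
      rw [aeval_C]⟩

/-- the weights of the star of `H` -/
noncomputable def om (Γ : Cx V) (φ : Finset V → V → Module.Dual ℝ (Fin d → ℝ)) (ξ : Fin d → ℝ)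
    (τ : Finset V → ℝ) (H : Finset V) (G : Fc (stc Γ H) d) : ℝ :=
  τ G.1 / ∏ v ∈ G.1 \ H, φ G.1 v ξ

lemma TH_add (H : Finset V) (f g : MvPolynomial V ℝ) :
    TH Γ φ ξ τ H (f + g) = TH Γ φ ξ τ H f + TH Γ φ ξ τ H g := by
  unfold TH
  rw [← Finset.sum_add_distrib]
  exact Finset.sum_congr rfl fun G _ => by rw [map_add, mul_add]

lemma TH_zero (H : Finset V) : TH Γ φ ξ τ H 0 = 0 := by
  unfold TH
  exact Finset.sum_eq_zero fun G _ => by rw [map_zero, mul_zero]

lemma TH_neg (H : Finset V) (f : MvPolynomial V ℝ) :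
    TH Γ φ ξ τ H (-f) = - TH Γ φ ξ τ H f := by
  have := TH_add (Γ := Γ) (φ := φ) (ξ := ξ) (τ := τ) H f (-f)
  rw [add_neg_cancel, TH_zero] at this
  linarith

lemma TH_sub (H : Finset V) (f g : MvPolynomial V ℝ) :
    TH Γ φ ξ τ H (f - g) = TH Γ φ ξ τ H f - TH Γ φ ξ τ H g := by
  rw [sub_eq_add_neg, TH_add, TH_neg, sub_eq_add_neg]

lemma TH_sum' {α : Type*} (H : Finset V) (s : Finset α) (f : α → MvPolynomial V ℝ) :
    TH Γ φ ξ τ H (∑ i ∈ s, f i) = ∑ i ∈ s, TH Γ φ ξ τ H (f i) := by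
  classical
  induction s using Finset.induction_on with
  | empty => rw [Finset.sum_empty, Finset.sum_empty, TH_zero]
  | insert a s ha ih => rw [Finset.sum_insert ha, Finset.sum_insert ha, TH_add, ih]

lemma evg_X (G : Finset V) (v : V) : evg φ ξ G (X v) = if v ∈ G then φ G v ξ else 0 := by
  unfold evg
  rw [eval_X]

lemma TH_eq (hz : Nz Γ φ ξ) (H : Finset V) (f : MvPolynomial V ℝ) :
    TH Γ φ ξ τ H f = TH Γ φ ξ τ ∅ ((∏ v ∈ H, X v) * f) := by
  unfold TH
  have h1 : Γ.faces.filter (fun G => G.card = d ∧ H ⊆ G) =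
      (Γ.faces.filter (fun G => G.card = d ∧ ∅ ⊆ G)).filter (fun G => H ⊆ G) := by
    ext G
    simp only [Finset.mem_filter, Finset.empty_subset, and_true]
    tauto
  rw [h1, Finset.sum_filter]
  refine Finset.sum_congr rfl fun G hG => ?_
  rw [Finset.mem_filter] at hG
  have h0 : ∀ v ∈ G, φ G v ξ ≠ 0 := fun v hv => hz G hG.1 hG.2.1 v hv
  rw [map_mul, map_prod, Finset.sdiff_empty]
  by_cases h : H ⊆ G
  · rw [if_pos h]
    have h2 : ∏ v ∈ H, evg φ ξ G (X v) = ∏ v ∈ H, φ G v ξ :=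
      Finset.prod_congr rfl fun v hv => by rw [evg_X, if_pos (h hv)]
    have h3 : (∏ v ∈ G \ H, φ G v ξ) * ∏ v ∈ H, φ G v ξ = ∏ v ∈ G, φ G v ξ :=
      Finset.prod_sdiff h
    have h4 : (∏ v ∈ H, φ G v ξ) ≠ 0 := Finset.prod_ne_zero_iff.2 fun v hv => h0 v (h hv)
    have h5 : (∏ v ∈ G \ H, φ G v ξ) ≠ 0 :=
      Finset.prod_ne_zero_iff.2 fun v hv => h0 v (Finset.mem_sdiff.1 hv).1
    rw [h2, ← h3]
    field_simp
  · rw [if_neg h]
    obtain ⟨v, hv, hv2⟩ := Finset.not_subset.1 h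
    have h2 : ∏ v ∈ H, evg φ ξ G (X v) = 0 := Finset.prod_eq_zero hv (by rw [evg_X, if_neg hv2])
    rw [h2, zero_mul, mul_zero]

lemma TH_insert (hz : Nz Γ φ ξ) {H : Finset V} {v : V} (hv : v ∉ H) (f : MvPolynomial V ℝ) :
    TH Γ φ ξ τ (insert v H) f = TH Γ φ ξ τ H (X v * f) := by
  rw [TH_eq hz, TH_eq hz H, Finset.prod_insert hv]
  congr 1
  ring

lemma XH_hom (H : Finset V) : (∏ v ∈ H, X v : MvPolynomial V ℝ).IsHomogeneous H.card := by
  rw [← monomial_ind]
  exact isHomogeneous_monomial _ (ind_degree H)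

variable {κ : Type} [Fintype κ] [DecidableEq κ]

/-- vector valued filtration -/
noncomputable def NV (κ : Type) (S : Cx V) (φ : Finset V → V → Module.Dual ℝ (Fin d → ℝ)) (ξ : Fin d → ℝ)
    (k : ℕ) : Submodule ℝ (Fc S d → κ → ℝ) where
  carrier := {F | ∀ i, (fun G => F G i) ∈ MM S φ ξ k}
  add_mem' := fun {a b} ha hb i => Submodule.add_mem _ (ha i) (hb i)
  zero_mem' := fun i => Submodule.zero_mem _
  smul_mem' := fun r a ha i => Submodule.smul_mem _ r (ha i)

lemma mem_NV {S : Cx V} {k : ℕ} {F : Fc S d → κ → ℝ} :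
    F ∈ NV κ S φ ξ k ↔ ∀ i, (fun G => F G i) ∈ MM S φ ξ k := Iff.rfl

/-- the operator -/
noncomputable def DV (S : Cx V) (φ : Finset V → V → Module.Dual ℝ (Fin d → ℝ)) (ξ : Fin d → ℝ)
    (M : Matrix κ κ (MvPolynomial V ℝ)) : (Fc S d → κ → ℝ) →ₗ[ℝ] (Fc S d → κ → ℝ) where
  toFun F G i := ∑ j, ev S φ ξ (M i j) G * F G j
  map_add' F F' := by
    funext G i
    simp only [Pi.add_apply, mul_add, Finset.sum_add_distrib]
  map_smul' r F := by
    funext G i
    simp only [Pi.smul_apply, smul_eq_mul, RingHom.id_apply, Finset.mul_sum]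
    exact Finset.sum_congr rfl fun j _ => by ring

/-- evaluation of vectors -/
noncomputable def evV (S : Cx V) (φ : Finset V → V → Module.Dual ℝ (Fin d → ℝ)) (ξ : Fin d → ℝ)
    (f : κ → MvPolynomial V ℝ) : Fc S d → κ → ℝ := fun G i => ev S φ ξ (f i) G

lemma evV_mul (S : Cx V) (M : Matrix κ κ (MvPolynomial V ℝ)) (f : κ → MvPolynomial V ℝ) :
    evV S φ ξ (M.mulVec f) = DV S φ ξ M (evV S φ ξ f) := by
  funext G i
  show ev S φ ξ (∑ j, M i j * f j) G = ∑ j, ev S φ ξ (M i j) G * ev S φ ξ (f j) G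
  rw [map_sum, Finset.sum_apply]
  exact Finset.sum_congr rfl fun j _ => by rw [map_mul]; rfl

lemma evV_mem {S : Cx V} {k : ℕ} {f : κ → MvPolynomial V ℝ} (hf : HomV k f) :
    evV S φ ξ f ∈ NV κ S φ ξ (k + 1) := fun i => by
  rw [MM_succ]
  exact ev_hom k _ (hf i)

lemma evV_memP {S : Cx V} {k : ℕ} {f : κ → MvPolynomial V ℝ}
    (hf : ∀ i, HomP k (f i)) : evV S φ ξ f ∈ NV κ S φ ξ k := by
  cases k with
  | zero =>
    have : evV S φ ξ f = 0 := by
      funext G i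
      show ev S φ ξ (f i) G = 0
      have h : f i = 0 := hf i
      rw [h, map_zero]
      rfl
    rw [this]
    exact Submodule.zero_mem _
  | succ k => exact evV_mem fun i => hf i

lemma evV_surj {S : Cx V} {k : ℕ} {F : Fc S d → κ → ℝ} (hF : F ∈ NV κ S φ ξ (k + 1)) :
    ∃ f, HomV k f ∧ evV S φ ξ f = F := by
  have h1 : ∀ i, ∃ f : MvPolynomial V ℝ, f.IsHomogeneous k ∧ ev S φ ξ f = fun G => F G i := by
    intro i
    have := hF i
    rw [MM_succ] at this
    exact NN_lift this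
  choose f hf1 hf2 using h1
  exact ⟨f, hf1, funext fun G => funext fun i => congrFun (hf2 i) G⟩

lemma evV_surjP {S : Cx V} {k : ℕ} {F : Fc S d → κ → ℝ} (hF : F ∈ NV κ S φ ξ k) :
    ∃ f : κ → MvPolynomial V ℝ, (∀ i, HomP k (f i)) ∧ evV S φ ξ f = F := by
  cases k with
  | zero =>
    refine ⟨0, fun i => rfl, ?_⟩
    funext G i
    have h1 := hF i
    rw [MM_zero, Submodule.mem_bot] at h1
    show ev S φ ξ 0 G = _
    rw [map_zero]
    exact (congrFun h1 G).symm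
  | succ k => exact evV_surj hF

lemma NV_finrank (S : Cx V) (k : ℕ) :
    finrank ℝ (NV κ S φ ξ k) = Fintype.card κ * finrank ℝ (MM S φ ξ k) := by
  let e : NV κ S φ ξ k ≃ₗ[ℝ] (κ → MM S φ ξ k) :=
    { toFun := fun F i => ⟨fun G => F.1 G i, F.2 i⟩
      map_add' := fun a b => rfl
      map_smul' := fun r a => rfl
      invFun := fun g => ⟨fun G i => (g i).1 G, fun i => (g i).2⟩
      left_inv := fun a => rfl
      right_inv := fun a => rfl }
  rw [e.finrank_eq, Module.finrank_pi_fintype, Finset.sum_const, Finset.card_univ, smul_eq_mul]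

end Pool.Agent.H128.Fan
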