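import Pool.Agent.H128.Fan.Asm2

set_option autoImplicit false
set_option linter.unusedSectionVars false

/-! Complete simplicial fans: the filtration and the duality. -/

namespace Pool.Agent.H128.Fan

open Pool.Agent.Helper611 Pool.Agent.Helper611.ZBase Pool.Agent.Helper611.KRel
  Pool.Agent.Helper611.KVal Pool.Agent.Helper611.UStr
  Pool.Agent.H252R2.Lef1 Pool.Agent.H252R2.Lef7
  Pool.Agent.H252R2.CDNum Pool.Agent.H252R2.Top2 Pool.Agent.H128.SRing
open MvPolynomial Module Lem

variable {V : Type} [Fintype V] [LinearOrder V] {d : ℕ} {Γ : Cx V} {p : V → (Fin d → ℝ)}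
  {φ : Finset V → V → Module.Dual ℝ (Fin d → ℝ)} {ξ : Fin d → ℝ} {τ : Finset V → ℝ}

lemma filter_card (hs : ∀ σ ∈ Γ.faces, σ.card ≤ d) {H : Finset V} (hH : H ∈ Γ.faces)
    (P : Finset V → Prop) [DecidablePred P] :
    (Finset.univ.filter fun G : Fc (stc Γ H) d => P G.1).card =
      ((Γ.faces.filter (fun G => G.card = d ∧ H ⊆ G)).filter P).card := by
  refine Finset.card_bij (fun G _ => G.1) ?_ ?_ ?_
  · intro G hG
    rw [Finset.mem_filter] at hG
    rw [Finset.mem_filter, Finset.mem_filter]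
    have := (stc_facet hs hH G.1).1 G.2
    exact ⟨⟨this.1, this.2⟩, hG.2⟩
  · intro G _ G' _ h
    exact Subtype.ext h
  · intro G hG
    rw [Finset.mem_filter, Finset.mem_filter] at hG
    exact ⟨⟨G, (stc_facet hs hH G).2 ⟨hG.1.1, hG.1.2⟩⟩, by
      rw [Finset.mem_filter]; exact ⟨Finset.mem_univ _, hG.2⟩, rfl⟩

lemma TH_sum (hs : ∀ σ ∈ Γ.faces, σ.card ≤ d) {H : Finset V} (hH : H ∈ Γ.faces)
    (f : MvPolynomial V ℝ) :
    TH Γ φ ξ τ H f = ∑ G : Fc (stc Γ H) d, om Γ φ ξ τ H G * ev (stc Γ H) φ ξ f G := by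
  unfold TH
  symm
  refine Finset.sum_bij (fun G _ => G.1) ?_ ?_ ?_ ?_
  · intro G _
    rw [Finset.mem_filter]
    have := (stc_facet hs hH G.1).1 G.2
    exact ⟨this.1, this.2⟩
  · intro G _ G' _ h
    exact Subtype.ext h
  · intro G hG
    rw [Finset.mem_filter] at hG
    exact ⟨⟨G, (stc_facet hs hH G).2 ⟨hG.1, hG.2⟩⟩, Finset.mem_univ _, rfl⟩
  · intro G _
    rw [ev_apply]
    rfl

lemma neg_le (H G : Finset V) : neg φ ξ H G ≤ (G \ H).card := by
  unfold neg
  exact Finset.card_filter_le _ _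

lemma neg_add (hz : Nz Γ φ ξ) {H G : Finset V} (hG : G ∈ Γ.faces) (hc : G.card = d) :
    neg φ ξ H G + neg φ (-ξ) H G = (G \ H).card := by
  classical
  unfold neg
  rw [← Finset.card_filter_add_card_filter_not (s := G \ H) (fun v => φ G v ξ < 0)]
  congr 1
  refine congrArg Finset.card (Finset.filter_congr fun v hv => ?_)
  rw [map_neg, Left.neg_neg_iff, not_lt]
  have := hz G hG hc v (Finset.mem_sdiff.1 hv).1
  exact ⟨fun h => h.le, fun h => lt_of_le_of_ne h (Ne.symm this)⟩

namespace FanData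
variable (h : FanData Γ p φ ξ τ)
include h

lemma cnt {H : Finset V} (hH : H ∈ Γ.faces) (k : ℕ) (hk : k ≤ d) :
    ((Finset.univ.filter fun G : Fc (stc Γ H) d => neg φ ξ H G.1 = k).card : ℤ) =
      hn d (fnum (stc Γ H)) k := by
  rw [filter_card h.small hH fun G => neg φ ξ H G = k]
  exact count h.small h.C h.nz H hH k hk

lemma cnt_zero {H : Finset V} (hH : H ∈ Γ.faces) (k : ℕ) (hk : k ≤ d) (hk2 : d < k + H.card) :
    hn d (fnum (stc Γ H)) k = 0 := by
  rw [← h.cnt hH k hk, Nat.cast_eq_zero, Finset.card_eq_zero, Finset.filter_eq_empty_iff]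
  intro G _ h1
  have h2 := (stc_facet h.small hH G.1).1 G.2
  have h3 := neg_le (φ := φ) (ξ := ξ) H G.1
  rw [Finset.card_sdiff_of_subset h2.2.2, h2.2.1] at h3
  have := h.hd
  have := h.small H hH
  have h4 : 0 < H.card ∨ H.card = 0 := by omega
  omega

lemma cnt_symm {H : Finset V} (hH : H ∈ Γ.faces) (k : ℕ) (hk : k + H.card ≤ d) :
    hn d (fnum (stc Γ H)) k = hn d (fnum (stc Γ H)) (d - H.card - k) := by
  classical
  rw [← h.cnt hH k (by omega), ← count h.small h.Cn h.nzn H hH (d - H.card - k) (by omega),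
    ← filter_card h.small hH fun G => neg φ (-ξ) H G = d - H.card - k]
  congr 2
  refine Finset.filter_congr fun G _ => ?_
  have h2 := (stc_facet h.small hH G.1).1 G.2
  have h3 := neg_add h.nz (H := H) h2.1 h2.2.1
  rw [Finset.card_sdiff_of_subset h2.2.2, h2.2.1] at h3
  omega

lemma xi_ne : ξ ≠ 0 := by
  rintro rfl
  obtain ⟨G, ⟨h1, h2, -⟩, -⟩ := h.C ∅ Γ.empty_mem
  have := h.hd
  obtain ⟨v, hv⟩ := Finset.card_pos.1 (show 0 < G.card by omega)
  exact h.nz G h1 h2 v hv (map_zero _)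

lemma om_ne {H : Finset V} (hH : H ∈ Γ.faces) (G : Fc (stc Γ H) d) : om Γ φ ξ τ H G ≠ 0 := by
  have h2 := (stc_facet h.small hH G.1).1 G.2
  exact div_ne_zero (h.pos _ h2.1 h2.2.1).ne' (Finset.prod_ne_zero_iff.2 fun v hv =>
    h.nz _ h2.1 h2.2.1 v (Finset.mem_sdiff.1 hv).1)

lemma TH_low {H : Finset V} {k : ℕ} (hk : k + H.card < d) {f : MvPolynomial V ℝ}
    (hf : f.IsHomogeneous k) : TH Γ φ ξ τ H f = 0 := by
  rw [TH_eq h.nz]
  exact h.van (H.card + k) (by omega) _ ((XH_hom H).mul hf)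

lemma TH_ev {H : Finset V} (hH : H ∈ Γ.faces) {k : ℕ} (hk : k + H.card ≤ d)
    {f : MvPolynomial V ℝ} (hf : ev (stc Γ H) φ ξ f ∈ MM (stc Γ H) φ ξ k) :
    TH Γ φ ξ τ H f = 0 := by
  cases k with
  | zero =>
    rw [MM_zero, Submodule.mem_bot] at hf
    rw [TH_sum h.small hH, hf]
    exact Finset.sum_eq_zero fun G _ => by rw [Pi.zero_apply, mul_zero]
  | succ k =>
    rw [MM_succ] at hf
    obtain ⟨g, hg, hg2⟩ := NN_lift hf
    rw [TH_sum h.small hH, ← hg2, ← TH_sum h.small hH]
    exact h.TH_low (by omega) hg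

lemma TH_JJ {H : Finset V} (hH : H ∈ Γ.faces) {k : ℕ} (hk : k + H.card ≤ d)
    {f : MvPolynomial V ℝ} (hf : f.IsHomogeneous k) (hJ : f ∈ JJ (stc Γ H) p) :
    TH Γ φ ξ τ H f = 0 := by
  refine h.TH_ev hH hk ?_
  have h2 := ev_J (e := ξ) (stc_coord h.coord H) _ hJ k
  rwa [homogeneousComponent_eq_self hf] at h2

lemma ortho {H : Finset V} (hH : H ∈ Γ.faces) (a b : ℕ) (hab : a + b = d - H.card + 1)
    (x y : Rg (stc Γ H) d ℝ) (hx : x ∈ MM (stc Γ H) φ ξ a) (hy : y ∈ MM (stc Γ H) φ ξ b) :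
    ∑ G, om Γ φ ξ τ H G * (x G * y G) = 0 := by
  cases a with
  | zero =>
    rw [MM_zero, Submodule.mem_bot] at hx
    subst hx
    exact Finset.sum_eq_zero fun G _ => by rw [Pi.zero_apply, zero_mul, mul_zero]
  | succ a =>
    cases b with
    | zero =>
      rw [MM_zero, Submodule.mem_bot] at hy
      subst hy
      exact Finset.sum_eq_zero fun G _ => by rw [Pi.zero_apply, mul_zero, mul_zero]
    | succ b =>
      rw [MM_succ] at hx hy
      obtain ⟨f, hf, rfl⟩ := NN_lift hx
      obtain ⟨g, hg, rfl⟩ := NN_lift hy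
      have h1 := h.TH_low (H := H) (k := a + b) (by
        have := h.small H hH
        omega) (hf.mul hg)
      rw [TH_sum h.small hH, map_mul] at h1
      exact h1

lemma MM_dims {H : Finset V} (hH : H ∈ Γ.faces) (a b : ℕ) (hab : a + b = d - H.card + 1) :
    finrank ℝ (MM (stc Γ H) φ ξ a) + finrank ℝ (MM (stc Γ H) φ ξ b) =
      Fintype.card (Fc (stc Γ H) d) := by
  obtain ⟨h1, h2, h3, h4, h5⟩ := h.star hH
  have hHd := h.small H hH
  have ha := h3 a (by omega)
  have hb := h3 b (by omega)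
  have e1 : ∑ j ∈ Finset.range b, hn d (fnum (stc Γ H)) j =
      ∑ j ∈ Finset.Ico a (d - H.card + 1), hn d (fnum (stc Γ H)) j := by
    rw [Finset.sum_Ico_eq_sum_range, show d - H.card + 1 - a = b by omega,
      ← Finset.sum_range_reflect]
    refine Finset.sum_congr rfl fun j hj => ?_
    have := Finset.mem_range.1 hj
    rw [h.cnt_symm hH (b - 1 - j) (by omega)]
    congr 1
    omega
  have e2 : ∑ j ∈ Finset.Ico (d - H.card + 1) (d + 1), hn d (fnum (stc Γ H)) j = 0 := by
    refine Finset.sum_eq_zero fun j hj => ?_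
    have := Finset.mem_Ico.1 hj
    exact h.cnt_zero hH j (by omega) (by omega)
  have e3 : (Fintype.card (Fc (stc Γ H) d) : ℤ) =
      ∑ j ∈ Finset.range (d + 1), hn d (fnum (stc Γ H)) j := by
    rw [← h4]
    push_cast
    exact Finset.sum_congr rfl fun j hj => h1 j (by have := Finset.mem_range.1 hj; omega)
  have e4 : (finrank ℝ (MM (stc Γ H) φ ξ a) : ℤ) + finrank ℝ (MM (stc Γ H) φ ξ b) =
      (Fintype.card (Fc (stc Γ H) d) : ℤ) := by
    rw [ha, hb, e1, Finset.sum_range_add_sum_Ico _ (by omega), e3,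
      ← Finset.sum_range_add_sum_Ico _ (show d - H.card + 1 ≤ d + 1 by omega), e2, add_zero]
  exact_mod_cast e4

variable {κ : Type} [Fintype κ] [DecidableEq κ]

theorem fd {M : Matrix κ κ (MvPolynomial V ℝ)} (hM : Cl Γ p M) {H : Finset V} (hH : H ∈ Γ.faces) :
    FD (om Γ φ ξ τ H) (d - H.card) (DV (stc Γ H) φ ξ M) (NV κ (stc Γ H) φ ξ) where
  hω := h.om_ne hH
  zero := by
    rw [eq_bot_iff]
    intro F hF
    rw [Submodule.mem_bot]
    funext G i
    have h1 := hF i
    rw [MM_zero, Submodule.mem_bot] at h1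
    exact congrFun h1 G
  mono k F hF i := MM_step (stc_coord h.coord H) h.xi_ne k (hF i)
  adj F F' := by
    unfold qf
    refine Finset.sum_congr rfl fun G _ => ?_
    congr 1
    show ∑ i, (∑ j, ev (stc Γ H) φ ξ (M i j) G * F G j) * F' G i =
      ∑ i, F G i * ∑ j, ev (stc Γ H) φ ξ (M i j) G * F' G j
    simp only [Finset.sum_mul, Finset.mul_sum]
    rw [Finset.sum_comm]
    refine Finset.sum_congr rfl fun i _ => Finset.sum_congr rfl fun j _ => ?_
    have : M i j = M j i := by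
      have := congrFun (congrFun hM.symm j) i
      exact this
    rw [this]
    ring
  step k F hF i := by
    have h1 : (fun G => DV (stc Γ H) φ ξ M F G i) =
        ∑ j, ev (stc Γ H) φ ξ (M i j) * (fun G => F G j) := by
      funext G
      rw [Finset.sum_apply]
      rfl
    rw [h1]
    refine Submodule.sum_mem _ fun j _ => ?_
    have h2 := MM_mul 1 k _ _ (ev_hom (e := ξ) (Γ := stc Γ H) (φ := φ) 1 _ (hM.hom i j)) (hF j)
    rwa [add_comm] at h2
  sq k F hF i := by
    obtain ⟨q, hq, hq2, hq3⟩ := hM.sq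
    have h0 : ev (stc Γ H) φ ξ q ∈ NN (stc Γ H) φ ξ 1 := by
      have h2 := ev_J (e := ξ) (stc_coord h.coord H) _ (JJ_stc H hq) 2
      rwa [homogeneousComponent_eq_self hq2, MM_succ] at h2
    have h1 : (fun G => DV (stc Γ H) φ ξ M (DV (stc Γ H) φ ξ M F) G i) =
        ev (stc Γ H) φ ξ q * (fun G => F G i) := by
      funext G
      show ∑ j, ev (stc Γ H) φ ξ (M i j) G * (∑ l, ev (stc Γ H) φ ξ (M j l) G * F G l) =
        ev (stc Γ H) φ ξ q G * F G i
      have h3 : ∀ l, ∑ j, ev (stc Γ H) φ ξ (M i j) G * ev (stc Γ H) φ ξ (M j l) G =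
          if i = l then ev (stc Γ H) φ ξ q G else 0 := by
        intro l
        have h4 := congrFun (congrFun hq3 i) l
        rw [Matrix.mul_apply, Matrix.smul_apply, Matrix.one_apply] at h4
        have h5 := congrArg (fun f => ev (stc Γ H) φ ξ f G) h4
        simp only [map_sum, map_mul, Finset.sum_apply, Pi.mul_apply] at h5
        rw [h5]
        split_ifs
        · rw [smul_eq_mul, mul_one]
        · rw [smul_zero, map_zero]; rfl
      simp only [Finset.mul_sum, ← mul_assoc]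
      rw [Finset.sum_comm]
      simp only [← Finset.sum_mul, h3]
      simp
    rw [h1]
    have h2 := MM_mul 1 k _ _ h0 (hF i)
    rwa [add_comm] at h2
  perp a b hab F := by
    constructor
    · intro h1 i
      refine perp_of_dim (om Γ φ ξ τ H) (h.om_ne hH) _ (MM (stc Γ H) φ ξ a)
        (fun u hu w hw => h.ortho hH b a (by omega) u w hu hw)
        (h.MM_dims hH b a (by omega)) _ fun w hw => ?_
      have h2 := h1 (fun G j => if j = i then w G else 0) (by
        intro j
        by_cases hj : j = i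
        · simpa only [if_pos hj] using hw
        · simp only [if_neg hj]
          exact Submodule.zero_mem _)
      unfold qf at h2
      rw [← h2]
      refine Finset.sum_congr rfl fun G _ => ?_
      simp
    · intro h1 F' h2
      unfold qf
      simp only [Finset.mul_sum]
      rw [Finset.sum_comm]
      exact Finset.sum_eq_zero fun i _ => h.ortho hH b a (by omega) _ _ (h1 i) (h2 i)

end FanData

end Pool.Agent.H128.Fan
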