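import Pool.Agent.H128.Fan.Asm3

set_option autoImplicit false
set_option linter.unusedSectionVars false

/-! Complete simplicial fans: the main induction. -/

namespace Pool.Agent.H128.Fan

open Pool.Agent.Helper611 Pool.Agent.Helper611.ZBase Pool.Agent.Helper611.KRel
  Pool.Agent.Helper611.KVal Pool.Agent.Helper611.UStr
  Pool.Agent.H252R2.Lef1 Pool.Agent.H252R2.Lef7
  Pool.Agent.H252R2.CDNum Pool.Agent.H252R2.Top2 Pool.Agent.H128.SRing
open MvPolynomial Module Lem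

variable {V : Type} [Fintype V] [LinearOrder V] {d : ℕ} {Γ : Cx V} {p : V → (Fin d → ℝ)}
  {φ : Finset V → V → Module.Dual ℝ (Fin d → ℝ)} {ξ : Fin d → ℝ} {τ : Finset V → ℝ}
variable {κ : Type} [Fintype κ] [DecidableEq κ]

/-- exactness above the middle -/
def Above (Γ : Cx V) (p : V → (Fin d → ℝ)) (M : Matrix κ κ (MvPolynomial V ℝ)) (H : Finset V) : Prop :=
  ∀ k, d < 2 * k + H.card → Col Γ p M H k

/-- definiteness in the middle -/
def DefH (Γ : Cx V) (p : V → (Fin d → ℝ)) (φ : Finset V → V → Module.Dual ℝ (Fin d → ℝ))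
    (ξ : Fin d → ℝ) (τ : Finset V → ℝ) (M : Matrix κ κ (MvPolynomial V ℝ)) (H : Finset V) : Prop :=
  ∀ m, d = 2 * m + H.card → ∀ f : κ → MvPolynomial V ℝ, HomV m f → Cyc Γ p M H f →
    0 ≤ (-1 : ℝ) ^ m * TH Γ φ ξ τ H (∑ i, f i ^ 2) ∧
    (TH Γ φ ξ τ H (∑ i, f i ^ 2) = 0 → Bdry Γ p M H m f)

lemma mulVec_hom {M : Matrix κ κ (MvPolynomial V ℝ)} (hM : Cl Γ p M) {k : ℕ}
    {f : κ → MvPolynomial V ℝ} (hf : HomV k f) : HomV (k + 1) (M.mulVec f) := by
  intro i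
  show (∑ j, M i j * f j).IsHomogeneous (k + 1)
  refine IsHomogeneous.sum _ _ _ fun j _ => ?_
  have := (hM.hom i j).mul (hf j)
  rwa [add_comm] at this

lemma mulVec_homP {M : Matrix κ κ (MvPolynomial V ℝ)} (hM : Cl Γ p M) {k : ℕ}
    {g : κ → MvPolynomial V ℝ} (hg : ∀ i, HomP k (g i)) : HomV k (M.mulVec g) := by
  cases k with
  | zero =>
    have h1 : g = 0 := funext fun i => hg i
    intro i
    rw [h1, Matrix.mulVec_zero]
    exact isHomogeneous_zero _ _ _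
  | succ k => exact mulVec_hom hM fun i => hg i

lemma XmulVec (M : Matrix κ κ (MvPolynomial V ℝ)) (v : V) (f : κ → MvPolynomial V ℝ) (i : κ) :
    M.mulVec (fun j => X v * f j) i = X v * M.mulVec f i := by
  show ∑ j, M i j * (X v * f j) = X v * ∑ j, M i j * f j
  rw [Finset.mul_sum]
  exact Finset.sum_congr rfl fun j _ => by ring

lemma sum_mulVec {α : Type*} (M : Matrix κ κ (MvPolynomial V ℝ)) (s : Finset α)
    (f : α → κ → MvPolynomial V ℝ) (i : κ) :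
    M.mulVec (fun j => ∑ a ∈ s, f a j) i = ∑ a ∈ s, M.mulVec (f a) i := by
  show ∑ j, M i j * ∑ a ∈ s, f a j = ∑ a ∈ s, ∑ j, M i j * f a j
  simp only [Finset.mul_sum]
  rw [Finset.sum_comm]

lemma dot_symm' {M : Matrix κ κ (MvPolynomial V ℝ)} (hM : M.transpose = M)
    (f g : κ → MvPolynomial V ℝ) : ∑ i, f i * M.mulVec g i = ∑ i, M.mulVec f i * g i := by
  show ∑ i, f i * ∑ j, M i j * g j = ∑ i, (∑ j, M i j * f j) * g i
  simp only [Finset.mul_sum, Finset.sum_mul]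
  rw [Finset.sum_comm]
  refine Finset.sum_congr rfl fun i _ => Finset.sum_congr rfl fun j _ => ?_
  have : M i j = M j i := congrFun (congrFun hM j) i
  rw [this]
  ring

/-- the homotopy formula -/
lemma X_dot {M : Matrix κ κ (MvPolynomial V ℝ)} (hM : Cl Γ p M) (v : V) :
    ∃ u : Matrix κ κ (MvPolynomial V ℝ), (∀ i j, (u i j).IsHomogeneous 0) ∧
      ∀ f : κ → MvPolynomial V ℝ, X v * ∑ i, f i ^ 2 = ∑ i, M.mulVec f i * u.mulVec f i := by
  obtain ⟨u, hu, h1⟩ := hM.anti v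
  refine ⟨u.map C, fun i j => isHomogeneous_C V _, fun f => ?_⟩
  have hu' : (u.map (C : ℝ → MvPolynomial V ℝ)).transpose = u.map C := by
    rw [← Matrix.transpose_map, hu]
  have h2 : ∑ i, f i * (M * u.map C + u.map C * M).mulVec f i = 2 * (X v * ∑ i, f i ^ 2) := by
    rw [h1]
    have : ∀ i, ((2 * X v : MvPolynomial V ℝ) • (1 : Matrix κ κ (MvPolynomial V ℝ))).mulVec f i =
        2 * X v * f i := by
      intro i
      rw [Matrix.smul_mulVec, Matrix.one_mulVec]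
      rfl
    simp only [this, Finset.mul_sum]
    exact Finset.sum_congr rfl fun i _ => by ring
  have h3 : ∀ i, (M * u.map C + u.map C * M).mulVec f i =
      M.mulVec ((u.map C).mulVec f) i + (u.map C).mulVec (M.mulVec f) i := by
    intro i
    rw [Matrix.add_mulVec, Pi.add_apply, Matrix.mulVec_mulVec, Matrix.mulVec_mulVec]
  simp only [h3, mul_add, Finset.sum_add_distrib] at h2
  rw [dot_symm' hM.symm f ((u.map C).mulVec f), dot_symm' hu' f (M.mulVec f)] at h2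
  have h4 : ∑ i, (u.map C).mulVec f i * M.mulVec f i = ∑ i, M.mulVec f i * (u.map C).mulVec f i :=
    Finset.sum_congr rfl fun i _ => mul_comm _ _
  rw [h4, ← two_mul] at h2
  exact (mul_left_cancel₀ two_ne_zero h2).symm

namespace FanData
variable (h : FanData Γ p φ ξ τ)
include h

lemma evV_JJ {H : Finset V} {k : ℕ} {f : κ → MvPolynomial V ℝ}
    (hf : HomV k f) (hJ : ∀ i, f i ∈ JJ (stc Γ H) p) :
    evV (stc Γ H) φ ξ f ∈ NV κ (stc Γ H) φ ξ k := fun i => by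
  have h2 := ev_J (e := ξ) (stc_coord h.coord H) _ (hJ i) k
  rwa [homogeneousComponent_eq_self (hf i)] at h2

lemma JJ_evV {H : Finset V} (hH : H ∈ Γ.faces) {k : ℕ} {f : κ → MvPolynomial V ℝ}
    (hf : HomV k f) (hJ : evV (stc Γ H) φ ξ f ∈ NV κ (stc Γ H) φ ξ k) (i : κ) :
    f i ∈ JJ (stc Γ H) p := (h.star hH).2.2.2.2 k _ (hf i) (hJ i)

lemma bdry_of {M : Matrix κ κ (MvPolynomial V ℝ)} (hM : Cl Γ p M) {H : Finset V} (hH : H ∈ Γ.faces)
    {k : ℕ} {f : κ → MvPolynomial V ℝ} (hf : HomV k f)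
    (h1 : evV (stc Γ H) φ ξ f ∈ NV κ (stc Γ H) φ ξ k ⊔
      (NV κ (stc Γ H) φ ξ k).map (DV (stc Γ H) φ ξ M)) : Bdry Γ p M H k f := by
  obtain ⟨F1, hF1, _, ⟨F2, hF2, rfl⟩, h2⟩ := Submodule.mem_sup.1 h1
  obtain ⟨g, hg, rfl⟩ := evV_surjP hF2
  refine ⟨g, hg, fun i => ?_⟩
  refine h.JJ_evV hH (f := fun i => f i - M.mulVec g i) (fun i => (hf i).sub (mulVec_homP hM hg i)) ?_ i
  have h3 : evV (stc Γ H) φ ξ (fun i => f i - M.mulVec g i) = F1 := by
    have h4 : evV (stc Γ H) φ ξ (fun i => f i - M.mulVec g i) =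
        evV (stc Γ H) φ ξ f - evV (stc Γ H) φ ξ (M.mulVec g) := by
      funext G i
      show ev (stc Γ H) φ ξ (f i - M.mulVec g i) G = _
      rw [map_sub]
      rfl
    rw [h4, evV_mul, ← h2]
    exact add_sub_cancel_right _ _
  rw [h3]
  exact hF1

lemma of_bdry {M : Matrix κ κ (MvPolynomial V ℝ)} (hM : Cl Γ p M) {H : Finset V}
    {k : ℕ} {f : κ → MvPolynomial V ℝ} (hf : HomV k f) (h1 : Bdry Γ p M H k f) :
    evV (stc Γ H) φ ξ f ∈ NV κ (stc Γ H) φ ξ k ⊔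
      (NV κ (stc Γ H) φ ξ k).map (DV (stc Γ H) φ ξ M) := by
  obtain ⟨g, hg, h2⟩ := h1
  have h4 : evV (stc Γ H) φ ξ f = evV (stc Γ H) φ ξ (fun i => f i - M.mulVec g i) +
      DV (stc Γ H) φ ξ M (evV (stc Γ H) φ ξ g) := by
    rw [← evV_mul]
    funext G i
    show _ = ev (stc Γ H) φ ξ (f i - M.mulVec g i) G + ev (stc Γ H) φ ξ (M.mulVec g i) G
    rw [map_sub, Pi.sub_apply, sub_add_cancel]
    rfl
  rw [h4]
  refine Submodule.add_mem_sup ?_ ⟨_, evV_memP hg, rfl⟩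
  exact h.evV_JJ (f := fun i => f i - M.mulVec g i) (fun i => (hf i).sub (mulVec_homP hM hg i)) h2

lemma cyc_of {M : Matrix κ κ (MvPolynomial V ℝ)} (hM : Cl Γ p M) {H : Finset V} (hH : H ∈ Γ.faces)
    {k : ℕ} {f : κ → MvPolynomial V ℝ} (hf : HomV k f)
    (h1 : DV (stc Γ H) φ ξ M (evV (stc Γ H) φ ξ f) ∈ NV κ (stc Γ H) φ ξ (k + 1)) :
    Cyc Γ p M H f := by
  rw [← evV_mul] at h1
  exact fun i => h.JJ_evV hH (mulVec_hom hM hf) h1 i

lemma of_cyc {M : Matrix κ κ (MvPolynomial V ℝ)} (hM : Cl Γ p M) {H : Finset V}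
    {k : ℕ} {f : κ → MvPolynomial V ℝ} (hf : HomV k f) (h1 : Cyc Γ p M H f) :
    DV (stc Γ H) φ ξ M (evV (stc Γ H) φ ξ f) ∈ NV κ (stc Γ H) φ ξ (k + 1) := by
  rw [← evV_mul]
  exact h.evV_JJ (mulVec_hom hM hf) h1

lemma qf_ev {H : Finset V} (hH : H ∈ Γ.faces) (f g : κ → MvPolynomial V ℝ) :
    qf (om Γ φ ξ τ H) (evV (stc Γ H) φ ξ f) (evV (stc Γ H) φ ξ g) =
      TH Γ φ ξ τ H (∑ i, f i * g i) := by
  rw [TH_sum h.small hH]
  unfold qf
  refine Finset.sum_congr rfl fun G _ => ?_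
  rw [map_sum, Finset.sum_apply]
  congr 1
  refine Finset.sum_congr rfl fun i _ => ?_
  rw [map_mul]
  rfl

lemma om_sign {H : Finset V} (hH : H ∈ Γ.faces) (G : Fc (stc Γ H) d) :
    0 < (-1 : ℝ) ^ neg φ ξ H G.1 * om Γ φ ξ τ H G := by
  classical
  have h2 := (stc_facet h.small hH G.1).1 G.2
  have h3 : 0 < τ G.1 := h.pos _ h2.1 h2.2.1
  have key : ∀ s : Finset V, (∀ v ∈ s, φ G.1 v ξ ≠ 0) →
      0 < (-1 : ℝ) ^ (s.filter fun v => φ G.1 v ξ < 0).card * ∏ v ∈ s, φ G.1 v ξ := by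
    intro s
    induction s using Finset.induction_on with
    | empty => intro _; simp
    | insert a s ha ih =>
      intro hs
      have h4 := ih fun v hv => hs v (Finset.mem_insert_of_mem hv)
      have h5 := hs a (Finset.mem_insert_self a s)
      rw [Finset.filter_insert, Finset.prod_insert ha]
      by_cases h6 : φ G.1 a ξ < 0
      · rw [if_pos h6, Finset.card_insert_of_notMem (fun h => ha (Finset.mem_filter.1 h).1), pow_succ]
        nlinarith
      · rw [if_neg h6]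
        have h7 : 0 < φ G.1 a ξ := lt_of_le_of_ne (not_lt.1 h6) (Ne.symm h5)
        nlinarith
  have h4 := key (G.1 \ H) fun v hv => h.nz _ h2.1 h2.2.1 v (Finset.mem_sdiff.1 hv).1
  have h5 : (-1 : ℝ) ^ neg φ ξ H G.1 = (-1 : ℝ) ^ ((G.1 \ H).filter fun v => φ G.1 v ξ < 0).card := by
    unfold neg
    congr
  unfold om
  rw [h5]
  set a := (-1 : ℝ) ^ ((G.1 \ H).filter fun v => φ G.1 v ξ < 0).card with ha
  have h6 : a * a = 1 := by
    rw [ha, ← mul_pow]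
    norm_num
  set b := ∏ v ∈ G.1 \ H, φ G.1 v ξ with hb
  have h7 : b ≠ 0 := by
    rintro h8
    rw [h8, mul_zero] at h4
    exact lt_irrefl _ h4
  have h8 : a * (τ G.1 / b) = τ G.1 * (a * b) / (b * b) := by
    field_simp
  rw [h8]
  exact div_pos (mul_pos h3 h4) (mul_self_pos.2 h7)

end FanData

end Pool.Agent.H128.Fan
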