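import Pool.Agent.H128.Fan.Asm4

set_option autoImplicit false
set_option linter.unusedSectionVars false

/-! Complete simplicial fans: the main induction. -/

namespace Pool.Agent.H128.Fan

open Pool.Agent.Helper611 Pool.Agent.Helper611.ZBase Pool.Agent.Helper611.KRel
  Pool.Agent.Helper611.KVal Pool.Agent.Helper611.UStr
  Pool.Agent.H252R2.Lef1 Pool.Agent.H252R2.Lef7
  Pool.Agent.H252R2.CDNum Pool.Agent.H252R2.Top2 Pool.Agent.H128.SRing
open MvPolynomial Module Lem

variable {V : Type} [Fintype V] [LinearOrder V] {d : ℕ} {Γ : Cx V} {p : V → (Fin d → ℝ)}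
  {φ : Finset V → V → Module.Dual ℝ (Fin d → ℝ)} {ξ : Fin d → ℝ} {τ : Finset V → ℝ}
variable {κ : Type} [Fintype κ] [DecidableEq κ]

lemma homP_hom {k : ℕ} {g : MvPolynomial V ℝ} (h : HomP k g) (v : V) :
    HomP (k + 1) (X v * g) := by
  cases k with
  | zero =>
    have h1 : g = 0 := h
    rw [h1, mul_zero]
    exact isHomogeneous_zero _ _ _
  | succ k =>
    have h1 : g.IsHomogeneous k := h
    have := (isHomogeneous_X ℝ v).mul h1
    rwa [add_comm] at this

namespace FanData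
variable (h : FanData Γ p φ ξ τ)
include h

/-- the special middle case -/
lemma odd_step {M : Matrix κ κ (MvPolynomial V ℝ)} (hM : Cl Γ p M) {H : Finset V} (hH : H ∈ Γ.faces)
    (k : ℕ) (hk : d = 2 * k + 1 + H.card)
    (hdef : ∀ v, v ∉ H → insert v H ∈ Γ.faces → DefH Γ p φ ξ τ M (insert v H))
    (f : κ → MvPolynomial V ℝ) (hf : HomV (k + 1) f)
    (F : V → κ → MvPolynomial V ℝ) (hF1 : ∀ v, HomV k (F v))
    (hF2 : ∀ v, v ∉ H → insert v H ∈ Γ.faces → Cyc Γ p M (insert v H) (F v))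
    (hF3 : ∀ i, f i - ∑ v ∈ Hᶜ, X v * F v i ∈ JJ (stc Γ H) p) : Bdry Γ p M H (k + 1) f := by
  refine h.bdry_of hM hH hf ?_
  have hcard : ∀ v, v ∉ H → (insert v H).card = H.card + 1 := fun v hv =>
    Finset.card_insert_of_notMem hv
  refine perp_bdry (h.fd hM hH) k (k + 1) (by omega) _ fun F' hF' hDF' => ?_
  obtain ⟨f', hf', rfl⟩ := evV_surj hF'
  have hc' : Cyc Γ p M H f' := h.cyc_of hM hH hf' hDF'
  rw [h.qf_ev hH]
  have e1 : ∑ i, f i * f' i = ∑ i, (f i - ∑ v ∈ Hᶜ, X v * F v i) * f' i +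
      ∑ v ∈ Hᶜ, X v * ∑ i, F v i * f' i := by
    have e2 : ∑ v ∈ Hᶜ, X v * ∑ i, F v i * f' i = ∑ i, (∑ v ∈ Hᶜ, X v * F v i) * f' i := by
      simp only [Finset.mul_sum, Finset.sum_mul]
      rw [Finset.sum_comm]
      exact Finset.sum_congr rfl fun i _ => Finset.sum_congr rfl fun v _ => by ring
    rw [e2, ← Finset.sum_add_distrib]
    exact Finset.sum_congr rfl fun i _ => by ring
  have hfh : ∀ i, (∑ v ∈ Hᶜ, X v * F v i : MvPolynomial V ℝ).IsHomogeneous (k + 1) := fun i =>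
    IsHomogeneous.sum _ _ _ fun v _ => by
      have := (isHomogeneous_X ℝ v).mul (hF1 v i)
      rwa [add_comm] at this
  rw [e1, TH_add]
  have e3 : TH Γ φ ξ τ H (∑ i, (f i - ∑ v ∈ Hᶜ, X v * F v i) * f' i) = 0 := by
    refine h.TH_JJ hH (k := 2 * k + 1) (by omega) ?_ ?_
    · refine IsHomogeneous.sum _ _ _ fun i _ => ?_
      have := ((hf i).sub (hfh i)).mul (hf' i)
      rwa [show k + 1 + k = 2 * k + 1 by ring] at this
    · exact Ideal.sum_mem _ fun i _ => Ideal.mul_mem_right _ _ (hF3 i)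
  rw [e3, zero_add, TH_sum']
  refine Finset.sum_eq_zero fun v hv => ?_
  have hv := Finset.mem_compl.1 hv
  have hg : (∑ i, F v i * f' i : MvPolynomial V ℝ).IsHomogeneous (2 * k) :=
    IsHomogeneous.sum _ _ _ fun i _ => by
      have := (hF1 v i).mul (hf' i)
      rwa [← two_mul] at this
  by_cases hvH : insert v H ∈ Γ.faces
  swap
  · refine h.TH_JJ hH (k := 2 * k + 1) (by omega) ?_ (Ideal.mul_mem_right _ _ (X_JJ hH hvH p))
    have := (isHomogeneous_X ℝ v).mul hg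
    rwa [add_comm] at this
  rw [← TH_insert h.nz hv]
  have hc2 : Cyc Γ p M (insert v H) f' := fun i =>
    JJ_stc_mono hvH (Finset.subset_insert _ _) (hc' i)
  obtain ⟨-, h2⟩ := hdef v hv hvH k (by rw [hcard v hv]; omega) f' hf' hc2
  have e4 : TH Γ φ ξ τ (insert v H) (∑ i, f' i ^ 2) = 0 := by
    rw [TH_insert h.nz hv]
    obtain ⟨u, hu1, hu2⟩ := X_dot hM v
    rw [hu2]
    refine h.TH_JJ hH (k := 2 * k + 1) (by omega) ?_ ?_
    · refine IsHomogeneous.sum _ _ _ fun i _ => ?_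
      have h4 : (u.mulVec f' i).IsHomogeneous k := by
        show (∑ j, u i j * f' j).IsHomogeneous k
        refine IsHomogeneous.sum _ _ _ fun j _ => ?_
        have := (hu1 i j).mul (hf' j)
        rwa [zero_add] at this
      have := (mulVec_hom hM hf' i).mul h4
      rwa [show k + 1 + k = 2 * k + 1 by ring] at this
    · exact Ideal.sum_mem _ fun i _ => Ideal.mul_mem_right _ _ (hc' i)
  obtain ⟨g, hg1, hg2⟩ := h2 e4
  have e5 : ∑ i, F v i * f' i = ∑ i, F v i * (f' i - M.mulVec g i) + ∑ i, M.mulVec (F v) i * g i := by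
    rw [← dot_symm' hM.symm, ← Finset.sum_add_distrib]
    exact Finset.sum_congr rfl fun i _ => by ring
  rw [e5, TH_add]
  have e6 : TH Γ φ ξ τ (insert v H) (∑ i, F v i * (f' i - M.mulVec g i)) = 0 := by
    refine h.TH_JJ hvH (k := 2 * k) (by rw [hcard v hv]; omega) ?_ ?_
    · refine IsHomogeneous.sum _ _ _ fun i _ => ?_
      have := (hF1 v i).mul ((hf' i).sub (mulVec_homP hM hg1 i))
      rwa [← two_mul] at this
    · exact Ideal.sum_mem _ fun i _ => Ideal.mul_mem_left _ _ (hg2 i)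
  have e7 : TH Γ φ ξ τ (insert v H) (∑ i, M.mulVec (F v) i * g i) = 0 := by
    cases k with
    | zero =>
      have h4 : ∀ i, g i = 0 := fun i => hg1 i
      simp only [h4, mul_zero, Finset.sum_const_zero]
      exact TH_zero _
    | succ k =>
      refine h.TH_JJ hvH (k := 2 * (k + 1)) (by rw [hcard v hv]; omega) ?_ ?_
      · refine IsHomogeneous.sum _ _ _ fun i _ => ?_
        have h4 : (g i).IsHomogeneous k := hg1 i
        have := (mulVec_hom hM (hF1 v) i).mul h4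
        rwa [show k + 1 + 1 + k = 2 * (k + 1) by ring] at this
      · exact Ideal.sum_mem _ fun i _ => Ideal.mul_mem_right _ _ (hF2 v hv hvH i)
  rw [e6, e7, add_zero]

lemma above_step {M : Matrix κ κ (MvPolynomial V ℝ)} (hM : Cl Γ p M) {H : Finset V}
    (hH : H ∈ Γ.faces)
    (ih1 : ∀ H' ∈ Γ.faces, H.card < H'.card → Above Γ p M H')
    (ih2 : ∀ H' ∈ Γ.faces, H.card < H'.card → DefH Γ p φ ξ τ M H') : Above Γ p M H := by
  intro k hk f hf hc
  have hHd := h.small H hH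
  obtain ⟨k, rfl⟩ : ∃ k', k = k' + 1 := ⟨k - 1, by omega⟩
  have hcard : ∀ v, v ∉ H → (insert v H).card = H.card + 1 := fun v hv =>
    Finset.card_insert_of_notMem hv
  obtain ⟨F, hF1, hF2, hF3⟩ := zig hM H hH h.small (h.row hH) k (fun G hG1 hG2 hG3 => by
    have h1 := Finset.card_union_of_disjoint hG2
    exact ih1 _ hG3 (by omega) k (by omega)) f hf hc
  by_cases hk2 : d < 2 * k + (H.card + 1)
  · have h1 : ∀ v, ∃ g : κ → MvPolynomial V ℝ, (∀ i, HomP k (g i)) ∧
        (v ∉ H → insert v H ∈ Γ.faces → ∀ i, F v i - M.mulVec g i ∈ JJ (stc Γ (insert v H)) p) := by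
      intro v
      by_cases hv : v ∉ H ∧ insert v H ∈ Γ.faces
      · obtain ⟨g, hg1, hg2⟩ := ih1 _ hv.2 (by rw [hcard v hv.1]; omega) k
          (by rw [hcard v hv.1]; omega) (F v) (hF1 v) (hF2 v hv.1 hv.2)
        exact ⟨g, hg1, fun _ _ => hg2⟩
      · refine ⟨0, fun i => ?_, fun h1 h2 => absurd ⟨h1, h2⟩ hv⟩
        cases k with
        | zero => rfl
        | succ k => exact isHomogeneous_zero _ _ _
    choose g hg1 hg2 using h1
    refine ⟨fun i => ∑ v ∈ Hᶜ, X v * g v i, fun i => ?_, fun i => ?_⟩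
    · show (∑ v ∈ Hᶜ, X v * g v i : MvPolynomial V ℝ).IsHomogeneous k
      exact IsHomogeneous.sum _ _ _ fun v _ => homP_hom (hg1 v i) v
    · rw [sum_mulVec M Hᶜ (fun v j => X v * g v j)]
      simp only [XmulVec]
      have e1 : f i - ∑ v ∈ Hᶜ, X v * M.mulVec (g v) i = (f i - ∑ v ∈ Hᶜ, X v * F v i) +
          ∑ v ∈ Hᶜ, X v * (F v i - M.mulVec (g v) i) := by
        have : ∑ v ∈ Hᶜ, X v * (F v i - M.mulVec (g v) i) =
            ∑ v ∈ Hᶜ, X v * F v i - ∑ v ∈ Hᶜ, X v * M.mulVec (g v) i := by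
          rw [← Finset.sum_sub_distrib]
          exact Finset.sum_congr rfl fun v _ => by ring
        rw [this]
        ring
      rw [e1]
      refine Ideal.add_mem _ (hF3 i) (Ideal.sum_mem _ fun v hv => ?_)
      have hv := Finset.mem_compl.1 hv
      by_cases hvH : insert v H ∈ Γ.faces
      · exact X_mul_JJ hH hvH (hg2 v hv hvH i)
      · exact Ideal.mul_mem_right _ _ (X_JJ hH hvH p)
  · exact h.odd_step hM hH k (by omega)
      (fun v hv hvH => ih2 _ hvH (by rw [hcard v hv]; omega)) f hf F hF1 hF2 hF3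

lemma hdim (κ : Type) [Fintype κ] {H : Finset V} (hH : H ∈ Γ.faces) (m : ℕ)
    (hm : d = 2 * m + H.card) :
    2 * ∑ j ∈ Finset.range m, (-1 : ℤ) ^ (m - 1 - j) *
      (finrank ℝ (NV κ (stc Γ H) φ ξ (j + 1)) : ℤ) =
      (Fintype.card κ : ℤ) *
        ((Finset.univ.filter fun G => (-1 : ℝ) ^ m * om Γ φ ξ τ H G < 0).card : ℤ) := by
  classical
  have h3 := (h.star hH).2.2.1
  have e1 : ∀ j ∈ Finset.range m, (-1 : ℤ) ^ (m - 1 - j) *
      (finrank ℝ (NV κ (stc Γ H) φ ξ (j + 1)) : ℤ) = (Fintype.card κ : ℤ) *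
        ((-1 : ℤ) ^ (m - 1 - j) * ∑ i ∈ Finset.range (j + 1), hn d (fnum (stc Γ H)) i) := by
    intro j hj
    have := Finset.mem_range.1 hj
    rw [NV_finrank, ← h3 (j + 1) (by omega)]
    push_cast
    ring
  rw [Finset.sum_congr rfl e1, ← Finset.mul_sum, mul_left_comm,
    alt_count m (hn d (fnum (stc Γ H))) (fun i hi => by
      have := h.cnt_symm hH i (by omega)
      rw [this]
      congr 1
      omega)]
  congr 1
  have e2 : (Finset.univ.filter fun G : Fc (stc Γ H) d => (-1 : ℝ) ^ m * om Γ φ ξ τ H G < 0) =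
      Finset.univ.filter fun G : Fc (stc Γ H) d => neg φ ξ H G.1 ∈
        (Finset.range (2 * m + 1)).filter (fun i => Odd (m + i)) := by
    refine Finset.filter_congr fun G _ => ?_
    have h2 := (stc_facet h.small hH G.1).1 G.2
    have h4 := neg_le (φ := φ) (ξ := ξ) H G.1
    rw [Finset.card_sdiff_of_subset h2.2.2, h2.2.1] at h4
    have h5 := h.om_sign hH G
    rw [Finset.mem_filter, Finset.mem_range]
    have h6 : (-1 : ℝ) ^ m * om Γ φ ξ τ H G =
        (-1 : ℝ) ^ (m + neg φ ξ H G.1) * ((-1 : ℝ) ^ neg φ ξ H G.1 * om Γ φ ξ τ H G) := by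
      have : (-1 : ℝ) ^ neg φ ξ H G.1 * (-1 : ℝ) ^ neg φ ξ H G.1 = 1 := by
        rw [← mul_pow]; norm_num
      rw [pow_add]
      calc (-1 : ℝ) ^ m * om Γ φ ξ τ H G = (-1 : ℝ) ^ m *
            ((-1 : ℝ) ^ neg φ ξ H G.1 * (-1 : ℝ) ^ neg φ ξ H G.1) * om Γ φ ξ τ H G := by
              rw [this, mul_one]
        _ = _ := by ring
    rw [h6]
    rcases Nat.even_or_odd (m + neg φ ξ H G.1) with h7 | h7
    · rw [h7.neg_one_pow, one_mul]
      exact ⟨fun h8 => absurd h8 (not_lt.2 h5.le), fun h8 => absurd h8.2 (Nat.not_odd_iff_even.2 h7)⟩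
    · rw [h7.neg_one_pow]
      refine ⟨fun _ => ⟨by omega, h7⟩, fun _ => by linarith⟩
  have e3 := Finset.card_eq_sum_card_fiberwise
    (s := Finset.univ.filter fun G : Fc (stc Γ H) d => neg φ ξ H G.1 ∈
        (Finset.range (2 * m + 1)).filter (fun i => Odd (m + i)))
    (t := (Finset.range (2 * m + 1)).filter (fun i => Odd (m + i)))
    (f := fun G : Fc (stc Γ H) d => neg φ ξ H G.1) (fun G hG => by
      have h8 := Finset.mem_coe.1 hG
      exact (Finset.mem_filter.1 h8).2)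
  rw [e2, e3]
  push_cast
  refine Finset.sum_congr rfl fun i hi => ?_
  have hi2 := Finset.mem_range.1 (Finset.mem_filter.1 hi).1
  rw [← h.cnt hH i (by omega), Finset.filter_filter]
  congr 2
  refine Finset.filter_congr fun G _ => ?_
  exact ⟨fun h8 => ⟨by rw [h8]; exact hi, h8⟩, fun h8 => h8.2⟩

/-- definiteness in the middle and the Charney-Davis inequality for the star of `H` -/
lemma def_step [Nonempty κ] {M : Matrix κ κ (MvPolynomial V ℝ)} (hM : Cl Γ p M) {H : Finset V}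
    (hH : H ∈ Γ.faces) (ha : Above Γ p M H) : DefH Γ p φ ξ τ M H ∧
    ∀ m, d = 2 * m + H.card → (Finset.univ.filter fun G => (-1 : ℝ) ^ m * om Γ φ ξ τ H G < 0).card ≤
      (Finset.univ.filter fun G => 0 < (-1 : ℝ) ^ m * om Γ φ ξ τ H G).card := by
  have key : ∀ m (hm : d = 2 * m + H.card), _ := fun m hm =>
    def_abs (h.fd hM hH) m (by omega) ((-1 : ℝ) ^ m) (neg_one_pow_eq_or ℝ m)
      (fun k hk F hF hDF => by
        obtain ⟨f, hf, rfl⟩ := evV_surj hF
        exact h.of_bdry hM hf (ha k (by omega) f hf (h.cyc_of hM hH hf hDF)))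
      (h.hdim κ hH m hm)
  constructor
  · intro m hm f hf hc
    obtain ⟨h1, h2⟩ := (key m hm).1 _ (evV_mem hf) (h.of_cyc hM hf hc)
    have e1 : ∑ i, f i ^ 2 = ∑ i, f i * f i := Finset.sum_congr rfl fun i _ => sq _
    rw [h.qf_ev hH] at h1 h2
    rw [e1]
    exact ⟨h1, fun h3 => h.bdry_of hM hH hf (h2 h3)⟩
  · intro m hm
    exact Nat.le_of_mul_le_mul_left (key m hm).2 Fintype.card_pos

theorem main [Nonempty κ] {M : Matrix κ κ (MvPolynomial V ℝ)} (hM : Cl Γ p M) :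
    ∀ (n : ℕ) (H : Finset V), H ∈ Γ.faces → d ≤ n + H.card →
      Above Γ p M H ∧ DefH Γ p φ ξ τ M H := by
  intro n
  induction n with
  | zero =>
    intro H hH hn
    have ha : Above Γ p M H := h.above_step hM hH
      (fun H' hH' hlt => absurd (h.small H' hH') (by omega))
      (fun H' hH' hlt => absurd (h.small H' hH') (by omega))
    exact ⟨ha, (h.def_step hM hH ha).1⟩
  | succ n ih =>
    intro H hH hn
    have ha : Above Γ p M H := h.above_step hM hH
      (fun H' hH' hlt => (ih H' hH' (by omega)).1)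
      (fun H' hH' hlt => (ih H' hH' (by omega)).2)
    exact ⟨ha, (h.def_step hM hH ha).1⟩

/-- the Charney-Davis inequality for the link of `H` -/
theorem cd [Nonempty κ] {M : Matrix κ κ (MvPolynomial V ℝ)} (hM : Cl Γ p M) {H : Finset V}
    (hH : H ∈ Γ.faces) (m : ℕ) (hm : d = 2 * m + H.card) :
    0 ≤ (-1 : ℚ) ^ m * ∑ σ ∈ lkf Γ H, (-1 / 2 : ℚ) ^ σ.card := by
  classical
  have h1 := (h.def_step hM hH (h.main hM d H hH (by omega)).1).2 m hm
  unfold lkf
  rw [link_cd h.C h.nz H hH]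
  have h2 : (0 : ℚ) ≤ (-1 : ℚ) ^ m * ∑ G ∈ Γ.faces.filter (fun G => G.card = d ∧ H ⊆ G),
      (-1) ^ neg φ ξ H G := by
    have e1 : ∑ G ∈ Γ.faces.filter (fun G => G.card = d ∧ H ⊆ G), (-1 : ℚ) ^ neg φ ξ H G =
        ∑ G : Fc (stc Γ H) d, (-1 : ℚ) ^ neg φ ξ H G.1 := by
      symm
      refine Finset.sum_bij (fun G _ => G.1) ?_ ?_ ?_ ?_
      · intro G _
        rw [Finset.mem_filter]
        have := (stc_facet h.small hH G.1).1 G.2
        exact ⟨this.1, this.2⟩
      · intro G _ G' _ h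
        exact Subtype.ext h
      · intro G hG
        rw [Finset.mem_filter] at hG
        exact ⟨⟨G, (stc_facet h.small hH G).2 ⟨hG.1, hG.2⟩⟩, Finset.mem_univ _, rfl⟩
      · intro G _
        rfl
    rw [e1, Finset.mul_sum]
    have e2 : ∀ G : Fc (stc Γ H) d, (-1 : ℚ) ^ m * (-1) ^ neg φ ξ H G.1 =
        (if 0 < (-1 : ℝ) ^ m * om Γ φ ξ τ H G then 1 else 0) -
        (if (-1 : ℝ) ^ m * om Γ φ ξ τ H G < 0 then 1 else 0) := by
      intro G
      have h5 := h.om_sign hH G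
      rw [← pow_add]
      have h6 : (-1 : ℝ) ^ m * om Γ φ ξ τ H G =
          (-1 : ℝ) ^ (m + neg φ ξ H G.1) * ((-1 : ℝ) ^ neg φ ξ H G.1 * om Γ φ ξ τ H G) := by
        have : (-1 : ℝ) ^ neg φ ξ H G.1 * (-1 : ℝ) ^ neg φ ξ H G.1 = 1 := by
          rw [← mul_pow]; norm_num
        rw [pow_add]
        calc (-1 : ℝ) ^ m * om Γ φ ξ τ H G = (-1 : ℝ) ^ m *
              ((-1 : ℝ) ^ neg φ ξ H G.1 * (-1 : ℝ) ^ neg φ ξ H G.1) * om Γ φ ξ τ H G := by
                rw [this, mul_one]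
          _ = _ := by ring
      rw [h6]
      rcases Nat.even_or_odd (m + neg φ ξ H G.1) with h7 | h7
      · rw [h7.neg_one_pow, h7.neg_one_pow, one_mul, if_pos h5, if_neg (not_lt.2 h5.le), sub_zero]
      · rw [h7.neg_one_pow, h7.neg_one_pow, if_neg (by linarith), if_pos (by linarith), zero_sub]
    rw [Finset.sum_congr rfl fun G _ => e2 G, Finset.sum_sub_distrib, Finset.sum_boole,
      Finset.sum_boole, sub_nonneg]
    exact_mod_cast h1
  have h3 : (0 : ℚ) ≤ (1 / 2) ^ (d - H.card) := by positivity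
  calc (0 : ℚ) ≤ (1 / 2) ^ (d - H.card) * ((-1 : ℚ) ^ m *
        ∑ G ∈ Γ.faces.filter (fun G => G.card = d ∧ H ⊆ G), (-1) ^ neg φ ξ H G) := mul_nonneg h3 h2
    _ = _ := by ring

end FanData

/-- **The Charney-Davis inequality for the links of complete simplicial fans without PSD 2-stress.** -/
theorem charney_davis (hf : IsFan Γ p) (hd : 1 ≤ d) (hno : NoPSD Γ p) (H : Finset V)
    (hH : H ∈ Γ.faces) (m : ℕ) (hm : d = 2 * m + H.card) :
    0 ≤ (-1 : ℚ) ^ m * ∑ σ ∈ lkf Γ H, (-1 / 2 : ℚ) ^ σ.card := by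
  obtain ⟨n, M, hM⟩ := exists_cl hno
  obtain ⟨φ, ξ, τ, h⟩ := exists_data hf hd
  exact h.cd hM hH m hm

end Pool.Agent.H128.Fan
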