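import Pool.Agent.H128.Fan.Asm5

set_option autoImplicit false
set_option linter.unusedSectionVars false

/-! Links of complete simplicial fans: conversion lemmas for the final statement. -/

namespace Pool.Agent.H128.Fan

open Pool.Agent.Helper611 Pool.Agent.Helper611.ZBase Pool.Agent.Helper611.KRel
  Pool.Agent.Helper611.KVal Pool.Agent.Helper611.UStr
  Pool.Agent.H252R2.Lef1 Pool.Agent.H252R2.Lef7
  Pool.Agent.H252R2.CDNum Pool.Agent.H252R2.Top2 Pool.Agent.H128.SRing
open Polynomial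

variable {V : Type} [Fintype V] [LinearOrder V] {d : ℕ} {Γ : Cx V} {p : V → (Fin d → ℝ)}

/-- the link of a face as a complex -/
def lkC (Γ : Cx V) (H : Finset V) (hH : H ∈ Γ.faces) : Cx V where
  faces := lkf Γ H
  empty_mem := by
    unfold lkf
    rw [Finset.mem_filter]
    exact ⟨Γ.empty_mem, Finset.disjoint_empty_left _, by rwa [Finset.empty_union]⟩
  down := by
    intro σ hσ τ hτ
    unfold lkf at hσ ⊢
    rw [Finset.mem_filter] at hσ ⊢
    exact ⟨Γ.down _ hσ.1 _ hτ, hσ.2.1.mono_left hτ, Γ.down _ hσ.2.2 _ (Finset.union_subset_union_left hτ)⟩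

lemma mem_lkf {H σ : Finset V} : σ ∈ lkf Γ H ↔ Disjoint σ H ∧ σ ∪ H ∈ Γ.faces := by
  unfold lkf
  rw [Finset.mem_filter]
  exact ⟨fun h => h.2, fun h => ⟨Γ.down _ h.2 _ Finset.subset_union_left, h⟩⟩

lemma lkf_lkC (Γ : Cx V) (H : Finset V) (hH : H ∈ Γ.faces) (K : Finset V)
    (hK : K ∈ (lkC Γ H hH).faces) : lkf (lkC Γ H hH) K = lkf Γ (K ∪ H) := by
  have hK' := mem_lkf.1 hK
  ext σ
  rw [mem_lkf, mem_lkf]
  show _ ∧ σ ∪ K ∈ lkf Γ H ↔ _
  rw [mem_lkf, Finset.disjoint_union_left, Finset.disjoint_union_right, Finset.union_assoc]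
  exact ⟨fun h => ⟨⟨h.1, h.2.1.1⟩, h.2.2⟩, fun h => ⟨h.1.1, ⟨h.1.2, hK'.1⟩, h.2⟩⟩

lemma lkC_small (hs : ∀ σ ∈ Γ.faces, σ.card ≤ d) (H : Finset V) (hH : H ∈ Γ.faces) :
    ∀ σ ∈ (lkC Γ H hH).faces, σ.card ≤ d - H.card := by
  intro σ hσ
  have h := mem_lkf.1 hσ
  have h2 := hs _ h.2
  rw [Finset.card_union_of_disjoint h.1] at h2
  omega

/-- the h-polynomial -/
lemma hpoly (e : ℕ) (f : ℕ → ℤ) :
    ∑ j ∈ Finset.range (e + 1), C (f j) * X ^ j * (1 - X) ^ (e - j) =
      ∑ s ∈ Finset.range (e + 1), hn e f s • (X : ℤ[X]) ^ s := by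
  have h1 : ∀ s ∈ Finset.range (e + 1), hn e f s • (X : ℤ[X]) ^ s =
      ∑ j ∈ Finset.range (e + 1), if j ≤ s then
        C (f j) * X ^ j * ((-X) ^ (s - j) * (((e - j).choose (s - j) : ℕ) : ℤ[X])) else 0 := by
    intro s hs
    have hs' := Finset.mem_range.1 hs
    unfold hn
    rw [Finset.sum_smul, ← Finset.sum_filter]
    have e1 : (Finset.range (e + 1)).filter (fun j => j ≤ s) = Finset.range (s + 1) := by
      ext j
      simp only [Finset.mem_filter, Finset.mem_range]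
      omega
    rw [e1]
    refine Finset.sum_congr rfl fun j hj => ?_
    have hj' := Finset.mem_range.1 hj
    have e2 : (X : ℤ[X]) ^ s = X ^ j * X ^ (s - j) := by
      rw [← pow_add]
      congr 1
      omega
    rw [e2, zsmul_eq_mul, neg_pow (X : ℤ[X])]
    push_cast
    rw [← Polynomial.C_eq_intCast (f j)]
    simp only [eq_intCast, Int.cast_id]
    ring
  rw [Finset.sum_congr rfl h1, Finset.sum_comm]
  refine Finset.sum_congr rfl fun j hj => ?_
  have hj' := Finset.mem_range.1 hj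
  rw [sub_eq_neg_add, add_pow, Finset.mul_sum, ← Finset.sum_filter]
  simp only [one_pow, mul_one]
  refine Finset.sum_bij (fun k _ => j + k) ?_ ?_ ?_ ?_
  · intro k hk
    have hk' := Finset.mem_range.1 hk
    rw [Finset.mem_filter, Finset.mem_range]
    omega
  · intro a _ b _ h
    omega
  · intro s hs
    rw [Finset.mem_filter, Finset.mem_range] at hs
    exact ⟨s - j, Finset.mem_range.2 (by omega), by omega⟩
  · intro k hk
    have e3 : j + k - j = k := by omega
    rw [e3]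

end Pool.Agent.H128.Fan
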