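import Pool.Agent.H128.Fan.Defs

set_option autoImplicit false
set_option linter.unusedSectionVars false

/-! T14 (helper539): free over the linear forms implies that they are a regular sequence. -/

namespace Pool.Agent.H539.Fan.T14

open Pool.Agent.Helper611 Pool.Agent.Helper611.ZBase Pool.Agent.Helper611.KRel
  Pool.Agent.Helper611.KVal Pool.Agent.Helper611.UStr
  Pool.Agent.H252R2.Lef1 Pool.Agent.H252R2.Lef7
  Pool.Agent.H252R2.CDNum Pool.Agent.H252R2.Top2 Pool.Agent.H128.SRing Pool.Agent.H128.Fan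
open MvPolynomial Module

variable {V : Type} [Fintype V] [LinearOrder V] {d : ℕ}

lemma JS_zero_le (S : Cx V) (p : V → (Fin d → ℝ)) (l : Fin d → Module.Dual ℝ (Fin d → ℝ)) (t : ℕ) :
    JS S p l 0 ≤ JS S p l t := by
  unfold JS
  apply Ideal.span_mono
  rintro f (hf | ⟨i, hi, -⟩)
  · exact Or.inl hf
  · exact absurd hi (Nat.not_lt_zero _)

/-- elements of the ideal -/
lemma JS_dec (S : Cx V) (p : V → (Fin d → ℝ)) (l : Fin d → Module.Dual ℝ (Fin d → ℝ)) (t : ℕ)
    {x : MvPolynomial V ℝ} (hx : x ∈ JS S p l t) :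
    ∃ h : Fin d → MvPolynomial V ℝ, (∀ j : Fin d, t ≤ (j : ℕ) → h j = 0) ∧
      x - ∑ j, th p (l j) * h j ∈ JS S p l 0 := by
  unfold JS at hx
  induction hx using Submodule.span_induction with
  | mem x hx =>
    rcases hx with ⟨N, hN, rfl⟩ | ⟨i, hi, rfl⟩
    · refine ⟨fun _ => 0, fun _ _ => rfl, ?_⟩
      have h1 : ∑ j : Fin d, th p (l j) * (0 : MvPolynomial V ℝ) = 0 :=
        Finset.sum_eq_zero fun j _ => mul_zero _
      beta_reduce
      rw [h1, sub_zero]
      exact JS_nonface hN
    · refine ⟨fun j => if j = i then 1 else 0, ?_, ?_⟩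
      · intro j hj
        have hne : j ≠ i := by
          rintro rfl
          omega
        beta_reduce
        rw [if_neg hne]
      · have h1 : ∑ j : Fin d, th p (l j) * (if j = i then (1 : MvPolynomial V ℝ) else 0) =
            th p (l i) := by
          rw [Finset.sum_eq_single i]
          · rw [if_pos rfl, mul_one]
          · intro j _ hj
            rw [if_neg hj, mul_zero]
          · intro h
            exact absurd (Finset.mem_univ i) h
        beta_reduce
        rw [h1, sub_self]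
        exact Ideal.zero_mem _
  | zero =>
    refine ⟨fun _ => 0, fun _ _ => rfl, ?_⟩
    have h1 : ∑ j : Fin d, th p (l j) * (0 : MvPolynomial V ℝ) = 0 :=
      Finset.sum_eq_zero fun j _ => mul_zero _
    beta_reduce
    rw [h1, sub_zero]
    exact Ideal.zero_mem _
  | add x y _ _ hx hy =>
    obtain ⟨h, h1, h2⟩ := hx
    obtain ⟨h', h1', h2'⟩ := hy
    refine ⟨fun j => h j + h' j, ?_, ?_⟩
    · intro j hj
      beta_reduce
      rw [h1 j hj, h1' j hj, add_zero]
    · have h3 : x + y - ∑ j, th p (l j) * (h j + h' j) =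
          (x - ∑ j, th p (l j) * h j) + (y - ∑ j, th p (l j) * h' j) := by
        simp only [mul_add, Finset.sum_add_distrib]
        ring
      beta_reduce
      rw [h3]
      exact Ideal.add_mem _ h2 h2'
  | smul r x _ hx =>
    obtain ⟨h, h1, h2⟩ := hx
    refine ⟨fun j => r * h j, ?_, ?_⟩
    · intro j hj
      beta_reduce
      rw [h1 j hj, mul_zero]
    · have h3 : r • x - ∑ j, th p (l j) * (r * h j) = r * (x - ∑ j, th p (l j) * h j) := by
        rw [smul_eq_mul, mul_sub, Finset.mul_sum]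
        congr 1
        exact Finset.sum_congr rfl fun j _ => by ring
      beta_reduce
      rw [h3]
      exact Ideal.mul_mem_left _ _ h2

/-- T14. -/
theorem reg_free {N : Type} [Fintype N] (S : Cx V) (p : V → (Fin d → ℝ))
    (l : Fin d → Module.Dual ℝ (Fin d → ℝ)) (β : N → MvPolynomial V ℝ)
    (h1 : ∀ f : MvPolynomial V ℝ, ∃ g : N → MvPolynomial (Fin d) ℝ,
      f - ∑ i, β i * aeval (fun j => th p (l j)) (g i) ∈ JS S p l 0)
    (h2 : ∀ g : N → MvPolynomial (Fin d) ℝ,
      ∑ i, β i * aeval (fun j => th p (l j)) (g i) ∈ JS S p l 0 → ∀ i, g i = 0)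
    (s : Fin d) (f : MvPolynomial V ℝ) (hf : th p (l s) * f ∈ JS S p l s) : f ∈ JS S p l s := by
  obtain ⟨g, hg⟩ := h1 f
  obtain ⟨h, hh0, hh⟩ := JS_dec S p l s hf
  have hex : ∀ j : Fin d, ∃ g' : N → MvPolynomial (Fin d) ℝ, ((s : ℕ) ≤ (j : ℕ) → g' = 0) ∧
      h j - ∑ i, β i * aeval (fun j => th p (l j)) (g' i) ∈ JS S p l 0 := by
    intro j
    by_cases hj : (s : ℕ) ≤ (j : ℕ)
    · refine ⟨0, fun _ => rfl, ?_⟩
      have h3 : ∑ i, β i * aeval (fun j => th p (l j)) ((0 : N → MvPolynomial (Fin d) ℝ) i) = 0 := by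
        refine Finset.sum_eq_zero fun i _ => ?_
        rw [Pi.zero_apply, map_zero, mul_zero]
      rw [hh0 j hj, h3, sub_zero]
      exact Ideal.zero_mem _
    · obtain ⟨g', hg'⟩ := h1 (h j)
      exact ⟨g', fun h4 => absurd h4 hj, hg'⟩
  choose g' hg'0 hg' using hex
  have hkey := h2 (fun i => X s * g i - ∑ j, X j * g' j i) (by
    have e : ∑ i, β i * aeval (fun j => th p (l j)) (X s * g i - ∑ j, X j * g' j i) =
        (th p (l s) * f - ∑ j, th p (l j) * h j) -
        th p (l s) * (f - ∑ i, β i * aeval (fun j => th p (l j)) (g i)) +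
        ∑ j, th p (l j) * (h j - ∑ i, β i * aeval (fun j => th p (l j)) (g' j i)) := by
      have e1 : ∑ i, β i * aeval (fun j => th p (l j)) (X s * g i - ∑ j, X j * g' j i) =
          th p (l s) * (∑ i, β i * aeval (fun j => th p (l j)) (g i)) -
          ∑ j, th p (l j) * ∑ i, β i * aeval (fun j => th p (l j)) (g' j i) := by
        simp only [map_sub, map_mul, map_sum, aeval_X, mul_sub, Finset.sum_sub_distrib,
          Finset.mul_sum]
        congr 1
        · exact Finset.sum_congr rfl fun i _ => by ring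
        · rw [Finset.sum_comm]
          exact Finset.sum_congr rfl fun i _ => Finset.sum_congr rfl fun j _ => by ring
      rw [e1]
      simp only [mul_sub, Finset.sum_sub_distrib]
      ring
    rw [e]
    refine Ideal.add_mem _ (Ideal.sub_mem _ hh (Ideal.mul_mem_left _ _ hg)) ?_
    exact Ideal.sum_mem _ fun j _ => Ideal.mul_mem_left _ _ (hg' j))
  have hgI : ∀ i, g i ∈ Ideal.span (X '' {j : Fin d | (j : ℕ) < s}) := by
    intro i
    have h3 : X s * g i ∈ Ideal.span ((X : Fin d → MvPolynomial (Fin d) ℝ) ''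
        {j : Fin d | (j : ℕ) < s}) := by
      have h4 : X s * g i = ∑ j, X j * g' j i := sub_eq_zero.1 (hkey i)
      rw [h4]
      refine Ideal.sum_mem _ fun j _ => ?_
      by_cases hj : (s : ℕ) ≤ (j : ℕ)
      · rw [hg'0 j hj, Pi.zero_apply, mul_zero]
        exact Ideal.zero_mem _
      · refine Ideal.mul_mem_right _ _ (Ideal.subset_span ⟨j, ?_, rfl⟩)
        change (j : ℕ) < s
        omega
    rw [mem_ideal_span_X_image] at h3 ⊢
    intro m hm
    obtain ⟨j, hj, hmj⟩ := h3 (Finsupp.single s 1 + m) (by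
      rw [MvPolynomial.mem_support_iff, coeff_X_mul]
      exact MvPolynomial.mem_support_iff.1 hm)
    refine ⟨j, hj, fun h4 => hmj ?_⟩
    have hne : s ≠ j := by
      rintro rfl
      have hj' : (s : ℕ) < s := hj
      exact absurd hj' (lt_irrefl _)
    rw [Finsupp.add_apply, Finsupp.single_eq_of_ne hne.symm, h4]
  have hA : ∀ i, aeval (fun j => th p (l j)) (g i) ∈ JS S p l s := by
    intro i
    have h3 : Ideal.span ((X : Fin d → MvPolynomial (Fin d) ℝ) '' {j : Fin d | (j : ℕ) < s}) ≤
        (JS S p l s).comap (aeval (fun j => th p (l j)) : MvPolynomial (Fin d) ℝ →ₐ[ℝ] _) := by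
      rw [Ideal.span_le]
      rintro _ ⟨j, hj, rfl⟩
      change aeval (fun j => th p (l j)) (X j) ∈ JS S p l s
      rw [aeval_X]
      exact JS_th hj
    exact h3 (hgI i)
  have h5 : f = (f - ∑ i, β i * aeval (fun j => th p (l j)) (g i)) +
      ∑ i, β i * aeval (fun j => th p (l j)) (g i) := by ring
  rw [h5]
  refine Ideal.add_mem _ (JS_zero_le S p l s hg) ?_
  exact Ideal.sum_mem _ fun i _ => Ideal.mul_mem_left _ _ (hA i)

end Pool.Agent.H539.Fan.T14
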